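import Pool.Agent.Helper59K9.CY.St

/-!
# [BET] the Beta integrals `∫_0^1 x ^ n (1 - x) ^ β dx`
-/

set_option autoImplicit false

open MeasureTheory Metric Filter Topology ComplexConjugate

namespace Pool.Agent.Helper59K9.CY

namespace BetL

theorem cont (β : ℝ) (hβ : 0 ≤ β) (n : ℕ) : Continuous fun x : ℝ => x ^ n * (1 - x) ^ β :=
  (continuous_pow n).mul ((continuous_const.sub continuous_id).rpow_const fun _ => Or.inr hβ)

theorem zero (β : ℝ) (hβ : 0 ≤ β) : B β 0 = 1 / (β + 1) := by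
  unfold B
  simp only [pow_zero, one_mul]
  have h := intervalIntegral.integral_comp_sub_left (a := (0 : ℝ)) (b := 1) (fun x : ℝ => x ^ β) 1
  rw [h, sub_self, sub_zero, integral_rpow (Or.inl (by linarith)), Real.one_rpow,
    Real.zero_rpow (by linarith), sub_zero]

theorem rec_ (β : ℝ) (hβ : 0 ≤ β) (n : ℕ) :
    B β (n + 1) * ((n : ℝ) + β + 2) = B β n * ((n : ℝ) + 1) := by
  -- the derivative of `x^(n+1) (1-x)^(β+1)`
  have hd : ∀ x ∈ Set.uIcc (0 : ℝ) 1, HasDerivAt (fun x : ℝ => x ^ (n + 1) * (1 - x) ^ (β + 1))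
      ((n + 1) * (x ^ n * (1 - x) ^ β) - (n + β + 2) * (x ^ (n + 1) * (1 - x) ^ β)) x := by
    intro x hx
    rw [Set.uIcc_of_le zero_le_one, Set.mem_Icc] at hx
    have h1 : HasDerivAt (fun x : ℝ => x ^ (n + 1)) ((n + 1 : ℕ) * x ^ n) x := by
      simpa using hasDerivAt_pow (n + 1) x
    have h2 : HasDerivAt (fun x : ℝ => 1 - x) (-1) x := by
      simpa using (hasDerivAt_id x).const_sub 1
    have h3 := h2.rpow_const (p := β + 1) (Or.inr (by linarith))
    have h4 := h1.mul h3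
    refine h4.congr_deriv ?_
    rw [add_sub_cancel_right]
    have e : (1 - x) ^ (β + 1) = (1 - x) ^ β * (1 - x) := by
      rcases eq_or_lt_of_le hx.2 with h | h
      · rw [h, sub_self, Real.zero_rpow (by linarith), mul_zero]
      · rw [Real.rpow_add_one (by linarith)]
    rw [e]
    push_cast
    ring
  have i1 : IntervalIntegrable (fun x : ℝ => ((n : ℝ) + 1) * (x ^ n * (1 - x) ^ β)) volume 0 1 :=
    (continuous_const.mul (cont β hβ n)).intervalIntegrable _ _
  have i2 : IntervalIntegrable (fun x : ℝ => ((n : ℝ) + β + 2) * (x ^ (n + 1) * (1 - x) ^ β))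
      volume 0 1 :=
    (continuous_const.mul (cont β hβ (n + 1))).intervalIntegrable _ _
  have h := intervalIntegral.integral_eq_sub_of_hasDerivAt hd (i1.sub i2)
  rw [intervalIntegral.integral_sub i1 i2,
    intervalIntegral.integral_const_mul, intervalIntegral.integral_const_mul] at h
  simp only [sub_self, Real.zero_rpow (by linarith : β + 1 ≠ 0), mul_zero, zero_pow (Nat.succ_ne_zero n),
    zero_mul, sub_zero] at h
  unfold B
  linarith

theorem pos (β : ℝ) (hβ : 0 ≤ β) (n : ℕ) : 0 < B β n := by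
  induction n with
  | zero => rw [zero β hβ]; positivity
  | succ n ih =>
    have h := rec_ β hβ n
    have h1 : 0 < B β n * ((n : ℝ) + 1) := by positivity
    rw [← h] at h1
    exact (mul_pos_iff_of_pos_right (by positivity)).mp h1

theorem lower (β : ℝ) (hβ : 0 ≤ β) (n : ℕ) :
    1 / (β + 1) ≤ B β n * ((n : ℝ) + 1) ^ (1 + β) := by
  induction n with
  | zero => rw [zero β hβ]; simp
  | succ n ih =>
    refine ih.trans ?_
    have h := rec_ β hβ n
    have hn : (0 : ℝ) < (n : ℝ) + 1 := by positivity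
    have hb := one_add_mul_self_le_rpow_one_add (s := 1 / ((n : ℝ) + 1))
      (by have : 0 < 1 / ((n : ℝ) + 1) := by positivity
          linarith) (p := 1 + β) (by linarith)
    have e1 : (1 : ℝ) + 1 / ((n : ℝ) + 1) = ((n : ℝ) + 1 + 1) / ((n : ℝ) + 1) := by field_simp
    rw [e1, Real.div_rpow (by positivity) hn.le] at hb
    have e2 : (1 : ℝ) + (1 + β) * (1 / ((n : ℝ) + 1)) = ((n : ℝ) + β + 2) / ((n : ℝ) + 1) := by
      field_simp; ring
    rw [e2, div_le_div_iff₀ hn (by positivity)] at hb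
    push_cast
    have hp := pos β hβ (n + 1)
    have h5 : B β n * ((n : ℝ) + 1) ^ (1 + β) * ((n : ℝ) + 1) =
        B β (n + 1) * (((n : ℝ) + β + 2) * ((n : ℝ) + 1) ^ (1 + β)) := by
      linear_combination (-((n : ℝ) + 1) ^ (1 + β)) * h
    have h6 : B β n * ((n : ℝ) + 1) ^ (1 + β) * ((n : ℝ) + 1) ≤
        B β (n + 1) * ((n : ℝ) + 1 + 1) ^ (1 + β) * ((n : ℝ) + 1) := by
      rw [h5, mul_assoc]
      exact mul_le_mul_of_nonneg_left hb hp.le
    exact le_of_mul_le_mul_right h6 hn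

theorem upper (β : ℝ) (hβ : 0 ≤ β) (n : ℕ) :
    B β n * ((n : ℝ) + 1 + β) ^ (1 + β) ≤ (1 + β) ^ β := by
  induction n with
  | zero =>
    rw [zero β hβ]
    have : (0 : ℝ) < 1 + β := by linarith
    simp only [Nat.cast_zero, zero_add]
    rw [add_comm β 1, add_comm 1 β, Real.rpow_add_one (by linarith)]
    apply le_of_eq
    field_simp
  | succ n ih =>
    refine le_trans ?_ ih
    have h := rec_ β hβ n
    have hn : (0 : ℝ) < (n : ℝ) + 2 + β := by positivity
    have hb := one_add_mul_self_le_rpow_one_add (s := -(1 / ((n : ℝ) + 2 + β)))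
      (by
        have : 1 / ((n : ℝ) + 2 + β) ≤ 1 := by
          rw [div_le_one hn]
          have : (0 : ℝ) ≤ n := Nat.cast_nonneg n
          linarith
        linarith) (p := 1 + β) (by linarith)
    have e1 : (1 : ℝ) + -(1 / ((n : ℝ) + 2 + β)) = ((n : ℝ) + 1 + β) / ((n : ℝ) + 2 + β) := by
      field_simp; ring
    have h0 : (0 : ℝ) ≤ (n : ℝ) + 1 + β := by positivity
    rw [e1, Real.div_rpow h0 hn.le] at hb
    have e2 : (1 : ℝ) + (1 + β) * -(1 / ((n : ℝ) + 2 + β)) =
        ((n : ℝ) + 1) / ((n : ℝ) + 2 + β) := by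
      field_simp; ring
    rw [e2, div_le_div_iff₀ hn (by positivity)] at hb
    push_cast
    have hp := pos β hβ n
    have e3 : (n : ℝ) + 1 + 1 + β = (n : ℝ) + 2 + β := by ring
    rw [e3]
    have h5 : B β (n + 1) * ((n : ℝ) + 2 + β) ^ (1 + β) * ((n : ℝ) + 2 + β) =
        B β n * (((n : ℝ) + 1) * ((n : ℝ) + 2 + β) ^ (1 + β)) := by
      linear_combination (((n : ℝ) + 2 + β) ^ (1 + β)) * h
    have h6 : B β (n + 1) * ((n : ℝ) + 2 + β) ^ (1 + β) * ((n : ℝ) + 2 + β) ≤
        B β n * ((n : ℝ) + 1 + β) ^ (1 + β) * ((n : ℝ) + 2 + β) := by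
      rw [h5, mul_assoc]
      exact mul_le_mul_of_nonneg_left hb hp.le
    exact le_of_mul_le_mul_right h6 hn

end BetL

open BetL

theorem bet : S_BET := by
  intro β hβ hβ1
  refine ⟨zero β hβ, rec_ β hβ, 1 / (β + 1), (1 + β) ^ β, by positivity, by positivity, fun n => ?_⟩
  have hn : (0 : ℝ) < (n : ℝ) + 1 := by positivity
  have e : ((n : ℝ) + 1) ^ (-1 - β) = (((n : ℝ) + 1) ^ (1 + β))⁻¹ := by
    rw [← Real.rpow_neg hn.le]; congr 1; ring
  rw [e]
  have hp : 0 < ((n : ℝ) + 1) ^ (1 + β) := by positivity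
  constructor
  · rw [← div_eq_mul_inv, div_le_iff₀ hp]
    exact lower β hβ n
  · rw [← div_eq_mul_inv, le_div_iff₀ hp]
    refine le_trans ?_ (upper β hβ n)
    apply mul_le_mul_of_nonneg_left _ (pos β hβ n).le
    exact Real.rpow_le_rpow hn.le (by linarith) (by linarith)

end Pool.Agent.Helper59K9.CY
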