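import Pool.Agent.Helper59K9.CY.Clw

/-!
Multiplication by bounded functions of finite energy.
-/

set_option autoImplicit false

open MeasureTheory Metric Filter Topology ComplexConjugate

namespace Pool.Agent.Helper59K9.CY

namespace ClbL

theorem ae_mem (β : ℝ) : ∀ᵐ z ∂(mu β), z ∈ ball (0 : ℂ) 1 :=
  (withDensity_absolutelyContinuous _ _).ae_le (ae_restrict_mem measurableSet_ball)

/-- energy of a product of bounded functions -/
theorem en_mul {β M : ℝ} {u φ : ℂ → ℂ} (hu : DifferentiableOn ℂ u (ball 0 1))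
    (hφ : DifferentiableOn ℂ φ (ball 0 1))
    (hb : ∀ z : ℂ, ‖z‖ < 1 → ‖u z‖ ≤ M ∧ ‖φ z‖ ≤ M) :
    En β (fun z => u z * φ z) ≤
      ENNReal.ofReal (2 * M ^ 2) * En β u + ENNReal.ofReal (2 * M ^ 2) * En β φ := by
  have hM : 0 ≤ M := (norm_nonneg _).trans (hb 0 (by simp)).1
  unfold En
  have m1 : Measurable fun z => ENNReal.ofReal (‖deriv u z‖ ^ 2) :=
    ((measurable_deriv u).norm.pow_const 2).ennreal_ofReal
  have m2 : Measurable fun z => ENNReal.ofReal (‖deriv φ z‖ ^ 2) :=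
    ((measurable_deriv φ).norm.pow_const 2).ennreal_ofReal
  rw [← lintegral_const_mul _ m1, ← lintegral_const_mul _ m2,
    ← lintegral_add_left (m1.const_mul _)]
  apply lintegral_mono_ae
  filter_upwards [ae_mem β] with z hz
  have hz' : ‖z‖ < 1 := by simpa using hz
  have d1 : DifferentiableAt ℂ u z := hu.differentiableAt (isOpen_ball.mem_nhds hz)
  have d2 : DifferentiableAt ℂ φ z := hφ.differentiableAt (isOpen_ball.mem_nhds hz)
  have e1 : deriv (fun z => u z * φ z) z = deriv u z * φ z + u z * deriv φ z :=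
    deriv_fun_mul d1 d2
  rw [e1, ← ENNReal.ofReal_mul (by positivity), ← ENNReal.ofReal_mul (by positivity),
    ← ENNReal.ofReal_add (by positivity) (by positivity)]
  apply ENNReal.ofReal_le_ofReal
  obtain ⟨b1, b2⟩ := hb z hz'
  have c1 : ‖deriv u z * φ z + u z * deriv φ z‖ ≤ ‖deriv u z‖ * M + M * ‖deriv φ z‖ := by
    refine (norm_add_le _ _).trans ?_
    rw [norm_mul, norm_mul]
    exact add_le_add (mul_le_mul_of_nonneg_left b2 (norm_nonneg _))
      (mul_le_mul_of_nonneg_right b1 (norm_nonneg _))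
  have c2 := pow_le_pow_left₀ (norm_nonneg _) c1 2
  nlinarith [sq_nonneg (‖deriv u z‖ * M - M * ‖deriv φ z‖)]

end ClbL

open ClmL ClwL ClbL in
theorem clb (dco : S_DCO) (nm : S_NORM) (hclm : S_CLM) (hclw : S_CLW) : S_CLB := by
  intro β hβ0 hβ1 f φ u M hf hφ hu hb hEφ hEu hcl
  obtain ⟨c, C, hc, hC, hnm⟩ := nm β hβ0 hβ1
  obtain ⟨a, ha⟩ := (dco.1 u).1 hu
  have hM : 0 ≤ M := (norm_nonneg _).trans (hb 0 (by simp)).1
  have hc' : ENNReal.ofReal c ≠ 0 := by
    rw [Ne, ENNReal.ofReal_eq_zero]; push Not; exact hc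
  have hna : nrm (1 - β) a ≠ ⊤ := by
    intro h
    have := (hnm u a ha).1
    rw [h, ENNReal.mul_top hc', top_le_iff] at this
    exact ENNReal.add_ne_top.2 ⟨ENNReal.ofReal_ne_top, hEu⟩ this
  set r : ℕ → ℝ := fun i => 1 - 1 / ((i : ℝ) + 2) with hr
  have hr1 : ∀ i, r i < 1 := by
    intro i
    have : (0 : ℝ) < 1 / ((i : ℝ) + 2) := by positivity
    simp only [hr]; linarith
  have hr0 : ∀ i, 0 < r i := by
    intro i
    have : 1 / ((i : ℝ) + 2) < 1 := by
      rw [div_lt_one (by positivity)]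
      have := Nat.cast_nonneg (α := ℝ) i; linarith
    simp only [hr]; linarith
  have hrt : Tendsto r atTop (𝓝 1) := by
    have h1 : Tendsto (fun i : ℕ => 1 / ((i : ℝ) + 2)) atTop (𝓝 0) := by
      have := (tendsto_const_nhds (x := (1 : ℝ))).div_atTop
        (tendsto_atTop_add_const_right atTop (2 : ℝ) tendsto_natCast_atTop_atTop)
      exact this
    have h2 := (tendsto_const_nhds (x := (1 : ℝ))).sub h1
    rw [sub_zero] at h2
    exact h2
  have hnr : ∀ i (z : ℂ), ‖(r i : ℂ) * z‖ = r i * ‖z‖ := by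
    intro i z
    rw [norm_mul, Complex.norm_real, Real.norm_of_nonneg (hr0 i).le]
  have hdu : ∀ i, DifferentiableOn ℂ (fun z => u (r i * z)) (ball 0 (1 / r i)) := by
    intro i
    refine hu.comp ((differentiable_id.const_mul _).differentiableOn) ?_
    intro z hz
    rw [mem_ball_zero_iff] at hz ⊢
    show ‖(r i : ℂ) * z‖ < 1
    rw [hnr]
    rw [lt_div_iff₀ (hr0 i)] at hz
    linarith
  have hR : ∀ i, 1 < 1 / r i := fun i => by
    rw [lt_div_iff₀ (hr0 i), one_mul]; exact hr1 i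
  have hdu1 : ∀ i, DifferentiableOn ℂ (fun z => u (r i * z)) (ball 0 1) := fun i =>
    (hdu i).mono (ball_subset_ball (hR i).le)
  have hlt : ∀ i (z : ℂ), ‖z‖ < 1 → ‖(r i : ℂ) * z‖ < 1 := by
    intro i z hz
    rw [hnr]
    have := hr0 i
    have := hr1 i
    nlinarith [norm_nonneg z]
  have hbu : ∀ i (z : ℂ), ‖z‖ < 1 → ‖u (r i * z)‖ ≤ M ∧ ‖φ z‖ ≤ M := fun i z hz =>
    ⟨(hb _ (hlt i z hz)).2, (hb z hz).1⟩
  have hEui : ∀ i, En β (fun z => u (r i * z)) ≤ ENNReal.ofReal C * nrm (1 - β) a := by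
    intro i
    have hco : Co (fun z => u (r i * z)) (fun k => a k * (r i : ℂ) ^ k) := by
      intro z hz
      exact hs_congr (ha _ (hlt i z hz)) fun k => by
        simp only [mul_pow]; ring
    have h1 := (hnm _ _ hco).2
    refine le_trans (le_trans le_add_self h1) (mul_le_mul' le_rfl ?_)
    unfold nrm
    apply ENNReal.tsum_le_tsum
    intro k
    apply ENNReal.ofReal_le_ofReal
    apply mul_le_mul_of_nonneg_right _ (by positivity)
    apply pow_le_pow_left₀ (norm_nonneg _)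
    rw [norm_mul, norm_pow, Complex.norm_real, Real.norm_of_nonneg (hr0 i).le]
    exact mul_le_of_le_one_right (norm_nonneg _) (pow_le_one₀ (hr0 i).le (hr1 i).le)
  refine (hclw β hβ0 hβ1 f (fun i z => u (r i * z) * φ z) (fun z => u z * φ z)
    (ENNReal.ofReal ((M * M) ^ 2) + (ENNReal.ofReal (2 * M ^ 2) *
      (ENNReal.ofReal C * nrm (1 - β) a) + ENNReal.ofReal (2 * M ^ 2) * En β φ)) ?_ hf
    (fun i => (hdu1 i).mul hφ) ?_ ?_ ?_).1
  · refine ENNReal.add_ne_top.2 ⟨ENNReal.ofReal_ne_top, ENNReal.add_ne_top.2 ⟨?_, ?_⟩⟩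
    · exact ENNReal.mul_ne_top ENNReal.ofReal_ne_top
        (ENNReal.mul_ne_top ENNReal.ofReal_ne_top hna)
    · exact ENNReal.mul_ne_top ENNReal.ofReal_ne_top hEφ
  · intro i
    exact hclm (1 - β) (by linarith) (by linarith) f φ (fun z => u (r i * z)) (1 / r i) hf hcl
      (hR i) (hdu i)
  · intro i
    refine add_le_add ?_ ?_
    · apply ENNReal.ofReal_le_ofReal
      apply pow_le_pow_left₀ (norm_nonneg _)
      rw [norm_mul]
      obtain ⟨q1, q2⟩ := hbu i 0 (by simp)
      exact mul_le_mul q1 q2 (norm_nonneg _) hM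
    · refine (en_mul (hdu1 i) hφ (hbu i)).trans ?_
      exact add_le_add (mul_le_mul' le_rfl (hEui i)) le_rfl
  · intro z hz
    have hz' : z ∈ ball (0 : ℂ) 1 := by simpa using hz
    have h1 : ContinuousAt u z := (hu.differentiableAt (isOpen_ball.mem_nhds hz')).continuousAt
    have h2 : Tendsto (fun i => (r i : ℂ) * z) atTop (𝓝 z) := by
      have := ((Complex.continuous_ofReal.tendsto 1).comp hrt).mul_const z
      simpa using this
    exact (h1.tendsto.comp h2).mul_const _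

end Pool.Agent.Helper59K9.CY
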