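import Pool.Agent.Helper59K9.CY.St

/-!
Multiplication by functions analytic across the closed disc maps the closure `Cl` into itself.
-/

set_option autoImplicit false

open MeasureTheory Metric Filter Topology ComplexConjugate

namespace Pool.Agent.Helper59K9.CY

namespace ClmL

theorem hs_congr {f g : ℕ → ℂ} {x : ℂ} (h : HasSum f x) (e : ∀ n, g n = f n) :
    HasSum g x := by
  have : g = f := funext e
  rw [this]; exact h

/-- Cauchy product -/
theorem co_mul {m u : ℂ → ℂ} {b a : ℕ → ℂ} (hm : Co m b) (hu : Co u a) :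
    Co (fun z => m z * u z) (fun n => ∑ kl ∈ Finset.HasAntidiagonal.antidiagonal n, b kl.1 * a kl.2) := by
  intro z hz
  have h1 := (hm z hz).summable.norm
  have h2 := (hu z hz).summable.norm
  have h3 := tsum_mul_tsum_eq_tsum_sum_antidiagonal_of_summable_norm h1 h2
  have h4 := (summable_norm_sum_mul_antidiagonal_of_summable_norm h1 h2).of_norm
  rw [(hm z hz).tsum_eq, (hu z hz).tsum_eq] at h3
  have h5 := h4.hasSum
  rw [← h3] at h5
  refine hs_congr h5 ?_
  intro n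
  show (∑ kl ∈ Finset.HasAntidiagonal.antidiagonal n, b kl.1 * a kl.2) * z ^ n = _
  rw [Finset.sum_mul]
  apply Finset.sum_congr rfl
  intro kl hkl
  rw [← Finset.HasAntidiagonal.mem_antidiagonal.1 hkl, pow_add]; ring

theorem co_add {m u : ℂ → ℂ} {b a : ℕ → ℂ} (hm : Co m b) (hu : Co u a) :
    Co (fun z => m z + u z) (fun n => b n + a n) := by
  intro z hz
  exact hs_congr ((hm z hz).add (hu z hz)) fun n => add_mul _ _ _

theorem co_congr {m u : ℂ → ℂ} {a : ℕ → ℂ} (hm : Co m a) (h : ∀ z : ℂ, ‖z‖ < 1 → u z = m z) :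
    Co u a := by
  intro z hz
  rw [h z hz]
  exact hm z hz

theorem co_sub {m u : ℂ → ℂ} {b a : ℕ → ℂ} (hm : Co m b) (hu : Co u a) :
    Co (fun z => m z - u z) (fun n => b n - a n) := by
  intro z hz
  exact hs_congr ((hm z hz).sub (hu z hz)) fun n => sub_mul _ _ _

theorem co_const_mul {m : ℂ → ℂ} {b : ℕ → ℂ} (c : ℂ) (hm : Co m b) :
    Co (fun z => c * m z) (fun n => c * b n) := by
  intro z hz
  exact hs_congr ((hm z hz).mul_left c) fun n => mul_assoc _ _ _

theorem nrm_add (α : ℝ) (a b : ℕ → ℂ) :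
    nrm α (fun n => a n + b n) ≤ 2 * nrm α a + 2 * nrm α b := by
  unfold nrm
  rw [← ENNReal.tsum_mul_left, ← ENNReal.tsum_mul_left, ← ENNReal.tsum_add]
  apply ENNReal.tsum_le_tsum
  intro k
  have h2 : (2 : ENNReal) = ENNReal.ofReal 2 := by simp
  rw [h2, ← ENNReal.ofReal_mul (by norm_num), ← ENNReal.ofReal_mul (by norm_num),
    ← ENNReal.ofReal_add (by positivity) (by positivity)]
  apply ENNReal.ofReal_le_ofReal
  have h3 : ‖a k + b k‖ ≤ ‖a k‖ + ‖b k‖ := norm_add_le _ _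
  have h4 : ‖a k + b k‖ ^ 2 ≤ (‖a k‖ + ‖b k‖) ^ 2 := pow_le_pow_left₀ (norm_nonneg _) h3 2
  have h5 : (0 : ℝ) ≤ ((k : ℝ) + 1) ^ α := by positivity
  nlinarith [sq_nonneg (‖a k‖ - ‖b k‖), mul_nonneg h5 (sq_nonneg (‖a k‖ - ‖b k‖))]

/-- the weight of a multiplier -/
noncomputable def wt (b : ℕ → ℂ) : ENNReal := ∑' n : ℕ, ENNReal.ofReal (‖b n‖ * ((n : ℝ) + 1))

theorem weight {α : ℝ} (h0 : 0 ≤ α) (h1 : α ≤ 1) (n j : ℕ) :
    (((n + j : ℕ) : ℝ) + 1) ^ α ≤ ((n : ℝ) + 1) * ((j : ℝ) + 1) ^ α := by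
  have e1 : (((n + j : ℕ) : ℝ) + 1) ≤ ((n : ℝ) + 1) * ((j : ℝ) + 1) := by
    push_cast
    nlinarith [Nat.cast_nonneg (α := ℝ) n, Nat.cast_nonneg (α := ℝ) j,
      mul_nonneg (Nat.cast_nonneg (α := ℝ) n) (Nat.cast_nonneg (α := ℝ) j)]
  have e2 : (((n + j : ℕ) : ℝ) + 1) ^ α ≤ (((n : ℝ) + 1) * ((j : ℝ) + 1)) ^ α :=
    Real.rpow_le_rpow (by positivity) e1 h0
  rw [Real.mul_rpow (by positivity) (by positivity)] at e2
  have e3 : ((n : ℝ) + 1) ^ α ≤ ((n : ℝ) + 1) := by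
    have := Real.rpow_le_rpow_of_exponent_le (x := (n : ℝ) + 1)
      (by have := Nat.cast_nonneg (α := ℝ) n; linarith) h1
    simpa using this
  exact e2.trans (mul_le_mul_of_nonneg_right e3 (by positivity))

/-- the multiplier estimate -/
theorem nrm_mul {α : ℝ} (h0 : 0 ≤ α) (h1 : α ≤ 1) (b a : ℕ → ℂ) :
    nrm α (fun n => ∑ kl ∈ Finset.HasAntidiagonal.antidiagonal n, b kl.1 * a kl.2) ≤ wt b ^ 2 * nrm α a := by
  by_cases hW : wt b = ⊤
  · rw [hW]
    by_cases ha : nrm α a = 0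
    · have ha' : ∀ k, a k = 0 := by
        intro k
        have := (ENNReal.tsum_eq_zero.1 ha) k
        rw [ENNReal.ofReal_eq_zero] at this
        have h5 : (0 : ℝ) < ((k : ℝ) + 1) ^ α := by positivity
        have h6 : ‖a k‖ ^ 2 ≤ 0 := by
          by_contra hc
          push Not at hc
          have := mul_pos hc h5
          linarith
        have h7 : ‖a k‖ = 0 := by nlinarith [norm_nonneg (a k)]
        exact norm_eq_zero.1 h7
      have : nrm α (fun n => ∑ kl ∈ Finset.HasAntidiagonal.antidiagonal n, b kl.1 * a kl.2) = 0 := by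
        unfold nrm
        rw [ENNReal.tsum_eq_zero]
        intro k
        simp [ha']
      rw [this]; exact zero_le
    · have : (⊤ : ENNReal) ^ 2 * nrm α a = ⊤ := by
        rw [ENNReal.top_pow (by norm_num), ENNReal.top_mul ha]
      rw [this]; exact le_top
  have key : ∀ k : ℕ, ENNReal.ofReal (‖∑ kl ∈ Finset.HasAntidiagonal.antidiagonal k, b kl.1 * a kl.2‖ ^ 2 *
      ((k : ℝ) + 1) ^ α) ≤ wt b * ∑ kl ∈ Finset.HasAntidiagonal.antidiagonal k,
        ENNReal.ofReal (‖b kl.1‖ * ((kl.1 : ℝ) + 1)) *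
          ENNReal.ofReal (‖a kl.2‖ ^ 2 * ((kl.2 : ℝ) + 1) ^ α) := by
    intro k
    have c1 : ‖∑ kl ∈ Finset.HasAntidiagonal.antidiagonal k, b kl.1 * a kl.2‖ ^ 2 ≤
        (∑ kl ∈ Finset.HasAntidiagonal.antidiagonal k, ‖b kl.1‖) *
          ∑ kl ∈ Finset.HasAntidiagonal.antidiagonal k, ‖b kl.1‖ * ‖a kl.2‖ ^ 2 := by
      have c2 : ‖∑ kl ∈ Finset.HasAntidiagonal.antidiagonal k, b kl.1 * a kl.2‖ ≤
          ∑ kl ∈ Finset.HasAntidiagonal.antidiagonal k, ‖b kl.1‖ * ‖a kl.2‖ := by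
        refine (norm_sum_le _ _).trans (le_of_eq ?_)
        exact Finset.sum_congr rfl fun kl _ => norm_mul _ _
      refine (pow_le_pow_left₀ (norm_nonneg _) c2 2).trans ?_
      apply Finset.sum_sq_le_sum_mul_sum_of_sq_le_mul
      · intro i _; positivity
      · intro i _; positivity
      · intro i _; exact le_of_eq (by ring)
    have c3 : ENNReal.ofReal (∑ kl ∈ Finset.HasAntidiagonal.antidiagonal k, ‖b kl.1‖) ≤ wt b := by
      rw [ENNReal.ofReal_sum_of_nonneg (fun i _ => norm_nonneg _)]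
      rw [Finset.Nat.sum_antidiagonal_eq_sum_range_succ_mk]
      refine le_trans ?_ (ENNReal.sum_le_tsum (Finset.range k.succ))
      apply Finset.sum_le_sum
      intro n _
      apply ENNReal.ofReal_le_ofReal
      have : (0 : ℝ) ≤ n := Nat.cast_nonneg n
      nlinarith [norm_nonneg (b n), mul_nonneg (norm_nonneg (b n)) this]
    have c4 : (∑ kl ∈ Finset.HasAntidiagonal.antidiagonal k, ‖b kl.1‖ * ‖a kl.2‖ ^ 2) * ((k : ℝ) + 1) ^ α ≤
        ∑ kl ∈ Finset.HasAntidiagonal.antidiagonal k, (‖b kl.1‖ * ((kl.1 : ℝ) + 1)) *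
          (‖a kl.2‖ ^ 2 * ((kl.2 : ℝ) + 1) ^ α) := by
      rw [Finset.sum_mul]
      apply Finset.sum_le_sum
      intro kl hkl
      have hk := Finset.HasAntidiagonal.mem_antidiagonal.1 hkl
      have := weight h0 h1 kl.1 kl.2
      rw [hk] at this
      have h9 : (0 : ℝ) ≤ ‖b kl.1‖ * ‖a kl.2‖ ^ 2 := by positivity
      calc ‖b kl.1‖ * ‖a kl.2‖ ^ 2 * ((k : ℝ) + 1) ^ α
          ≤ ‖b kl.1‖ * ‖a kl.2‖ ^ 2 * (((kl.1 : ℝ) + 1) * ((kl.2 : ℝ) + 1) ^ α) :=
            mul_le_mul_of_nonneg_left this h9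
        _ = _ := by ring
    have c5 : ‖∑ kl ∈ Finset.HasAntidiagonal.antidiagonal k, b kl.1 * a kl.2‖ ^ 2 * ((k : ℝ) + 1) ^ α ≤
        (∑ kl ∈ Finset.HasAntidiagonal.antidiagonal k, ‖b kl.1‖) *
          ∑ kl ∈ Finset.HasAntidiagonal.antidiagonal k, (‖b kl.1‖ * ((kl.1 : ℝ) + 1)) *
          (‖a kl.2‖ ^ 2 * ((kl.2 : ℝ) + 1) ^ α) := by
      refine (mul_le_mul_of_nonneg_right c1 (by positivity)).trans ?_
      rw [mul_assoc]
      exact mul_le_mul_of_nonneg_left c4 (Finset.sum_nonneg fun i _ => norm_nonneg _)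
    refine (ENNReal.ofReal_le_ofReal c5).trans ?_
    rw [ENNReal.ofReal_mul (Finset.sum_nonneg fun i _ => norm_nonneg _)]
    refine mul_le_mul' c3 ?_
    rw [ENNReal.ofReal_sum_of_nonneg (fun i _ => by positivity)]
    apply Finset.sum_le_sum
    intro kl _
    rw [ENNReal.ofReal_mul (by positivity)]
  have tot : ∑' k : ℕ, ∑ kl ∈ Finset.HasAntidiagonal.antidiagonal k,
        ENNReal.ofReal (‖b kl.1‖ * ((kl.1 : ℝ) + 1)) *
          ENNReal.ofReal (‖a kl.2‖ ^ 2 * ((kl.2 : ℝ) + 1) ^ α) = wt b * nrm α a := by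
    have t1 := (Finset.HasAntidiagonal.sigmaAntidiagonalEquivProd (A := ℕ)).tsum_eq
      (fun p : ℕ × ℕ => ENNReal.ofReal (‖b p.1‖ * ((p.1 : ℝ) + 1)) *
          ENNReal.ofReal (‖a p.2‖ ^ 2 * ((p.2 : ℝ) + 1) ^ α))
    have t2 : ∑' p : ℕ × ℕ, ENNReal.ofReal (‖b p.1‖ * ((p.1 : ℝ) + 1)) *
          ENNReal.ofReal (‖a p.2‖ ^ 2 * ((p.2 : ℝ) + 1) ^ α) = wt b * nrm α a := by
      rw [ENNReal.tsum_prod']
      unfold wt nrm
      rw [← ENNReal.tsum_mul_right]
      congr 1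
      ext n
      exact ENNReal.tsum_mul_left (a := ENNReal.ofReal (‖b n‖ * ((n : ℝ) + 1)))
        (f := fun j : ℕ => ENNReal.ofReal (‖a j‖ ^ 2 * ((j : ℝ) + 1) ^ α))
    rw [← t2, ← t1, ENNReal.tsum_sigma']
    congr 1
    ext k
    rw [tsum_fintype]
    rw [← Finset.sum_coe_sort]
    rfl
  unfold nrm at *
  calc ∑' k : ℕ, ENNReal.ofReal (‖∑ kl ∈ Finset.HasAntidiagonal.antidiagonal k, b kl.1 * a kl.2‖ ^ 2 *
      ((k : ℝ) + 1) ^ α)
      ≤ ∑' k : ℕ, wt b * ∑ kl ∈ Finset.HasAntidiagonal.antidiagonal k,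
        ENNReal.ofReal (‖b kl.1‖ * ((kl.1 : ℝ) + 1)) *
          ENNReal.ofReal (‖a kl.2‖ ^ 2 * ((kl.2 : ℝ) + 1) ^ α) := ENNReal.tsum_le_tsum key
    _ = _ := by rw [ENNReal.tsum_mul_left, tot, sq, mul_assoc]

/-- coefficients of a function analytic across the closed disc -/
theorem exists_co {m : ℂ → ℂ} {R : ℝ} (hR : 1 < R) (hm : DifferentiableOn ℂ m (ball 0 R)) :
    ∃ b : ℕ → ℂ, Co m b ∧ wt b ≠ ⊤ := by
  set r : ℝ := (1 + R) / 2 with hr
  have r1 : 1 < r := by rw [hr]; linarith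
  have r2 : r < R := by rw [hr]; linarith
  have r0 : 0 ≤ r := by linarith
  lift r to NNReal using r0 with r' hr'
  have hd : DifferentiableOn ℂ m (closedBall 0 (r' : ℝ)) :=
    hm.mono (closedBall_subset_ball r2)
  have hp := hd.hasFPowerSeriesOnBall (R := r') (by
    have : (0 : ℝ) < r' := by linarith
    exact_mod_cast this)
  set p := cauchyPowerSeries m 0 r' with hpdef
  have hs : ∀ z : ℂ, ‖z‖ < r' → HasSum (fun k => p.coeff k * z ^ k) (m z) := by
    intro z hz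
    have h1 : z ∈ Metric.eball (0 : ℂ) r' := by
      rw [Metric.mem_eball, edist_zero_right, ← ofReal_norm,
        ENNReal.ofReal_lt_iff_lt_toReal (norm_nonneg _) ENNReal.coe_ne_top]
      simpa using hz
    have h2 := hp.hasSum h1
    rw [zero_add] at h2
    refine hs_congr h2 fun k => ?_
    rw [FormalMultilinearSeries.apply_eq_pow_smul_coeff, smul_eq_mul, mul_comm]
  refine ⟨fun k => p.coeff k, fun z hz => hs z (hz.trans r1), ?_⟩
  set s : ℝ := (1 + (r' : ℝ)) / 2 with hsd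
  have s1 : 1 < s := by rw [hsd]; linarith
  have s2 : s < r' := by rw [hsd]; linarith
  have hsum := (hs (s : ℂ) (by
    rw [Complex.norm_real, Real.norm_of_nonneg (by linarith)]; exact s2)).summable.norm
  have hsum2 : Summable (fun k : ℕ => ‖p.coeff k‖ * s ^ k) := by
    convert hsum using 1
    ext k
    rw [norm_mul, norm_pow, Complex.norm_real, Real.norm_of_nonneg (by linarith)]
  have hb : ∀ k : ℕ, ((k : ℝ) + 1) ≤ (1 + 1 / (s - 1)) * s ^ k := by
    intro k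
    have q1 := one_add_mul_le_pow (a := s - 1) (by linarith) k
    have q2 : (1 : ℝ) + (s - 1) = s := by ring
    rw [q2] at q1
    have q3 : (0 : ℝ) < s - 1 := by linarith
    have q4 : 1 ≤ s ^ k := one_le_pow₀ s1.le
    have q5 : (k : ℝ) ≤ 1 / (s - 1) * s ^ k := by
      rw [div_mul_eq_mul_div, le_div_iff₀ q3, one_mul]
      linarith
    linarith
  have hsum3 : Summable (fun k : ℕ => ‖p.coeff k‖ * ((k : ℝ) + 1)) := by
    refine Summable.of_nonneg_of_le (fun k => by positivity) (fun k => ?_)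
      (hsum2.mul_left (1 + 1 / (s - 1)))
    calc ‖p.coeff k‖ * ((k : ℝ) + 1) ≤ ‖p.coeff k‖ * ((1 + 1 / (s - 1)) * s ^ k) :=
          mul_le_mul_of_nonneg_left (hb k) (norm_nonneg _)
      _ = _ := by ring
  unfold wt
  exact hsum3.tsum_ofReal_ne_top

/-- the polynomial of the first coefficients -/
noncomputable def tr (b : ℕ → ℂ) (N : ℕ) : Polynomial ℂ :=
  ∑ n ∈ Finset.range N, Polynomial.C (b n) * Polynomial.X ^ n

theorem co_tr (b : ℕ → ℂ) (N : ℕ) :
    Co (fun z => (tr b N).eval z) (fun n => if n < N then b n else 0) := by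
  intro z _
  have e : (tr b N).eval z = ∑ n ∈ Finset.range N, (if n < N then b n else 0) * z ^ n := by
    unfold tr
    rw [Polynomial.eval_finsetSum]
    apply Finset.sum_congr rfl
    intro n hn
    rw [if_pos (Finset.mem_range.1 hn)]
    simp
  show HasSum (fun k => (if k < N then b k else 0) * z ^ k) ((tr b N).eval z)
  rw [e]
  apply hasSum_sum_of_ne_finset_zero
  intro n hn
  rw [if_neg (by simpa using hn), zero_mul]

theorem co_poly (p : Polynomial ℂ) : Co (fun z => p.eval z) (fun n => p.coeff n) := by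
  intro z _
  show HasSum (fun k => p.coeff k * z ^ k) (p.eval z)
  rw [Polynomial.eval_eq_sum_range]
  apply hasSum_sum_of_ne_finset_zero
  intro n hn
  have : p.natDegree < n := by
    simpa [Finset.mem_range, Nat.lt_succ_iff] using hn
  rw [Polynomial.coeff_eq_zero_of_natDegree_lt this, zero_mul]

theorem wt_poly (p : Polynomial ℂ) : wt (fun n => p.coeff n) ≠ ⊤ := by
  unfold wt
  rw [tsum_eq_sum (s := Finset.range (p.natDegree + 1))]
  · exact (ENNReal.sum_lt_top.2 fun n _ => ENNReal.ofReal_lt_top).ne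
  · intro n hn
    have : p.natDegree < n := by
      simpa [Finset.mem_range, Nat.lt_succ_iff] using hn
    show ENNReal.ofReal (‖p.coeff n‖ * ((n : ℝ) + 1)) = 0
    rw [Polynomial.coeff_eq_zero_of_natDegree_lt this]
    simp

theorem wt_tail {b : ℕ → ℂ} (hb : wt b ≠ ⊤) :
    Tendsto (fun N => wt (fun n => b n - if n < N then b n else 0)) atTop (𝓝 0) := by
  have h := ENNReal.tendsto_sum_nat_add _ hb
  refine h.congr fun N => ?_
  unfold wt
  have h3 := Summable.sum_add_tsum_nat_add' (f := fun n : ℕ =>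
    ENNReal.ofReal (‖b n - if n < N then b n else 0‖ * ((n : ℝ) + 1))) (k := N) ENNReal.summable
  rw [← h3]
  have h2 : ∑ n ∈ Finset.range N,
      ENNReal.ofReal (‖b n - if n < N then b n else 0‖ * ((n : ℝ) + 1)) = 0 := by
    apply Finset.sum_eq_zero
    intro n hn
    rw [if_pos (Finset.mem_range.1 hn)]
    simp
  rw [h2, zero_add]
  congr 1
  ext k
  have : ¬ (k + N < N) := by omega
  rw [if_neg this, sub_zero]

theorem nrm_mul' {α : ℝ} (h0 : 0 ≤ α) (h1 : α ≤ 1) {b a : ℕ → ℂ} {δ : ENNReal}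
    (h : nrm α a ≤ δ) :
    nrm α (fun n => ∑ kl ∈ Finset.HasAntidiagonal.antidiagonal n, b kl.1 * a kl.2) ≤
      wt b ^ 2 * δ := (nrm_mul h0 h1 b a).trans (mul_le_mul' le_rfl h)

end ClmL

open ClmL in
theorem clm : S_CLM := by
  intro α h0 h1 f φ m R hf hφ hR hm ε hε
  obtain ⟨b, hb, hw⟩ := exists_co hR hm
  obtain ⟨af, haf, haf'⟩ := hf
  have hε2 : ε / 2 ≠ 0 := by
    have := ENNReal.half_pos hε.ne'
    exact this.ne'
  obtain ⟨δ, hδ, hδ'⟩ := ENNReal.exists_nnreal_pos_mul_lt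
    (a := 2 * wt b ^ 2) (b := ε / 2) (by
      exact ENNReal.mul_ne_top (by norm_num) (ENNReal.pow_ne_top hw)) hε2
  obtain ⟨p, a, ha, ha'⟩ := hφ δ (by exact_mod_cast hδ)
  -- the coefficients of `p f`
  have hpf := co_mul (co_poly p) haf
  set c : ℕ → ℂ := fun n => ∑ kl ∈ Finset.HasAntidiagonal.antidiagonal n, p.coeff kl.1 * af kl.2
    with hc
  have hpf' : nrm α c ≠ ⊤ := by
    have := nrm_mul h0 h1 (fun n => p.coeff n) af
    exact ne_top_of_le_ne_top (ENNReal.mul_ne_top (ENNReal.pow_ne_top (wt_poly p)) haf') this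
  obtain ⟨η, hη, hη'⟩ := ENNReal.exists_nnreal_pos_mul_lt
    (a := 2 * nrm α c) (b := ε / 2) (ENNReal.mul_ne_top ENNReal.ofNat_ne_top hpf') hε2
  have hη1 : (0 : ENNReal) < min 1 (η : ENNReal) :=
    lt_min zero_lt_one (ENNReal.coe_pos.2 hη)
  obtain ⟨N, hN⟩ := ((wt_tail hw).eventually (Iio_mem_nhds hη1)).exists
  set bt : ℕ → ℂ := fun n => b n - if n < N then b n else 0 with hbt
  have hbt1 : Co (fun z => m z - (tr b N).eval z) bt := co_sub hb (co_tr b N)
  have e1 := co_mul hb ha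
  have e2 := co_mul hbt1 hpf
  have e3 := co_sub e1 e2
  refine ⟨tr b N * p, _, co_congr e3 ?_, ?_⟩
  · intro z _
    rw [Polynomial.eval_mul]; ring
  · have n1 : nrm α (fun n => ∑ kl ∈ Finset.HasAntidiagonal.antidiagonal n, b kl.1 * a kl.2) ≤
        wt b ^ 2 * δ := nrm_mul' h0 h1 ha'.le
    have n2 : nrm α (fun n => -∑ kl ∈ Finset.HasAntidiagonal.antidiagonal n, bt kl.1 * c kl.2) ≤
        η * nrm α c := by
      have q1 : nrm α (fun n => -∑ kl ∈ Finset.HasAntidiagonal.antidiagonal n, bt kl.1 * c kl.2) =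
        nrm α (fun n => ∑ kl ∈ Finset.HasAntidiagonal.antidiagonal n, bt kl.1 * c kl.2) := by
        unfold nrm
        simp only [norm_neg]
      rw [q1]
      refine (nrm_mul h0 h1 bt c).trans (mul_le_mul' ?_ le_rfl)
      have w1 : wt bt ≤ 1 := ((Set.mem_Iio.1 hN).le).trans (min_le_left _ _)
      have w2 : wt bt ≤ η := ((Set.mem_Iio.1 hN).le).trans (min_le_right _ _)
      calc wt bt ^ 2 = wt bt * wt bt := sq _
        _ ≤ 1 * η := mul_le_mul' w1 w2
        _ = η := one_mul _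
    have n3 := nrm_add α (fun n => ∑ kl ∈ Finset.HasAntidiagonal.antidiagonal n, b kl.1 * a kl.2)
      (fun n => -∑ kl ∈ Finset.HasAntidiagonal.antidiagonal n, bt kl.1 * c kl.2)
    have n4 : 2 * nrm α (fun n => ∑ kl ∈ Finset.HasAntidiagonal.antidiagonal n, b kl.1 * a kl.2) <
        ε / 2 := by
      refine lt_of_le_of_lt (mul_le_mul' le_rfl n1) ?_
      refine lt_of_le_of_lt (le_of_eq ?_) hδ'
      ring
    have n5 : 2 * nrm α (fun n => -∑ kl ∈ Finset.HasAntidiagonal.antidiagonal n,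
        bt kl.1 * c kl.2) < ε / 2 := by
      refine lt_of_le_of_lt (mul_le_mul' le_rfl n2) ?_
      refine lt_of_le_of_lt (le_of_eq ?_) hη'
      ring
    have n6 := ENNReal.add_lt_add n4 n5
    rw [ENNReal.add_halves] at n6
    refine lt_of_le_of_lt ?_ n6
    refine le_trans (le_of_eq ?_) n3
    simp only [sub_eq_add_neg]

end Pool.Agent.Helper59K9.CY
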