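import Pool.Agent.Helper59K9.CY.Clm

/-!
Bounded pointwise limits of functions in the closure `Cl` are in the closure `Cl`.
-/

set_option autoImplicit false

open MeasureTheory Metric Filter Topology ComplexConjugate

namespace Pool.Agent.Helper59K9.CY

namespace ClwL

open ClmL

noncomputable abbrev E := lp (fun _ : ℕ => ℂ) 2

/-- the weight -/
noncomputable def w (α : ℝ) (k : ℕ) : ℝ := ((k : ℝ) + 1) ^ (α / 2)

theorem w_pos (α : ℝ) (k : ℕ) : 0 < w α k := by unfold w; positivity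

theorem w_sq (α : ℝ) (k : ℕ) : w α k ^ 2 = ((k : ℝ) + 1) ^ α := by
  unfold w
  rw [← Real.rpow_natCast, ← Real.rpow_mul (by positivity)]
  congr 1
  push_cast; ring

noncomputable def vec (α : ℝ) (a : ℕ → ℂ) : ℕ → ℂ := fun k => a k * (w α k : ℂ)

theorem norm_vec_sq (α : ℝ) (a : ℕ → ℂ) (k : ℕ) :
    ‖vec α a k‖ ^ 2 = ‖a k‖ ^ 2 * ((k : ℝ) + 1) ^ α := by
  unfold vec
  rw [norm_mul, mul_pow, Complex.norm_real, Real.norm_of_nonneg (w_pos α k).le, w_sq]

theorem mem_of {α : ℝ} {a : ℕ → ℂ} (h : nrm α a ≠ ⊤) : Memℓp (vec α a) 2 := by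
  apply memℓp_gen
  have h2 : Summable (fun k : ℕ => ‖a k‖ ^ 2 * ((k : ℝ) + 1) ^ α) := by
    have := ENNReal.summable_toReal h
    refine this.congr fun k => ?_
    exact ENNReal.toReal_ofReal (by positivity)
  refine h2.congr fun k => ?_
  rw [← norm_vec_sq]
  simp

theorem nrm_eq {α : ℝ} {a : ℕ → ℂ} (x : E) (hx : (x : ℕ → ℂ) = vec α a) :
    nrm α a = ENNReal.ofReal (‖x‖ ^ 2) := by
  have h1 := lp.hasSum_norm (p := 2) (by norm_num) x
  have h2 : HasSum (fun k : ℕ => ‖a k‖ ^ 2 * ((k : ℝ) + 1) ^ α) (‖x‖ ^ 2) := by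
    have e : (2 : ENNReal).toReal = ((2 : ℕ) : ℝ) := by simp
    rw [e, Real.rpow_natCast] at h1
    convert h1 using 2 with k
    rw [Real.rpow_natCast, hx, norm_vec_sq]
  unfold nrm
  rw [← ENNReal.ofReal_tsum_of_nonneg (fun k => by positivity) h2.summable, h2.tsum_eq]

/-- the polynomial multiples of `f` -/
noncomputable def K (α : ℝ) (f : ℂ → ℂ) : Submodule ℂ E where
  carrier := {x | ∃ (p : Polynomial ℂ) (a : ℕ → ℂ), Co (fun z => p.eval z * f z) a ∧
    (x : ℕ → ℂ) = vec α a}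
  add_mem' := by
    rintro x y ⟨p, a, h1, h2⟩ ⟨q, b, h3, h4⟩
    refine ⟨p + q, fun n => a n + b n, co_congr (co_add h1 h3) ?_, ?_⟩
    · intro z _
      rw [Polynomial.eval_add]; ring
    · rw [lp.coeFn_add, h2, h4]
      ext k
      simp only [Pi.add_apply, vec]; ring
  zero_mem' := by
    refine ⟨0, fun _ => 0, ?_, ?_⟩
    · intro z _
      simp only [Polynomial.eval_zero, zero_mul]
      exact hasSum_zero
    · ext k
      simp [vec]
  smul_mem' := by
    rintro c x ⟨p, a, h1, h2⟩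
    refine ⟨Polynomial.C c * p, fun n => c * a n, co_congr (co_const_mul c h1) ?_, ?_⟩
    · intro z _
      simp only [Polynomial.eval_mul, Polynomial.eval_C]; ring
    · rw [lp.coeFn_smul, h2]
      ext k
      simp only [Pi.smul_apply, vec, smul_eq_mul]; ring

theorem cl_iff {α : ℝ} {f φ : ℂ → ℂ} {b : ℕ → ℂ} (hb : Co φ b) (x : E)
    (hx : (x : ℕ → ℂ) = vec α b) : Cl α f φ ↔ x ∈ (K α f).topologicalClosure := by
  rw [← SetLike.mem_coe, Submodule.topologicalClosure_coe, Metric.mem_closure_iff]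
  constructor
  · intro h ε hε
    obtain ⟨p, a, h1, h2⟩ := h (ENNReal.ofReal (ε ^ 2)) (by
      rw [ENNReal.ofReal_pos]; positivity)
    have h3 : nrm α a ≠ ⊤ := (h2.trans ENNReal.ofReal_lt_top).ne
    let v : E := ⟨vec α a, mem_of h3⟩
    refine ⟨x + v, ⟨p, fun n => b n + a n, ?_, ?_⟩, ?_⟩
    · exact co_congr (co_add hb h1) fun z _ => by ring
    · rw [lp.coeFn_add, hx]
      show vec α b + vec α a = _
      ext k
      simp only [Pi.add_apply, vec]; ring
    · rw [dist_eq_norm, sub_add_cancel_left, norm_neg]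
      have h4 := nrm_eq v rfl
      rw [h4] at h2
      rw [ENNReal.ofReal_lt_ofReal_iff (by positivity)] at h2
      exact lt_of_pow_lt_pow_left₀ 2 hε.le h2
  · intro h ε hε
    obtain ⟨δ, hδ, hδ'⟩ : ∃ δ : ℝ, 0 < δ ∧ ENNReal.ofReal (δ ^ 2) < ε := by
      obtain ⟨c, hc, hc'⟩ := ENNReal.lt_iff_exists_nnreal_btwn.1 hε
      have hc0 : (0 : ℝ) < c := by exact_mod_cast hc
      refine ⟨Real.sqrt c, Real.sqrt_pos.2 hc0, ?_⟩
      rw [Real.sq_sqrt hc0.le, ENNReal.ofReal_coe_nnreal]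
      exact hc'
    obtain ⟨y, ⟨p, a, h1, h2⟩, h3⟩ := h δ hδ
    refine ⟨p, fun n => a n - b n, co_sub h1 hb, ?_⟩
    have h4 : ((y - x : E) : ℕ → ℂ) = vec α (fun n => a n - b n) := by
      rw [lp.coeFn_sub, h2, hx]
      ext k
      simp only [Pi.sub_apply, vec]; ring
    rw [nrm_eq (y - x) h4]
    refine lt_of_le_of_lt ?_ hδ'
    apply ENNReal.ofReal_le_ofReal
    rw [dist_comm, dist_eq_norm] at h3
    exact pow_le_pow_left₀ (norm_nonneg _) h3.le 2

/-- bounded coordinatewise limits are weak limits -/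
theorem weak (y : E) (x : ℕ → E) (x0 : E) (C : ℝ) (hC : ∀ i, ‖x i‖ ≤ C)
    (ht : ∀ k, Tendsto (fun i => x i k) atTop (𝓝 (x0 k)))
    (h0 : ∀ i, inner ℂ y (x i) = 0) : inner ℂ y x0 = 0 := by
  have hy := lp.hasSum_single (p := 2) (by norm_num) y
  have a1 := hy.tendsto_sum_nat
  have b1 : ∀ N : ℕ, ‖(inner ℂ (∑ k ∈ Finset.range N, lp.single 2 k (y k)) x0 : ℂ)‖ ≤
      ‖(∑ k ∈ Finset.range N, lp.single 2 k (y k)) - y‖ * C := by
    intro N
    have c1 : Tendsto (fun i => ‖(inner ℂ (∑ k ∈ Finset.range N, lp.single 2 k (y k))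
        (x i) : ℂ)‖) atTop
        (𝓝 ‖(inner ℂ (∑ k ∈ Finset.range N, lp.single 2 k (y k)) x0 : ℂ)‖) := by
      apply Tendsto.norm
      simp only [sum_inner, lp.inner_single_left]
      apply tendsto_finsetSum
      intro k _
      exact (tendsto_const_nhds).inner (ht k)
    apply le_of_tendsto' c1
    intro i
    have c2 : (inner ℂ (∑ k ∈ Finset.range N, lp.single 2 k (y k)) (x i) : ℂ) =
        inner ℂ ((∑ k ∈ Finset.range N, lp.single 2 k (y k)) - y) (x i) := by
      rw [inner_sub_left, h0 i, sub_zero]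
    rw [c2]
    exact (norm_inner_le_norm _ _).trans (mul_le_mul_of_nonneg_left (hC i) (norm_nonneg _))
  have a2 : Tendsto (fun N => ‖(inner ℂ (∑ k ∈ Finset.range N, lp.single 2 k (y k)) x0 : ℂ)‖)
      atTop (𝓝 ‖(inner ℂ y x0 : ℂ)‖) := (a1.inner tendsto_const_nhds).norm
  have a3 : Tendsto (fun N => ‖(∑ k ∈ Finset.range N, lp.single 2 k (y k)) - y‖ * C)
      atTop (𝓝 (‖y - y‖ * C)) := ((a1.sub tendsto_const_nhds).norm).mul_const C
  have a4 := le_of_tendsto_of_tendsto' a2 a3 b1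
  rw [sub_self, norm_zero, zero_mul] at a4
  exact norm_le_zero_iff.1 a4

end ClwL

open ClmL ClwL in
theorem clw (dco : S_DCO) (nm : S_NORM) : S_CLW := by
  intro β hβ0 hβ1 f φ ψ M hM hf hφd hφc hφM hφt
  obtain ⟨c, C, hc, hC, hnm⟩ := nm β hβ0 hβ1
  have hex : ∀ i, ∃ a, Co (φ i) a := fun i => (dco.1 (φ i)).1 (hφd i)
  choose a ha using hex
  set M' : ENNReal := M / ENNReal.ofReal c with hM'
  have hc' : ENNReal.ofReal c ≠ 0 := by
    rw [Ne, ENNReal.ofReal_eq_zero]; push Not; exact hc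
  have hM'' : M' ≠ ⊤ := ENNReal.div_ne_top hM hc'
  have han : ∀ i, nrm (1 - β) (a i) ≤ M' := by
    intro i
    rw [hM', ENNReal.le_div_iff_mul_le (Or.inl hc') (Or.inl ENNReal.ofReal_ne_top), mul_comm]
    have h1 := (hnm (φ i) (a i) (ha i)).1
    have h2 : a i 0 = φ i 0 := by
      have h3 := ha i 0 (by simp)
      have h4 := hasSum_single (f := fun k => a i k * (0 : ℂ) ^ k) 0 (by
        intro k hk; simp [hk])
      have h5 := h3.unique h4
      simpa using h5.symm
    rw [h2] at h1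
    exact h1.trans (hφM i)
  have hak : ∀ i k, ‖a i k‖ ^ 2 ≤ M'.toReal := by
    intro i k
    have h1 : ENNReal.ofReal (‖a i k‖ ^ 2) ≤ M' := by
      refine le_trans ?_ (han i)
      refine le_trans ?_ (ENNReal.le_tsum k)
      apply ENNReal.ofReal_le_ofReal
      have : (1 : ℝ) ≤ ((k : ℝ) + 1) ^ (1 - β) :=
        Real.one_le_rpow (by have := Nat.cast_nonneg (α := ℝ) k; linarith) (by linarith)
      nlinarith [sq_nonneg ‖a i k‖]
    exact (ENNReal.ofReal_le_iff_le_toReal hM'').1 h1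
  set C1 : ℝ := M'.toReal + 1 with hC1
  have hC1' : 0 ≤ M'.toReal := ENNReal.toReal_nonneg
  have hak' : ∀ i k, ‖a i k‖ ≤ C1 := by
    intro i k
    have := hak i k
    nlinarith [sq_nonneg (‖a i k‖ - 1), norm_nonneg (a i k)]
  have hcomp : IsCompact (Set.pi Set.univ (fun _ : ℕ => closedBall (0 : ℂ) C1)) :=
    isCompact_univ_pi fun _ => isCompact_closedBall 0 C1
  obtain ⟨b, hb, s, hs, hst⟩ := hcomp.tendsto_subseq (x := a) (by
    intro i k _
    simpa using hak' i k)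
  have hbk : ∀ k, Tendsto (fun i => a (s i) k) atTop (𝓝 (b k)) := fun k =>
    (tendsto_pi_nhds.1 hst) k
  have hCob : Co ψ b := by
    intro z hz
    have g1 : Summable (fun k : ℕ => C1 * ‖z‖ ^ k) :=
      (summable_geometric_of_lt_one (norm_nonneg z) hz).mul_left C1
    have g2 := tendsto_tsum_of_dominated_convergence (𝓕 := atTop)
      (f := fun i k => a (s i) k * z ^ k) (g := fun k => b k * z ^ k) g1
      (fun k => (hbk k).mul_const _)
      (Eventually.of_forall fun i k => by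
        rw [norm_mul, norm_pow]
        exact mul_le_mul_of_nonneg_right (hak' _ _) (by positivity))
    have g3 : ∀ i, ∑' k, a (s i) k * z ^ k = φ (s i) z := fun i => (ha (s i) z hz).tsum_eq
    simp only [g3] at g2
    have g4 := tendsto_nhds_unique g2 ((hφt z hz).comp hs.tendsto_atTop)
    have g5 : Summable (fun k => b k * z ^ k) := by
      refine Summable.of_norm_bounded g1 fun k => ?_
      rw [norm_mul, norm_pow]
      refine mul_le_mul_of_nonneg_right ?_ (by positivity)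
      exact le_of_tendsto' ((hbk k).norm) fun i => hak' _ _
    have := g5.hasSum
    rwa [g4] at this
  have hnb : nrm (1 - β) b ≤ M' := by
    unfold nrm
    rw [ENNReal.tsum_eq_iSup_nat]
    apply iSup_le
    intro N
    have q : Tendsto (fun i => ∑ k ∈ Finset.range N,
        ENNReal.ofReal (‖a (s i) k‖ ^ 2 * ((k : ℝ) + 1) ^ (1 - β))) atTop
        (𝓝 (∑ k ∈ Finset.range N, ENNReal.ofReal (‖b k‖ ^ 2 * ((k : ℝ) + 1) ^ (1 - β)))) := by
      apply tendsto_finsetSum
      intro k _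
      exact ENNReal.tendsto_ofReal ((((hbk k).norm).pow 2).mul_const _)
    apply le_of_tendsto' q
    intro i
    exact (ENNReal.sum_le_tsum _).trans (han (s i))
  have hnbt : nrm (1 - β) b ≠ ⊤ := ne_top_of_le_ne_top hM'' hnb
  have hant : ∀ i, nrm (1 - β) (a i) ≠ ⊤ := fun i => ne_top_of_le_ne_top hM'' (han i)
  let x0 : E := ⟨vec (1 - β) b, mem_of hnbt⟩
  let x : ℕ → E := fun i => ⟨vec (1 - β) (a i), mem_of (hant i)⟩
  refine ⟨?_, ⟨b, hCob, hnbt⟩, (dco.1 ψ).2 ⟨b, hCob⟩⟩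
  rw [cl_iff hCob x0 rfl, ← Submodule.orthogonal_orthogonal_eq_closure,
    Submodule.mem_orthogonal]
  intro y hy
  have hC2 : ∀ i, ‖x i‖ ≤ C1 := by
    intro i
    have h1 := nrm_eq (x i) rfl
    have h2 := han i
    rw [h1, ENNReal.ofReal_le_iff_le_toReal hM''] at h2
    nlinarith [sq_nonneg (‖x i‖ - 1), norm_nonneg (x i)]
  refine weak y (fun i => x (s i)) x0 C1 (fun i => hC2 _) ?_ ?_
  · intro k
    show Tendsto (fun i => vec (1 - β) (a (s i)) k) atTop (𝓝 (vec (1 - β) b k))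
    unfold vec
    exact (hbk k).mul_const _
  · intro i
    have h1 := (cl_iff (ha (s i)) (x (s i)) rfl).1 (hφc (s i))
    rw [← Submodule.orthogonal_orthogonal_eq_closure, Submodule.mem_orthogonal] at h1
    exact h1 y hy

end Pool.Agent.Helper59K9.CY
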