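import Pool.Agent.Helper59K9.CY.St

/-!
[DCO] Taylor coefficients (helper94)
-/

set_option autoImplicit false

open MeasureTheory Metric Filter Topology ComplexConjugate

namespace Pool.Agent.Helper59K9.CY

namespace DcoL

open FormalMultilinearSeries

/-- the Taylor coefficients -/
noncomputable def ta (u : ℂ → ℂ) (n : ℕ) : ℂ := (n.factorial : ℂ)⁻¹ * iteratedDeriv n u 0

theorem hasSum_ta {u : ℂ → ℂ} {R : ℝ} (hu : DifferentiableOn ℂ u (ball 0 R)) {z : ℂ}
    (hz : ‖z‖ < R) : HasSum (fun n => ta u n * z ^ n) (u z) := by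
  have h := Complex.hasSum_taylorSeries_on_ball hu (z := z) (by simpa using hz)
  have e : (fun n => ta u n * z ^ n) =
      fun n : ℕ => (n.factorial : ℂ)⁻¹ • (z - 0) ^ n • iteratedDeriv n u 0 := by
    funext n
    unfold ta
    rw [sub_zero, smul_eq_mul, smul_eq_mul]
    ring
  rw [e]
  exact h

theorem summ {u : ℂ → ℂ} {a : ℕ → ℂ} (h : Co u a) {r : ℝ} (hr0 : 0 ≤ r) (hr : r < 1) :
    Summable fun n => ‖a n‖ * r ^ n := by
  have h1 := (h (r : ℂ) (by rw [Complex.norm_real, Real.norm_of_nonneg hr0]; exact hr)).summable.norm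
  refine h1.congr fun n => ?_
  rw [norm_mul, norm_pow, Complex.norm_real, Real.norm_of_nonneg hr0]

theorem onBall {u : ℂ → ℂ} {a : ℕ → ℂ} (h : Co u a) {r : NNReal} (hr0 : 0 < r) (hr : r < 1) :
    HasFPowerSeriesOnBall u (ofScalars ℂ a) 0 r := by
  refine ⟨?_, by exact_mod_cast hr0, ?_⟩
  · apply le_radius_of_summable_norm
    refine (summ h r.2 (by exact_mod_cast hr)).congr fun n => ?_
    rw [ofScalars_norm]
    rfl
  · intro y hy
    rw [Metric.mem_eball, edist_zero_right] at hy
    have hy1 : ‖y‖ < 1 := by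
      have h1 : ‖y‖₊ < r := by
        have h2 : (‖y‖₊ : ENNReal) < r := hy
        exact_mod_cast h2
      exact_mod_cast h1.trans hr
    have e : (fun n : ℕ => ofScalars ℂ a n fun _ : Fin n => y) = fun n => a n * y ^ n := by
      funext n
      rw [ofScalars_apply_eq, smul_eq_mul]
    rw [zero_add, e]
    exact h y hy1

theorem diff {u : ℂ → ℂ} {a : ℕ → ℂ} (h : Co u a) : DifferentiableOn ℂ u (ball 0 1) := by
  intro z hz
  rw [mem_ball_zero_iff] at hz
  obtain ⟨r, hr1, hr2⟩ := exists_between hz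
  have hr0 : 0 < r := (norm_nonneg z).trans_lt hr1
  lift r to NNReal using hr0.le
  have h1 := (onBall h (r := r) (by exact_mod_cast hr0) (by exact_mod_cast hr2)).differentiableOn
  have h2 : z ∈ Metric.eball (0 : ℂ) r := by
    rw [Metric.eball_coe, mem_ball_zero_iff]
    exact hr1
  exact (h1.differentiableAt (Metric.isOpen_eball.mem_nhds h2)).differentiableWithinAt

theorem unique {u : ℂ → ℂ} {a b : ℕ → ℂ} (ha : Co u a) (hb : Co u b) : a = b := by
  have h1 := (onBall ha (r := 1 / 2) (by norm_num) (by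
    rw [← NNReal.coe_lt_coe]; norm_num)).hasFPowerSeriesAt
  have h2 := (onBall hb (r := 1 / 2) (by norm_num) (by
    rw [← NNReal.coe_lt_coe]; norm_num)).hasFPowerSeriesAt
  have h3 := h1.eq_formalMultilinearSeries h2
  funext n
  have h4 := congrArg (fun p : FormalMultilinearSeries ℂ ℂ ℂ => p.coeff n) h3
  simpa only [coeff_ofScalars] using h4

end DcoL

open DcoL in
theorem dco : S_DCO := by
  refine ⟨fun u => ⟨fun h => ⟨ta u, fun z hz => hasSum_ta h hz⟩, fun ⟨a, ha⟩ => diff ha⟩,
    fun u a b ha hb => unique ha hb, fun u a ha => ?_⟩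
  have h1 := diff ha
  have h2 : DifferentiableOn ℂ (deriv u) (ball 0 1) := h1.deriv isOpen_ball
  have h3 : Co (deriv u) (ta (deriv u)) := fun z hz => hasSum_ta h2 hz
  have h4 : a = ta u := unique ha fun z hz => hasSum_ta h1 hz
  have h5 : (fun n : ℕ => ((n : ℂ) + 1) * a (n + 1)) = ta (deriv u) := by
    funext n
    rw [h4]
    unfold ta
    rw [iteratedDeriv_succ', Nat.factorial_succ]
    have : ((n : ℂ) + 1) ≠ 0 := Nat.cast_add_one_ne_zero n
    push_cast
    field_simp
  rw [h5]
  exact h3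

end Pool.Agent.Helper59K9.CY
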