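import Mathlib

/-!
Definitions for the cyclicity problem MP_53dd33_an. `α` is the parameter of the Dirichlet-type space,
`β = 1 - α` and `0 ≤ β < 1`.
-/

set_option autoImplicit false

open MeasureTheory Metric Filter Topology ComplexConjugate

namespace Pool.Agent.Helper59K9.CY

/-- `a` is the sequence of Taylor coefficients of `f` on the unit disc. -/
def Co (f : ℂ → ℂ) (a : ℕ → ℂ) : Prop :=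
  ∀ z : ℂ, ‖z‖ < 1 → HasSum (fun k => a k * z ^ k) (f z)

/-- the square of the norm of `D_α`, possibly infinite -/
noncomputable def nrm (α : ℝ) (a : ℕ → ℂ) : ENNReal :=
  ∑' k : ℕ, ENNReal.ofReal (‖a k‖ ^ 2 * ((k : ℝ) + 1) ^ α)

/-- `f` is in `D_α` -/
def InD (α : ℝ) (f : ℂ → ℂ) : Prop := ∃ a, Co f a ∧ nrm α a ≠ ⊤

/-- `φ` is in the closure of the polynomial multiples of `f` -/
def Cl (α : ℝ) (f φ : ℂ → ℂ) : Prop :=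
  ∀ ε : ENNReal, 0 < ε → ∃ (p : Polynomial ℂ) (a : ℕ → ℂ),
    Co (fun z => p.eval z * f z - φ z) a ∧ nrm α a < ε

/-- the measure `(1 - |z| ^ 2) ^ β dA` on the unit disc -/
noncomputable def mu (β : ℝ) : Measure ℂ :=
  (volume.restrict (ball (0 : ℂ) 1)).withDensity (fun z => ENNReal.ofReal ((1 - ‖z‖ ^ 2) ^ β))

/-- the energy `∫ |u'| ^ 2 (1 - |z| ^ 2) ^ β dA` -/
noncomputable def En (β : ℝ) (u : ℂ → ℂ) : ENNReal :=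
  ∫⁻ z, ENNReal.ofReal (‖deriv u z‖ ^ 2) ∂(mu β)

/-- `B n = ∫_0^1 x ^ n (1 - x) ^ β dx` -/
noncomputable def B (β : ℝ) (n : ℕ) : ℝ := ∫ x in (0 : ℝ)..1, x ^ n * (1 - x) ^ β

/-- A kernel `K (z conj w)` for the exponent `p > 2`, with values in the sector
`|im y| ≤ tan (π / p) re y`. -/
structure Ker (β p : ℝ) (K : ℂ → ℂ) : Prop where
  diff : DifferentiableOn ℂ K (ball 0 1)
  sec : ∀ ζ : ℂ, ‖ζ‖ < 1 → |(K ζ).im| ≤ Real.tan (Real.pi / p) * (K ζ).re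
  pos : ∃ c : ℝ, 0 < c ∧ ∀ ζ : ℂ, ‖ζ‖ < 1 → c ≤ (K ζ).re
  cnj : ∀ ζ : ℂ, ‖ζ‖ < 1 → K (conj ζ) = conj (K ζ)
  max : ∃ C : ℝ, 0 < C ∧ ∀ ζ ξ : ℂ, ‖ζ‖ < 1 → ‖ξ‖ < 1 → ‖1 - ξ‖ ≤ 2 * ‖1 - ζ‖ →
    ‖K ζ‖ ≤ C * (K ξ).re
  der : ∃ C : ℝ, 0 < C ∧ ∀ ζ : ℂ, ‖ζ‖ < 1 → ‖deriv K ζ‖ * (1 - ‖ζ‖) ≤ C * ‖K ζ‖
  pair : ∃ C : ℝ, 0 < C ∧ ∀ (u : ℂ → ℂ) (R M : ℝ), 1 < R → DifferentiableOn ℂ u (ball 0 R) →
    (∀ z : ℂ, ‖z‖ < 1 → ‖u z‖ ≤ M) → ∀ w : ℂ, ‖w‖ < 1 →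
    ‖∫ z, deriv u z * conj (conj w * deriv K (z * conj w)) ∂(mu β)‖ ≤ C * M
  trace : ∃ C : ℝ, 0 < C ∧ ∀ (u : ℂ → ℂ) (a : ℕ → ℂ), Co u a → nrm (1 - β) a ≠ ⊤ →
    ∀ (s : Finset ℂ) (x : ℂ → ℝ), (∀ w ∈ s, ‖w‖ < 1 ∧ 0 ≤ x w) →
    (∑ w ∈ s, x w * ‖u w‖) ^ 2 ≤
      C * (nrm (1 - β) a).toReal * ∑ w ∈ s, ∑ v ∈ s, x w * x v * ‖K (w * conj v)‖

/-- the potential of the finite measure `∑ x w δ_w` -/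
noncomputable def pot (K : ℂ → ℂ) (s : Finset ℂ) (x : ℂ → ℝ) (z : ℂ) : ℂ :=
  ∑ w ∈ s, (x w : ℂ) * K (z * conj w)

/-- limits of potentials of finite measures of mass at most `c` -/
def LP (K : ℂ → ℂ) (c : ℝ) (k : ℂ → ℂ) : Prop :=
  DifferentiableOn ℂ k (ball 0 1) ∧
  ∃ (s : ℕ → Finset ℂ) (x : ℕ → ℂ → ℝ), (∀ i, ∀ w ∈ s i, ‖w‖ < 1 ∧ 0 ≤ x i w) ∧
    (∀ i, ∑ w ∈ s i, x i w ≤ c) ∧
    ∀ z : ℂ, ‖z‖ < 1 → Tendsto (fun i => pot K (s i) (x i) z) atTop (𝓝 (k z)) ∧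
      Tendsto (fun i => deriv (pot K (s i) (x i)) z) atTop (𝓝 (deriv k z))

end Pool.Agent.Helper59K9.CY
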