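import Pool.Agent.Helper59K9.CY.Norm

/-!
[DIL] dilations (helper94)
-/

set_option autoImplicit false

open MeasureTheory Metric Filter Topology ComplexConjugate

namespace Pool.Agent.Helper59K9.CY

open NormL DcoL ParL in
theorem dil : S_DIL := by
  intro β hβ hβ1 u hu ρ hρ0 hρ1
  obtain ⟨-, hrec, c, C, hc, hC, hB⟩ := bet β hβ hβ1
  obtain ⟨a, ha⟩ := (dco.1 u).1 hu
  have hpi := Real.pi_pos
  have hB0 : ∀ n, 0 ≤ B β n := fun n => le_trans (by positivity) (hB n).1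
  have hB1 : ∀ n, B β (n + 1) ≤ B β n := by
    intro n
    have h1 := hrec n
    have h2 := hB0 (n + 1)
    have h3 := hB0 n
    have h4 : (0 : ℝ) < (n : ℝ) + 1 := by positivity
    have h5 : B β (n + 1) * ((n : ℝ) + 1) ≤ B β n * ((n : ℝ) + 1) := by
      rw [← h1]
      exact mul_le_mul_of_nonneg_left (by linarith) h2
    exact le_of_mul_le_mul_right h5 h4
  have hco : Co (fun z => u z - u (ρ * z)) (fun n => a n * (1 - (ρ : ℂ) ^ n)) := by
    intro z hz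
    have h1 : ‖(ρ : ℂ) * z‖ < 1 := by
      rw [norm_mul, Complex.norm_real, Real.norm_of_nonneg hρ0.le]
      nlinarith [norm_nonneg z]
    have h2 := (ha z hz).sub (ha _ h1)
    have e : (fun n => a n * (1 - (ρ : ℂ) ^ n) * z ^ n) =
        fun n => a n * z ^ n - a n * ((ρ : ℂ) * z) ^ n := by
      funext n
      rw [mul_pow]
      ring
    rw [e]
    exact h2
  rw [parl β hβ _ _ hco, en_eq hβ ha, ← ENNReal.tsum_mul_left, tsum_eq_zero_add' ENNReal.summable]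
  have h0 : ENNReal.ofReal (Real.pi * B β 0 * ‖a 0 * (1 - (ρ : ℂ) ^ 0)‖ ^ 2) = 0 := by simp
  rw [h0, zero_add]
  refine ENNReal.tsum_le_tsum fun n => ?_
  rw [← ENNReal.ofReal_mul (by positivity)]
  apply ENNReal.ofReal_le_ofReal
  have h1 : ‖(1 - (ρ : ℂ) ^ (n + 1))‖ = 1 - ρ ^ (n + 1) := by
    have h2 : (1 - (ρ : ℂ) ^ (n + 1)) = ((1 - ρ ^ (n + 1) : ℝ) : ℂ) := by push_cast; rfl
    rw [h2, Complex.norm_real, Real.norm_of_nonneg]
    exact sub_nonneg.2 (pow_le_one₀ hρ0.le hρ1.le)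
  have h2 : 1 - ρ ^ (n + 1) ≤ ((n : ℝ) + 1) * (1 - ρ) := by
    have := one_add_mul_sub_le_pow (a := ρ) (by linarith) (n + 1)
    push_cast at this
    linarith
  have h3 : 0 ≤ 1 - ρ ^ (n + 1) := sub_nonneg.2 (pow_le_one₀ hρ0.le hρ1.le)
  have h4 : (1 - ρ ^ (n + 1)) ^ 2 ≤ (((n : ℝ) + 1) * (1 - ρ)) ^ 2 := pow_le_pow_left₀ h3 h2 2
  rw [norm_mul, h1, mul_pow]
  calc Real.pi * B β (n + 1) * (‖a (n + 1)‖ ^ 2 * (1 - ρ ^ (n + 1)) ^ 2)
      ≤ Real.pi * B β n * (‖a (n + 1)‖ ^ 2 * (((n : ℝ) + 1) * (1 - ρ)) ^ 2) := by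
        have := hB1 n
        have := hB0 n
        gcongr
    _ = _ := by ring

end Pool.Agent.Helper59K9.CY
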