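import Pool.Agent.Helper59K9.CY.St

set_option autoImplicit false

open MeasureTheory Metric Filter Topology ComplexConjugate

namespace Pool.Agent.Helper59K9.CY

namespace HjL

lemma tan_pos {p : ℝ} (hp : 2 < p) : 0 < Real.tan (Real.pi / p) := by
  apply Real.tan_pos_of_pos_of_lt_pi_div_two
  · have := Real.pi_pos; positivity
  · have := Real.pi_pos
    apply div_lt_div_of_pos_left this (by norm_num) hp

lemma arg_le {p : ℝ} (hp : 2 < p) {w : ℂ} (h0 : 0 < w.re)
    (h : |w.im| ≤ Real.tan (Real.pi / p) * w.re) : |w.arg| ≤ Real.pi / p := by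
  have hpi := Real.pi_pos
  have h1 : |w.arg| < Real.pi / 2 := Complex.abs_arg_lt_pi_div_two_iff.2 (Or.inl h0)
  have h2 : Real.pi / p < Real.pi / 2 := div_lt_div_of_pos_left hpi (by norm_num) hp
  by_contra hcon
  push Not at hcon
  have h3 : Real.tan (Real.pi / p) < Real.tan |w.arg| :=
    Real.tan_lt_tan_of_nonneg_of_lt_pi_div_two (by positivity) h1 hcon
  have h4 : Real.tan |w.arg| = |w.im| / w.re := by
    rcases le_total 0 w.arg with h5 | h5
    · rw [abs_of_nonneg h5, Complex.tan_arg, abs_of_nonneg (Complex.arg_nonneg_iff.1 h5)]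
    · rcases eq_or_lt_of_le h5 with h6 | h6
      · rw [h6, abs_zero, Real.tan_zero]
        have : w.im = 0 := by
          have := Complex.tan_arg w
          rw [h6, Real.tan_zero] at this
          have := this.symm
          rw [div_eq_zero_iff] at this
          rcases this with h | h
          · exact h
          · linarith
        rw [this]; simp
      · rw [abs_of_neg h6, Real.tan_neg, Complex.tan_arg,
          abs_of_neg (Complex.arg_neg_iff.1 h6)]
        ring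
  rw [h4, lt_div_iff₀ h0] at h3
  linarith

lemma re_cpow {p : ℝ} (hp : 2 < p) {w : ℂ} (h0 : 0 < w.re)
    (h : |w.im| ≤ Real.tan (Real.pi / p) * w.re) : 0 ≤ (w ^ ((p / 2 : ℝ) : ℂ)).re := by
  have hw : w ≠ 0 := by
    rintro rfl
    simp at h0
  rw [Complex.cpow_def_of_ne_zero hw, Complex.exp_re]
  apply mul_nonneg (Real.exp_pos _).le
  apply Real.cos_nonneg_of_mem_Icc
  have h1 := arg_le hp h0 h
  have h2 : (Complex.log w * ((p / 2 : ℝ) : ℂ)).im = w.arg * (p / 2) := by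
    rw [Complex.im_mul_ofReal, Complex.log_im]
  rw [h2]
  have h3 : |w.arg * (p / 2)| ≤ Real.pi / 2 := by
    rw [abs_mul, abs_of_pos (by linarith : (0 : ℝ) < p / 2)]
    calc |w.arg| * (p / 2) ≤ Real.pi / p * (p / 2) := by gcongr
      _ = Real.pi / 2 := by field_simp
  exact ⟨by linarith [neg_abs_le (w.arg * (p / 2))], (le_abs_self _).trans h3⟩

end HjL

theorem hj : S_HJ := by
  intro p C0 hp hC0
  set Y : ℝ := C0 ^ (p / 2) with hY
  have hY0 : 0 < Y := Real.rpow_pos_of_pos hC0 _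
  refine ⟨2 * p * Y, by positivity, fun κ hκd hκ => ?_⟩
  set y : ℂ → ℂ := fun z => κ z ^ ((p / 2 : ℝ) : ℂ) with hy
  have hyn : ∀ z, ‖y z‖ = ‖κ z‖ ^ (p / 2) := fun z => Complex.norm_cpow_real _ _
  have hslit : ∀ z : ℂ, ‖z‖ < 1 → κ z ∈ Complex.slitPlane := fun z hz => Or.inl (hκ z hz).2.1
  have hyd : ∀ z : ℂ, ‖z‖ < 1 →
      HasDerivAt y (((p / 2 : ℝ) : ℂ) * κ z ^ (((p / 2 : ℝ) : ℂ) - 1) * deriv κ z) z := by
    intro z hz
    have hb : ball (0 : ℂ) 1 ∈ 𝓝 z := isOpen_ball.mem_nhds (by simpa using hz)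
    exact (hκd.differentiableAt hb).hasDerivAt.cpow_const (hslit z hz)
  have hyY : ∀ z : ℂ, ‖z‖ < 1 → ‖y z‖ ≤ Y := by
    intro z hz
    rw [hyn]
    exact Real.rpow_le_rpow (norm_nonneg _) (hκ z hz).1 (by linarith)
  refine ⟨fun z => 2 * (Y : ℂ) * y z - y z ^ 2, ?_, fun z hz => ?_⟩
  · have h1 : DifferentiableOn ℂ y (ball 0 1) := fun z hz =>
      (hyd z (by simpa using hz)).differentiableAt.differentiableWithinAt
    exact (h1.const_mul _).sub (h1.pow 2)
  · have hre : 0 ≤ (y z).re := HjL.re_cpow hp (hκ z hz).2.1 (hκ z hz).2.2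
    have h1 := hyY z hz
    have h2 : (y z).re ≤ ‖y z‖ := Complex.re_le_norm _
    refine ⟨?_, ?_, ?_⟩
    · have h3 : (2 * (Y : ℂ) * y z - y z ^ 2).re =
          2 * Y * (y z).re - (y z).re ^ 2 + (y z).im ^ 2 := by
        simp [pow_two]
        ring
      have h4 : ‖κ z‖ ^ p = (y z).re ^ 2 + (y z).im ^ 2 := by
        have h5 : ‖κ z‖ ^ p = ‖y z‖ ^ 2 := by
          rw [hyn, ← Real.rpow_natCast, ← Real.rpow_mul (norm_nonneg _)]
          congr 1
          push_cast
          ring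
        rw [h5, ← Complex.normSq_eq_norm_sq, Complex.normSq_apply]
        ring
      rw [h3, h4]
      nlinarith
    · rw [← hyn]
      calc ‖2 * (Y : ℂ) * y z - y z ^ 2‖ ≤ 2 * Y * ‖y z‖ + ‖y z‖ ^ 2 := by
            refine (norm_sub_le _ _).trans ?_
            rw [norm_mul, norm_mul, norm_pow, Complex.norm_real, Real.norm_of_nonneg hY0.le]
            simp
        _ ≤ 2 * p * Y * ‖y z‖ := by nlinarith [norm_nonneg (y z), mul_nonneg (norm_nonneg (y z)) hY0.le]
    · have h3 := hyd z hz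
      have h4 : HasDerivAt (fun z => 2 * (Y : ℂ) * y z - y z ^ 2)
          (2 * (Y : ℂ) * (((p / 2 : ℝ) : ℂ) * κ z ^ (((p / 2 : ℝ) : ℂ) - 1) * deriv κ z) -
            2 * y z * (((p / 2 : ℝ) : ℂ) * κ z ^ (((p / 2 : ℝ) : ℂ) - 1) * deriv κ z)) z := by
        have := (h3.const_mul (2 * (Y : ℂ))).sub (h3.pow 2)
        have e : 2 * (Y : ℂ) * (((p / 2 : ℝ) : ℂ) * κ z ^ (((p / 2 : ℝ) : ℂ) - 1) * deriv κ z) -
            2 * y z * (((p / 2 : ℝ) : ℂ) * κ z ^ (((p / 2 : ℝ) : ℂ) - 1) * deriv κ z) =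
            2 * (Y : ℂ) * (((p / 2 : ℝ) : ℂ) * κ z ^ (((p / 2 : ℝ) : ℂ) - 1) * deriv κ z) -
            (2 : ℕ) * y z ^ (2 - 1) *
              (((p / 2 : ℝ) : ℂ) * κ z ^ (((p / 2 : ℝ) : ℂ) - 1) * deriv κ z) := by
          simp only [Nat.cast_ofNat, Nat.add_one_sub_one, pow_one]
        rw [e]
        exact this
      rw [h4.deriv]
      have h5 : ‖((p / 2 : ℝ) : ℂ) * κ z ^ (((p / 2 : ℝ) : ℂ) - 1) * deriv κ z‖ =
          p / 2 * (‖κ z‖ ^ (p / 2 - 1) * ‖deriv κ z‖) := by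
        rw [norm_mul, norm_mul, Complex.norm_real, Real.norm_of_nonneg (by linarith)]
        have : (((p / 2 : ℝ) : ℂ) - 1) = ((p / 2 - 1 : ℝ) : ℂ) := by push_cast; ring
        rw [this, Complex.norm_cpow_real]
        ring
      set D := ((p / 2 : ℝ) : ℂ) * κ z ^ (((p / 2 : ℝ) : ℂ) - 1) * deriv κ z with hD
      calc ‖2 * (Y : ℂ) * D - 2 * y z * D‖ ≤ 2 * Y * ‖D‖ + 2 * ‖y z‖ * ‖D‖ := by
            refine (norm_sub_le _ _).trans ?_
            have e1 : ‖2 * (Y : ℂ) * D‖ = 2 * Y * ‖D‖ := by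
              rw [norm_mul, norm_mul, Complex.norm_real, Real.norm_of_nonneg hY0.le,
                Complex.norm_two]
            have e2 : ‖2 * y z * D‖ = 2 * ‖y z‖ * ‖D‖ := by
              rw [norm_mul, norm_mul, Complex.norm_two]
            rw [e1, e2]
        _ ≤ 4 * Y * ‖D‖ := by nlinarith [norm_nonneg D]
        _ = 2 * p * Y * ‖κ z‖ ^ (p / 2 - 1) * ‖deriv κ z‖ := by
            rw [h5]
            ring

theorem sq : S_SQ := by
  intro p σ hp hσ hσ1 hσp s a x hax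
  have ha : ∀ j ∈ s, 0 < a j := fun j hj => (hax j hj).1
  set A := ∑ j ∈ s, a j with hA
  have hA0 : 0 ≤ A := Finset.sum_nonneg fun j hj => (ha j hj).le
  have hle : ∀ j ∈ s, a j ≤ A := fun j hj =>
    Finset.single_le_sum (f := a) (fun i hi => (ha i hi).le) hj
  have hcs := Finset.sum_mul_sq_le_sq_mul_sq s
    (fun j => a j ^ (p / 2 - 1) * a j ^ ((1 - σ) / 2) * (1 + a j))
    (fun j => x j * a j ^ ((σ - 1) / 2) * (1 + a j)⁻¹)
  have h1 : ∀ j ∈ s, a j ^ (p / 2 - 1) * a j ^ ((1 - σ) / 2) * (1 + a j) *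
      (x j * a j ^ ((σ - 1) / 2) * (1 + a j)⁻¹) = a j ^ (p / 2 - 1) * x j := by
    intro j hj
    have h2 := ha j hj
    have h3 : a j ^ ((1 - σ) / 2) * a j ^ ((σ - 1) / 2) = 1 := by
      rw [← Real.rpow_add h2]
      have : (1 - σ) / 2 + (σ - 1) / 2 = 0 := by ring
      rw [this, Real.rpow_zero]
    calc _ = a j ^ (p / 2 - 1) * x j * (a j ^ ((1 - σ) / 2) * a j ^ ((σ - 1) / 2)) *
          ((1 + a j) * (1 + a j)⁻¹) := by ring
      _ = _ := by rw [h3, mul_inv_cancel₀ (by positivity), mul_one, mul_one]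
  rw [Finset.sum_congr rfl h1] at hcs
  refine hcs.trans ?_
  have h4 : ∀ j ∈ s, (x j * a j ^ ((σ - 1) / 2) * (1 + a j)⁻¹) ^ 2 =
      x j ^ 2 * a j ^ (σ - 1) * (1 + a j) ^ (-2 : ℝ) := by
    intro j hj
    have h2 := ha j hj
    rw [mul_pow, mul_pow]
    congr 1
    · congr 1
      rw [← Real.rpow_natCast, ← Real.rpow_mul h2.le]
      congr 1
      push_cast
      ring
    · rw [Real.rpow_neg (by positivity), inv_pow]
      congr 1
      rw [← Real.rpow_natCast]
      norm_num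
  rw [Finset.sum_congr rfl h4]
  have h5 : ∑ j ∈ s, (a j ^ (p / 2 - 1) * a j ^ ((1 - σ) / 2) * (1 + a j)) ^ 2 ≤
      (1 + A) ^ (p + 1) := by
    have h6 : ∀ j ∈ s, (a j ^ (p / 2 - 1) * a j ^ ((1 - σ) / 2) * (1 + a j)) ^ 2 ≤
        a j * ((1 + A) ^ (p - 2 - σ) * (1 + A) ^ 2) := by
      intro j hj
      have h2 := ha j hj
      have h7 : (a j ^ (p / 2 - 1) * a j ^ ((1 - σ) / 2)) ^ 2 = a j * a j ^ (p - 2 - σ) := by
        rw [← Real.rpow_add h2, ← Real.rpow_natCast, ← Real.rpow_mul h2.le]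
        nth_rewrite 2 [← Real.rpow_one (a j)]
        rw [← Real.rpow_add h2]
        congr 1
        push_cast
        ring
      rw [mul_pow, h7, mul_assoc]
      apply mul_le_mul_of_nonneg_left _ h2.le
      have h8 : a j ^ (p - 2 - σ) ≤ (1 + A) ^ (p - 2 - σ) :=
        Real.rpow_le_rpow h2.le (by linarith [hle j hj]) (by linarith)
      have h9 : (1 + a j) ^ 2 ≤ (1 + A) ^ 2 := by
        have := hle j hj
        gcongr
      gcongr
    refine (Finset.sum_le_sum h6).trans ?_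
    rw [← Finset.sum_mul, ← hA]
    have h10 : (0 : ℝ) < 1 + A := by linarith
    calc A * ((1 + A) ^ (p - 2 - σ) * (1 + A) ^ 2)
        ≤ (1 + A) * ((1 + A) ^ (p - 2 - σ) * (1 + A) ^ 2) := by gcongr; linarith
      _ = (1 + A) ^ (p + 1 - σ) := by
          rw [← Real.rpow_natCast (1 + A) 2, ← Real.rpow_add h10]
          nth_rewrite 1 [← Real.rpow_one (1 + A)]
          rw [← Real.rpow_add h10]
          congr 1
          push_cast
          ring
      _ ≤ (1 + A) ^ (p + 1) := Real.rpow_le_rpow_of_exponent_le (by linarith) (by linarith)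
  apply mul_le_mul_of_nonneg_right h5
  exact Finset.sum_nonneg fun j hj => by
    have := ha j hj
    positivity

end Pool.Agent.Helper59K9.CY
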