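import Pool.Agent.Helper59K9.CY.Pos
import Pool.Agent.Helper59K9.CY.Hj

set_option autoImplicit false

open MeasureTheory Metric Filter Topology ComplexConjugate

namespace Pool.Agent.Helper59K9.CY

namespace EngL

lemma aem (β : ℝ) {u : ℂ → ℂ} (hd : DifferentiableOn ℂ u (ball 0 1)) : AEMeasurable u (mu β) := by
  have h1 : mu β ≪ volume.restrict (ball (0 : ℂ) 1) := withDensity_absolutelyContinuous _ _
  exact (hd.continuousOn.aemeasurable measurableSet_ball).mono_ac h1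

/-- the integrand of the energy of potentials -/
noncomputable def X (σ : ℝ) (k : ℂ → ℂ) (z : ℂ) : ℝ :=
  ‖deriv k z‖ ^ 2 * ‖k z‖ ^ (σ - 1) * (1 + ‖k z‖) ^ (-2 : ℝ)

lemma X_nonneg (σ : ℝ) (k : ℂ → ℂ) (z : ℂ) : 0 ≤ X σ k z := by
  unfold X
  positivity

lemma aemX (β σ : ℝ) {k : ℂ → ℂ} (hd : DifferentiableOn ℂ k (ball 0 1)) :
    AEMeasurable (fun z => ENNReal.ofReal (X σ k z)) (mu β) := by
  have h1 := (aem β hd).norm
  apply AEMeasurable.ennreal_ofReal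
  unfold X
  exact (((measurable_deriv k).norm.pow_const 2).aemeasurable.mul (h1.pow_const _)).mul
    ((h1.const_add 1).pow_const _)

/-- tails of a convergent sum of derivatives -/
lemma tail_bound {d : ℕ → ℂ} {D : ℂ} {G : ℝ} {x : ℕ → ℝ} (n : ℕ) (hD : HasSum d D)
    (hx : ∀ j, 0 ≤ x j) (hG : 0 ≤ G)
    (h : ∀ s : Finset ℕ, ‖∑ j ∈ s, d j‖ ^ 2 ≤ G * ∑ j ∈ s, x j) :
    ENNReal.ofReal (‖D - ∑ j ∈ Finset.range n, d j‖ ^ 2) ≤
      ENNReal.ofReal G * ∑' j, ENNReal.ofReal (x j) := by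
  have h1 : Tendsto (fun m => ∑ j ∈ Finset.range m, d j - ∑ j ∈ Finset.range n, d j) atTop
      (𝓝 (D - ∑ j ∈ Finset.range n, d j)) := (hD.tendsto_sum_nat).sub_const _
  have h2 : Tendsto (fun m => ENNReal.ofReal
      (‖∑ j ∈ Finset.range m, d j - ∑ j ∈ Finset.range n, d j‖ ^ 2)) atTop
      (𝓝 (ENNReal.ofReal (‖D - ∑ j ∈ Finset.range n, d j‖ ^ 2))) :=
    ENNReal.tendsto_ofReal (h1.norm.pow 2)
  refine le_of_tendsto h2 ?_
  filter_upwards [eventually_ge_atTop n] with m hm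
  rw [← Finset.sum_Ico_eq_sub _ hm]
  refine (ENNReal.ofReal_le_ofReal (h _)).trans ?_
  rw [ENNReal.ofReal_mul hG, ENNReal.ofReal_sum_of_nonneg fun j _ => hx j]
  gcongr
  exact ENNReal.sum_le_tsum _

lemma lpow {x p : ℝ} (j : ℕ) (hx : 0 < x) :
    (2 : ℝ) ^ (p * j) * x ^ (p / 2 - 1) * ((4 : ℝ) ^ j)⁻¹ = ((4 : ℝ) ^ j * x) ^ (p / 2 - 1) := by
  rw [Real.mul_rpow (by positivity) hx.le]
  have h1 : (2 : ℝ) ^ (p * j) = ((4 : ℝ) ^ j) ^ (p / 2) := by
    have : (4 : ℝ) ^ j = (2 : ℝ) ^ ((2 : ℝ) * j) := by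
      rw [Real.rpow_mul (by norm_num), Real.rpow_natCast]
      norm_num
    rw [this, ← Real.rpow_mul (by norm_num)]
    congr 1
    ring
  have h2 : ((4 : ℝ) ^ j) ^ (p / 2 - 1) = ((4 : ℝ) ^ j) ^ (p / 2) * ((4 : ℝ) ^ j)⁻¹ := by
    rw [Real.rpow_sub (by positivity), Real.rpow_one, div_eq_mul_inv]
  rw [h1, h2]
  ring

lemma half_le {w : ℂ} (h : 0 ≤ w.re) : 1 + ‖w‖ ≤ 2 * ‖1 + w‖ := by
  have h1 : 1 ≤ ‖1 + w‖ := by
    have := Complex.re_le_norm (1 + w)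
    simp only [Complex.add_re, Complex.one_re] at this
    linarith
  have h2 : ‖w‖ ^ 2 ≤ ‖1 + w‖ ^ 2 := by
    rw [← Complex.normSq_eq_norm_sq, ← Complex.normSq_eq_norm_sq, Complex.normSq_apply,
      Complex.normSq_apply]
    simp
    nlinarith
  have h3 : ‖w‖ ≤ ‖1 + w‖ := by
    exact abs_le_of_sq_le_sq' h2 (norm_nonneg _) |>.2
  linarith

lemma X_one {k : ℂ → ℂ} {z : ℂ} (h : 0 ≤ (k z).re) :
    ‖deriv k z‖ ^ 2 / ‖1 + k z‖ ^ 2 ≤ 4 * X 1 k z := by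
  have h1 := half_le h
  have h0 : 0 < 1 + ‖k z‖ := by positivity
  have h2 : 0 < ‖1 + k z‖ := by linarith
  unfold X
  rw [sub_self, Real.rpow_zero, mul_one, Real.rpow_neg h0.le]
  have h3 : (1 + ‖k z‖) ^ (2 : ℝ) = (1 + ‖k z‖) ^ 2 := by norm_cast
  rw [h3, div_le_iff₀ (by positivity)]
  have h4 : (1 + ‖k z‖) ^ 2 ≤ 4 * ‖1 + k z‖ ^ 2 := by
    calc (1 + ‖k z‖) ^ 2 ≤ (2 * ‖1 + k z‖) ^ 2 := by gcongr
      _ = _ := by ring
  have h5 : 1 ≤ 4 * ((1 + ‖k z‖) ^ 2)⁻¹ * ‖1 + k z‖ ^ 2 := by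
    rw [mul_comm 4, mul_assoc, ← div_eq_inv_mul, one_le_div (by positivity)]
    exact h4
  calc ‖deriv k z‖ ^ 2 = ‖deriv k z‖ ^ 2 * 1 := (mul_one _).symm
    _ ≤ ‖deriv k z‖ ^ 2 * (4 * ((1 + ‖k z‖) ^ 2)⁻¹ * ‖1 + k z‖ ^ 2) := by gcongr
    _ = _ := by ring

lemma one_le_norm {w : ℂ} (h : 0 ≤ w.re) : 1 ≤ ‖1 + w‖ ∧ 1 + w.re ≤ ‖1 + w‖ ∧ 1 + w ≠ 0 := by
  have h1 : 1 + w.re ≤ ‖1 + w‖ := by
    have := Complex.re_le_norm (1 + w)
    simpa using this
  refine ⟨by linarith, h1, ?_⟩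
  rw [← norm_pos_iff]
  linarith

end EngL

open EngL in
theorem eng (hL : S_SLKL) (hB : S_LPB) (hS : S_LPS) (hHJ : S_HJ) (hSQ : S_SQ) : S_ENG := by
  intro β p K hβ0 hβ1 hp hK f g κ c C0 hlev
  obtain ⟨hC0, hLP, hsum, hb, hlv⟩ := hlev
  obtain ⟨⟨CL, hCL, hLPB⟩, hLPloc, _⟩ := hB β p K hβ0 hβ1 hp hK
  obtain ⟨hconst, hscal, hadd, htsum⟩ := hS β p K hβ0 hβ1 hp hK
  set σ : ℝ := min 1 (p - 2) with hσ
  have hσ0 : 0 < σ := lt_min one_pos (by linarith)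
  have hσ1 : σ ≤ 1 := min_le_left _ _
  have hσp : σ ≤ p - 2 := min_le_right _ _
  obtain ⟨Cσ, hCσ, hslσ⟩ := hL β p σ K hβ0 hβ1 hp hσ0 hσ1 hK
  obtain ⟨C1, hC1, hsl1⟩ := hL β p 1 K hβ0 hβ1 hp one_pos le_rfl hK
  obtain ⟨CH, hCH, hhj⟩ := hHJ p C0 hp hC0
  have hex : ∀ j, ∃ h : ℂ → ℂ, DifferentiableOn ℂ h (ball 0 1) ∧ ∀ z : ℂ, ‖z‖ < 1 →
      ‖κ j z‖ ^ p ≤ (h z).re ∧ ‖h z‖ ≤ CH * ‖κ j z‖ ^ (p / 2) ∧
      ‖deriv h z‖ ≤ CH * ‖κ j z‖ ^ (p / 2 - 1) * ‖deriv (κ j) z‖ := fun j =>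
    hhj (κ j) (hLP j).1 (fun z hz => ⟨(hb j z hz).1, (hb j z hz).2,
      ((hLPB _ _ (hLP j)).2 z hz).1⟩)
  choose hj hjd hj' using hex
  set cj : ℕ → ℝ := fun j => (4 : ℝ) ^ j * c j with hcj
  set kj : ℕ → ℂ → ℂ := fun j z => (((4 : ℝ) ^ j : ℝ) : ℂ) * κ j z with hkjdef
  have hkj : ∀ j, LP K (cj j) (kj j) := fun j => hscal _ _ _ (by positivity) (hLP j)
  have hcj0 : ∀ j, 0 ≤ cj j := fun j => (hLPB _ _ (hkj j)).1
  obtain ⟨hLPk, hksum⟩ := htsum cj kj hkj hsum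
  set Sc : ℝ := ∑' j, cj j with hSc
  have hcjS : ∀ j, cj j ≤ Sc := fun j => hsum.le_tsum j fun i _ => hcj0 i
  have hSc0 : 0 ≤ Sc := (hcj0 0).trans (hcjS 0)
  set k : ℂ → ℂ := fun z => ∑' j, kj j z with hk
  set kn : ℕ → ℂ → ℂ := fun n z => ∑ j ∈ Finset.range n, kj j z with hkn
  have hLPkn : ∀ n, LP K (∑ j ∈ Finset.range n, cj j) (kn n) := by
    intro n
    induction n with
    | zero =>
      have h1 := hconst 0 le_rfl
      have h2 : (fun _ : ℂ => ((0 : ℝ) : ℂ) * K 0) = kn 0 := by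
        funext z
        simp [hkn]
      rw [h2] at h1
      simpa using h1
    | succ n ih =>
      have h1 := hadd _ _ _ _ ih (hkj n)
      have h2 : (fun z => kn n z + kj n z) = kn (n + 1) := by
        funext z
        simp only [hkn]
        rw [Finset.sum_range_succ]
      rw [h2] at h1
      rw [Finset.sum_range_succ]
      exact h1
  have hkjre : ∀ j, ∀ z : ℂ, ‖z‖ < 1 → 0 < (kj j z).re := by
    intro j z hz
    simp only [hkjdef]
    rw [Complex.re_ofReal_mul]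
    have := (hb j z hz).2
    positivity
  have hkjn : ∀ j, ∀ z : ℂ, ‖kj j z‖ = (4 : ℝ) ^ j * ‖κ j z‖ := by
    intro j z
    simp only [hkjdef]
    rw [norm_mul, Complex.norm_real, Real.norm_of_nonneg (by positivity)]
  have hkjpos : ∀ j, ∀ z : ℂ, ‖z‖ < 1 → 0 < ‖kj j z‖ := fun j z hz =>
    lt_of_lt_of_le (hkjre j z hz) (Complex.re_le_norm _)
  have hkre : ∀ z : ℂ, ‖z‖ < 1 → HasSum (fun j => (kj j z).re) (k z).re := by
    intro z hz
    exact Complex.hasSum_re (hksum z hz).1.hasSum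
  have hkfin : ∀ z : ℂ, ‖z‖ < 1 → ∀ s : Finset ℕ, ∑ j ∈ s, (kj j z).re ≤ (k z).re := by
    intro z hz s
    exact sum_le_hasSum s (fun j _ => (hkjre j z hz).le) (hkre z hz)
  have hk0 : ∀ z : ℂ, ‖z‖ < 1 → 0 ≤ (k z).re := fun z hz => by
    simpa using hkfin z hz ∅
  have hk0' : ∀ z : ℂ, ‖z‖ < 1 → 0 < (k z).re := fun z hz => by
    have := hkfin z hz {0}
    rw [Finset.sum_singleton] at this
    exact lt_of_lt_of_le (hkjre 0 z hz) this
  have hknre : ∀ n, ∀ z : ℂ, ‖z‖ < 1 → 0 ≤ (kn n z).re ∧ (kn n z).re ≤ (k z).re := by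
    intro n z hz
    have h1 : (kn n z).re = ∑ j ∈ Finset.range n, (kj j z).re := by
      simp only [hkn]
      rw [Complex.re_sum]
    rw [h1]
    exact ⟨Finset.sum_nonneg fun j _ => (hkjre j z hz).le, hkfin z hz _⟩
  have hkn1 : ∀ n, ∀ z : ℂ, ‖z‖ < 1 → ‖1 + kn n z‖ ≤ (1 + CL) * ‖1 + k z‖ := by
    intro n z hz
    have h1 := ((hLPB _ _ (hLPkn n)).2 z hz).2.2.1
    obtain ⟨h2, h3⟩ := hknre n z hz
    have h4 := (one_le_norm (hk0 z hz)).2.1
    calc ‖1 + kn n z‖ ≤ 1 + ‖kn n z‖ := by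
          refine (norm_add_le _ _).trans ?_
          rw [norm_one]
      _ ≤ 1 + CL * (k z).re := by
          have : CL * (kn n z).re ≤ CL * (k z).re := by gcongr
          linarith
      _ ≤ (1 + CL) * (1 + (k z).re) := by nlinarith [hk0 z hz]
      _ ≤ _ := by gcongr
  -- the functions `H j`
  set H : ℕ → ℂ → ℂ := fun j z => (((2 : ℝ) ^ (p * j) : ℝ) : ℂ) * hj j z with hH
  have hHd : ∀ j, DifferentiableOn ℂ (H j) (ball 0 1) := fun j => (hjd j).const_mul _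
  have h2pos : ∀ j : ℕ, (0 : ℝ) < (2 : ℝ) ^ (p * j) := fun j => Real.rpow_pos_of_pos two_pos _
  have hHre : ∀ j : ℕ, ∀ z : ℂ, ‖z‖ < 1 → (2 : ℝ) ^ (p * j) * ‖κ j z‖ ^ p ≤ (H j z).re := by
    intro j z hz
    simp only [hH]
    rw [Complex.re_ofReal_mul]
    have := (hj' j z hz).1
    have := (h2pos j).le
    gcongr
  have hHre0 : ∀ j, ∀ z : ℂ, ‖z‖ < 1 → 0 ≤ (H j z).re := by
    intro j z hz
    refine le_trans ?_ (hHre j z hz)
    have := (h2pos j).le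
    positivity
  have hHn : ∀ j, ∀ z : ℂ, ‖z‖ < 1 → ‖H j z‖ ≤ CH * ‖kj j z‖ ^ (p / 2) := by
    intro j z hz
    have h1 := (hj' j z hz).2.1
    have h2 := h2pos j
    have h3 : (2 : ℝ) ^ (p * j) * ‖κ j z‖ ^ (p / 2) = ‖kj j z‖ ^ (p / 2) := by
      rw [hkjn, Real.mul_rpow (by positivity) (norm_nonneg _)]
      congr 1
      have : (4 : ℝ) ^ j = (2 : ℝ) ^ ((2 : ℝ) * j) := by
        rw [Real.rpow_mul (by norm_num), Real.rpow_natCast]
        norm_num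
      rw [this, ← Real.rpow_mul (by norm_num)]
      congr 1
      ring
    simp only [hH]
    rw [norm_mul, Complex.norm_real, Real.norm_of_nonneg h2.le, ← h3]
    calc (2 : ℝ) ^ (p * j) * ‖hj j z‖ ≤ (2 : ℝ) ^ (p * j) * (CH * ‖κ j z‖ ^ (p / 2)) := by gcongr
      _ = _ := by ring
  have hHder : ∀ j, ∀ z : ℂ, ‖z‖ < 1 →
      ‖deriv (H j) z‖ ≤ CH * (‖kj j z‖ ^ (p / 2 - 1) * ‖deriv (kj j) z‖) := by
    intro j z hz
    have hbz : ball (0 : ℂ) 1 ∈ 𝓝 z := isOpen_ball.mem_nhds (by simpa using hz)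
    have h1 : deriv (H j) z = (((2 : ℝ) ^ (p * j) : ℝ) : ℂ) * deriv (hj j) z := by
      simp only [hH]
      exact deriv_const_mul _ ((hjd j).differentiableAt hbz)
    have h2 : deriv (kj j) z = (((4 : ℝ) ^ j : ℝ) : ℂ) * deriv (κ j) z := by
      simp only [hkjdef]
      exact deriv_const_mul _ ((hLP j).1.differentiableAt hbz)
    have hκ0 : 0 < ‖κ j z‖ := lt_of_lt_of_le (hb j z hz).2 (Complex.re_le_norm _)
    have e1 : ‖deriv (H j) z‖ = (2 : ℝ) ^ (p * j) * ‖deriv (hj j) z‖ := by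
      rw [h1, norm_mul, Complex.norm_real, Real.norm_of_nonneg (h2pos j).le]
    have e2 : ‖deriv (kj j) z‖ = (4 : ℝ) ^ j * ‖deriv (κ j) z‖ := by
      rw [h2, norm_mul, Complex.norm_real, Real.norm_of_nonneg (by positivity)]
    rw [e1, e2, hkjn, ← lpow j hκ0]
    have h3 := (hj' j z hz).2.2
    have h4 := (h2pos j).le
    calc (2 : ℝ) ^ (p * j) * ‖deriv (hj j) z‖
        ≤ (2 : ℝ) ^ (p * j) * (CH * ‖κ j z‖ ^ (p / 2 - 1) * ‖deriv (κ j) z‖) := by gcongr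
      _ = CH * ((2 : ℝ) ^ (p * j) * ‖κ j z‖ ^ (p / 2 - 1) * ((4 : ℝ) ^ j)⁻¹ *
          ((4 : ℝ) ^ j * ‖deriv (κ j) z‖)) := by
          field_simp
  -- local uniform bounds
  have hloc : ∀ r : ℝ, r < 1 → ∃ U : ℕ → ℝ, Summable U ∧ ∀ j, ∀ z : ℂ, ‖z‖ < r → ‖H j z‖ ≤ U j := by
    intro r hr
    obtain ⟨M, hM0, hM⟩ := hLPloc r hr
    refine ⟨fun j => CH * (M ^ (p / 2) * Sc ^ (p / 2 - 1)) * cj j, hsum.mul_left _, ?_⟩
    intro j z hz
    refine (hHn j z (hz.trans hr)).trans ?_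
    have h1 := (hM _ _ (hkj j) z hz.le).1
    have h2 : ‖kj j z‖ ^ (p / 2) ≤ (M * cj j) ^ (p / 2) :=
      Real.rpow_le_rpow (norm_nonneg _) h1 (by linarith)
    have h3 : (M * cj j) ^ (p / 2) ≤ M ^ (p / 2) * (Sc ^ (p / 2 - 1) * cj j) := by
      rw [Real.mul_rpow hM0.le (hcj0 j)]
      gcongr
      rcases (hcj0 j).eq_or_lt with h | h
      · rw [← h, Real.zero_rpow (by linarith), mul_zero]
      · have : cj j ^ (p / 2) = cj j ^ (p / 2 - 1) * cj j := by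
          rw [← Real.rpow_add_one h.ne']
          congr 1
          ring
        rw [this]
        have := Real.rpow_le_rpow h.le (hcjS j) (by linarith : 0 ≤ p / 2 - 1)
        gcongr
    calc CH * ‖kj j z‖ ^ (p / 2) ≤ CH * (M ^ (p / 2) * (Sc ^ (p / 2 - 1) * cj j)) := by
          gcongr
          exact h2.trans h3
      _ = _ := by ring
  set h : ℂ → ℂ := fun z => ∑' j, H j z with hh
  set hn : ℕ → ℂ → ℂ := fun n z => ∑ j ∈ Finset.range n, H j z with hhn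
  have hHs : ∀ z : ℂ, ‖z‖ < 1 → Summable (fun j => H j z) ∧
      HasSum (fun j => deriv (H j) z) (deriv h z) ∧ DifferentiableAt ℂ h z := by
    intro z hz
    obtain ⟨r, hr1, hr2⟩ := exists_between hz
    obtain ⟨U, hU1, hU2⟩ := hloc r hr2
    have hd : ∀ j, DifferentiableOn ℂ (H j) (ball 0 r) := fun j =>
      (hHd j).mono (ball_subset_ball hr2.le)
    have hzr : z ∈ ball (0 : ℂ) r := by simpa using hr1
    refine ⟨Summable.of_norm_bounded hU1 fun j => hU2 j z hr1,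
      Complex.hasSum_deriv_of_summable_norm hU1 hd isOpen_ball
        (fun j w hw => hU2 j w (by simpa using hw)) hzr, ?_⟩
    exact (Complex.differentiableOn_tsum_of_summable_norm hU1 hd isOpen_ball
      (fun j w hw => hU2 j w (by simpa using hw))).differentiableAt
        (isOpen_ball.mem_nhds hzr)
  have hdk : DifferentiableOn ℂ k (ball 0 1) := hLPk.1
  have hdh : DifferentiableOn ℂ h (ball 0 1) := fun z hz =>
    (hHs z (by simpa using hz)).2.2.differentiableWithinAt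
  have hdkn : ∀ n, DifferentiableOn ℂ (kn n) (ball 0 1) := fun n => (hLPkn n).1
  have hdhn : ∀ n, DifferentiableOn ℂ (hn n) (ball 0 1) := fun n =>
    DifferentiableOn.fun_sum fun j _ => hHd j
  have hhre : ∀ z : ℂ, ‖z‖ < 1 → ∀ s : Finset ℕ, ∑ j ∈ s, (H j z).re ≤ (h z).re := by
    intro z hz s
    exact sum_le_hasSum s (fun j _ => hHre0 j z hz) (Complex.hasSum_re (hHs z hz).1.hasSum)
  -- the energies
  set S : ℂ → ENNReal := fun z => ∑' j, ENNReal.ofReal (X σ (kj j) z) with hSdef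
  have hSint : ∫⁻ z, S z ∂(mu β) ≤ ENNReal.ofReal (Cσ * Sc) := by
    rw [hSdef, lintegral_tsum fun j => aemX β σ (hkj j).1, hSc, ← tsum_mul_left,
      ENNReal.ofReal_tsum_of_nonneg (fun j => mul_nonneg hCσ.le (hcj0 j)) (hsum.mul_left _)]
    exact ENNReal.tsum_le_tsum fun j => hslσ _ _ (hkj j) (hkjre j)
  have hTint : ∫⁻ z, ENNReal.ofReal (X 1 k z) ∂(mu β) ≤ ENNReal.ofReal (C1 * Sc) :=
    hsl1 _ _ hLPk hk0'
  have hTnint : ∀ n, ∫⁻ z, ENNReal.ofReal (X 1 (kn n) z) ∂(mu β) ≤ ENNReal.ofReal (C1 * Sc) := by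
    intro n
    rcases Nat.eq_zero_or_pos n with rfl | hn0
    · have : ∀ z, X 1 (kn 0) z = 0 := by
        intro z
        have h1 : kn 0 = fun _ => 0 := by
          funext w
          simp [hkn]
        unfold X
        rw [h1]
        simp
      simp only [this]
      simp
    · refine (hsl1 _ _ (hLPkn n) fun z hz => ?_).trans ?_
      · have h1 : (kn n z).re = ∑ j ∈ Finset.range n, (kj j z).re := by
          simp only [hkn]
          rw [Complex.re_sum]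
        rw [h1]
        exact Finset.sum_pos (fun j _ => hkjre j z hz) ⟨0, by simpa using hn0⟩
      · apply ENNReal.ofReal_le_ofReal
        gcongr
        exact hsum.sum_le_tsum _ fun j _ => hcj0 j
  -- key inequality
  have key : ∀ z : ℂ, ‖z‖ < 1 → ∀ s : Finset ℕ, ‖∑ j ∈ s, deriv (H j) z‖ ^ 2 ≤
      CH ^ 2 * (1 + ∑ j ∈ s, ‖kj j z‖) ^ (p + 1) * ∑ j ∈ s, X σ (kj j) z := by
    intro z hz s
    have h1 : ‖∑ j ∈ s, deriv (H j) z‖ ≤
        CH * ∑ j ∈ s, ‖kj j z‖ ^ (p / 2 - 1) * ‖deriv (kj j) z‖ := by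
      refine (norm_sum_le _ _).trans ?_
      rw [Finset.mul_sum]
      exact Finset.sum_le_sum fun j _ => hHder j z hz
    have h2 := hSQ p σ hp hσ0 hσ1 hσp s (fun j => ‖kj j z‖) (fun j => ‖deriv (kj j) z‖)
      (fun j _ => ⟨hkjpos j z hz, norm_nonneg _⟩)
    calc ‖∑ j ∈ s, deriv (H j) z‖ ^ 2
        ≤ (CH * ∑ j ∈ s, ‖kj j z‖ ^ (p / 2 - 1) * ‖deriv (kj j) z‖) ^ 2 := by gcongr
      _ = CH ^ 2 * (∑ j ∈ s, ‖kj j z‖ ^ (p / 2 - 1) * ‖deriv (kj j) z‖) ^ 2 := by ring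
      _ ≤ CH ^ 2 * ((1 + ∑ j ∈ s, ‖kj j z‖) ^ (p + 1) *
          ∑ j ∈ s, ‖deriv (kj j) z‖ ^ 2 * ‖kj j z‖ ^ (σ - 1) * (1 + ‖kj j z‖) ^ (-2 : ℝ)) := by
          gcongr
      _ = _ := by
          unfold X
          ring
  have hsumn : ∀ z : ℂ, ‖z‖ < 1 → ∀ s : Finset ℕ, ∑ j ∈ s, ‖kj j z‖ ≤ CL * (k z).re := by
    intro z hz s
    calc ∑ j ∈ s, ‖kj j z‖ ≤ ∑ j ∈ s, CL * (kj j z).re :=
          Finset.sum_le_sum fun j _ => ((hLPB _ _ (hkj j)).2 z hz).2.2.1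
      _ = CL * ∑ j ∈ s, (kj j z).re := by rw [Finset.mul_sum]
      _ ≤ _ := by
          gcongr
          exact hkfin z hz s
  have htail : ∀ n, ∀ z : ℂ, ‖z‖ < 1 →
      ENNReal.ofReal (‖deriv h z - deriv (hn n) z‖ ^ 2) ≤
        ENNReal.ofReal (CH ^ 2 * ((1 + CL) * ‖1 + k z‖) ^ (p + 1)) * S z := by
    intro n z hz
    have hbz : ball (0 : ℂ) 1 ∈ 𝓝 z := isOpen_ball.mem_nhds (by simpa using hz)
    have h1 : deriv (hn n) z = ∑ j ∈ Finset.range n, deriv (H j) z := by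
      simp only [hhn]
      exact deriv_fun_sum fun j _ => (hHd j).differentiableAt hbz
    rw [h1]
    refine tail_bound n (hHs z hz).2.1 (fun j => X_nonneg _ _ _) (by positivity) fun s => ?_
    refine (key z hz s).trans ?_
    have h2 : 0 ≤ ∑ j ∈ s, X σ (kj j) z := Finset.sum_nonneg fun j _ => X_nonneg _ _ _
    have h3 : 0 ≤ ∑ j ∈ s, ‖kj j z‖ := Finset.sum_nonneg fun j _ => norm_nonneg _
    have h4 := hsumn z hz s
    have h5 := (one_le_norm (hk0 z hz)).2.1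
    have h6 : 1 + ∑ j ∈ s, ‖kj j z‖ ≤ (1 + CL) * ‖1 + k z‖ := by
      calc 1 + ∑ j ∈ s, ‖kj j z‖ ≤ 1 + CL * (k z).re := by linarith
        _ ≤ (1 + CL) * (1 + (k z).re) := by nlinarith [hk0 z hz]
        _ ≤ _ := by gcongr
    gcongr
  have hSm : AEMeasurable S (mu β) := AEMeasurable.ennreal_tsum fun j => aemX β σ (hkj j).1
  have hTm : AEMeasurable (fun z => ENNReal.ofReal (X 1 k z)) (mu β) := aemX β 1 hdk
  -- combination of the energies
  have comb : ∀ (u : ℂ → ℂ) (A1 A2 A3 : ℝ) (n : ℕ), (∀ z : ℂ, ‖z‖ < 1 →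
      ENNReal.ofReal (‖deriv u z‖ ^ 2) ≤ ENNReal.ofReal A1 * S z +
        ENNReal.ofReal A2 * ENNReal.ofReal (X 1 k z) +
        ENNReal.ofReal A3 * ENNReal.ofReal (X 1 (kn n) z)) →
      En β u ≤ ENNReal.ofReal A1 * ENNReal.ofReal (Cσ * Sc) +
        ENNReal.ofReal A2 * ENNReal.ofReal (C1 * Sc) +
        ENNReal.ofReal A3 * ENNReal.ofReal (C1 * Sc) := by
    intro u A1 A2 A3 n hu
    refine (En_mono_of hu).trans ?_
    have hTn : AEMeasurable (fun z => ENNReal.ofReal (X 1 (kn n) z)) (mu β) := aemX β 1 (hdkn n)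
    have hm1 : AEMeasurable (fun z => ENNReal.ofReal A1 * S z) (mu β) := hSm.const_mul _
    have hm2 : AEMeasurable (fun z => ENNReal.ofReal A2 * ENNReal.ofReal (X 1 k z)) (mu β) :=
      hTm.const_mul _
    have hm12 : AEMeasurable (fun z => ENNReal.ofReal A1 * S z +
        ENNReal.ofReal A2 * ENNReal.ofReal (X 1 k z)) (mu β) := hm1.add hm2
    rw [lintegral_add_left' hm12, lintegral_add_left' hm1, lintegral_const_mul'' _ hSm,
      lintegral_const_mul'' _ hTm, lintegral_const_mul'' _ hTn]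
    gcongr
    exact hTnint n
  have hfinM : ∀ A1 A2 A3 : ℝ, ENNReal.ofReal A1 * ENNReal.ofReal (Cσ * Sc) +
      ENNReal.ofReal A2 * ENNReal.ofReal (C1 * Sc) +
      ENNReal.ofReal A3 * ENNReal.ofReal (C1 * Sc) ≠ ⊤ := by
    intro A1 A2 A3
    simp [ENNReal.mul_eq_top]
  have hderk : ∀ z : ℂ, ‖z‖ < 1 → HasDerivAt k (deriv k z) z := fun z hz =>
    (hdk.differentiableAt (isOpen_ball.mem_nhds (by simpa using hz))).hasDerivAt
  have hderh : ∀ z : ℂ, ‖z‖ < 1 → HasDerivAt h (deriv h z) z := fun z hz =>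
    (hdh.differentiableAt (isOpen_ball.mem_nhds (by simpa using hz))).hasDerivAt
  have hderkn : ∀ n, ∀ z : ℂ, ‖z‖ < 1 → HasDerivAt (kn n) (deriv (kn n) z) z := fun n z hz =>
    ((hdkn n).differentiableAt (isOpen_ball.mem_nhds (by simpa using hz))).hasDerivAt
  have hderhn : ∀ n, ∀ z : ℂ, ‖z‖ < 1 → HasDerivAt (hn n) (deriv (hn n) z) z := fun n z hz =>
    ((hdhn n).differentiableAt (isOpen_ball.mem_nhds (by simpa using hz))).hasDerivAt
  have hbd : ∀ n, ∃ M : ℝ, 0 ≤ M ∧ ∀ z : ℂ, ‖z‖ < 1 → ‖kn n z‖ ≤ M ∧ ‖hn n z‖ ≤ M ∧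
      ∑ j ∈ Finset.range n, ‖kj j z‖ ≤ M := by
    intro n
    have h1 : ∀ j, ∀ z : ℂ, ‖z‖ < 1 → ‖kj j z‖ ≤ (4 : ℝ) ^ j * C0 := by
      intro j z hz
      rw [hkjn]
      have := (hb j z hz).1
      gcongr
    refine ⟨∑ j ∈ Finset.range n, ((4 : ℝ) ^ j * C0 + CH * ((4 : ℝ) ^ j * C0) ^ (p / 2)),
      Finset.sum_nonneg fun j _ => by positivity, fun z hz => ⟨?_, ?_, ?_⟩⟩
    · refine (norm_sum_le _ _).trans (Finset.sum_le_sum fun j _ => (h1 j z hz).trans ?_)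
      have : 0 ≤ CH * ((4 : ℝ) ^ j * C0) ^ (p / 2) := by positivity
      linarith
    · refine (norm_sum_le _ _).trans (Finset.sum_le_sum fun j _ => (hHn j z hz).trans ?_)
      have h2 : ‖kj j z‖ ^ (p / 2) ≤ ((4 : ℝ) ^ j * C0) ^ (p / 2) :=
        Real.rpow_le_rpow (norm_nonneg _) (h1 j z hz) (by linarith)
      have h3 : 0 ≤ (4 : ℝ) ^ j * C0 := by positivity
      have h4 : CH * ‖kj j z‖ ^ (p / 2) ≤ CH * ((4 : ℝ) ^ j * C0) ^ (p / 2) := by gcongr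
      linarith
    · refine Finset.sum_le_sum fun j _ => (h1 j z hz).trans ?_
      have : 0 ≤ CH * ((4 : ℝ) ^ j * C0) ^ (p / 2) := by positivity
      linarith
  refine ⟨k, h, kn, hn, Sc, 1 + CL, ⌈p + 1⌉₊, by linarith, hLPk, hdh,
    fun n => ⟨hdkn n, hdhn n⟩, ?_, ?_, ?_, ?_, ?_, ?_, ?_, ?_⟩
  · intro n
    obtain ⟨M, _, hM⟩ := hbd n
    exact ⟨M, fun z hz => ⟨(hM z hz).1, (hM z hz).2.1⟩⟩
  · intro z
    simp [hhn]
  · intro z hz
    exact ⟨(hksum z hz).1.hasSum.tendsto_sum_nat, (hHs z hz).1.hasSum.tendsto_sum_nat⟩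
  · intro n z hz
    refine ⟨?_, hk0 z hz, (hknre n z hz).1, hkn1 n z hz⟩
    have h1 := hhre z hz (Finset.range n)
    rw [Complex.sub_re]
    simp only [hhn]
    rw [Complex.re_sum]
    linarith
  · intro j z hz hj1
    have hκ1 : 1 ≤ ‖κ j z‖ := hj1.trans (Complex.re_le_norm _)
    constructor
    · have h1 := hhre z hz {j}
      rw [Finset.sum_singleton] at h1
      refine le_trans ?_ ((hHre j z hz).trans h1)
      have h2 : 1 ≤ ‖κ j z‖ ^ p := Real.one_le_rpow hκ1 (by linarith)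
      have := (h2pos j).le
      nlinarith
    · have h1 := hkfin z hz {j}
      rw [Finset.sum_singleton] at h1
      refine le_trans ?_ h1
      simp only [hkjdef]
      rw [Complex.re_ofReal_mul]
      have : (0 : ℝ) < (4 : ℝ) ^ j := by positivity
      nlinarith
  · -- E1
    intro b hbb a ha
    have hpb : p + 1 ≤ b := (Nat.le_ceil _).trans (by exact_mod_cast hbb)
    set A1 : ℝ := 2 * a ^ 2 * (CH ^ 2 * (1 + CL) ^ (p + 1)) with hA1
    set A2 : ℝ := 8 * (b : ℝ) ^ 2 with hA2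
    refine ⟨_, hfinM A1 A2 0, fun n => comb _ A1 A2 0 0 fun z hz => ?_⟩
    obtain ⟨g1, g2, g3⟩ := one_le_norm (hk0 z hz)
    have hbne : b ≠ 0 := by
      rintro rfl
      simp at hpb
      linarith
    set D : ℂ := deriv h z - deriv (hn n) z with hD
    have hder : deriv (fun z => Complex.exp (-(a : ℂ) * (h z - hn n z)) / (1 + k z) ^ b) z =
        Complex.exp (-(a : ℂ) * (h z - hn n z)) / (1 + k z) ^ b *
          (-(a : ℂ) * D - b * (deriv k z / (1 + k z))) := by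
      have e1 := (((hderh z hz).sub (hderhn n z hz)).const_mul (-(a : ℂ))).cexp
      have e2 := ((hderk z hz).const_add 1).pow b
      have e3 := e1.div e2 (pow_ne_zero _ g3)
      have e4 : (fun z => Complex.exp (-(a : ℂ) * (h z - hn n z)) / (1 + k z) ^ b) =
          ((fun z => Complex.exp (-(a : ℂ) * (h - hn n) z)) / ((fun z => 1 + k z) ^ b) : ℂ → ℂ) := by
        funext w
        simp
      rw [e4, e3.deriv]
      obtain ⟨m, rfl⟩ := Nat.exists_eq_succ_of_ne_zero hbne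
      simp only [Pi.sub_apply, Pi.pow_apply, Nat.succ_eq_add_one, Nat.add_sub_cancel]
      rw [hD]
      field_simp
      ring
    have hre0 : ‖Complex.exp (-(a : ℂ) * (h z - hn n z)) / (1 + k z) ^ b‖ ≤
        (‖1 + k z‖ ^ b)⁻¹ := by
      rw [norm_div, norm_pow, Complex.norm_exp, div_eq_mul_inv]
      apply mul_le_of_le_one_left (by positivity)
      rw [Real.exp_le_one_iff]
      have h5 : (-(a : ℂ) * (h z - hn n z)).re = -(a * (h z - hn n z).re) := by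
        rw [neg_mul, Complex.neg_re, Complex.re_ofReal_mul]
      rw [h5]
      have h6 : 0 ≤ (h z - hn n z).re := by
        have h1 := hhre z hz (Finset.range n)
        rw [Complex.sub_re]
        simp only [hhn]
        rw [Complex.re_sum]
        linarith
      have : 0 ≤ a * (h z - hn n z).re := by positivity
      linarith
    have hnorm : ‖deriv (fun z => Complex.exp (-(a : ℂ) * (h z - hn n z)) / (1 + k z) ^ b) z‖ ^ 2 ≤
        2 * a ^ 2 * ((‖1 + k z‖ ^ b)⁻¹) ^ 2 * ‖D‖ ^ 2 +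
          2 * (b : ℝ) ^ 2 * (‖deriv k z‖ ^ 2 / ‖1 + k z‖ ^ 2) := by
      rw [hder, norm_mul, mul_pow]
      have e1 : ‖-(a : ℂ) * D - b * (deriv k z / (1 + k z))‖ ≤
          a * ‖D‖ + b * (‖deriv k z‖ / ‖1 + k z‖) := by
        refine (norm_sub_le _ _).trans ?_
        rw [norm_mul, norm_neg, Complex.norm_real, Real.norm_of_nonneg ha, norm_mul, norm_div]
        simp
      have e2 : ‖-(a : ℂ) * D - b * (deriv k z / (1 + k z))‖ ^ 2 ≤
          2 * a ^ 2 * ‖D‖ ^ 2 + 2 * (b : ℝ) ^ 2 * (‖deriv k z‖ ^ 2 / ‖1 + k z‖ ^ 2) := by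
        calc _ ≤ (a * ‖D‖ + b * (‖deriv k z‖ / ‖1 + k z‖)) ^ 2 := by gcongr
          _ ≤ 2 * a ^ 2 * ‖D‖ ^ 2 + 2 * (b : ℝ) ^ 2 * (‖deriv k z‖ / ‖1 + k z‖) ^ 2 := by
              nlinarith [sq_nonneg (a * ‖D‖ - b * (‖deriv k z‖ / ‖1 + k z‖))]
          _ = _ := by rw [div_pow]
      have e3 : (‖1 + k z‖ ^ b)⁻¹ ≤ 1 := inv_le_one_of_one_le₀ (one_le_pow₀ g1)
      have e4 : 0 ≤ (‖1 + k z‖ ^ b)⁻¹ := by positivity
      calc ‖Complex.exp (-(a : ℂ) * (h z - hn n z)) / (1 + k z) ^ b‖ ^ 2 *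
            ‖-(a : ℂ) * D - b * (deriv k z / (1 + k z))‖ ^ 2
          ≤ ((‖1 + k z‖ ^ b)⁻¹) ^ 2 * (2 * a ^ 2 * ‖D‖ ^ 2 +
              2 * (b : ℝ) ^ 2 * (‖deriv k z‖ ^ 2 / ‖1 + k z‖ ^ 2)) := by gcongr
        _ = 2 * a ^ 2 * ((‖1 + k z‖ ^ b)⁻¹) ^ 2 * ‖D‖ ^ 2 + ((‖1 + k z‖ ^ b)⁻¹) ^ 2 *
              (2 * (b : ℝ) ^ 2 * (‖deriv k z‖ ^ 2 / ‖1 + k z‖ ^ 2)) := by ring
        _ ≤ 2 * a ^ 2 * ((‖1 + k z‖ ^ b)⁻¹) ^ 2 * ‖D‖ ^ 2 +
              2 * (b : ℝ) ^ 2 * (‖deriv k z‖ ^ 2 / ‖1 + k z‖ ^ 2) :=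
            add_le_add le_rfl (mul_le_of_le_one_left (by positivity) (pow_le_one₀ e4 e3))
    refine (ENNReal.ofReal_le_ofReal hnorm).trans ?_
    rw [ENNReal.ofReal_zero, zero_mul, add_zero,
      ENNReal.ofReal_add (by positivity) (by positivity)]
    apply add_le_add
    · rw [ENNReal.ofReal_mul (by positivity)]
      refine (mul_le_mul_right (htail n z hz) _).trans ?_
      rw [← mul_assoc, ← ENNReal.ofReal_mul (by positivity)]
      refine mul_le_mul_left ?_ _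
      apply ENNReal.ofReal_le_ofReal
      rw [Real.mul_rpow (by linarith) (by positivity), hA1]
      have e5 : ((‖1 + k z‖ ^ b)⁻¹) ^ 2 * ‖1 + k z‖ ^ (p + 1) ≤ 1 := by
        rw [inv_pow, ← div_eq_inv_mul, div_le_one (by positivity), ← Real.rpow_natCast,
          ← Real.rpow_natCast, ← Real.rpow_mul (by positivity)]
        apply Real.rpow_le_rpow_of_exponent_le g1
        push_cast
        nlinarith
      calc 2 * a ^ 2 * ((‖1 + k z‖ ^ b)⁻¹) ^ 2 * (CH ^ 2 * ((1 + CL) ^ (p + 1) *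
            ‖1 + k z‖ ^ (p + 1))) = 2 * a ^ 2 * (CH ^ 2 * (1 + CL) ^ (p + 1)) *
              (((‖1 + k z‖ ^ b)⁻¹) ^ 2 * ‖1 + k z‖ ^ (p + 1)) := by ring
        _ ≤ 2 * a ^ 2 * (CH ^ 2 * (1 + CL) ^ (p + 1)) * 1 := by gcongr
        _ = _ := by ring
    · rw [← ENNReal.ofReal_mul (by positivity)]
      apply ENNReal.ofReal_le_ofReal
      have := X_one (hk0 z hz)
      rw [hA2]
      calc 2 * (b : ℝ) ^ 2 * (‖deriv k z‖ ^ 2 / ‖1 + k z‖ ^ 2)
          ≤ 2 * (b : ℝ) ^ 2 * (4 * X 1 k z) := by gcongr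
        _ = _ := by ring
  · -- E2
    intro b
    set C : ℝ := 1 + CL with hC
    have hC1' : 1 ≤ C := by linarith
    set A : ℝ := 8 * ((b : ℝ) * C ^ (b - 1) * C) ^ 2 with hA
    refine ⟨_, hfinM 0 A A, fun n => comb _ 0 A A n fun z hz => ?_⟩
    obtain ⟨g1, g2, g3⟩ := one_le_norm (hk0 z hz)
    obtain ⟨f1, f2, f3⟩ := one_le_norm (hknre n z hz).1
    have hder : deriv (fun z => ((1 + kn n z) / (1 + k z)) ^ b) z =
        b * ((1 + kn n z) / (1 + k z)) ^ (b - 1) *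
          ((deriv (kn n) z - (1 + kn n z) / (1 + k z) * deriv k z) / (1 + k z)) := by
      have e1 := ((hderkn n z hz).const_add 1).div ((hderk z hz).const_add 1) g3
      have e2 := e1.pow b
      have e4 : (fun z => ((1 + kn n z) / (1 + k z)) ^ b) =
          (((fun z => 1 + kn n z) / (fun z => 1 + k z)) ^ b : ℂ → ℂ) := by
        funext w
        simp
      rw [e4, e2.deriv]
      simp only [Pi.div_apply]
      congr 1
      field_simp
    have hq : ‖(1 + kn n z) / (1 + k z)‖ ≤ C := by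
      rw [norm_div, div_le_iff₀ (by linarith)]
      exact hkn1 n z hz
    have hnorm : ‖deriv (fun z => ((1 + kn n z) / (1 + k z)) ^ b) z‖ ≤
        (b * C ^ (b - 1) * C) * (‖deriv (kn n) z‖ / ‖1 + kn n z‖ + ‖deriv k z‖ / ‖1 + k z‖) := by
      rw [hder, norm_mul, norm_mul, norm_pow, norm_div (_ - _)]
      have e1 : ‖deriv (kn n) z - (1 + kn n z) / (1 + k z) * deriv k z‖ / ‖1 + k z‖ ≤
          C * (‖deriv (kn n) z‖ / ‖1 + kn n z‖ + ‖deriv k z‖ / ‖1 + k z‖) := by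
        have e2 : ‖deriv (kn n) z - (1 + kn n z) / (1 + k z) * deriv k z‖ ≤
            ‖deriv (kn n) z‖ + C * ‖deriv k z‖ := by
          refine (norm_sub_le _ _).trans ?_
          rw [norm_mul]
          gcongr
        have e3 : ‖deriv (kn n) z‖ / ‖1 + k z‖ ≤ C * (‖deriv (kn n) z‖ / ‖1 + kn n z‖) := by
          rw [← mul_div_assoc, div_le_div_iff₀ (by linarith) (by linarith)]
          have := hkn1 n z hz
          calc ‖deriv (kn n) z‖ * ‖1 + kn n z‖ ≤ ‖deriv (kn n) z‖ * (C * ‖1 + k z‖) := by gcongr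
            _ = _ := by ring
        calc _ ≤ (‖deriv (kn n) z‖ + C * ‖deriv k z‖) / ‖1 + k z‖ := by gcongr
          _ = ‖deriv (kn n) z‖ / ‖1 + k z‖ + C * (‖deriv k z‖ / ‖1 + k z‖) := by ring
          _ ≤ _ := by linarith
      have e5 : ‖(b : ℂ)‖ = b := by simp
      rw [e5]
      calc (b : ℝ) * ‖(1 + kn n z) / (1 + k z)‖ ^ (b - 1) *
            (‖deriv (kn n) z - (1 + kn n z) / (1 + k z) * deriv k z‖ / ‖1 + k z‖)
          ≤ (b : ℝ) * C ^ (b - 1) *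
            (C * (‖deriv (kn n) z‖ / ‖1 + kn n z‖ + ‖deriv k z‖ / ‖1 + k z‖)) := by gcongr
        _ = _ := by ring
    have h1 := X_one (hk0 z hz)
    have h2 := X_one (hknre n z hz).1
    have hsq : ‖deriv (fun z => ((1 + kn n z) / (1 + k z)) ^ b) z‖ ^ 2 ≤
        A * X 1 k z + A * X 1 (kn n) z := by
      have h3 : (‖deriv (kn n) z‖ / ‖1 + kn n z‖ + ‖deriv k z‖ / ‖1 + k z‖) ^ 2 ≤
          2 * (‖deriv (kn n) z‖ ^ 2 / ‖1 + kn n z‖ ^ 2) +
            2 * (‖deriv k z‖ ^ 2 / ‖1 + k z‖ ^ 2) := by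
        rw [← div_pow, ← div_pow]
        nlinarith [sq_nonneg (‖deriv (kn n) z‖ / ‖1 + kn n z‖ - ‖deriv k z‖ / ‖1 + k z‖)]
      calc _ ≤ ((b * C ^ (b - 1) * C) *
            (‖deriv (kn n) z‖ / ‖1 + kn n z‖ + ‖deriv k z‖ / ‖1 + k z‖)) ^ 2 := by gcongr
        _ = (b * C ^ (b - 1) * C) ^ 2 *
            (‖deriv (kn n) z‖ / ‖1 + kn n z‖ + ‖deriv k z‖ / ‖1 + k z‖) ^ 2 := by ring
        _ ≤ (b * C ^ (b - 1) * C) ^ 2 * (2 * (4 * X 1 (kn n) z) + 2 * (4 * X 1 k z)) := by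
            gcongr
            linarith
        _ = _ := by
            rw [hA]
            ring
    refine (ENNReal.ofReal_le_ofReal hsq).trans ?_
    have hA0 : 0 ≤ A := by positivity
    rw [ENNReal.ofReal_zero, zero_mul, zero_add, ENNReal.ofReal_add
      (mul_nonneg hA0 (X_nonneg _ _ _)) (mul_nonneg hA0 (X_nonneg _ _ _)),
      ENNReal.ofReal_mul hA0, ENNReal.ofReal_mul hA0]
  · -- E3
    intro n b a
    obtain ⟨M, hM0, hM⟩ := hbd n
    constructor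
    · set A1 : ℝ := (|a| * Real.exp (|a| * M)) ^ 2 * (CH ^ 2 * (1 + M) ^ (p + 1)) with hA1
      refine ne_top_of_le_ne_top (hfinM A1 0 0) (comb _ A1 0 0 0 fun z hz => ?_)
      have hbz : ball (0 : ℂ) 1 ∈ 𝓝 z := isOpen_ball.mem_nhds (by simpa using hz)
      have e1 : deriv (fun z => Complex.exp ((a : ℂ) * hn n z)) z =
          Complex.exp ((a : ℂ) * hn n z) * ((a : ℂ) * deriv (hn n) z) :=
        (((hderhn n z hz).const_mul (a : ℂ)).cexp).deriv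
      have e2 : ‖Complex.exp ((a : ℂ) * hn n z)‖ ≤ Real.exp (|a| * M) := by
        rw [Complex.norm_exp]
        apply Real.exp_le_exp.2
        refine (Complex.re_le_norm _).trans ?_
        rw [norm_mul, Complex.norm_real, Real.norm_eq_abs]
        have := (hM z hz).2.1
        gcongr
      have h1 : deriv (hn n) z = ∑ j ∈ Finset.range n, deriv (H j) z := by
        simp only [hhn]
        exact deriv_fun_sum fun j _ => (hHd j).differentiableAt hbz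
      have e3 : ‖deriv (hn n) z‖ ^ 2 ≤
          CH ^ 2 * (1 + M) ^ (p + 1) * ∑ j ∈ Finset.range n, X σ (kj j) z := by
        rw [h1]
        refine (key z hz _).trans ?_
        have h2 : 0 ≤ ∑ j ∈ Finset.range n, X σ (kj j) z :=
          Finset.sum_nonneg fun j _ => X_nonneg _ _ _
        have h3 : 0 ≤ ∑ j ∈ Finset.range n, ‖kj j z‖ := Finset.sum_nonneg fun j _ => norm_nonneg _
        have h4 := (hM z hz).2.2
        gcongr
      have e4 : ‖deriv (fun z => Complex.exp ((a : ℂ) * hn n z)) z‖ ^ 2 ≤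
          A1 * ∑ j ∈ Finset.range n, X σ (kj j) z := by
        rw [e1, norm_mul, norm_mul, Complex.norm_real, Real.norm_eq_abs]
        calc (‖Complex.exp ((a : ℂ) * hn n z)‖ * (|a| * ‖deriv (hn n) z‖)) ^ 2
            ≤ (Real.exp (|a| * M) * (|a| * ‖deriv (hn n) z‖)) ^ 2 := by gcongr
          _ = (|a| * Real.exp (|a| * M)) ^ 2 * ‖deriv (hn n) z‖ ^ 2 := by ring
          _ ≤ (|a| * Real.exp (|a| * M)) ^ 2 *
              (CH ^ 2 * (1 + M) ^ (p + 1) * ∑ j ∈ Finset.range n, X σ (kj j) z) := by gcongr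
          _ = _ := by
              rw [hA1]
              ring
      refine (ENNReal.ofReal_le_ofReal e4).trans ?_
      rw [ENNReal.ofReal_zero, zero_mul, zero_mul, add_zero, add_zero,
        ENNReal.ofReal_mul (by positivity), ENNReal.ofReal_sum_of_nonneg fun j _ => X_nonneg _ _ _]
      gcongr
      exact ENNReal.sum_le_tsum _
    · set A3 : ℝ := 4 * ((b : ℝ) * (1 + M) ^ (b - 1) * (1 + M)) ^ 2 with hA3
      refine ne_top_of_le_ne_top (hfinM 0 0 A3) (comb _ 0 0 A3 n fun z hz => ?_)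
      obtain ⟨f1, f2, f3⟩ := one_le_norm (hknre n z hz).1
      have e1 : deriv (fun z => (1 + kn n z) ^ b) z =
          b * (1 + kn n z) ^ (b - 1) * deriv (kn n) z :=
        (((hderkn n z hz).const_add 1).fun_pow b).deriv
      have e2 : ‖1 + kn n z‖ ≤ 1 + M := by
        refine (norm_add_le _ _).trans ?_
        rw [norm_one]
        linarith [(hM z hz).1]
      have e3 := X_one (hknre n z hz).1
      have e4 : ‖deriv (fun z => (1 + kn n z) ^ b) z‖ ^ 2 ≤ A3 * X 1 (kn n) z := by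
        rw [e1, norm_mul, norm_mul, norm_pow]
        have e5 : ‖(b : ℂ)‖ = b := by simp
        rw [e5]
        have e6 : ‖deriv (kn n) z‖ ≤ (1 + M) * (‖deriv (kn n) z‖ / ‖1 + kn n z‖) := by
          rw [← mul_div_assoc, le_div_iff₀ (by linarith)]
          nlinarith [norm_nonneg (deriv (kn n) z)]
        calc ((b : ℝ) * ‖1 + kn n z‖ ^ (b - 1) * ‖deriv (kn n) z‖) ^ 2
            ≤ ((b : ℝ) * (1 + M) ^ (b - 1) *
              ((1 + M) * (‖deriv (kn n) z‖ / ‖1 + kn n z‖))) ^ 2 := by gcongr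
          _ = ((b : ℝ) * (1 + M) ^ (b - 1) * (1 + M)) ^ 2 *
              (‖deriv (kn n) z‖ ^ 2 / ‖1 + kn n z‖ ^ 2) := by
              rw [← div_pow]
              ring
          _ ≤ ((b : ℝ) * (1 + M) ^ (b - 1) * (1 + M)) ^ 2 * (4 * X 1 (kn n) z) := by gcongr
          _ = _ := by
              rw [hA3]
              ring
      refine (ENNReal.ofReal_le_ofReal e4).trans ?_
      rw [ENNReal.ofReal_zero, zero_mul, zero_mul, zero_add, zero_add,
        ENNReal.ofReal_mul (by positivity)]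

end Pool.Agent.Helper59K9.CY
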