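import Pool.Agent.Helper59K9.CY.St

/-!
[EQF] equilibrium potentials of finite sets (helper94)
-/

set_option autoImplicit false

open MeasureTheory Metric Filter Topology ComplexConjugate

namespace Pool.Agent.Helper59K9.CY

namespace EqfL

section
variable {ι : Type} [Fintype ι] (A : ι → ι → ℝ)

/-- the quadratic functional -/
noncomputable def Φ (x : ι → ℝ) : ℝ := ∑ i, ∑ j, A i j * x i * x j - 2 * ∑ i, x i

theorem exists_min {c : ℝ} (hc : 0 < c) (hA : ∀ i j, c ≤ A i j) :
    ∃ x : ι → ℝ, (∀ i, 0 ≤ x i) ∧ ∀ y : ι → ℝ, (∀ i, 0 ≤ y i) → Φ A x ≤ Φ A y := by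
  let R : ℝ := 2 / c
  have hR : 0 ≤ R := by positivity
  let s : Set (ι → ℝ) := Set.pi Set.univ fun _ => Set.Icc 0 R
  have hs : IsCompact s := isCompact_univ_pi fun _ => isCompact_Icc
  have hne : s.Nonempty := ⟨0, fun i _ => ⟨le_rfl, hR⟩⟩
  have hcont : Continuous (Φ A) := by
    unfold Φ
    fun_prop
  obtain ⟨x, hx, hmin⟩ := hs.exists_isMinOn hne hcont.continuousOn
  refine ⟨x, fun i => (hx i (Set.mem_univ i)).1, fun y hy => ?_⟩
  by_cases hys : y ∈ s
  · exact hmin hys
  · have h0 : Φ A x ≤ Φ A 0 := hmin fun i _ => ⟨le_rfl, hR⟩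
    have h1 : Φ A 0 = 0 := by simp [Φ]
    have h2 : ∃ i, R < y i := by
      by_contra hcon
      push Not at hcon
      exact hys fun i _ => ⟨hy i, hcon i⟩
    obtain ⟨i, hi⟩ := h2
    have h3 : R < ∑ i, y i :=
      hi.trans_le (Finset.single_le_sum (f := y) (fun j _ => hy j) (Finset.mem_univ i))
    have h4 : c * (∑ i, y i) ^ 2 ≤ ∑ i, ∑ j, A i j * y i * y j := by
      rw [pow_two, Finset.sum_mul_sum, Finset.mul_sum]
      refine Finset.sum_le_sum fun i _ => ?_
      rw [Finset.mul_sum]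
      refine Finset.sum_le_sum fun j _ => ?_
      have := mul_le_mul_of_nonneg_right (hA i j) (mul_nonneg (hy i) (hy j))
      linarith
    have h5 : 2 < c * ∑ i, y i := by
      have : c * R = 2 := by
        change c * (2 / c) = 2
        field_simp
      rw [← this]
      exact mul_lt_mul_of_pos_left h3 hc
    have h6 : 0 ≤ Φ A y := by
      unfold Φ
      nlinarith
    linarith

theorem expand [DecidableEq ι] (hs : ∀ i j, A i j = A j i) (x : ι → ℝ) (k : ι) (t : ℝ) :
    Φ A (fun i => x i + t * (if i = k then 1 else 0)) =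
      Φ A x + 2 * t * (∑ j, A k j * x j - 1) + t ^ 2 * A k k := by
  unfold Φ
  have h1 : ∀ i j, A i j * (x i + t * (if i = k then 1 else 0)) * (x j + t * (if j = k then 1 else 0)) =
      A i j * x i * x j + (if j = k then t * (A i j * x i) else 0) +
      ((if i = k then t * (A i j * x j) else 0) +
      if i = k then (if j = k then t ^ 2 * A i j else 0) else 0) := by
    intro i j
    split_ifs <;> ring
  simp only [h1, Finset.sum_add_distrib]
  have h2 : ∑ i, ∑ j, (if j = k then t * (A i j * x i) else 0) = t * ∑ j, A k j * x j := by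
    rw [Finset.mul_sum]
    refine Finset.sum_congr rfl fun i _ => ?_
    rw [Finset.sum_ite_eq' Finset.univ k, if_pos (Finset.mem_univ k), hs i k]
  have h3 : ∑ i, ∑ j, (if i = k then t * (A i j * x j) else 0) = t * ∑ j, A k j * x j := by
    rw [Finset.mul_sum, Finset.sum_comm]
    refine Finset.sum_congr rfl fun j _ => ?_
    rw [Finset.sum_ite_eq' Finset.univ k, if_pos (Finset.mem_univ k)]
  have h4 : ∑ i, ∑ j, (if i = k then (if j = k then t ^ 2 * A i j else 0) else 0) = t ^ 2 * A k k := by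
    rw [Finset.sum_comm]
    have : ∀ j, ∑ i, (if i = k then (if j = k then t ^ 2 * A i j else 0) else 0) =
        if j = k then t ^ 2 * A k j else 0 := by
      intro j
      rw [Finset.sum_ite_eq' Finset.univ k, if_pos (Finset.mem_univ k)]
    rw [Finset.sum_congr rfl fun j _ => this j, Finset.sum_ite_eq' Finset.univ k,
      if_pos (Finset.mem_univ k)]
  have h5 : ∑ i, t * (if i = k then (1 : ℝ) else 0) = t := by
    rw [← Finset.mul_sum, Finset.sum_ite_eq' Finset.univ k, if_pos (Finset.mem_univ k), mul_one]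
  rw [h2, h3, h4, h5]
  ring

theorem kkt {c : ℝ} (hc : 0 < c) (hA : ∀ i j, c ≤ A i j) (hs : ∀ i j, A i j = A j i) :
    ∃ x : ι → ℝ, (∀ i, 0 ≤ x i) ∧ (∀ i, 1 ≤ ∑ j, A i j * x j) ∧
      ∀ i, 0 < x i → ∑ j, A i j * x j ≤ 1 := by
  classical
  obtain ⟨x, hx, hmin⟩ := exists_min A hc hA
  refine ⟨x, hx, fun k => ?_, fun k hk => ?_⟩
  · by_contra hcon
    push Not at hcon
    set g : ℝ := ∑ j, A k j * x j with hg
    have hkk : 0 < A k k := hc.trans_le (hA k k)
    have ht : 0 < (1 - g) / A k k := div_pos (by linarith) hkk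
    have h1 := hmin (fun i => x i + ((1 - g) / A k k) * (if i = k then 1 else 0)) (fun i => by
      have := hx i
      split_ifs <;> positivity)
    rw [expand A hs, ← hg] at h1
    have h2 : ((1 - g) / A k k) ^ 2 * A k k = (1 - g) / A k k * (1 - g) := by
      field_simp
    rw [h2] at h1
    nlinarith
  · by_contra hcon
    push Not at hcon
    set g : ℝ := ∑ j, A k j * x j with hg
    have hkk : 0 < A k k := hc.trans_le (hA k k)
    have ht : 0 < min (x k) ((g - 1) / A k k) := lt_min hk (div_pos (by linarith) hkk)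
    have ht1 : min (x k) ((g - 1) / A k k) ≤ x k := min_le_left _ _
    have ht2 : min (x k) ((g - 1) / A k k) * A k k ≤ g - 1 := by
      rw [← le_div_iff₀ hkk]
      exact min_le_right _ _
    set t := min (x k) ((g - 1) / A k k)
    have h1 := hmin (fun i => x i + (- t) * (if i = k then 1 else 0)) (fun i => by
      have := hx i
      split_ifs with h
      · rw [h]
        linarith
      · linarith)
    rw [expand A hs, ← hg] at h1
    nlinarith

end

theorem disc_le {z w : ℂ} (hz : ‖z‖ < 1) (hw : ‖w‖ < 1) : ‖z - w‖ ≤ ‖1 - z * conj w‖ := by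
  have h1 : ‖1 - z * conj w‖ ^ 2 - ‖z - w‖ ^ 2 = (1 - ‖z‖ ^ 2) * (1 - ‖w‖ ^ 2) := by
    simp only [← Complex.normSq_eq_norm_sq, Complex.normSq_apply]
    simp only [Complex.sub_re, Complex.sub_im, Complex.mul_re, Complex.mul_im, Complex.one_re,
      Complex.one_im, Complex.conj_re, Complex.conj_im]
    ring
  have h2 : 0 ≤ (1 - ‖z‖ ^ 2) * (1 - ‖w‖ ^ 2) := by
    apply mul_nonneg
    · nlinarith [norm_nonneg z]
    · nlinarith [norm_nonneg w]
  exact (sq_le_sq₀ (norm_nonneg _) (norm_nonneg _)).1 (by linarith)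

theorem quasi {z w v : ℂ} (hz : ‖z‖ < 1) (hw : ‖w‖ < 1) (hv : ‖v‖ < 1) :
    ‖1 - v * conj w‖ ≤ ‖1 - z * conj v‖ + ‖1 - z * conj w‖ := by
  have h1 : 1 - v * conj w = conj (1 - z * conj v) + v * (conj (z - w)) := by
    simp only [map_sub, map_one, map_mul, Complex.conj_conj]
    ring
  rw [h1]
  refine (norm_add_le _ _).trans ?_
  rw [Complex.norm_conj, norm_mul, Complex.norm_conj]
  have h2 := disc_le hz hw
  have h3 : ‖v‖ * ‖z - w‖ ≤ 1 * ‖z - w‖ := mul_le_mul_of_nonneg_right hv.le (norm_nonneg _)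
  linarith

theorem norm_lt {z w : ℂ} (hz : ‖z‖ < 1) (hw : ‖w‖ < 1) : ‖z * conj w‖ < 1 := by
  rw [norm_mul, Complex.norm_conj]
  have := norm_nonneg z
  have := norm_nonneg w
  nlinarith

end EqfL

open EqfL in
theorem eqf : S_EQF := by
  intro β p K hp hK
  obtain ⟨c, hc, hcK⟩ := hK.pos
  obtain ⟨C, hC, hCK⟩ := hK.max
  refine ⟨C, hC, fun s hs => ?_⟩
  classical
  let A : s → s → ℝ := fun z w => (K ((z : ℂ) * conj (w : ℂ))).re
  have hA : ∀ i j, c ≤ A i j := fun i j => hcK _ (norm_lt (hs i i.2) (hs j j.2))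
  have hAs : ∀ i j, A i j = A j i := by
    intro i j
    have h1 := hK.cnj ((i : ℂ) * conj (j : ℂ)) (norm_lt (hs i i.2) (hs j j.2))
    have h2 : conj ((i : ℂ) * conj (j : ℂ)) = (j : ℂ) * conj (i : ℂ) := by
      simp only [map_mul, Complex.conj_conj]
      ring
    change (K ((i : ℂ) * conj (j : ℂ))).re = (K ((j : ℂ) * conj (i : ℂ))).re
    rw [← h2, h1, Complex.conj_re]
  obtain ⟨x, hx0, hx1, hx2⟩ := kkt A hc hA hAs
  let y : ℂ → ℝ := fun w => if h : w ∈ s then x ⟨w, h⟩ else 0
  have hy : ∀ w : s, y w = x w := fun w => dif_pos w.2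
  have hpot : ∀ z : s, (pot K s y z).re = ∑ j, A z j * x j := by
    intro z
    unfold pot
    rw [Complex.re_sum, ← Finset.sum_coe_sort s]
    refine Finset.sum_congr rfl fun w _ => ?_
    rw [hy, Complex.re_ofReal_mul, mul_comm]
  refine ⟨y, fun w hw => ?_, fun z hz => ?_, fun z hz => ?_⟩
  · have := hy ⟨w, hw⟩
    rw [this]
    exact hx0 _
  · have := hpot ⟨z, hz⟩
    rw [this]
    exact hx1 _
  · by_cases hne : ∃ w : s, 0 < x w
    · obtain ⟨w1, hw1⟩ := hne
      obtain ⟨v, hv, hvmin⟩ := Finset.exists_min_image (Finset.univ.filter fun w : s => 0 < x w)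
        (fun w : s => ‖1 - z * conj (w : ℂ)‖) ⟨w1, by simp [hw1]⟩
      rw [Finset.mem_filter] at hv
      have h1 := hx2 v hv.2
      calc ∑ w ∈ s, y w * ‖K (z * conj w)‖ = ∑ w : s, x w * ‖K (z * conj (w : ℂ))‖ := by
            rw [← Finset.sum_coe_sort s]
            exact Finset.sum_congr rfl fun w _ => by rw [hy]
        _ ≤ ∑ w : s, C * (A v w * x w) := by
            refine Finset.sum_le_sum fun w _ => ?_
            rcases (hx0 w).lt_or_eq with hw | hw
            · have h2 : ‖K (z * conj (w : ℂ))‖ ≤ C * A v w := by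
                apply hCK _ _ (norm_lt hz (hs w w.2)) (norm_lt (hs v v.2) (hs w w.2))
                have h3 := quasi hz (hs w w.2) (hs v v.2)
                have h4 : ‖1 - z * conj (v : ℂ)‖ ≤ ‖1 - z * conj (w : ℂ)‖ := hvmin w (by simp [hw])
                linarith
              calc x w * ‖K (z * conj (w : ℂ))‖ ≤ x w * (C * A v w) :=
                    mul_le_mul_of_nonneg_left h2 hw.le
                _ = C * (A v w * x w) := by ring
            · rw [← hw]
              simp
        _ = C * ∑ w : s, A v w * x w := by rw [Finset.mul_sum]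
        _ ≤ C * 1 := mul_le_mul_of_nonneg_left h1 hC.le
        _ = C := mul_one C
    · push Not at hne
      have h1 : ∀ w ∈ s, y w * ‖K (z * conj w)‖ = 0 := by
        intro w hw
        have h2 := hy ⟨w, hw⟩
        have h3 := le_antisymm (hne ⟨w, hw⟩) (hx0 ⟨w, hw⟩)
        simp only at h2
        rw [h2, h3, zero_mul]
      rw [Finset.sum_eq_zero h1]
      exact hC.le

end Pool.Agent.Helper59K9.CY
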