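import Pool.Agent.Helper59K9.CY.Lpb
import Pool.Agent.Helper59K9.CY.Dco

/-!
[EXI] equilibrium potentials of arbitrary sets (helper94)
-/

set_option autoImplicit false

open MeasureTheory Metric Filter Topology ComplexConjugate

namespace Pool.Agent.Helper59K9.CY

namespace ExiL

open EqfL LpbL DcoL

variable {K : ℂ → ℂ}

/-- the moments -/
noncomputable def mom (s : Finset ℂ) (x : ℂ → ℝ) (n : ℕ) : ℂ := ∑ w ∈ s, (x w : ℂ) * conj w ^ n

theorem mom_le {s : Finset ℂ} {x : ℂ → ℝ} {c : ℝ} (hs : ∀ w ∈ s, ‖w‖ < 1 ∧ 0 ≤ x w)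
    (hc : ∑ w ∈ s, x w ≤ c) (n : ℕ) : ‖mom s x n‖ ≤ c := by
  refine (norm_sum_le _ _).trans (le_trans (Finset.sum_le_sum fun w hw => ?_) hc)
  rw [norm_mul, Complex.norm_real, Real.norm_of_nonneg (hs w hw).2, norm_pow, Complex.norm_conj]
  exact mul_le_of_le_one_right (hs w hw).2 (pow_le_one₀ (norm_nonneg _) (hs w hw).1.le)

/-- Taylor coefficients of the potentials -/
theorem pot_co {k : ℕ → ℂ} (hK : Co K k) {s : Finset ℂ} {x : ℂ → ℝ} (hs : ∀ w ∈ s, ‖w‖ < 1) :
    Co (pot K s x) (fun n => mom s x n * k n) := by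
  intro z hz
  unfold pot
  have h1 : ∀ w ∈ s, HasSum (fun n => (x w : ℂ) * (k n * (z * conj w) ^ n))
      ((x w : ℂ) * K (z * conj w)) := fun w hw => (hK _ (norm_lt hz (hs w hw))).mul_left _
  have h2 := hasSum_sum h1
  have e : (fun n => mom s x n * k n * z ^ n) =
      fun n => ∑ w ∈ s, (x w : ℂ) * (k n * (z * conj w) ^ n) := by
    funext n
    unfold mom
    rw [Finset.sum_mul, Finset.sum_mul]
    refine Finset.sum_congr rfl fun w _ => ?_
    rw [mul_pow]
    ring
  rw [e]
  exact h2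

theorem gen {b : ℕ → ℂ} {B : ℂ → ℂ} (hB : Co B b) {A : ℕ → ℕ → ℂ} {g : ℕ → ℂ} {F : ℕ → ℂ → ℂ}
    {G : ℂ → ℂ} {c : ℝ} (hF : ∀ i, Co (F i) (fun n => A i n * b n))
    (hG : Co G (fun n => g n * b n)) (hA : ∀ n, Tendsto (fun i => A i n) atTop (𝓝 (g n)))
    (hc : ∀ i n, ‖A i n‖ ≤ c) {z : ℂ} (hz : ‖z‖ < 1) :
    Tendsto (fun i => F i z) atTop (𝓝 (G z)) := by
  rw [← (hG z hz).tsum_eq]
  have e : (fun i => F i z) = fun i => ∑' n, A i n * b n * z ^ n := by
    funext i
    exact ((hF i z hz).tsum_eq).symm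
  rw [e]
  refine tendsto_tsum_of_dominated_convergence
    (bound := fun n => c * (‖b n‖ * ‖z‖ ^ n)) ((summ hB (norm_nonneg z) hz).mul_left c)
    (fun n => ((hA n).mul_const _).mul_const _) (Eventually.of_forall fun i n => ?_)
  rw [norm_mul, norm_mul, norm_pow, mul_assoc]
  exact mul_le_mul_of_nonneg_right (hc i n) (by positivity)

end ExiL

open ExiL EqfL LpbL DcoL in
theorem exi : S_EXI := by
  intro β p K hβ hβ1 hp hK C0 hC0 hEq E c hE hmass
  classical
  by_cases hne : E.Nonempty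
  swap
  · rw [Set.not_nonempty_iff_eq_empty] at hne
    have hc : 0 ≤ c := by
      simpa using hmass ∅ 0 (by simp) (fun z _ => by simpa using hC0.le)
    have e : pot K ∅ 0 = fun _ => 0 := by
      funext z
      simp [pot]
    refine ⟨fun _ => 0, ⟨by fun_prop, fun _ => ∅, fun _ => 0, by simp, fun i => by simpa using hc,
      fun z hz => ?_⟩, fun z hz => by simpa using hC0.le, fun z hz => by simp [hne] at hz⟩
    simp only [e]
    exact ⟨tendsto_const_nhds, tendsto_const_nhds⟩
  · have hne' : Nonempty E := hne.to_subtype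
    obtain ⟨d, hd⟩ := TopologicalSpace.exists_dense_seq E
    let s : ℕ → Finset ℂ := fun i => (Finset.range (i + 1)).image fun j => (d j : ℂ)
    have hsE : ∀ i, ∀ w ∈ s i, w ∈ E := by
      intro i w hw
      obtain ⟨j, -, rfl⟩ := Finset.mem_image.1 hw
      exact (d j).2
    have hs1 : ∀ i, ∀ w ∈ s i, ‖w‖ < 1 := fun i w hw => by
      simpa using hE (hsE i w hw)
    choose x hx0 hx1 hx2 using fun i => hEq (s i) (hs1 i)
    have hm : ∀ i, ∑ w ∈ s i, x i w ≤ c := fun i =>
      hmass (s i) (x i) (fun w hw => ⟨hsE i w hw, hx0 i w hw⟩) (hx2 i)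
    have hsx : ∀ i, ∀ w ∈ s i, ‖w‖ < 1 ∧ 0 ≤ x i w := fun i w hw => ⟨hs1 i w hw, hx0 i w hw⟩
    have hcpt : IsCompact (Set.pi Set.univ fun _ : ℕ => closedBall (0 : ℂ) c) :=
      isCompact_univ_pi fun _ => isCompact_closedBall _ _
    obtain ⟨μ, hμ, φ, hφ, hlim⟩ := hcpt.tendsto_subseq (x := fun i => mom (s i) (x i))
      fun i n _ => by
        rw [mem_closedBall_zero_iff]
        exact mom_le (hsx i) (hm i) n
    rw [tendsto_pi_nhds] at hlim
    have hμc : ∀ n, ‖μ n‖ ≤ c := fun n => by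
      have := hμ n (Set.mem_univ n)
      rwa [mem_closedBall_zero_iff] at this
    obtain ⟨k, hk⟩ := (dco.1 K).1 hK.diff
    let κ : ℂ → ℂ := fun z => ∑' n, μ n * k n * z ^ n
    have hκ : Co κ (fun n => μ n * k n) := by
      intro z hz
      refine Summable.hasSum ?_
      refine Summable.of_norm_bounded ((summ hk (norm_nonneg z) hz).mul_left c) fun n => ?_
      rw [norm_mul, norm_mul, norm_pow, mul_assoc]
      exact mul_le_mul_of_nonneg_right (hμc n) (by positivity)
    have hl1 : ∀ z : ℂ, ‖z‖ < 1 →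
        Tendsto (fun i => pot K (s (φ i)) (x (φ i)) z) atTop (𝓝 (κ z)) := fun z hz =>
      gen hk (A := fun i n => mom (s (φ i)) (x (φ i)) n) (fun i => pot_co hk (hs1 (φ i))) hκ
        (fun n => hlim n) (fun i n => mom_le (hsx _) (hm _) n) hz
    have hl2 : ∀ z : ℂ, ‖z‖ < 1 →
        Tendsto (fun i => deriv (pot K (s (φ i)) (x (φ i))) z) atTop (𝓝 (deriv κ z)) := by
      intro z hz
      have e1 : ∀ a : ℕ → ℂ, (fun n : ℕ => ((n : ℂ) + 1) * (a (n + 1) * k (n + 1))) =
          fun n : ℕ => a (n + 1) * (((n : ℂ) + 1) * k (n + 1)) := by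
        intro a
        funext n
        ring
      have h1 := dco.2.2 κ _ hκ
      rw [e1 μ] at h1
      refine gen (dco.2.2 K k hk) (A := fun i n => mom (s (φ i)) (x (φ i)) (n + 1))
        (g := fun n => μ (n + 1)) (F := fun i => deriv (pot K (s (φ i)) (x (φ i)))) (fun i => ?_) h1
        (fun n => hlim (n + 1)) (fun i n => mom_le (hsx _) (hm _) (n + 1)) hz
      have h2 := dco.2.2 _ _ (pot_co (x := x (φ i)) hk (hs1 (φ i)))
      rw [e1 (mom (s (φ i)) (x (φ i)))] at h2
      exact h2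
    have hdiff : DifferentiableOn ℂ κ (ball 0 1) := diff hκ
    refine ⟨κ, ⟨hdiff, fun i => s (φ i), fun i => x (φ i), fun i => hsx (φ i), fun i => hm (φ i),
      fun z hz => ⟨hl1 z hz, hl2 z hz⟩⟩, fun z hz => ?_, fun z hz => ?_⟩
    · refine le_of_tendsto' (hl1 z hz).norm fun i => le_trans ?_ (hx2 (φ i) z hz)
      unfold pot
      refine (norm_sum_le _ _).trans (Finset.sum_le_sum fun w hw => ?_)
      rw [norm_mul, Complex.norm_real, Real.norm_of_nonneg (hx0 _ w hw)]
    · have hcont : Continuous fun e : E => (κ e).re := by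
        have h1 : ContinuousOn κ E := hdiff.continuousOn.mono hE
        exact Complex.continuous_re.comp (continuousOn_iff_continuous_domRestrict.1 h1)
      have hcl : IsClosed {e : E | 1 ≤ (κ e).re} := isClosed_le continuous_const hcont
      refine hd.induction_on (p := fun e : E => 1 ≤ (κ e).re) ⟨z, hz⟩ hcl fun j => ?_
      have hj := hl1 (d j) (by simpa using hE (d j).2)
      have hre : Tendsto (fun i => (pot K (s (φ i)) (x (φ i)) (d j)).re) atTop
          (𝓝 (κ (d j)).re) := (Complex.continuous_re.tendsto _).comp hj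
      refine ge_of_tendsto hre ?_
      filter_upwards [eventually_ge_atTop j] with i hi
      apply hx1
      refine Finset.mem_image.2 ⟨j, ?_, rfl⟩
      rw [Finset.mem_range]
      have := hφ.le_apply (x := i)
      omega

end Pool.Agent.Helper59K9.CY
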