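import Pool.Agent.Helper59K9.CY.Ker1

/-!
# [KER0] the logarithmic kernel
-/

set_option autoImplicit false

open MeasureTheory Metric Filter Topology ComplexConjugate

namespace Pool.Agent.Helper59K9.CY

namespace KerL

/-- the logarithmic kernel -/
noncomputable def LL (c : ℝ) (ζ : ℂ) : ℂ := (c : ℂ) - Complex.log (1 - ζ)

/-- its Taylor coefficients -/
noncomputable def cl (c : ℝ) (n : ℕ) : ℝ := if n = 0 then c else 1 / n

theorem LL_re (c : ℝ) (ζ : ℂ) : (LL c ζ).re = c - Real.log ‖1 - ζ‖ := by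
  unfold LL
  rw [Complex.sub_re, Complex.ofReal_re, Complex.log_re]

theorem LL_im (c : ℝ) (ζ : ℂ) : (LL c ζ).im = -(1 - ζ).arg := by
  unfold LL
  rw [Complex.sub_im, Complex.ofReal_im, Complex.log_im, zero_sub]

theorem log_le_two {ζ : ℂ} (h : ‖ζ‖ < 1) : Real.log ‖1 - ζ‖ ≤ Real.log 2 :=
  Real.log_le_log (norm_pos_iff.mpr (ne_zero h)) (norm_le_two h)

theorem LL_deriv (c : ℝ) {ζ : ℂ} (h : ‖ζ‖ < 1) : HasDerivAt (LL c) (1 / (1 - ζ)) ζ := by
  have h1 : HasDerivAt (fun z : ℂ => 1 - z) (-1) ζ := by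
    simpa using (hasDerivAt_id ζ).const_sub 1
  have h2 := (h1.clog (Or.inl (re_pos h))).const_sub (c : ℂ)
  refine h2.congr_deriv ?_
  ring

theorem cl_co (c : ℝ) : Co (LL c) fun n => (cl c n : ℂ) := by
  intro z hz
  have h := Complex.hasSum_taylorSeries_neg_log hz
  have h2 : HasSum (fun n : ℕ => if n = 0 then (c : ℂ) else 0) (c : ℂ) := hasSum_ite_eq 0 _
  have h3 := h2.add h
  have e : (fun n : ℕ => (cl c n : ℂ) * z ^ n) =
      fun n : ℕ => (if n = 0 then (c : ℂ) else 0) + z ^ n / n := by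
    funext n
    unfold cl
    split_ifs with h0
    · rw [h0]; simp
    · push_cast; ring
  rw [e]
  unfold LL
  rw [sub_eq_add_neg]
  exact h3

end KerL

open KerL

theorem ker0 (dco : S_DCO) (par : S_PAR) : S_KER0 := by
  intro p hp
  have hpi := Real.pi_pos
  have hT0 : 0 < Real.pi / p := by positivity
  have hT1 : Real.pi / p < Real.pi / 2 := by
    apply div_lt_div_of_pos_left hpi (by norm_num) hp
  have htan : 0 < Real.tan (Real.pi / p) := Real.tan_pos_of_pos_of_lt_pi_div_two hT0 hT1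
  have hl2 : 0 < Real.log 2 := Real.log_pos (by norm_num)
  set c : ℝ := Real.log 2 + 1 + Real.pi / 2 / Real.tan (Real.pi / p) with hc
  have hx : 0 < Real.pi / 2 / Real.tan (Real.pi / p) := by positivity
  have hre1 : ∀ ζ : ℂ, ‖ζ‖ < 1 → 1 + Real.pi / 2 / Real.tan (Real.pi / p) ≤ (LL c ζ).re := by
    intro ζ h
    rw [LL_re, hc]
    have := log_le_two h
    linarith
  refine ⟨c, ?_⟩
  show Ker 0 p (LL c)
  refine ⟨?_, ?_, ?_, ?_, ?_, ?_, ?_, ?_⟩
  · intro ζ hζ
    rw [mem_ball_zero_iff] at hζ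
    exact (LL_deriv c hζ).differentiableAt.differentiableWithinAt
  · intro ζ h
    rw [LL_im, abs_neg]
    have h1 := (arg_lt h).le
    have h2 := hre1 ζ h
    have h3 : Real.tan (Real.pi / p) * (Real.pi / 2 / Real.tan (Real.pi / p)) = Real.pi / 2 := by
      field_simp
    calc |(1 - ζ).arg| ≤ Real.pi / 2 := h1
      _ = Real.tan (Real.pi / p) * (Real.pi / 2 / Real.tan (Real.pi / p)) := h3.symm
      _ ≤ Real.tan (Real.pi / p) * (LL c ζ).re :=
          mul_le_mul_of_nonneg_left (by linarith) htan.le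
  · exact ⟨1, one_pos, fun ζ h => by have := hre1 ζ h; linarith⟩
  · intro ζ h
    unfold LL
    have e : (1 : ℂ) - conj ζ = conj (1 - ζ) := by simp
    rw [e, Complex.log_conj]
    · simp
    · have := arg_lt h
      intro h3
      rw [h3, abs_of_pos hpi] at this
      linarith
  · refine ⟨1 + Real.log 2 + Real.pi / 2, by positivity, fun ζ ξ h1 h2 h12 => ?_⟩
    have hξ : 0 < ‖1 - ξ‖ := norm_pos_iff.mpr (ne_zero h2)
    have hζ : 0 < ‖1 - ζ‖ := norm_pos_iff.mpr (ne_zero h1)
    have h3 : ‖LL c ζ‖ ≤ |(LL c ζ).re| + |(LL c ζ).im| := Complex.norm_le_abs_re_add_abs_im _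
    have h4 := hre1 ζ h1
    have h5 := hre1 ξ h2
    have h6 : (LL c ζ).re ≤ (LL c ξ).re + Real.log 2 := by
      rw [LL_re, LL_re]
      have h7 : Real.log (‖1 - ξ‖ / 2) ≤ Real.log ‖1 - ζ‖ :=
        Real.log_le_log (by positivity) (by linarith)
      rw [Real.log_div hξ.ne' (by norm_num)] at h7
      linarith
    have h8 : |(LL c ζ).im| ≤ Real.pi / 2 := by
      rw [LL_im, abs_neg]; exact (arg_lt h1).le
    rw [abs_of_pos (by linarith)] at h3
    have h9 : 1 ≤ (LL c ξ).re := by linarith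
    nlinarith
  · refine ⟨1, one_pos, fun ζ h => ?_⟩
    have hζ : 0 < ‖1 - ζ‖ := norm_pos_iff.mpr (ne_zero h)
    rw [(LL_deriv c h).deriv, norm_div, norm_one, one_mul]
    have h1 : 1 / ‖1 - ζ‖ * (1 - ‖ζ‖) ≤ 1 := by
      rw [div_mul_eq_mul_div, one_mul, div_le_one hζ]
      exact le_norm ζ
    refine h1.trans ?_
    have h4 := hre1 ζ h
    have h5 := Complex.re_le_norm (LL c ζ)
    linarith
  · -- pair
    refine ⟨2 * Real.pi, by positivity, fun u R M hR hu hM w hw => ?_⟩
    obtain ⟨a, ha⟩ := (dco.1 u).mp (hu.mono (ball_subset_ball hR.le))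
    have h1 := pair_sum dco par 0 le_rfl (LL c) (cl c) (cl_co c) u R hR hu a ha w hw
    have h2 := (ha w hw).mul_left ((Real.pi : ℝ) : ℂ)
    rw [← hasSum_nat_add_iff' 1] at h2
    have hB : ∀ n : ℕ, B 0 n * ((n : ℝ) + 1) = 1 := by
      intro n
      induction n with
      | zero => rw [BetL.zero 0 le_rfl]; norm_num
      | succ n ih =>
        have h := BetL.rec_ 0 le_rfl n
        push_cast
        calc B 0 (n + 1) * ((n : ℝ) + 1 + 1) = B 0 (n + 1) * ((n : ℝ) + 0 + 2) := by ring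
          _ = 1 := by rw [h, ih]
    have e1 : (fun n : ℕ => ((Real.pi * (((n : ℝ) + 1) ^ 2 * B 0 n * cl c (n + 1)) : ℝ) : ℂ) *
        (a (n + 1) * w ^ (n + 1))) = fun n : ℕ => ((Real.pi : ℝ) : ℂ) *
          (a (n + 1) * w ^ (n + 1)) := by
      funext n
      have h3 := hB n
      have h4 : (n : ℝ) + 1 ≠ 0 := by positivity
      have h5 : cl c (n + 1) = 1 / ((n : ℝ) + 1) := by
        unfold cl
        rw [if_neg (Nat.succ_ne_zero n)]
        push_cast
        rfl
      have e2 : ((n : ℝ) + 1) ^ 2 * B 0 n * cl c (n + 1) = 1 := by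
        rw [h5]
        have : ((n : ℝ) + 1) ^ 2 * B 0 n * (1 / ((n : ℝ) + 1)) = B 0 n * ((n : ℝ) + 1) := by
          field_simp
        rw [this, h3]
      rw [e2, mul_one]
    rw [e1] at h1
    rw [h1.unique h2, Finset.sum_range_one, pow_zero, mul_one]
    have h0 : u 0 = a 0 := by
      have h6 := ha 0 (by simp)
      have h7 : HasSum (fun k : ℕ => a k * (0 : ℂ) ^ k) (a 0) := by
        have h8 := hasSum_single (f := fun k : ℕ => a k * (0 : ℂ) ^ k) 0 (fun k hk => by
          simp [hk])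
        simpa using h8
      exact h6.unique h7
    rw [← h0, ← mul_sub, norm_mul, Complex.norm_real, Real.norm_of_nonneg hpi.le]
    have h5 : ‖u w - u 0‖ ≤ 2 * M := by
      refine (norm_sub_le _ _).trans ?_
      have k1 := hM w hw
      have k2 := hM 0 (by simp)
      linarith
    calc Real.pi * ‖u w - u 0‖ ≤ Real.pi * (2 * M) := mul_le_mul_of_nonneg_left h5 hpi.le
      _ = _ := by ring
  · refine trace_of 0 (LL c) (cl c) 1 one_pos (cl_co c) fun n => ?_
    unfold cl
    split_ifs with h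
    · rw [h]
      have : Real.log 2 + 1 ≤ c := by rw [hc]; linarith
      simp
      linarith
    · have hn : (0 : ℝ) < n := by exact_mod_cast Nat.pos_of_ne_zero h
      rw [one_mul, zero_sub, Real.rpow_neg_one, ← one_div]
      exact one_div_le_one_div_of_le hn (by linarith)

end Pool.Agent.Helper59K9.CY
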