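import Pool.Agent.Helper59K9.CY.KerA

/-!
# [KER1] the power kernel
-/

set_option autoImplicit false

open MeasureTheory Metric Filter Topology ComplexConjugate

namespace Pool.Agent.Helper59K9.CY

namespace KerL

theorem sector {t T : ℝ} (ht : |t| ≤ T) (hT : T < Real.pi / 2) :
    |Real.sin t| ≤ Real.tan T * Real.cos t := by
  have hT0 : 0 ≤ T := (abs_nonneg t).trans ht
  have hc : 0 < Real.cos T := Real.cos_pos_of_mem_Ioo ⟨by linarith [Real.pi_pos], hT⟩
  have h1 : Real.cos t = Real.cos |t| := (Real.cos_abs t).symm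
  have h2 : |Real.sin t| = Real.sin |t| := by
    rcases abs_cases t with ⟨h, h'⟩ | ⟨h, h'⟩
    · rw [h]
      exact abs_of_nonneg (Real.sin_nonneg_of_nonneg_of_le_pi h' (by
        have := Real.pi_pos
        linarith))
    · rw [h, Real.sin_neg, abs_of_nonpos]
      apply Real.sin_nonpos_of_nonpos_of_neg_pi_le h'.le
      have := Real.pi_pos
      linarith
  rw [h1, h2, Real.tan_eq_sin_div_cos, div_mul_eq_mul_div, le_div_iff₀ hc]
  have h3 := Real.sin_nonneg_of_nonneg_of_le_pi (x := T - |t|) (by linarith)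
    (by have := Real.pi_pos
        have := abs_nonneg t
        linarith)
  rw [Real.sin_sub] at h3
  linarith

theorem re_pos {ζ : ℂ} (h : ‖ζ‖ < 1) : 0 < (1 - ζ).re := by
  rw [Complex.sub_re, Complex.one_re]
  have := Complex.re_le_norm ζ
  linarith

theorem norm_le_two {ζ : ℂ} (h : ‖ζ‖ < 1) : ‖1 - ζ‖ ≤ 2 := by
  refine (norm_sub_le _ _).trans ?_
  rw [norm_one]; linarith

theorem le_norm (ζ : ℂ) : 1 - ‖ζ‖ ≤ ‖1 - ζ‖ := by
  have := norm_sub_norm_le (1 : ℂ) ζ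
  rwa [norm_one] at this

theorem arg_lt {ζ : ℂ} (h : ‖ζ‖ < 1) : |(1 - ζ).arg| < Real.pi / 2 :=
  Complex.abs_arg_lt_pi_div_two_iff.mpr (Or.inl (re_pos h))

theorem ne_zero {ζ : ℂ} (h : ‖ζ‖ < 1) : 1 - ζ ≠ 0 := by
  intro h0
  have := re_pos h
  rw [h0] at this
  simp at this

/-- the kernel -/
noncomputable def KK (β : ℝ) (ζ : ℂ) : ℂ := (1 - ζ) ^ (-(β : ℂ))

theorem KK_norm (β : ℝ) (ζ : ℂ) : ‖KK β ζ‖ = ‖1 - ζ‖ ^ (-β) := by
  unfold KK
  rw [← Complex.ofReal_neg, Complex.norm_cpow_real]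

theorem KK_exp (β : ℝ) {ζ : ℂ} (h : ‖ζ‖ < 1) :
    (KK β ζ).re = ‖1 - ζ‖ ^ (-β) * Real.cos (β * (1 - ζ).arg) ∧
    (KK β ζ).im = -(‖1 - ζ‖ ^ (-β) * Real.sin (β * (1 - ζ).arg)) := by
  have h0 := ne_zero h
  have hn : 0 < ‖1 - ζ‖ := norm_pos_iff.mpr h0
  have e : KK β ζ = Complex.exp (((-β * Real.log ‖1 - ζ‖ : ℝ) : ℂ) +
      ((-(β * (1 - ζ).arg) : ℝ) : ℂ) * Complex.I) := by
    unfold KK
    rw [Complex.cpow_def_of_ne_zero h0]
    congr 1
    unfold Complex.log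
    push_cast
    ring
  rw [e, Complex.exp_add, Complex.exp_mul_I, ← Complex.ofReal_exp, ← Complex.ofReal_cos,
    ← Complex.ofReal_sin]
  have e2 : Real.exp (-β * Real.log ‖1 - ζ‖) = ‖1 - ζ‖ ^ (-β) := by
    rw [Real.rpow_def_of_pos hn]; congr 1; ring
  rw [e2, Real.cos_neg, Real.sin_neg]
  constructor
  · rw [Complex.re_ofReal_mul]
    simp only [Complex.add_re, Complex.mul_re, Complex.ofReal_re, Complex.I_re, Complex.ofReal_im,
      Complex.I_im, mul_zero, zero_mul, sub_zero, add_zero]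
  · rw [Complex.im_ofReal_mul]
    simp only [Complex.add_im, Complex.mul_im, Complex.ofReal_re, Complex.I_re, Complex.ofReal_im,
      Complex.I_im, mul_zero, zero_add, mul_one, add_zero]
    ring

theorem KK_deriv (β : ℝ) {ζ : ℂ} (h : ‖ζ‖ < 1) :
    HasDerivAt (KK β) ((β : ℂ) * (1 - ζ) ^ (-(β : ℂ) - 1)) ζ := by
  have h1 : HasDerivAt (fun z : ℂ => 1 - z) (-1) ζ := by
    simpa using (hasDerivAt_id ζ).const_sub 1
  have h2 := h1.cpow_const (c := -(β : ℂ)) (Or.inl (re_pos h))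
  refine h2.congr_deriv ?_
  ring

/-- the Taylor coefficients -/
noncomputable def cf (β : ℝ) (n : ℕ) : ℝ := (ascPochhammer ℝ n).eval β / n.factorial

theorem cf_zero (β : ℝ) : cf β 0 = 1 := by simp [cf]

theorem cf_succ (β : ℝ) (n : ℕ) : cf β (n + 1) * ((n : ℝ) + 1) = cf β n * ((n : ℝ) + β) := by
  unfold cf
  rw [ascPochhammer_succ_eval, Nat.factorial_succ]
  push_cast
  have : (n.factorial : ℝ) ≠ 0 := by exact_mod_cast n.factorial_ne_zero
  field_simp
  ring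

theorem cf_co (β : ℝ) : Co (KK β) fun n => (cf β n : ℂ) := by
  intro z hz
  have h := (Complex.one_div_one_sub_cpow_hasFPowerSeriesOnBall_zero (β : ℂ)).hasSum (y := z) (by
    rw [Metric.mem_eball, edist_zero_right]
    rw [← ofReal_norm]
    exact ENNReal.ofReal_lt_one.mpr hz)
  rw [zero_add] at h
  have e1 : KK β z = 1 / (1 - z) ^ (β : ℂ) := by
    unfold KK
    rw [Complex.cpow_neg, one_div]
  rw [e1]
  suffices e0 : (fun n : ℕ => (cf β n : ℂ) * z ^ n) = fun n : ℕ =>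
      (FormalMultilinearSeries.ofScalars ℂ (fun n => Ring.choose ((β : ℂ) + n - 1) n) n)
        fun _ => z by
    rw [e0]; exact h
  funext n
  rw [FormalMultilinearSeries.ofScalars_apply_eq, smul_eq_mul]
  congr 1
  rw [← Ring.multichoose_eq]
  have h2 := Ring.factorial_nsmul_multichoose_eq_ascPochhammer (β : ℂ) n
  rw [Polynomial.ascPochhammer_smeval_eq_eval] at h2
  have h3 : (n.factorial : ℂ) ≠ 0 := by exact_mod_cast n.factorial_ne_zero
  rw [nsmul_eq_mul] at h2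
  unfold cf
  push_cast
  rw [div_eq_iff h3, mul_comm, h2]
  have h4 := Polynomial.eval₂_at_apply (p := ascPochhammer ℝ n) Complex.ofRealHom β
  rw [← Polynomial.eval_map, ascPochhammer_map] at h4
  exact h4.symm

theorem cf_pos (β : ℝ) (hβ : 0 < β) (n : ℕ) : 0 < cf β n := by
  unfold cf
  exact div_pos (ascPochhammer_pos n β hβ) (by exact_mod_cast n.factorial_pos)

theorem cf_lower (β : ℝ) (hβ : 0 < β) (hβ1 : β < 1) (n : ℕ) :
    β ≤ cf β (n + 1) * ((n : ℝ) + 1) ^ (1 - β) := by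
  induction n with
  | zero =>
    have h := cf_succ β 0
    rw [cf_zero] at h
    simp only [Nat.cast_zero, zero_add, mul_one, one_mul] at h
    simp [h]
  | succ n ih =>
    refine ih.trans ?_
    have h := cf_succ β (n + 1)
    push_cast at h ⊢
    have hn : (0 : ℝ) < (n : ℝ) + 1 + 1 := by positivity
    have hb := rpow_one_add_le_one_add_mul_self (s := -(1 / ((n : ℝ) + 1 + 1)))
      (by
        have : 1 / ((n : ℝ) + 1 + 1) ≤ 1 := by
          rw [div_le_one hn]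
          have : (0 : ℝ) ≤ n := Nat.cast_nonneg n
          linarith
        linarith) (p := 1 - β) (by linarith) (by linarith)
    have e1 : (1 : ℝ) + -(1 / ((n : ℝ) + 1 + 1)) = ((n : ℝ) + 1) / ((n : ℝ) + 1 + 1) := by
      field_simp; ring
    have h0 : (0 : ℝ) ≤ (n : ℝ) + 1 := by positivity
    rw [e1, Real.div_rpow h0 hn.le] at hb
    have e2 : (1 : ℝ) + (1 - β) * -(1 / ((n : ℝ) + 1 + 1)) =
        ((n : ℝ) + 1 + β) / ((n : ℝ) + 1 + 1) := by
      field_simp; ring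
    rw [e2, div_le_div_iff₀ (by positivity) hn] at hb
    have hp := (cf_pos β hβ (n + 1)).le
    have h5 : cf β (n + 1 + 1) * ((n : ℝ) + 1 + 1) ^ (1 - β) * ((n : ℝ) + 1 + 1) =
        cf β (n + 1) * (((n : ℝ) + 1 + β) * ((n : ℝ) + 1 + 1) ^ (1 - β)) := by
      linear_combination (((n : ℝ) + 1 + 1) ^ (1 - β)) * h
    have h6 : cf β (n + 1) * ((n : ℝ) + 1) ^ (1 - β) * ((n : ℝ) + 1 + 1) ≤
        cf β (n + 1 + 1) * ((n : ℝ) + 1 + 1) ^ (1 - β) * ((n : ℝ) + 1 + 1) := by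
      rw [h5, mul_assoc]
      exact mul_le_mul_of_nonneg_left hb hp
    exact le_of_mul_le_mul_right h6 hn

theorem cf_bound (β : ℝ) (hβ : 0 < β) (hβ1 : β < 1) (n : ℕ) :
    β * ((n : ℝ) + 1) ^ (β - 1) ≤ cf β n := by
  cases n with
  | zero => rw [cf_zero]; simp; exact hβ1.le
  | succ n =>
    have h := cf_lower β hβ hβ1 n
    have hn : (0 : ℝ) < (n : ℝ) + 1 := by positivity
    have h1 : (((n + 1 : ℕ) : ℝ) + 1) ^ (β - 1) ≤ ((n : ℝ) + 1) ^ (β - 1) := by
      apply Real.rpow_le_rpow_of_nonpos hn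
      · push_cast; linarith
      · linarith
    have h2 : ((n : ℝ) + 1) ^ (1 - β) * ((n : ℝ) + 1) ^ (β - 1) = 1 := by
      rw [← Real.rpow_add hn]; simp
    have h3 : 0 < ((n : ℝ) + 1) ^ (β - 1) := by positivity
    calc β * (((n + 1 : ℕ) : ℝ) + 1) ^ (β - 1) ≤ β * ((n : ℝ) + 1) ^ (β - 1) :=
          mul_le_mul_of_nonneg_left h1 hβ.le
      _ ≤ (cf β (n + 1) * ((n : ℝ) + 1) ^ (1 - β)) * ((n : ℝ) + 1) ^ (β - 1) :=
          mul_le_mul_of_nonneg_right h h3.le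
      _ = cf β (n + 1) := by rw [mul_assoc, h2, mul_one]

theorem cf_B (β : ℝ) (hβ : 0 < β) (n : ℕ) :
    ((n : ℝ) + 1) ^ 2 * B β n * cf β (n + 1) = β * ((n : ℝ) + 1) / ((n : ℝ) + 1 + β) := by
  induction n with
  | zero =>
    have h := cf_succ β 0
    rw [cf_zero] at h
    simp only [Nat.cast_zero, zero_add, mul_one, one_mul] at h
    rw [BetL.zero β hβ.le]
    simp only [Nat.cast_zero, zero_add, one_pow, one_mul, mul_one, h]
    rw [add_comm 1 β]; ring
  | succ n ih =>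
    have h1 := cf_succ β (n + 1)
    have h2 := BetL.rec_ β hβ.le n
    push_cast at h1 ⊢
    have p1 : (0 : ℝ) < (n : ℝ) + 1 := by positivity
    have p2 : (0 : ℝ) < (n : ℝ) + 1 + β := by positivity
    have p3 : (0 : ℝ) < (n : ℝ) + 1 + 1 + β := by positivity
    have p4 : (0 : ℝ) < (n : ℝ) + β + 2 := by positivity
    have p5 : (0 : ℝ) < (n : ℝ) + 1 + 1 := by positivity
    rw [eq_div_iff p2.ne'] at ih
    rw [eq_div_iff p3.ne']
    have e1 : B β (n + 1) = B β n * ((n : ℝ) + 1) / ((n : ℝ) + β + 2) := by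
      rw [eq_div_iff p4.ne']; exact h2
    have e2 : cf β (n + 1 + 1) = cf β (n + 1) * ((n : ℝ) + 1 + β) / ((n : ℝ) + 1 + 1) := by
      rw [eq_div_iff p5.ne']; exact h1
    rw [e1, e2]
    have e3 : ((n : ℝ) + 1 + 1) ^ 2 * (B β n * ((n : ℝ) + 1) / ((n : ℝ) + β + 2)) *
        (cf β (n + 1) * ((n : ℝ) + 1 + β) / ((n : ℝ) + 1 + 1)) * ((n : ℝ) + 1 + 1 + β) =
        (((n : ℝ) + 1) ^ 2 * B β n * cf β (n + 1) * ((n : ℝ) + 1 + β)) *
          (((n : ℝ) + 1 + 1) * ((n : ℝ) + 1 + 1 + β)) / (((n : ℝ) + 1) * ((n : ℝ) + β + 2)) := by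
      field_simp
    rw [e3, ih]
    have e4 : (n : ℝ) + 1 + 1 + β = (n : ℝ) + β + 2 := by ring
    rw [e4]
    field_simp

end KerL

open KerL

theorem ker1 (dco : S_DCO) (par : S_PAR) : S_KER1 := by
  intro β hβ hβ1
  have hT : Real.pi / (2 / β) = β * (Real.pi / 2) := by field_simp
  have hTlt : β * (Real.pi / 2) < Real.pi / 2 := by
    have := Real.pi_pos; nlinarith
  have hc : 0 < Real.cos (β * (Real.pi / 2)) :=
    Real.cos_pos_of_mem_Ioo ⟨by have := Real.pi_pos; nlinarith, hTlt⟩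
  have harg : ∀ ζ : ℂ, ‖ζ‖ < 1 → |β * (1 - ζ).arg| ≤ β * (Real.pi / 2) := by
    intro ζ h
    rw [abs_mul, abs_of_pos hβ]
    exact mul_le_mul_of_nonneg_left (arg_lt h).le hβ.le
  have hcos : ∀ ζ : ℂ, ‖ζ‖ < 1 → Real.cos (β * (Real.pi / 2)) ≤ Real.cos (β * (1 - ζ).arg) := by
    intro ζ h
    rw [← Real.cos_abs (β * (1 - ζ).arg)]
    exact Real.cos_le_cos_of_nonneg_of_le_pi (abs_nonneg _) (by have := Real.pi_pos; linarith)
      (harg ζ h)
  have hre : ∀ ζ : ℂ, ‖ζ‖ < 1 → ‖1 - ζ‖ ^ (-β) * Real.cos (β * (Real.pi / 2)) ≤ (KK β ζ).re := by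
    intro ζ h
    rw [(KK_exp β h).1]
    exact mul_le_mul_of_nonneg_left (hcos ζ h) (by positivity)
  show Ker β (2 / β) (KK β)
  refine ⟨?_, ?_, ?_, ?_, ?_, ?_, ?_, ?_⟩
  · intro ζ hζ
    rw [mem_ball_zero_iff] at hζ
    exact (KK_deriv β hζ).differentiableAt.differentiableWithinAt
  · intro ζ h
    rw [hT, (KK_exp β h).1, (KK_exp β h).2, abs_neg, abs_mul, abs_of_nonneg (by positivity)]
    calc _ ≤ ‖1 - ζ‖ ^ (-β) * (Real.tan (β * (Real.pi / 2)) * Real.cos (β * (1 - ζ).arg)) :=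
          mul_le_mul_of_nonneg_left (sector (harg ζ h) hTlt) (by positivity)
      _ = _ := by ring
  · refine ⟨2 ^ (-β) * Real.cos (β * (Real.pi / 2)), by positivity, fun ζ h => ?_⟩
    refine le_trans ?_ (hre ζ h)
    apply mul_le_mul_of_nonneg_right _ hc.le
    exact Real.rpow_le_rpow_of_nonpos (norm_pos_iff.mpr (ne_zero h)) (norm_le_two h) (by linarith)
  · intro ζ h
    unfold KK
    have e : (1 : ℂ) - conj ζ = conj (1 - ζ) := by simp
    rw [e, Complex.conj_cpow]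
    · simp
    · have := arg_lt h
      have h2 := Real.pi_pos
      intro h3
      rw [h3, abs_of_pos h2] at this
      linarith
  · refine ⟨2 ^ β / Real.cos (β * (Real.pi / 2)), by positivity, fun ζ ξ h1 h2 h12 => ?_⟩
    rw [KK_norm]
    have hξ : 0 < ‖1 - ξ‖ := norm_pos_iff.mpr (ne_zero h2)
    have hζ : 0 < ‖1 - ζ‖ := norm_pos_iff.mpr (ne_zero h1)
    have h3 : ‖1 - ζ‖ ^ (-β) ≤ 2 ^ β * ‖1 - ξ‖ ^ (-β) := by
      have h4 : ‖1 - ζ‖ ^ (-β) ≤ (‖1 - ξ‖ / 2) ^ (-β) :=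
        Real.rpow_le_rpow_of_nonpos (by positivity) (by linarith) (by linarith)
      rw [Real.div_rpow hξ.le (by norm_num), Real.rpow_neg (by norm_num : (0:ℝ) ≤ 2)] at h4
      calc _ ≤ _ := h4
        _ = _ := by rw [div_inv_eq_mul, mul_comm]
    calc _ ≤ 2 ^ β * ‖1 - ξ‖ ^ (-β) := h3
      _ = 2 ^ β / Real.cos (β * (Real.pi / 2)) *
          (‖1 - ξ‖ ^ (-β) * Real.cos (β * (Real.pi / 2))) := by
          have : ∀ A x c : ℝ, c ≠ 0 → A * x = A / c * (x * c) := by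
            intro A x c hc; field_simp
          exact this _ _ _ hc.ne'
      _ ≤ _ := mul_le_mul_of_nonneg_left (hre ξ h2) (by positivity)
  · refine ⟨β, hβ, fun ζ h => ?_⟩
    have hζ : 0 < ‖1 - ζ‖ := norm_pos_iff.mpr (ne_zero h)
    rw [(KK_deriv β h).deriv, norm_mul, Complex.norm_real, Real.norm_of_nonneg hβ.le, KK_norm]
    have e : -(β : ℂ) - 1 = ((-β - 1 : ℝ) : ℂ) := by push_cast; ring
    rw [e, Complex.norm_cpow_real, mul_assoc]
    apply mul_le_mul_of_nonneg_left _ hβ.le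
    calc ‖1 - ζ‖ ^ (-β - 1) * (1 - ‖ζ‖) ≤ ‖1 - ζ‖ ^ (-β - 1) * ‖1 - ζ‖ :=
          mul_le_mul_of_nonneg_left (le_norm ζ) (by positivity)
      _ = ‖1 - ζ‖ ^ (-β) := by
          rw [← Real.rpow_add_one hζ.ne']; congr 1; ring
  · -- pair
    refine ⟨2 * Real.pi * β, by positivity, fun u R M hR hu hM w hw => ?_⟩
    obtain ⟨a, ha⟩ := (dco.1 u).mp (hu.mono (ball_subset_ball hR.le))
    have h1 := pair_sum dco par β hβ.le (KK β) (cf β) (cf_co β) u R hR hu a ha w hw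
    obtain ⟨S, hS, hSM⟩ := mult β hβ u a M ha hM w hw
    have h2 := ((ha w hw).sub hS).mul_left ((Real.pi * β : ℝ) : ℂ)
    rw [← hasSum_nat_add_iff' 1] at h2
    have e0 : ((Real.pi * β : ℝ) : ℂ) * (u w - S) - ∑ i ∈ Finset.range 1,
        ((Real.pi * β : ℝ) : ℂ) * (a i * w ^ i -
          ((β / ((i : ℝ) + β) : ℝ) : ℂ) * (a i * w ^ i)) = ((Real.pi * β : ℝ) : ℂ) * (u w - S) := by
      rw [Finset.sum_range_one]
      have : β / (((0 : ℕ) : ℝ) + β) = 1 := by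
        rw [Nat.cast_zero, zero_add, div_self hβ.ne']
      rw [this]
      simp
    rw [e0] at h2
    have e1 : (fun n : ℕ => ((Real.pi * (((n : ℝ) + 1) ^ 2 * B β n * cf β (n + 1)) : ℝ) : ℂ) *
        (a (n + 1) * w ^ (n + 1))) = fun n : ℕ => ((Real.pi * β : ℝ) : ℂ) *
          (a (n + 1) * w ^ (n + 1) - ((β / (((n + 1 : ℕ) : ℝ) + β) : ℝ) : ℂ) *
            (a (n + 1) * w ^ (n + 1))) := by
      funext n
      rw [cf_B β hβ n]
      have p2 : (n : ℝ) + 1 + β ≠ 0 := by positivity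
      have e2 : Real.pi * (β * ((n : ℝ) + 1) / ((n : ℝ) + 1 + β)) =
          Real.pi * β * (1 - β / ((n : ℝ) + 1 + β)) := by
        field_simp; ring
      rw [e2]
      push_cast
      ring
    rw [e1] at h1
    rw [h1.unique h2, norm_mul, Complex.norm_real, Real.norm_of_nonneg (by positivity)]
    have h5 : ‖u w - S‖ ≤ 2 * M := by
      refine (norm_sub_le _ _).trans ?_
      have := hM w hw
      linarith
    calc Real.pi * β * ‖u w - S‖ ≤ Real.pi * β * (2 * M) :=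
          mul_le_mul_of_nonneg_left h5 (by positivity)
      _ = _ := by ring
  · exact trace_of β (KK β) (cf β) β hβ (cf_co β) (cf_bound β hβ hβ1)

end Pool.Agent.Helper59K9.CY
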