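import Pool.Agent.Helper59K9.CY.St

/-!
# [HANS] Hansson's inequality
-/

set_option autoImplicit false

open MeasureTheory Metric Filter Topology ComplexConjugate
open scoped Classical

namespace Pool.Agent.Helper59K9.CY

namespace HansL

theorem collect (J : ℕ) (s : ℕ → Finset ℂ) (y : ℕ → ℂ → ℝ) (h : ℂ → ℝ) :
    ∑ w ∈ (Finset.range J).biUnion s, (∑ j ∈ Finset.range J, if w ∈ s j then y j w else 0) * h w =
      ∑ j ∈ Finset.range J, ∑ w ∈ s j, y j w * h w := by
  simp_rw [Finset.sum_mul]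
  rw [Finset.sum_comm]
  refine Finset.sum_congr rfl fun j hj => ?_
  have h1 : ∀ w ∈ (Finset.range J).biUnion s, (if w ∈ s j then y j w else 0) * h w =
      if w ∈ s j then y j w * h w else 0 := by
    intro w _
    split_ifs
    · rfl
    · rw [zero_mul]
  rw [Finset.sum_congr rfl h1, ← Finset.sum_filter]
  apply Finset.sum_congr _ fun _ _ => rfl
  ext w
  rw [Finset.mem_filter, Finset.mem_biUnion]
  exact ⟨fun h => h.2, fun h => ⟨⟨j, hj, h⟩, h⟩⟩

theorem geom (J j : ℕ) : ∑ i ∈ (Finset.range J).filter (· ≤ j), (2 : ℝ) ^ i ≤ 2 * 2 ^ j := by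
  have h1 : ∑ i ∈ (Finset.range J).filter (· ≤ j), (2 : ℝ) ^ i ≤
      ∑ i ∈ Finset.range (j + 1), (2 : ℝ) ^ i := by
    refine Finset.sum_le_sum_of_subset_of_nonneg ?_ fun i _ _ => by positivity
    intro i hi
    rw [Finset.mem_filter] at hi
    rw [Finset.mem_range]
    omega
  refine h1.trans ?_
  rw [geom_sum_eq (by norm_num)]
  rw [pow_succ]
  norm_num
  linarith

theorem double (J : ℕ) (m : ℕ → ℝ) (hm : ∀ j, 0 ≤ m j) (E : ℕ → ℕ → ℝ) (C0 : ℝ) (hC0 : 0 ≤ C0)
    (h1 : ∀ i j, i < J → j < J → E i j ≤ C0 * 2 ^ i * 2 ^ j * m j)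
    (h2 : ∀ i j, i < J → j < J → E i j ≤ C0 * 2 ^ i * 2 ^ j * m i) :
    ∑ i ∈ Finset.range J, ∑ j ∈ Finset.range J, E i j ≤
      4 * C0 * ∑ j ∈ Finset.range J, 4 ^ j * m j := by
  have h3 : ∀ i ∈ Finset.range J, ∀ j ∈ Finset.range J, E i j ≤
      (if i ≤ j then C0 * 2 ^ i * 2 ^ j * m j else 0) +
      (if j ≤ i then C0 * 2 ^ i * 2 ^ j * m i else 0) := by
    intro i hi j hj
    rw [Finset.mem_range] at hi hj
    have n1 : 0 ≤ C0 * 2 ^ i * 2 ^ j * m j := mul_nonneg (by positivity) (hm j)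
    have n2 : 0 ≤ C0 * 2 ^ i * 2 ^ j * m i := mul_nonneg (by positivity) (hm i)
    have := h1 i j hi hj
    have := h2 i j hi hj
    split_ifs <;> linarith
  have h4 : ∀ j ∈ Finset.range J, ∑ i ∈ Finset.range J,
      (if i ≤ j then C0 * 2 ^ i * 2 ^ j * m j else 0) ≤ 2 * C0 * (4 ^ j * m j) := by
    intro j _
    rw [← Finset.sum_filter]
    have e : ∑ i ∈ (Finset.range J).filter (· ≤ j), C0 * 2 ^ i * 2 ^ j * m j =
        C0 * 2 ^ j * m j * ∑ i ∈ (Finset.range J).filter (· ≤ j), (2 : ℝ) ^ i := by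
      rw [Finset.mul_sum]
      exact Finset.sum_congr rfl fun i _ => by ring
    rw [e]
    calc _ ≤ C0 * 2 ^ j * m j * (2 * 2 ^ j) := by
          apply mul_le_mul_of_nonneg_left (geom J j)
          exact mul_nonneg (by positivity) (hm j)
      _ = _ := by
          have : (4 : ℝ) ^ j = 2 ^ j * 2 ^ j := by rw [← mul_pow]; norm_num
          rw [this]; ring
  calc _ ≤ ∑ i ∈ Finset.range J, ∑ j ∈ Finset.range J,
        ((if i ≤ j then C0 * 2 ^ i * 2 ^ j * m j else 0) +
        (if j ≤ i then C0 * 2 ^ i * 2 ^ j * m i else 0)) :=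
        Finset.sum_le_sum fun i hi => Finset.sum_le_sum fun j hj => h3 i hi j hj
    _ = (∑ j ∈ Finset.range J, ∑ i ∈ Finset.range J,
          (if i ≤ j then C0 * 2 ^ i * 2 ^ j * m j else 0)) +
        ∑ i ∈ Finset.range J, ∑ j ∈ Finset.range J,
          (if j ≤ i then C0 * 2 ^ j * 2 ^ i * m i else 0) := by
        simp_rw [Finset.sum_add_distrib]
        congr 1
        · rw [Finset.sum_comm]
        · refine Finset.sum_congr rfl fun i _ => Finset.sum_congr rfl fun j _ => ?_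
          split_ifs
          · ring
          · rfl
    _ ≤ (∑ j ∈ Finset.range J, 2 * C0 * (4 ^ j * m j)) +
        ∑ j ∈ Finset.range J, 2 * C0 * (4 ^ j * m j) :=
        add_le_add (Finset.sum_le_sum h4) (Finset.sum_le_sum h4)
    _ = _ := by rw [← Finset.mul_sum]; ring

end HansL

open HansL

theorem hans : S_HANS := by
  intro β p K hβ hβ1 hp hK C0 f g hC0 hf hg
  obtain ⟨C, hC, htr⟩ := hK.trace
  obtain ⟨a, ha, hna⟩ := hf
  obtain ⟨b, hb, hnb⟩ := hg
  set Nf : ℝ := (nrm (1 - β) a).toReal with hNf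
  set Ng : ℝ := (nrm (1 - β) b).toReal with hNg
  have hNf0 : 0 ≤ Nf := ENNReal.toReal_nonneg
  have hNg0 : 0 ≤ Ng := ENNReal.toReal_nonneg
  refine ⟨8 * C * C0 * (Nf + Ng), ?_⟩
  intro J s x hsx hKx
  set S := (Finset.range J).biUnion s with hS
  set y : ℕ → ℂ → ℝ := fun j w => 2 ^ j * x j w with hy
  set Y : ℂ → ℝ := fun w => ∑ j ∈ Finset.range J, if w ∈ s j then y j w else 0 with hY
  set m : ℕ → ℝ := fun j => if j < J then ∑ w ∈ s j, x j w else 0 with hm
  have hm0 : ∀ j, 0 ≤ m j := by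
    intro j
    rw [hm]
    simp only
    split_ifs with h
    · exact Finset.sum_nonneg fun w hw => (hsx j h w hw).2.1
    · exact le_rfl
  have hmj : ∀ j, j < J → m j = ∑ w ∈ s j, x j w := by
    intro j hj
    rw [hm]; simp only; rw [if_pos hj]
  set A : ℝ := ∑ j ∈ Finset.range J, 4 ^ j * m j with hA
  have hAeq : ∑ j ∈ Finset.range J, (4 : ℝ) ^ j * ∑ w ∈ s j, x j w = A :=
    Finset.sum_congr rfl fun j hj => by rw [hmj j (Finset.mem_range.mp hj)]
  rw [hAeq]
  have hA0 : 0 ≤ A := Finset.sum_nonneg fun j _ => mul_nonneg (by positivity) (hm0 j)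
  have hSY : ∀ w ∈ S, ‖w‖ < 1 ∧ 0 ≤ Y w := by
    intro w hw
    rw [hS, Finset.mem_biUnion] at hw
    obtain ⟨j, hj, hwj⟩ := hw
    refine ⟨(hsx j (Finset.mem_range.mp hj) w hwj).1, ?_⟩
    refine Finset.sum_nonneg fun i hi => ?_
    split_ifs with h
    · exact mul_nonneg (by positivity) (hsx i (Finset.mem_range.mp hi) w h).2.1
    · exact le_rfl
  -- lower bound
  have h1 : A ≤ ∑ w ∈ S, Y w * ‖f w‖ + ∑ w ∈ S, Y w * ‖g w‖ := by
    rw [hS, hY, collect J s y (fun w => ‖f w‖), collect J s y (fun w => ‖g w‖),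
      ← Finset.sum_add_distrib, ← hAeq]
    refine Finset.sum_le_sum fun j hj => ?_
    have hjJ := Finset.mem_range.mp hj
    rw [← Finset.sum_add_distrib, Finset.mul_sum]
    refine Finset.sum_le_sum fun w hw => ?_
    obtain ⟨-, h2, h3⟩ := hsx j hjJ w hw
    rw [hy]
    simp only
    have e : (4 : ℝ) ^ j = 2 ^ j * 2 ^ j := by rw [← mul_pow]; norm_num
    have p1 : (0 : ℝ) < 2 ^ j := by positivity
    calc (4 : ℝ) ^ j * x j w = (2 ^ j * x j w) * 2 ^ j := by rw [e]; ring
      _ ≤ (2 ^ j * x j w) * (‖f w‖ + ‖g w‖) :=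
          mul_le_mul_of_nonneg_left h3 (mul_nonneg p1.le h2)
      _ = _ := by ring
  -- the energy
  have h2 : ∑ w ∈ S, ∑ v ∈ S, Y w * Y v * ‖K (w * conj v)‖ ≤ 4 * C0 * A := by
    have e1 : ∑ w ∈ S, ∑ v ∈ S, Y w * Y v * ‖K (w * conj v)‖ =
        ∑ i ∈ Finset.range J, ∑ j ∈ Finset.range J,
          ∑ w ∈ s i, ∑ v ∈ s j, y i w * y j v * ‖K (w * conj v)‖ := by
      have e2 : ∑ w ∈ S, ∑ v ∈ S, Y w * Y v * ‖K (w * conj v)‖ =
          ∑ w ∈ S, Y w * ∑ v ∈ S, Y v * ‖K (w * conj v)‖ := by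
        refine Finset.sum_congr rfl fun w _ => ?_
        rw [Finset.mul_sum]
        exact Finset.sum_congr rfl fun v _ => by ring
      rw [e2, hS, hY, collect J s y (fun w => ∑ v ∈ (Finset.range J).biUnion s,
        (∑ j ∈ Finset.range J, if v ∈ s j then y j v else 0) * ‖K (w * conj v)‖)]
      refine Finset.sum_congr rfl fun i _ => ?_
      have e3 : ∀ w ∈ s i, y i w * ∑ v ∈ (Finset.range J).biUnion s,
          (∑ j ∈ Finset.range J, if v ∈ s j then y j v else 0) * ‖K (w * conj v)‖ =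
          ∑ j ∈ Finset.range J, ∑ v ∈ s j, y i w * y j v * ‖K (w * conj v)‖ := by
        intro w _
        rw [collect J s y (fun v => ‖K (w * conj v)‖), Finset.mul_sum]
        refine Finset.sum_congr rfl fun j _ => ?_
        rw [Finset.mul_sum]
        exact Finset.sum_congr rfl fun v _ => by ring
      rw [Finset.sum_congr rfl e3, Finset.sum_comm]
    rw [e1]
    apply double J m hm0 _ C0 hC0.le
    · intro i j hi hj
      rw [Finset.sum_comm, hmj j hj, Finset.mul_sum]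
      refine Finset.sum_le_sum fun v hv => ?_
      have h3 := hKx i hi v (hsx j hj v hv).1
      have h4 := (hsx j hj v hv).2.1
      have e4 : ∑ w ∈ s i, y i w * y j v * ‖K (w * conj v)‖ =
          2 ^ i * 2 ^ j * x j v * ∑ w ∈ s i, x i w * ‖K (v * conj w)‖ := by
        rw [Finset.mul_sum]
        refine Finset.sum_congr rfl fun w hw => ?_
        have e5 : ‖K (v * conj w)‖ = ‖K (w * conj v)‖ := by
          have e6 : v * conj w = conj (w * conj v) := by
            rw [map_mul, Complex.conj_conj, mul_comm]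
          rw [e6, hK.cnj, RCLike.norm_conj]
          rw [norm_mul, RCLike.norm_conj]
          have k1 := (hsx i hi w hw).1
          have k2 := (hsx j hj v hv).1
          nlinarith [norm_nonneg w, norm_nonneg v]
        rw [e5, hy]
        simp only
        ring
      rw [e4]
      calc _ ≤ 2 ^ i * 2 ^ j * x j v * C0 :=
            mul_le_mul_of_nonneg_left h3 (mul_nonneg (by positivity) h4)
        _ = _ := by ring
    · intro i j hi hj
      rw [hmj i hi, Finset.mul_sum]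
      refine Finset.sum_le_sum fun w hw => ?_
      have h3 := hKx j hj w (hsx i hi w hw).1
      have h4 := (hsx i hi w hw).2.1
      have e4 : ∑ v ∈ s j, y i w * y j v * ‖K (w * conj v)‖ =
          2 ^ i * 2 ^ j * x i w * ∑ v ∈ s j, x j v * ‖K (w * conj v)‖ := by
        rw [Finset.mul_sum]
        refine Finset.sum_congr rfl fun v _ => ?_
        rw [hy]
        simp only
        ring
      rw [e4]
      calc _ ≤ 2 ^ i * 2 ^ j * x i w * C0 :=
            mul_le_mul_of_nonneg_left h3 (mul_nonneg (by positivity) h4)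
        _ = _ := by ring
  have h3 := htr f a ha hna S Y hSY
  have h4 := htr g b hb hnb S Y hSY
  have h5 : (∑ w ∈ S, Y w * ‖f w‖) ^ 2 ≤ C * Nf * (4 * C0 * A) :=
    h3.trans (mul_le_mul_of_nonneg_left h2 (by positivity))
  have h6 : (∑ w ∈ S, Y w * ‖g w‖) ^ 2 ≤ C * Ng * (4 * C0 * A) :=
    h4.trans (mul_le_mul_of_nonneg_left h2 (by positivity))
  set F := ∑ w ∈ S, Y w * ‖f w‖ with hF
  set G := ∑ w ∈ S, Y w * ‖g w‖ with hG
  have h7 : A * A ≤ (8 * C * C0 * (Nf + Ng)) * A := by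
    have h8 : A * A ≤ (F + G) ^ 2 := by
      rw [← sq]
      exact pow_le_pow_left₀ hA0 h1 2
    nlinarith [sq_nonneg (F - G)]
  rcases hA0.eq_or_lt with h | h
  · rw [← h]; positivity
  · exact le_of_mul_le_mul_right h7 h

end Pool.Agent.Helper59K9.CY
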