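import Pool.Agent.Helper59K9.CY.Eqf
import Pool.Agent.Helper59K9.CY.Hans

/-!
# [LEV] existence of the level potentials
-/

set_option autoImplicit false

open MeasureTheory Metric Filter Topology ComplexConjugate
open scoped Classical

namespace Pool.Agent.Helper59K9.CY

theorem lev (exi : S_EXI) (lpb : S_LPB) (lps : S_LPS) : S_LEV := by
  intro β p K hβ hβ1 hp hK f g hf hg
  obtain ⟨C0, hC0, hEq⟩ := eqf β p K hp hK
  obtain ⟨C1, hC1⟩ := hans β p K hβ hβ1 hp hK C0 f g hC0 hf hg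
  -- the level sets and their capacities
  set E : ℕ → Set ℂ := fun j => {z | ‖z‖ < 1 ∧ (2 : ℝ) ^ j ≤ ‖f z‖ + ‖g z‖} with hE
  set P : ℕ → ℝ → Prop := fun j m => ∃ (s : Finset ℂ) (x : ℂ → ℝ),
    (∀ w ∈ s, w ∈ E j ∧ 0 ≤ x w) ∧
    (∀ z : ℂ, ‖z‖ < 1 → ∑ w ∈ s, x w * ‖K (z * conj w)‖ ≤ C0) ∧ m = ∑ w ∈ s, x w with hP
  set c : ℕ → ℝ := fun j => sSup {m | P j m} with hc
  have hP0 : ∀ j, P j 0 := fun j => ⟨∅, 0, by simp, by simp [hC0.le], by simp⟩
  have hne : ∀ j, {m | P j m}.Nonempty := fun j => ⟨0, hP0 j⟩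
  -- the inequality of Hansson for a choice of measures
  have hhans : ∀ (J : ℕ) (m : ℕ → ℝ), (∀ j < J, P j (m j)) →
      ∑ j ∈ Finset.range J, (4 : ℝ) ^ j * m j ≤ C1 := by
    intro J m hm
    have hm' : ∀ j, ∃ (s : Finset ℂ) (x : ℂ → ℝ), j < J → (∀ w ∈ s, w ∈ E j ∧ 0 ≤ x w) ∧
        (∀ z : ℂ, ‖z‖ < 1 → ∑ w ∈ s, x w * ‖K (z * conj w)‖ ≤ C0) ∧ m j = ∑ w ∈ s, x w := by
      intro j
      by_cases hj : j < J
      · obtain ⟨s, x, h⟩ := hm j hj
        exact ⟨s, x, fun _ => h⟩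
      · exact ⟨∅, 0, fun h => absurd h hj⟩
    choose s x hsx using hm'
    have h := hC1 J s x
      (fun j hj w hw => ⟨((hsx j hj).1 w hw).1.1, ((hsx j hj).1 w hw).2, ((hsx j hj).1 w hw).1.2⟩)
      (fun j hj => (hsx j hj).2.1)
    refine le_trans (le_of_eq (Finset.sum_congr rfl fun j hj => ?_)) h
    rw [(hsx j (Finset.mem_range.mp hj)).2.2]
  have hbdd : ∀ j, BddAbove {m | P j m} := by
    intro j
    refine ⟨C1 / 4 ^ j, ?_⟩
    intro m hm
    have h := hhans (j + 1) (fun i => if i = j then m else 0) (by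
      intro i _
      by_cases hij : i = j
      · rw [if_pos hij, hij]; exact hm
      · rw [if_neg hij]; exact hP0 i)
    rw [Finset.sum_eq_single j] at h
    · rw [if_pos rfl] at h
      rw [le_div_iff₀ (by positivity)]
      linarith
    · intro i _ hij
      rw [if_neg hij, mul_zero]
    · intro hj
      exact absurd (Finset.mem_range.mpr (Nat.lt_succ_self j)) hj
  have hc0 : ∀ j, 0 ≤ c j := fun j => le_csSup (hbdd j) (hP0 j)
  have hpart : ∀ J, ∑ j ∈ Finset.range J, (4 : ℝ) ^ j * c j ≤ C1 := by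
    intro J
    refine le_of_forall_pos_le_add fun ε hε => ?_
    set T : ℝ := ∑ j ∈ Finset.range J, (4 : ℝ) ^ j with hT
    have hT0 : 0 ≤ T := Finset.sum_nonneg fun j _ => by positivity
    set δ : ℝ := ε / (T + 1) with hδ
    have hδ0 : 0 < δ := by rw [hδ]; positivity
    have hex : ∀ j, ∃ m, P j m ∧ c j - δ < m := by
      intro j
      obtain ⟨m, hm, hlt⟩ := exists_lt_of_lt_csSup (hne j) (sub_lt_self (c j) hδ0)
      exact ⟨m, hm, hlt⟩
    choose m hm hlt using hex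
    have h := hhans J m (fun j _ => hm j)
    have h2 : ∑ j ∈ Finset.range J, (4 : ℝ) ^ j * c j ≤
        ∑ j ∈ Finset.range J, (4 : ℝ) ^ j * m j + δ * T := by
      rw [hT, Finset.mul_sum, ← Finset.sum_add_distrib]
      refine Finset.sum_le_sum fun j _ => ?_
      have := hlt j
      have h4 : (0 : ℝ) < 4 ^ j := by positivity
      nlinarith
    have h3 : δ * T ≤ ε := by
      rw [hδ, div_mul_eq_mul_div, div_le_iff₀ (by positivity)]
      nlinarith
    linarith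
  have hsum : Summable fun j => (4 : ℝ) ^ j * c j :=
    summable_of_sum_range_le (fun j => mul_nonneg (by positivity) (hc0 j)) hpart
  -- the equilibrium potentials
  have hex : ∀ j, ∃ κ : ℂ → ℂ, LP K (c j) κ ∧ (∀ z : ℂ, ‖z‖ < 1 → ‖κ z‖ ≤ C0) ∧
      ∀ z ∈ E j, 1 ≤ (κ z).re := by
    intro j
    refine exi β p K hβ hβ1 hp hK C0 hC0 hEq (E j) (c j) ?_ ?_
    · intro z hz
      rw [mem_ball_zero_iff]
      exact hz.1
    · intro s x hs hx
      exact le_csSup (hbdd j) ⟨s, x, hs, hx, rfl⟩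
  choose κ hκ1 hκ2 hκ3 using hex
  obtain ⟨⟨CL, hCL, hL⟩, -, -⟩ := lpb β p K hβ hβ1 hp hK
  obtain ⟨hconst, -, hadd, -⟩ := lps β p K hβ hβ1 hp hK
  obtain ⟨k0, hk0, hK0⟩ := hK.pos
  have hK0' : k0 ≤ (K 0).re := hK0 0 (by simp)
  refine ⟨fun j z => κ j z + (((1 / 8 : ℝ) ^ j : ℝ) : ℂ) * K 0, fun j => c j + (1 / 8 : ℝ) ^ j,
    C0 + ‖K 0‖, by positivity, ?_, ?_, ?_, ?_⟩
  · intro j
    exact hadd (c j) ((1 / 8 : ℝ) ^ j) (κ j) _ (hκ1 j) (hconst _ (by positivity))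
  · have h2 : Summable fun j : ℕ => (4 : ℝ) ^ j * (1 / 8 : ℝ) ^ j := by
      have e : (fun j : ℕ => (4 : ℝ) ^ j * (1 / 8 : ℝ) ^ j) = fun j : ℕ => (1 / 2 : ℝ) ^ j := by
        funext j
        rw [← mul_pow]; norm_num
      rw [e]
      exact summable_geometric_of_lt_one (by norm_num) (by norm_num)
    have h3 := hsum.add h2
    refine h3.congr fun j => ?_
    ring
  · intro j z hz
    have h8 : (0 : ℝ) < (1 / 8 : ℝ) ^ j := by positivity
    have h8' : (1 / 8 : ℝ) ^ j ≤ 1 := pow_le_one₀ (by norm_num) (by norm_num)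
    constructor
    · refine (norm_add_le _ _).trans (add_le_add (hκ2 j z hz) ?_)
      rw [norm_mul, Complex.norm_real, Real.norm_of_nonneg h8.le]
      calc _ ≤ 1 * ‖K 0‖ := mul_le_mul_of_nonneg_right h8' (norm_nonneg _)
        _ = _ := one_mul _
    · rw [Complex.add_re, Complex.re_ofReal_mul]
      have h1 := ((hL (c j) (κ j) (hκ1 j)).2 z hz).2.1
      have h2 : 0 < (1 / 8 : ℝ) ^ j * (K 0).re := mul_pos h8 (by linarith)
      linarith
  · intro j z hz hle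
    rw [Complex.add_re, Complex.re_ofReal_mul]
    have h1 := hκ3 j z ⟨hz, hle⟩
    have h2 : 0 < (1 / 8 : ℝ) ^ j * (K 0).re := mul_pos (by positivity) (by linarith)
    linarith

end Pool.Agent.Helper59K9.CY
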