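import Pool.Agent.Helper59K9.CY.Eqf

/-!
[LPB] basic properties of limit potentials (helper94)
-/

set_option autoImplicit false

open MeasureTheory Metric Filter Topology ComplexConjugate

namespace Pool.Agent.Helper59K9.CY

namespace LpbL

open EqfL

variable {K : ℂ → ℂ}

theorem pot_deriv (hK : DifferentiableOn ℂ K (ball 0 1)) {s : Finset ℂ} {x : ℂ → ℝ}
    (hs : ∀ w ∈ s, ‖w‖ < 1) {z : ℂ} (hz : ‖z‖ < 1) :
    HasDerivAt (pot K s x) (∑ w ∈ s, (x w : ℂ) * (conj w * deriv K (z * conj w))) z := by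
  unfold pot
  apply HasDerivAt.fun_sum
  intro w hw
  have h1 : z * conj w ∈ ball (0 : ℂ) 1 := by
    rw [mem_ball_zero_iff]
    exact norm_lt hz (hs w hw)
  have h2 : HasDerivAt K (deriv K (z * conj w)) (z * conj w) :=
    (hK.differentiableAt (isOpen_ball.mem_nhds h1)).hasDerivAt
  have h3 : HasDerivAt (fun z : ℂ => z * conj w) (conj w) z := by
    simpa using (hasDerivAt_id z).mul_const (conj w)
  have h4 := (h2.comp z h3).const_mul (x w : ℂ)
  rw [mul_comm (deriv K _)] at h4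
  exact h4

theorem pot_diff (hK : DifferentiableOn ℂ K (ball 0 1)) {s : Finset ℂ} {x : ℂ → ℝ}
    (hs : ∀ w ∈ s, ‖w‖ < 1) : DifferentiableOn ℂ (pot K s x) (ball 0 1) := by
  intro z hz
  rw [mem_ball_zero_iff] at hz
  exact (pot_deriv hK hs hz).differentiableAt.differentiableWithinAt

/-- properties of the potentials of finite measures -/
theorem pot_prop {β p : ℝ} (hK : Ker β p K) : ∃ C : ℝ, 0 < C ∧ ∀ (s : Finset ℂ) (x : ℂ → ℝ),
    (∀ w ∈ s, ‖w‖ < 1 ∧ 0 ≤ x w) → ∀ z : ℂ, ‖z‖ < 1 →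
      |(pot K s x z).im| ≤ Real.tan (Real.pi / p) * (pot K s x z).re ∧ 0 ≤ (pot K s x z).re ∧
      ‖pot K s x z‖ ≤ C * (pot K s x z).re ∧
      ‖deriv (pot K s x) z‖ * (1 - ‖z‖) ≤ C * ‖pot K s x z‖ := by
  obtain ⟨c, hc, hpos⟩ := hK.pos
  obtain ⟨C1, hC1, hmax⟩ := hK.max
  obtain ⟨C2, hC2, hder⟩ := hK.der
  refine ⟨max C1 (C2 * C1), by positivity, fun s x hs z hz => ?_⟩
  have hlt : ∀ w ∈ s, ‖z * conj w‖ < 1 := fun w hw => norm_lt hz (hs w hw).1
  have hre : (pot K s x z).re = ∑ w ∈ s, x w * (K (z * conj w)).re := by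
    unfold pot
    rw [Complex.re_sum]
    exact Finset.sum_congr rfl fun w _ => Complex.re_ofReal_mul _ _
  have him : (pot K s x z).im = ∑ w ∈ s, x w * (K (z * conj w)).im := by
    unfold pot
    rw [Complex.im_sum]
    exact Finset.sum_congr rfl fun w _ => Complex.im_ofReal_mul _ _
  have hre0 : 0 ≤ (pot K s x z).re := by
    rw [hre]
    exact Finset.sum_nonneg fun w hw => mul_nonneg (hs w hw).2 (hc.le.trans (hpos _ (hlt w hw)))
  have habs : ∑ w ∈ s, x w * ‖K (z * conj w)‖ ≤ C1 * (pot K s x z).re := by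
    rw [hre, Finset.mul_sum]
    refine Finset.sum_le_sum fun w hw => ?_
    have h1 := hmax _ _ (hlt w hw) (hlt w hw) (by linarith [norm_nonneg (1 - z * conj w)])
    calc x w * ‖K (z * conj w)‖ ≤ x w * (C1 * (K (z * conj w)).re) :=
          mul_le_mul_of_nonneg_left h1 (hs w hw).2
      _ = _ := by ring
  have hnorm : ‖pot K s x z‖ ≤ ∑ w ∈ s, x w * ‖K (z * conj w)‖ := by
    unfold pot
    refine (norm_sum_le _ _).trans (Finset.sum_le_sum fun w hw => ?_)
    rw [norm_mul, Complex.norm_real, Real.norm_of_nonneg (hs w hw).2]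
  refine ⟨?_, hre0, ?_, ?_⟩
  · rw [him, hre, Finset.mul_sum]
    refine (Finset.abs_sum_le_sum_abs _ _).trans (Finset.sum_le_sum fun w hw => ?_)
    rw [abs_mul, abs_of_nonneg (hs w hw).2]
    calc x w * |(K (z * conj w)).im| ≤ x w * (Real.tan (Real.pi / p) * (K (z * conj w)).re) :=
          mul_le_mul_of_nonneg_left (hK.sec _ (hlt w hw)) (hs w hw).2
      _ = _ := by ring
  · exact (hnorm.trans habs).trans (mul_le_mul_of_nonneg_right (le_max_left _ _) hre0)
  · rw [(pot_deriv hK.diff (fun w hw => (hs w hw).1) hz).deriv]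
    have h1 : ‖∑ w ∈ s, (x w : ℂ) * (conj w * deriv K (z * conj w))‖ * (1 - ‖z‖) ≤
        ∑ w ∈ s, x w * (C2 * ‖K (z * conj w)‖) := by
      have h2 : 0 ≤ 1 - ‖z‖ := by linarith
      refine (mul_le_mul_of_nonneg_right (norm_sum_le _ _) h2).trans ?_
      rw [Finset.sum_mul]
      refine Finset.sum_le_sum fun w hw => ?_
      rw [norm_mul, norm_mul, Complex.norm_real, Real.norm_of_nonneg (hs w hw).2,
        Complex.norm_conj, mul_assoc]
      apply mul_le_mul_of_nonneg_left _ (hs w hw).2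
      have h3 := hder _ (hlt w hw)
      have h4 : ‖z * conj w‖ ≤ ‖z‖ := by
        rw [norm_mul, Complex.norm_conj]
        have := (hs w hw).1
        nlinarith [norm_nonneg z, norm_nonneg w]
      calc ‖w‖ * ‖deriv K (z * conj w)‖ * (1 - ‖z‖)
          ≤ 1 * ‖deriv K (z * conj w)‖ * (1 - ‖z * conj w‖) := by
            have := (hs w hw).1
            gcongr
        _ = ‖deriv K (z * conj w)‖ * (1 - ‖z * conj w‖) := by ring
        _ ≤ _ := h3
    have h5 : ∑ w ∈ s, x w * (C2 * ‖K (z * conj w)‖) = C2 * ∑ w ∈ s, x w * ‖K (z * conj w)‖ := by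
      rw [Finset.mul_sum]
      exact Finset.sum_congr rfl fun w _ => by ring
    rw [h5] at h1
    have h6 : (pot K s x z).re ≤ ‖pot K s x z‖ := Complex.re_le_norm _
    calc ‖∑ w ∈ s, (x w : ℂ) * (conj w * deriv K (z * conj w))‖ * (1 - ‖z‖)
        ≤ C2 * ∑ w ∈ s, x w * ‖K (z * conj w)‖ := h1
      _ ≤ C2 * (C1 * (pot K s x z).re) := mul_le_mul_of_nonneg_left habs hC2.le
      _ ≤ C2 * (C1 * ‖pot K s x z‖) := by gcongr
      _ = (C2 * C1) * ‖pot K s x z‖ := by ring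
      _ ≤ _ := mul_le_mul_of_nonneg_right (le_max_right _ _) (norm_nonneg _)

/-- bounds on smaller discs -/
theorem pot_bd (hK : DifferentiableOn ℂ K (ball 0 1)) {r : ℝ} (hr : r < 1) :
    ∃ M : ℝ, 0 < M ∧ ∀ (s : Finset ℂ) (x : ℂ → ℝ) (c : ℝ),
    (∀ w ∈ s, ‖w‖ < 1 ∧ 0 ≤ x w) → ∑ w ∈ s, x w ≤ c → ∀ z : ℂ, ‖z‖ ≤ r →
      ‖pot K s x z‖ ≤ M * c ∧ ‖deriv (pot K s x) z‖ ≤ M * c := by
  have hsub : closedBall (0 : ℂ) r ⊆ ball 0 1 := closedBall_subset_ball hr
  obtain ⟨M1, hM1⟩ := (isCompact_closedBall (0 : ℂ) r).exists_bound_of_continuousOn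
    (hK.continuousOn.mono hsub)
  obtain ⟨M2, hM2⟩ := (isCompact_closedBall (0 : ℂ) r).exists_bound_of_continuousOn
    ((hK.deriv isOpen_ball).continuousOn.mono hsub)
  refine ⟨max 1 (max M1 M2), by positivity, fun s x c hs hc z hz => ?_⟩
  have hz1 : ‖z‖ < 1 := hz.trans_lt hr
  have hmem : ∀ w ∈ s, z * conj w ∈ closedBall (0 : ℂ) r := by
    intro w hw
    rw [mem_closedBall_zero_iff, norm_mul, Complex.norm_conj]
    have := (hs w hw).1
    nlinarith [norm_nonneg z, norm_nonneg w]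
  have hM1' : M1 ≤ max 1 (max M1 M2) := (le_max_left _ _).trans (le_max_right _ _)
  have hM2' : M2 ≤ max 1 (max M1 M2) := (le_max_right _ _).trans (le_max_right _ _)
  have hM0 : 0 ≤ max 1 (max M1 M2) := by positivity
  have hsum : ∑ w ∈ s, x w * max 1 (max M1 M2) ≤ max 1 (max M1 M2) * c := by
    rw [← Finset.sum_mul, mul_comm]
    exact mul_le_mul_of_nonneg_left hc hM0
  constructor
  · refine le_trans ?_ hsum
    unfold pot
    refine (norm_sum_le _ _).trans (Finset.sum_le_sum fun w hw => ?_)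
    rw [norm_mul, Complex.norm_real, Real.norm_of_nonneg (hs w hw).2]
    exact mul_le_mul_of_nonneg_left ((hM1 _ (hmem w hw)).trans hM1') (hs w hw).2
  · refine le_trans ?_ hsum
    rw [(pot_deriv hK (fun w hw => (hs w hw).1) hz1).deriv]
    refine (norm_sum_le _ _).trans (Finset.sum_le_sum fun w hw => ?_)
    rw [norm_mul, norm_mul, Complex.norm_real, Real.norm_of_nonneg (hs w hw).2, Complex.norm_conj]
    apply mul_le_mul_of_nonneg_left _ (hs w hw).2
    have h1 := (hM2 _ (hmem w hw)).trans hM2'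
    have h2 := (hs w hw).1
    nlinarith [norm_nonneg w, norm_nonneg (deriv K (z * conj w))]

/-- dilation of a finite potential -/
theorem pot_dil (K : ℂ → ℂ) (s : Finset ℂ) (x : ℂ → ℝ) {ρ : ℝ} (hρ : ρ ≠ 0) :
    pot K (s.image fun w => (ρ : ℂ) * w) (fun v => x ((ρ : ℂ)⁻¹ * v)) =
      fun z => pot K s x (ρ * z) := by
  have hρ' : (ρ : ℂ) ≠ 0 := by exact_mod_cast hρ
  funext z
  unfold pot
  rw [Finset.sum_image fun a _ b _ h => mul_left_cancel₀ hρ' h]
  refine Finset.sum_congr rfl fun w _ => ?_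
  beta_reduce
  rw [inv_mul_cancel_left₀ hρ', map_mul, Complex.conj_ofReal]
  congr 2
  ring

end LpbL

open LpbL EqfL in
theorem lpb : S_LPB := by
  intro β p K hβ hβ1 hp hK
  obtain ⟨C, hC, hprop⟩ := pot_prop hK
  refine ⟨⟨C, hC, fun c k hk => ?_⟩, fun r hr => ?_, fun c ρ k hρ0 hρ1 hk => ?_⟩
  · obtain ⟨hd, s, x, hs, hc, hlim⟩ := hk
    refine ⟨(Finset.sum_nonneg fun w hw => (hs 0 w hw).2).trans (hc 0), fun z hz => ?_⟩
    obtain ⟨h1, h2⟩ := hlim z hz
    have hre : Tendsto (fun i => (pot K (s i) (x i) z).re) atTop (𝓝 (k z).re) :=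
      (Complex.continuous_re.tendsto _).comp h1
    have him : Tendsto (fun i => |(pot K (s i) (x i) z).im|) atTop (𝓝 |(k z).im|) :=
      ((Complex.continuous_im.tendsto _).comp h1).abs
    refine ⟨le_of_tendsto_of_tendsto' him (hre.const_mul _) fun i => (hprop _ _ (hs i) z hz).1,
      ge_of_tendsto' hre fun i => (hprop _ _ (hs i) z hz).2.1,
      le_of_tendsto_of_tendsto' h1.norm (hre.const_mul _) fun i => (hprop _ _ (hs i) z hz).2.2.1,
      le_of_tendsto_of_tendsto' (h2.norm.mul_const _) (h1.norm.const_mul _)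
        fun i => (hprop _ _ (hs i) z hz).2.2.2⟩
  · obtain ⟨M, hM, hbd⟩ := pot_bd hK.diff hr
    refine ⟨M, hM, fun c k hk z hz => ?_⟩
    obtain ⟨hd, s, x, hs, hc, hlim⟩ := hk
    obtain ⟨h1, h2⟩ := hlim z (hz.trans_lt hr)
    exact ⟨le_of_tendsto' h1.norm fun i => (hbd _ _ _ (hs i) (hc i) z hz).1,
      le_of_tendsto' h2.norm fun i => (hbd _ _ _ (hs i) (hc i) z hz).2⟩
  · obtain ⟨hd, s, x, hs, hc, hlim⟩ := hk
    have hρ' : (ρ : ℂ) ≠ 0 := by exact_mod_cast hρ0.ne'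
    have hlt : ∀ z : ℂ, ‖z‖ < 1 → ‖(ρ : ℂ) * z‖ < 1 := by
      intro z hz
      rw [norm_mul, Complex.norm_real, Real.norm_of_nonneg hρ0.le]
      nlinarith [norm_nonneg z]
    refine ⟨?_, fun i => (s i).image fun w => (ρ : ℂ) * w, fun i v => x i ((ρ : ℂ)⁻¹ * v),
      fun i v hv => ?_, fun i => ?_, fun z hz => ?_⟩
    · refine hd.comp (by fun_prop) fun z hz => ?_
      rw [mem_ball_zero_iff] at hz ⊢
      exact hlt z hz
    · obtain ⟨w, hw, rfl⟩ := Finset.mem_image.1 hv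
      beta_reduce
      rw [inv_mul_cancel_left₀ hρ']
      exact ⟨hlt w (hs i w hw).1, (hs i w hw).2⟩
    · rw [Finset.sum_image fun a _ b _ h => mul_left_cancel₀ hρ' h]
      simp only [inv_mul_cancel_left₀ hρ']
      exact hc i
    · obtain ⟨h1, h2⟩ := hlim (ρ * z) (hlt z hz)
      simp only [pot_dil K _ _ hρ0.ne']
      refine ⟨h1, ?_⟩
      have e : ∀ f : ℂ → ℂ, deriv (fun z : ℂ => f (ρ * z)) z = ρ * deriv f (ρ * z) := by
        intro f
        rw [deriv_comp_mul_left (ρ : ℂ) f z, smul_eq_mul]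
      simp only [e]
      exact h2.const_mul _

end Pool.Agent.Helper59K9.CY
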