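import Pool.Agent.Helper59K9.CY.Lpb

/-!
[LPS] sums of limit potentials (helper94)
-/

set_option autoImplicit false

open MeasureTheory Metric Filter Topology ComplexConjugate

namespace Pool.Agent.Helper59K9.CY

namespace LpsL

open EqfL LpbL

variable {K : ℂ → ℂ}

/-- the sum of two finite measures -/
theorem pot_add (K : ℂ → ℂ) (s t : Finset ℂ) (x y : ℂ → ℝ) :
    pot K (s ∪ t) (fun w => (if w ∈ s then x w else 0) + if w ∈ t then y w else 0) =
      fun z => pot K s x z + pot K t y z := by
  classical
  funext z
  unfold pot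
  have h1 : ∀ w, (((if w ∈ s then x w else 0) + if w ∈ t then y w else 0 : ℝ) : ℂ) * K (z * conj w) =
      (if w ∈ s then (x w : ℂ) * K (z * conj w) else 0) +
        if w ∈ t then (y w : ℂ) * K (z * conj w) else 0 := by
    intro w
    split_ifs <;> push_cast <;> ring
  simp only [h1]
  rw [Finset.sum_add_distrib, Finset.sum_ite_mem, Finset.sum_ite_mem,
    Finset.inter_eq_right.2 Finset.subset_union_left, Finset.inter_eq_right.2 Finset.subset_union_right]

theorem mass_add (s t : Finset ℂ) (x y : ℂ → ℝ) :
    ∑ w ∈ s ∪ t, ((if w ∈ s then x w else 0) + if w ∈ t then y w else 0) =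
      ∑ w ∈ s, x w + ∑ w ∈ t, y w := by
  classical
  rw [Finset.sum_add_distrib, Finset.sum_ite_mem, Finset.sum_ite_mem,
    Finset.inter_eq_right.2 Finset.subset_union_left, Finset.inter_eq_right.2 Finset.subset_union_right]

/-- finite sums of finite measures -/
theorem fin_sum (K : ℂ → ℂ) (s : ℕ → Finset ℂ) (x : ℕ → ℂ → ℝ)
    (hs : ∀ j, ∀ w ∈ s j, ‖w‖ < 1 ∧ 0 ≤ x j w) (n : ℕ) :
    ∃ (t : Finset ℂ) (y : ℂ → ℝ), (∀ w ∈ t, ‖w‖ < 1 ∧ 0 ≤ y w) ∧
      ∑ w ∈ t, y w = ∑ j ∈ Finset.range n, ∑ w ∈ s j, x j w ∧
      pot K t y = fun z => ∑ j ∈ Finset.range n, pot K (s j) (x j) z := by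
  classical
  induction n with
  | zero => exact ⟨∅, 0, by simp, by simp, by funext z; simp [pot]⟩
  | succ n ih =>
    obtain ⟨t, y, h1, h2, h3⟩ := ih
    refine ⟨t ∪ s n, fun w => (if w ∈ t then y w else 0) + if w ∈ s n then x n w else 0,
      fun w hw => ⟨?_, ?_⟩, ?_, ?_⟩
    · rcases Finset.mem_union.1 hw with h | h
      · exact (h1 w h).1
      · exact (hs n w h).1
    · apply add_nonneg
      · split_ifs with h
        · exact (h1 w h).2
        · exact le_rfl
      · split_ifs with h
        · exact (hs n w h).2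
        · exact le_rfl
    · rw [mass_add, h2, Finset.sum_range_succ]
    · rw [pot_add, h3]
      funext z
      rw [Finset.sum_range_succ]

end LpsL

open LpsL LpbL EqfL in
theorem lps : S_LPS := by
  intro β p K hβ hβ1 hp hK
  classical
  refine ⟨fun c hc => ?_, fun c r k hr hk => ?_, fun c d k l hk hl => ?_, fun c k hk hc => ?_⟩
  · have e : pot K {0} (fun _ => c) = fun _ => (c : ℂ) * K 0 := by
      funext z
      simp [pot]
    refine ⟨by fun_prop, fun _ => {0}, fun _ _ => c, fun i w hw => ?_, fun i => by simp,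
      fun z hz => ?_⟩
    · rw [Finset.mem_singleton] at hw
      rw [hw, norm_zero]
      exact ⟨one_pos, hc⟩
    · simp only [e]
      exact ⟨tendsto_const_nhds, tendsto_const_nhds⟩
  · obtain ⟨hd, s, x, hs, hm, hlim⟩ := hk
    have e : ∀ i, pot K (s i) (fun w => r * x i w) = fun z => (r : ℂ) * pot K (s i) (x i) z := by
      intro i
      funext z
      unfold pot
      rw [Finset.mul_sum]
      refine Finset.sum_congr rfl fun w _ => ?_
      push_cast
      ring
    refine ⟨hd.const_mul _, s, fun i w => r * x i w, fun i w hw => ⟨(hs i w hw).1,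
      mul_nonneg hr (hs i w hw).2⟩, fun i => ?_, fun z hz => ?_⟩
    · rw [← Finset.mul_sum]
      exact mul_le_mul_of_nonneg_left (hm i) hr
    · obtain ⟨h1, h2⟩ := hlim z hz
      simp only [e]
      refine ⟨h1.const_mul _, ?_⟩
      have h3 : ∀ i, deriv (fun z => (r : ℂ) * pot K (s i) (x i) z) z =
          (r : ℂ) * deriv (pot K (s i) (x i)) z := fun i =>
        deriv_const_mul _ (pot_deriv hK.diff (fun w hw => (hs i w hw).1) hz).differentiableAt
      have h4 : deriv (fun z => (r : ℂ) * k z) z = (r : ℂ) * deriv k z :=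
        deriv_const_mul _ (hd.differentiableAt (isOpen_ball.mem_nhds (by simpa using hz)))
      simp only [h3, h4]
      exact h2.const_mul _
  · obtain ⟨hd, s, x, hs, hm, hlim⟩ := hk
    obtain ⟨hd', t, y, ht, hn, hlim'⟩ := hl
    refine ⟨hd.add hd', fun i => s i ∪ t i,
      fun i w => (if w ∈ s i then x i w else 0) + if w ∈ t i then y i w else 0,
      fun i w hw => ⟨?_, ?_⟩, fun i => ?_, fun z hz => ?_⟩
    · rcases Finset.mem_union.1 hw with h | h
      · exact (hs i w h).1
      · exact (ht i w h).1
    · apply add_nonneg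
      · split_ifs with h
        · exact (hs i w h).2
        · exact le_rfl
      · split_ifs with h
        · exact (ht i w h).2
        · exact le_rfl
    · rw [mass_add]
      exact add_le_add (hm i) (hn i)
    · obtain ⟨h1, h2⟩ := hlim z hz
      obtain ⟨h1', h2'⟩ := hlim' z hz
      simp only [pot_add]
      refine ⟨h1.add h1', ?_⟩
      have hz' : ball (0 : ℂ) 1 ∈ 𝓝 z := isOpen_ball.mem_nhds (by simpa using hz)
      have h3 : ∀ i, deriv (fun z => pot K (s i) (x i) z + pot K (t i) (y i) z) z =
          deriv (pot K (s i) (x i)) z + deriv (pot K (t i) (y i)) z := fun i =>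
        deriv_fun_add (pot_deriv hK.diff (fun w hw => (hs i w hw).1) hz).differentiableAt
          (pot_deriv hK.diff (fun w hw => (ht i w hw).1) hz).differentiableAt
      have h4 : deriv (fun z => k z + l z) z = deriv k z + deriv l z :=
        deriv_fun_add (hd.differentiableAt hz') (hd'.differentiableAt hz')
      simp only [h3, h4]
      exact h2.add h2'
  · choose hd s x hs hm hlim using hk
    have hc0 : ∀ j, 0 ≤ c j := fun j =>
      (Finset.sum_nonneg fun w hw => (hs j 0 w hw).2).trans (hm j 0)
    have hbd := (lpb β p K hβ hβ1 hp hK).2.1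
    -- termwise differentiation
    have hder : ∀ z : ℂ, ‖z‖ < 1 → Summable (fun j => k j z) ∧
        HasSum (fun j => deriv (k j) z) (deriv (fun z => ∑' j, k j z) z) ∧
        DifferentiableAt ℂ (fun z => ∑' j, k j z) z := by
      intro z hz
      obtain ⟨r, hr1, hr2⟩ := exists_between hz
      obtain ⟨M, hM, hM1⟩ := hbd r hr2
      have hsum : Summable fun j => M * c j := hc.mul_left M
      have hle : ∀ (j : ℕ) (w : ℂ), w ∈ ball (0 : ℂ) r → ‖k j w‖ ≤ M * c j := fun j w hw =>
        (hM1 (c j) (k j) ⟨hd j, s j, x j, hs j, hm j, hlim j⟩ w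
          (by rw [mem_ball_zero_iff] at hw; exact hw.le)).1
      have hdr : ∀ j, DifferentiableOn ℂ (k j) (ball 0 r) := fun j =>
        (hd j).mono (ball_subset_ball hr2.le)
      have hzr : z ∈ ball (0 : ℂ) r := by rwa [mem_ball_zero_iff]
      refine ⟨Summable.of_norm_bounded hsum fun j => hle j z hzr,
        Complex.hasSum_deriv_of_summable_norm hsum hdr isOpen_ball hle hzr,
        (Complex.differentiableOn_tsum_of_summable_norm hsum hdr isOpen_ball
          hle).differentiableAt (isOpen_ball.mem_nhds hzr)⟩
    refine ⟨?_, fun z hz => ⟨(hder z hz).1, (hder z hz).2.1⟩⟩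
    choose t y ht1 ht2 ht3 using fun n => fin_sum K (fun j => s j n) (fun j => x j n)
      (fun j => hs j n) n
    refine ⟨fun z hz => (hder z (by simpa using hz)).2.2.differentiableWithinAt, t, y, ht1,
      fun n => ?_, fun z hz => ?_⟩
    · rw [ht2]
      exact (Finset.sum_le_sum fun j _ => hm j n).trans
        (hc.sum_le_tsum _ fun j _ => hc0 j)
    · obtain ⟨M, hM, hM1⟩ := pot_bd hK.diff hz
      have hsum : Summable fun j => M * c j := hc.mul_left M
      have gen : ∀ (f : ℕ → ℕ → ℂ) (g : ℕ → ℂ), (∀ j, Tendsto (f j) atTop (𝓝 (g j))) →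
          (∀ j n, ‖f j n‖ ≤ M * c j) →
          Tendsto (fun n => ∑ j ∈ Finset.range n, f j n) atTop (𝓝 (∑' j, g j)) := by
        intro f g hfg hf
        have h1 := tendsto_tsum_of_dominated_convergence (𝓕 := atTop)
          (f := fun (n : ℕ) (j : ℕ) => if j ∈ Finset.range n then f j n else 0) (g := g) hsum
          (fun j => by
            refine (hfg j).congr' ?_
            filter_upwards [eventually_gt_atTop j] with n hn
            rw [if_pos (Finset.mem_range.2 hn)])
          (Eventually.of_forall fun n j => by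
            split_ifs
            · exact hf j n
            · rw [norm_zero]
              exact mul_nonneg hM.le (hc0 j))
        refine h1.congr fun n => ?_
        rw [tsum_eq_sum (s := Finset.range n) fun j hj => if_neg hj]
        exact Finset.sum_congr rfl fun j hj => if_pos hj
      constructor
      · simp only [ht3]
        exact gen (fun j n => pot K (s j n) (x j n) z) (fun j => k j z)
          (fun j => (hlim j z hz).1) fun j n => (hM1 _ _ _ (hs j n) (hm j n) z le_rfl).1
      · rw [← (hder z hz).2.1.tsum_eq]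
        have h3 : ∀ n, deriv (pot K (t n) (y n)) z =
            ∑ j ∈ Finset.range n, deriv (pot K (s j n) (x j n)) z := by
          intro n
          rw [ht3]
          exact deriv_fun_sum fun j _ =>
            (pot_deriv hK.diff (fun w hw => (hs j n w hw).1) hz).differentiableAt
        simp only [h3]
        exact gen (fun j n => deriv (pot K (s j n) (x j n)) z) (fun j => deriv (k j) z)
          (fun j => (hlim j z hz).2) fun j n => (hM1 _ _ _ (hs j n) (hm j n) z le_rfl).2

end Pool.Agent.Helper59K9.CY
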