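import Pool.Agent.Helper59K9.CY.Par
import Pool.Agent.Helper59K9.CY.Bet

/-!
[NORM], [DIL] equivalence of norms, dilations (helper94)
-/

set_option autoImplicit false

open MeasureTheory Metric Filter Topology ComplexConjugate

namespace Pool.Agent.Helper59K9.CY

namespace NormL

open DcoL ParL

/-- the energy in terms of the coefficients -/
theorem en_eq {β : ℝ} (hβ : 0 ≤ β) {u : ℂ → ℂ} {a : ℕ → ℂ} (h : Co u a) :
    En β u = ∑' n : ℕ, ENNReal.ofReal (Real.pi * B β n * (((n : ℝ) + 1) ^ 2 * ‖a (n + 1)‖ ^ 2)) := by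
  have h1 := parl β hβ (deriv u) _ (dco.2.2 u a h)
  unfold En
  rw [h1]
  refine tsum_congr fun n => ?_
  rw [norm_mul, mul_pow]
  congr 3
  have h2 : ((n : ℂ) + 1) = (((n : ℝ) + 1 : ℝ) : ℂ) := by push_cast; rfl
  rw [h2, Complex.norm_real, Real.norm_of_nonneg (by positivity)]

end NormL

open NormL in
theorem norm : S_NORM := by
  intro β hβ hβ1
  obtain ⟨-, -, c, C, hc, hC, hB⟩ := bet β hβ hβ1
  refine ⟨min 1 (Real.pi * c / 2), max 1 (Real.pi * C), by
    have := Real.pi_pos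
    positivity, by positivity, fun u a h => ?_⟩
  have hpi := Real.pi_pos
  rw [en_eq hβ h]
  unfold nrm
  rw [tsum_eq_zero_add' (f := fun k : ℕ => ENNReal.ofReal (‖a k‖ ^ 2 * ((k : ℝ) + 1) ^ (1 - β)))
    ENNReal.summable]
  have e0 : ENNReal.ofReal (‖a 0‖ ^ 2 * (((0 : ℕ) : ℝ) + 1) ^ (1 - β)) =
      ENNReal.ofReal (‖a 0‖ ^ 2) := by
    rw [Nat.cast_zero, zero_add, Real.one_rpow, mul_one]
  rw [e0, mul_add, mul_add, ← ENNReal.tsum_mul_left, ← ENNReal.tsum_mul_left]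
  have key : ∀ n : ℕ, ((n : ℝ) + 1) ^ (-1 - β) * ((n : ℝ) + 1) ^ 2 = ((n : ℝ) + 1) ^ (1 - β) := by
    intro n
    rw [← Real.rpow_natCast _ 2, ← Real.rpow_add (by positivity)]
    congr 1
    push_cast
    ring
  have k1 : ∀ n : ℕ, ((n : ℝ) + 1) ^ (1 - β) ≤ (((n + 1 : ℕ) : ℝ) + 1) ^ (1 - β) := by
    intro n
    apply Real.rpow_le_rpow (by positivity) _ (by linarith)
    push_cast
    linarith
  have k2 : ∀ n : ℕ, (((n + 1 : ℕ) : ℝ) + 1) ^ (1 - β) ≤ 2 * ((n : ℝ) + 1) ^ (1 - β) := by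
    intro n
    calc (((n + 1 : ℕ) : ℝ) + 1) ^ (1 - β) ≤ (2 * ((n : ℝ) + 1)) ^ (1 - β) := by
          apply Real.rpow_le_rpow (by positivity) _ (by linarith)
          push_cast
          linarith [Nat.cast_nonneg (α := ℝ) n]
      _ = 2 ^ (1 - β) * ((n : ℝ) + 1) ^ (1 - β) := Real.mul_rpow (by norm_num) (by positivity)
      _ ≤ 2 * ((n : ℝ) + 1) ^ (1 - β) := by
          apply mul_le_mul_of_nonneg_right _ (by positivity)
          calc (2 : ℝ) ^ (1 - β) ≤ 2 ^ (1 : ℝ) :=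
                Real.rpow_le_rpow_of_exponent_le (by norm_num) (by linarith)
            _ = 2 := Real.rpow_one 2
  constructor
  · refine add_le_add ?_ (ENNReal.tsum_le_tsum fun n => ?_)
    · rw [← ENNReal.ofReal_mul (by positivity)]
      apply ENNReal.ofReal_le_ofReal
      have h1 : min 1 (Real.pi * c / 2) ≤ 1 := min_le_left _ _
      nlinarith [sq_nonneg ‖a 0‖]
    · rw [← ENNReal.ofReal_mul (by positivity)]
      apply ENNReal.ofReal_le_ofReal
      have h1 : min 1 (Real.pi * c / 2) ≤ Real.pi * c / 2 := min_le_right _ _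
      have h2 : c * ((n : ℝ) + 1) ^ (1 - β) ≤ B β n * ((n : ℝ) + 1) ^ 2 := by
        rw [← key, ← mul_assoc]
        exact mul_le_mul_of_nonneg_right (hB n).1 (by positivity)
      calc min 1 (Real.pi * c / 2) * (‖a (n + 1)‖ ^ 2 * (((n + 1 : ℕ) : ℝ) + 1) ^ (1 - β))
          ≤ (Real.pi * c / 2) * (‖a (n + 1)‖ ^ 2 * (2 * ((n : ℝ) + 1) ^ (1 - β))) := by
            have := k2 n
            gcongr
        _ = Real.pi * ‖a (n + 1)‖ ^ 2 * (c * ((n : ℝ) + 1) ^ (1 - β)) := by ring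
        _ ≤ Real.pi * ‖a (n + 1)‖ ^ 2 * (B β n * ((n : ℝ) + 1) ^ 2) := by gcongr
        _ = _ := by ring
  · refine add_le_add ?_ (ENNReal.tsum_le_tsum fun n => ?_)
    · rw [← ENNReal.ofReal_mul (by positivity)]
      apply ENNReal.ofReal_le_ofReal
      have h1 : 1 ≤ max 1 (Real.pi * C) := le_max_left _ _
      nlinarith [sq_nonneg ‖a 0‖]
    · rw [← ENNReal.ofReal_mul (by positivity)]
      apply ENNReal.ofReal_le_ofReal
      have h1 : Real.pi * C ≤ max 1 (Real.pi * C) := le_max_right _ _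
      have h2 : B β n * ((n : ℝ) + 1) ^ 2 ≤ C * ((n : ℝ) + 1) ^ (1 - β) := by
        rw [← key, ← mul_assoc]
        exact mul_le_mul_of_nonneg_right (hB n).2 (by positivity)
      calc Real.pi * B β n * (((n : ℝ) + 1) ^ 2 * ‖a (n + 1)‖ ^ 2)
          = Real.pi * ‖a (n + 1)‖ ^ 2 * (B β n * ((n : ℝ) + 1) ^ 2) := by ring
        _ ≤ Real.pi * ‖a (n + 1)‖ ^ 2 * (C * ((n : ℝ) + 1) ^ (1 - β)) := by gcongr
        _ = (Real.pi * C) * (‖a (n + 1)‖ ^ 2 * ((n : ℝ) + 1) ^ (1 - β)) := by ring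
        _ ≤ max 1 (Real.pi * C) * (‖a (n + 1)‖ ^ 2 * (((n + 1 : ℕ) : ℝ) + 1) ^ (1 - β)) := by
            have := k1 n
            gcongr

end Pool.Agent.Helper59K9.CY
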