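import Pool.Agent.Helper59K9.CY.St

/-!
Assembly of the positive direction.
-/

set_option autoImplicit false

open MeasureTheory Metric Filter Topology ComplexConjugate

namespace Pool.Agent.Helper59K9.CY

lemma Co.congr {f g : ℂ → ℂ} {a : ℕ → ℂ} (h : Co f a) (hfg : ∀ z : ℂ, ‖z‖ < 1 → f z = g z) :
    Co g a := fun z hz => (hfg z hz) ▸ h z hz

lemma Cl.congr {α : ℝ} {f φ ψ : ℂ → ℂ} (h : Cl α f φ) (hφ : ∀ z : ℂ, ‖z‖ < 1 → φ z = ψ z) :
    Cl α f ψ := by
  intro ε hε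
  obtain ⟨p, a, h1, h2⟩ := h ε hε
  exact ⟨p, a, h1.congr fun z hz => by simp only [hφ z hz], h2⟩

lemma ae_ball (β : ℝ) : ∀ᵐ z ∂(mu β), ‖z‖ < 1 := by
  have h1 : mu β ≪ volume.restrict (ball (0 : ℂ) 1) := withDensity_absolutelyContinuous _ _
  have h2 : ∀ᵐ z ∂(volume.restrict (ball (0 : ℂ) 1)), ‖z‖ < 1 := by
    rw [ae_restrict_iff' measurableSet_ball]
    exact Filter.Eventually.of_forall fun z hz => by simpa using hz
  exact h1.ae_le h2

lemma En_mono_of {β : ℝ} {u : ℂ → ℂ} {F : ℂ → ENNReal}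
    (h : ∀ z : ℂ, ‖z‖ < 1 → ENNReal.ofReal (‖deriv u z‖ ^ 2) ≤ F z) :
    En β u ≤ ∫⁻ z, F z ∂(mu β) := by
  apply lintegral_mono_ae
  filter_upwards [ae_ball β] with z hz using h z hz

lemma En_congr {β : ℝ} {u v : ℂ → ℂ} (h : ∀ z : ℂ, ‖z‖ < 1 → u z = v z) : En β u = En β v := by
  apply lintegral_congr_ae
  filter_upwards [ae_ball β] with z hz
  have h1 : u =ᶠ[𝓝 z] v := by
    have : ball (0 : ℂ) 1 ∈ 𝓝 z := isOpen_ball.mem_nhds (by simpa using hz)
    filter_upwards [this] with w hw using h w (by simpa using hw)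
  rw [h1.deriv_eq]

lemma En_of_InD (hN : S_NORM) {β : ℝ} (h0 : 0 ≤ β) (h1 : β < 1) {u : ℂ → ℂ}
    (hu : InD (1 - β) u) : En β u ≠ ⊤ := by
  obtain ⟨c, C, hc, hC, h⟩ := hN β h0 h1
  obtain ⟨a, ha, hfin⟩ := hu
  have h2 := (h u a ha).2
  intro htop
  rw [htop, add_top] at h2
  exact (ENNReal.mul_ne_top ENNReal.ofReal_ne_top hfin) (top_le_iff.1 h2)

lemma diff_of_InD (hD : S_DCO) {α : ℝ} {u : ℂ → ℂ} (hu : InD α u) :
    DifferentiableOn ℂ u (ball 0 1) := by
  obtain ⟨a, ha, _⟩ := hu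
  exact (hD.1 u).2 ⟨a, ha⟩

/-- `Φ² / f₁` -/
lemma quot_energy {β : ℝ} {Φ f : ℂ → ℂ} {A : ℝ} (hΦd : DifferentiableOn ℂ Φ (ball 0 1))
    (hfd : DifferentiableOn ℂ f (ball 0 1)) (hf0 : ∀ z : ℂ, ‖z‖ < 1 → f z ≠ 0)
    (hle : ∀ z : ℂ, ‖z‖ < 1 → ‖Φ z‖ ≤ A * ‖f z‖) (hΦ : En β Φ ≠ ⊤) (hf : En β f ≠ ⊤) :
    En β (fun z => Φ z ^ 2 / f z) ≠ ⊤ := by
  have key : ∀ z : ℂ, ‖z‖ < 1 → ENNReal.ofReal (‖deriv (fun z => Φ z ^ 2 / f z) z‖ ^ 2) ≤
      ENNReal.ofReal (8 * A ^ 2) * ENNReal.ofReal (‖deriv Φ z‖ ^ 2) +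
      ENNReal.ofReal (2 * A ^ 4) * ENNReal.ofReal (‖deriv f z‖ ^ 2) := by
    intro z hz
    have hb : ball (0 : ℂ) 1 ∈ 𝓝 z := isOpen_ball.mem_nhds (by simpa using hz)
    have h1 : HasDerivAt Φ (deriv Φ z) z := (hΦd.differentiableAt hb).hasDerivAt
    have h2 : HasDerivAt f (deriv f z) z := (hfd.differentiableAt hb).hasDerivAt
    have h3 := (h1.pow 2).div h2 (hf0 z hz)
    have h4 : deriv (fun z => Φ z ^ 2 / f z) z =
        2 * (Φ z / f z) * deriv Φ z - (Φ z / f z) ^ 2 * deriv f z := by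
      have h5 : (fun z => Φ z ^ 2 / f z) = (Φ ^ 2 / f : ℂ → ℂ) := by
        funext w
        simp
      rw [h5, h3.deriv]
      have := hf0 z hz
      field_simp
      simp
      ring
    have hq : ‖Φ z / f z‖ ≤ A := by
      rw [norm_div, div_le_iff₀ (norm_pos_iff.2 (hf0 z hz))]
      exact hle z hz
    have hA : 0 ≤ A := (norm_nonneg _).trans hq
    rw [h4, ← ENNReal.ofReal_mul (by positivity), ← ENNReal.ofReal_mul (by positivity),
      ← ENNReal.ofReal_add (by positivity) (by positivity)]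
    apply ENNReal.ofReal_le_ofReal
    have h6 : ‖2 * (Φ z / f z) * deriv Φ z - (Φ z / f z) ^ 2 * deriv f z‖ ≤
        2 * A * ‖deriv Φ z‖ + A ^ 2 * ‖deriv f z‖ := by
      refine (norm_sub_le _ _).trans ?_
      rw [norm_mul, norm_mul, norm_mul, norm_pow]
      have : ‖(2 : ℂ)‖ = 2 := by simp
      rw [this]
      gcongr
    calc ‖2 * (Φ z / f z) * deriv Φ z - (Φ z / f z) ^ 2 * deriv f z‖ ^ 2
        ≤ (2 * A * ‖deriv Φ z‖ + A ^ 2 * ‖deriv f z‖) ^ 2 := by gcongr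
      _ ≤ 8 * A ^ 2 * ‖deriv Φ z‖ ^ 2 + 2 * A ^ 4 * ‖deriv f z‖ ^ 2 := by
          nlinarith [sq_nonneg (2 * A * ‖deriv Φ z‖ - A ^ 2 * ‖deriv f z‖)]
  have h7 := En_mono_of (β := β) key
  have hm1 : Measurable fun z => ENNReal.ofReal (‖deriv Φ z‖ ^ 2) :=
    ((measurable_deriv Φ).norm.pow_const 2).ennreal_ofReal
  have hm2 : Measurable fun z => ENNReal.ofReal (‖deriv f z‖ ^ 2) :=
    ((measurable_deriv f).norm.pow_const 2).ennreal_ofReal
  rw [lintegral_add_left (hm1.const_mul _), lintegral_const_mul _ hm1,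
    lintegral_const_mul _ hm2] at h7
  refine ne_top_of_le_ne_top ?_ h7
  exact ENNReal.add_ne_top.2 ⟨ENNReal.mul_ne_top ENNReal.ofReal_ne_top hΦ,
    ENNReal.mul_ne_top ENNReal.ofReal_ne_top hf⟩

theorem pos (hD : S_DCO) (hN : S_NORM) (hW : S_CLW) (hB : S_CLB) (hLv : S_LEV) (hS1 : S_ST1)
    (hE : S_ENG) : S_POS := by
  intro β p K hβ0 hβ1 hp hK f g L hf hg hL
  obtain ⟨κ, c, C0, hlev⟩ := hLv β p K hβ0 hβ1 hp hK f g hf hg
  obtain ⟨k, h, kn, hn, c', C, b0, hC, hLPk, hdh, hdn, hbn, hn0, hlim, hre, hlow, hE1, hE2, hE3⟩ :=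
    hE β p K hβ0 hβ1 hp hK f g κ c C0 hlev
  have hκ := hlev.2.2.2.2
  have hdk : DifferentiableOn ℂ k (ball 0 1) := hLPk.1
  have hfd := diff_of_InD hD hf
  have hf0 : ∀ z : ℂ, ‖z‖ < 1 → f z ≠ 0 := by
    intro z hz
    rw [← (hL z hz).1]
    exact Complex.exp_ne_zero _
  -- the levels
  have hpow : ∀ z : ℂ, ‖z‖ < 1 → ‖f z‖ ^ 2 ≤ 4 * (1 + (k z).re) ∧
      ‖g z‖ ^ p ≤ 2 ^ p * (1 + (h z).re) := by
    intro z hz
    have hk0 : 0 ≤ (k z).re := (hre 0 z hz).2.1
    have hh0 : 0 ≤ (h z).re := by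
      have := (hre 0 z hz).1
      rwa [hn0, sub_zero] at this
    have h2p : (1 : ℝ) ≤ 2 ^ p := Real.one_le_rpow (by norm_num) (by linarith)
    rcases lt_or_ge (‖f z‖ + ‖g z‖) 1 with hs | hs
    · have h1 : ‖f z‖ ≤ 1 := by linarith [norm_nonneg (g z)]
      have h2 : ‖g z‖ ≤ 1 := by linarith [norm_nonneg (f z)]
      constructor
      · have : ‖f z‖ ^ 2 ≤ 1 := pow_le_one₀ (norm_nonneg _) h1
        linarith
      · have : ‖g z‖ ^ p ≤ 1 := Real.rpow_le_one (norm_nonneg _) h2 (by linarith)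
        nlinarith
    · obtain ⟨j, hj1, hj2⟩ := exists_nat_pow_near hs (one_lt_two)
      obtain ⟨h3, h4⟩ := hlow j z hz (hκ j z hz hj1)
      constructor
      · have h5 : ‖f z‖ ≤ 2 ^ (j + 1) := by linarith [norm_nonneg (g z)]
        calc ‖f z‖ ^ 2 ≤ (2 ^ (j + 1)) ^ 2 := by gcongr
          _ = 4 * 4 ^ j := by
              rw [← pow_mul, mul_comm, pow_mul]
              norm_num
              ring
          _ ≤ 4 * (1 + (k z).re) := by linarith
      · have h5 : ‖g z‖ ≤ 2 ^ (j + 1) := by linarith [norm_nonneg (f z)]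
        calc ‖g z‖ ^ p ≤ ((2 : ℝ) ^ (j + 1)) ^ p := by
              apply Real.rpow_le_rpow (norm_nonneg _) h5 (by linarith)
          _ = 2 ^ p * 2 ^ (p * j) := by
              rw [← Real.rpow_natCast, ← Real.rpow_mul (by norm_num),
                ← Real.rpow_add (by norm_num)]
              congr 1
              push_cast
              ring
          _ ≤ 2 ^ p * (1 + (h z).re) := by
              gcongr
              linarith
  have hk1 : ∀ z : ℂ, ‖z‖ < 1 → 1 ≤ ‖1 + k z‖ ∧ 1 + (k z).re ≤ ‖1 + k z‖ ∧ 1 + k z ≠ 0 := by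
    intro z hz
    have h1 : 1 + (k z).re ≤ ‖1 + k z‖ := by
      have := Complex.re_le_norm (1 + k z)
      simpa using this
    have h2 : 1 ≤ ‖1 + k z‖ := by linarith [(hre 0 z hz).2.1]
    refine ⟨h2, h1, ?_⟩
    rw [← norm_pos_iff]
    linarith
  -- the bounded function f₁
  set f1 : ℂ → ℂ := fun z => f z / (1 + k z) with hf1
  obtain ⟨hcl1, hin1⟩ := hS1 β p K hβ0 hβ1 hp hK f k c' 4 hf hLPk fun z hz => (hpow z hz).1
  have hf1d := diff_of_InD hD hin1
  have hf10 : ∀ z : ℂ, ‖z‖ < 1 → f1 z ≠ 0 := fun z hz => div_ne_zero (hf0 z hz) (hk1 z hz).2.2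
  have hf1b : ∀ z : ℂ, ‖z‖ < 1 → ‖f1 z‖ ≤ 2 := by
    intro z hz
    have h1 := (hpow z hz).1
    obtain ⟨h2, h3, _⟩ := hk1 z hz
    rw [hf1]
    simp only [norm_div]
    rw [div_le_iff₀ (by linarith)]
    have h4 : ‖f z‖ ^ 2 ≤ (2 * ‖1 + k z‖) ^ 2 := by nlinarith
    exact abs_le_of_sq_le_sq' h4 (by positivity) |>.2
  -- Φ
  set a : ℝ := 2 ^ p with ha
  have ha0 : 0 ≤ a := by positivity
  set b : ℕ := max b0 1 with hb
  have hb1 : 1 ≤ b := le_max_right _ _
  have hbb : b0 ≤ b := le_max_left _ _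
  set Φ : ℂ → ℂ := fun z => Complex.exp (-(a : ℂ) * h z) / (1 + k z) ^ b with hΦ
  have hΦn : ∀ z : ℂ, ‖Φ z‖ = Real.exp (-a * (h z).re) / ‖1 + k z‖ ^ b := by
    intro z
    rw [hΦ]
    simp only [norm_div, norm_pow, Complex.norm_exp]
    congr 2
    simp
  have hΦ1 : ∀ z : ℂ, ‖z‖ < 1 → ‖Φ z‖ ≤ Real.exp (1 + a) * ‖f1 z‖ := by
    intro z hz
    obtain ⟨h2, h3, _⟩ := hk1 z hz
    rw [hΦn, hf1]
    simp only [norm_div]
    rw [← mul_div_assoc]
    have h4 : ‖1 + k z‖ ≤ ‖1 + k z‖ ^ b := by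
      calc ‖1 + k z‖ = ‖1 + k z‖ ^ 1 := (pow_one _).symm
        _ ≤ ‖1 + k z‖ ^ b := pow_le_pow_right₀ h2 hb1
    have h5 : Real.exp (-a * (h z).re) ≤ Real.exp (1 + a) * ‖f z‖ := by
      have h6 : Real.exp (-‖L z‖) ≤ ‖f z‖ := by
        rw [← (hL z hz).1, Complex.norm_exp]
        apply Real.exp_le_exp.2
        have := Complex.abs_re_le_norm (L z)
        have := neg_abs_le (L z).re
        linarith
      calc Real.exp (-a * (h z).re) ≤ Real.exp (1 + a) * Real.exp (-‖L z‖) := by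
            rw [← Real.exp_add]
            apply Real.exp_le_exp.2
            have h7 := (hL z hz).2
            have h8 := (hpow z hz).2
            have h9 : a * (1 + (h z).re) = a + a * (h z).re := by ring
            rw [h9] at h8
            linarith
        _ ≤ _ := by gcongr
    gcongr
  have hΦd : DifferentiableOn ℂ Φ (ball 0 1) := by
    rw [hΦ]
    apply DifferentiableOn.div
    · exact (hdh.const_mul _).cexp
    · exact ((differentiableOn_const _).add hdk).pow _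
    · intro z hz
      exact pow_ne_zero _ (hk1 z (by simpa using hz)).2.2
  have hEΦ : En β Φ ≠ ⊤ := by
    obtain ⟨M, hM, hM2⟩ := hE1 b hbb a ha0
    refine ne_top_of_le_ne_top hM ?_
    refine le_trans (le_of_eq ?_) (hM2 0)
    apply En_congr
    intro z _
    rw [hΦ, hn0]
    simp
  -- Φ² in the closure
  have hcl2 : Cl (1 - β) f (fun z => Φ z ^ 2) := by
    have hEu := quot_energy (β := β) hΦd hf1d hf10 hΦ1 hEΦ (En_of_InD hN hβ0 hβ1 hin1)
    have hud : DifferentiableOn ℂ (fun z => Φ z ^ 2 / f1 z) (ball 0 1) :=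
      (hΦd.pow 2).div hf1d fun z hz => hf10 z (by simpa using hz)
    have := hB β hβ0 hβ1 f f1 (fun z => Φ z ^ 2 / f1 z)
      (max 2 (Real.exp (1 + a) * (Real.exp (1 + a) * 2))) hf hf1d hud (fun z hz => by
        refine ⟨(hf1b z hz).trans (le_max_left _ _), le_trans ?_ (le_max_right _ _)⟩
        rw [norm_div, norm_pow, div_le_iff₀ (norm_pos_iff.2 (hf10 z hz)), pow_two]
        have h1 := hΦ1 z hz
        have h2 := hf1b z hz
        have h3 : ‖Φ z‖ ≤ Real.exp (1 + a) * 2 := h1.trans (by gcongr)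
        calc ‖Φ z‖ * ‖Φ z‖ ≤ (Real.exp (1 + a) * ‖f1 z‖) * (Real.exp (1 + a) * 2) := by gcongr
          _ = _ := by ring) (En_of_InD hN hβ0 hβ1 hin1) hEu hcl1
    refine this.congr fun z hz => ?_
    have := hf10 z hz
    field_simp
  have hcl3 : Cl (1 - β) f (fun z => Complex.exp (-((2 * a : ℝ) : ℂ) * h z) / (1 + k z) ^ (2 * b)) := by
    refine hcl2.congr fun z hz => ?_
    rw [hΦ]
    simp only
    rw [div_pow, ← pow_mul, mul_comm b 2, ← Complex.exp_nat_mul]
    congr 2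
    push_cast
    ring
  have hb2 : b0 ≤ 2 * b := by omega
  obtain ⟨M1, hM1, hM1'⟩ := hE1 (2 * b) hb2 (2 * a) (by positivity)
  have hd3 : ∀ n, DifferentiableOn ℂ
      (fun z => Complex.exp (-((2 * a : ℝ) : ℂ) * (h z - hn n z)) / (1 + k z) ^ (2 * b))
      (ball 0 1) := by
    intro n
    apply DifferentiableOn.div
    · exact ((hdh.sub (hdn n).2).const_mul _).cexp
    · exact ((differentiableOn_const _).add hdk).pow _
    · intro z hz
      exact pow_ne_zero _ (hk1 z (by simpa using hz)).2.2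
  have hbd3 : ∀ n, ∀ z : ℂ, ‖z‖ < 1 →
      ‖Complex.exp (-((2 * a : ℝ) : ℂ) * (h z - hn n z)) / (1 + k z) ^ (2 * b)‖ ≤ 1 := by
    intro n z hz
    obtain ⟨h2, h3, _⟩ := hk1 z hz
    rw [norm_div, norm_pow, Complex.norm_exp]
    apply div_le_one_of_le₀ _ (by positivity)
    refine le_trans ?_ (one_le_pow₀ h2)
    rw [Real.exp_le_one_iff]
    have h4 := (hre n z hz).1
    have h5 : (-((2 * a : ℝ) : ℂ) * (h z - hn n z)).re = -(2 * a * (h z - hn n z).re) := by
      rw [neg_mul, Complex.neg_re, Complex.re_ofReal_mul]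
    rw [h5]
    have : 0 ≤ 2 * a * (h z - hn n z).re := by positivity
    linarith
  have hcl4 : ∀ n, Cl (1 - β) f
      (fun z => Complex.exp (-((2 * a : ℝ) : ℂ) * (h z - hn n z)) / (1 + k z) ^ (2 * b)) := by
    intro n
    obtain ⟨M, hM⟩ := hbn n
    have hM0 : 0 ≤ M := (norm_nonneg _).trans (hM 0 (by simp)).1
    have hE3' := (hE3 n 0 (2 * a)).1
    have h30 := hd3 0
    have hEn0 : En β (fun z => Complex.exp (-((2 * a : ℝ) : ℂ) * h z) / (1 + k z) ^ (2 * b)) ≠ ⊤ := by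
      refine ne_top_of_le_ne_top hM1 (le_trans (le_of_eq ?_) (hM1' 0))
      apply En_congr
      intro z _
      rw [hn0, sub_zero]
    have hd0 : DifferentiableOn ℂ
        (fun z => Complex.exp (-((2 * a : ℝ) : ℂ) * h z) / (1 + k z) ^ (2 * b)) (ball 0 1) := by
      refine h30.congr fun z _ => ?_
      rw [hn0, sub_zero]
    have := hB β hβ0 hβ1 f
      (fun z => Complex.exp (-((2 * a : ℝ) : ℂ) * h z) / (1 + k z) ^ (2 * b))
      (fun z => Complex.exp (((2 * a : ℝ) : ℂ) * hn n z)) (max 1 (Real.exp (2 * a * M))) hf hd0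
      (((hdn n).2.const_mul _).cexp) (fun z hz => by
        constructor
        · refine le_trans ?_ (le_max_left _ _)
          have := hbd3 0 z hz
          rwa [hn0, sub_zero] at this
        · refine le_trans ?_ (le_max_right _ _)
          rw [Complex.norm_exp]
          apply Real.exp_le_exp.2
          rw [Complex.re_ofReal_mul]
          have h1 := (Complex.re_le_norm (hn n z)).trans (hM z hz).2
          have : 0 ≤ 2 * a := by positivity
          gcongr) hEn0 hE3' hcl3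
    refine this.congr fun z hz => ?_
    rw [← mul_div_assoc, ← Complex.exp_add]
    congr 2
    ring
  have h0b : ‖(0 : ℂ)‖ < 1 := by simp
  obtain ⟨hcl5, hin5, hd5⟩ := hW β hβ0 hβ1 f _ (fun z => 1 / (1 + k z) ^ (2 * b)) (1 + M1)
    (by simp [hM1]) hf hd3 hcl4 (fun n => by
      refine add_le_add ?_ (hM1' n)
      rw [← ENNReal.ofReal_one]
      apply ENNReal.ofReal_le_ofReal
      exact pow_le_one₀ (norm_nonneg _) (hbd3 n 0 h0b)) (fun z hz => by
      have h1 : Tendsto (fun n => Complex.exp (-((2 * a : ℝ) : ℂ) * (h z - hn n z))) atTop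
          (𝓝 (Complex.exp (-((2 * a : ℝ) : ℂ) * (h z - h z)))) :=
        ((tendsto_const_nhds.sub (hlim z hz).2).const_mul _).cexp
      rw [sub_self, mul_zero, Complex.exp_zero] at h1
      exact h1.div_const _)
  -- the last step
  have hE5 := En_of_InD hN hβ0 hβ1 hin5
  obtain ⟨M2, hM2, hM2'⟩ := hE2 (2 * b)
  have hd6 : ∀ n, DifferentiableOn ℂ (fun z => ((1 + kn n z) / (1 + k z)) ^ (2 * b)) (ball 0 1) := by
    intro n
    apply DifferentiableOn.pow
    apply DifferentiableOn.div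
    · exact (differentiableOn_const _).add (hdn n).1
    · exact (differentiableOn_const _).add hdk
    · intro z hz
      exact (hk1 z (by simpa using hz)).2.2
  have hcl6 : ∀ n, Cl (1 - β) f (fun z => ((1 + kn n z) / (1 + k z)) ^ (2 * b)) := by
    intro n
    obtain ⟨M, hM⟩ := hbn n
    have hM0 : 0 ≤ M := (norm_nonneg _).trans (hM 0 (by simp)).1
    have := hB β hβ0 hβ1 f (fun z => 1 / (1 + k z) ^ (2 * b)) (fun z => (1 + kn n z) ^ (2 * b))
      ((1 + M) ^ (2 * b)) hf hd5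
      (((differentiableOn_const _).add (hdn n).1).pow _) (fun z hz => by
        obtain ⟨h2, h3, _⟩ := hk1 z hz
        constructor
        · rw [norm_div, norm_pow, norm_one]
          refine le_trans (div_le_one_of_le₀ (one_le_pow₀ h2) (by positivity)) ?_
          exact one_le_pow₀ (by linarith)
        · rw [norm_pow]
          gcongr
          refine (norm_add_le _ _).trans ?_
          rw [norm_one]
          linarith [(hM z hz).1]) hE5 (hE3 n (2 * b) 0).2 hcl5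
    refine this.congr fun z hz => ?_
    rw [div_pow]
    ring
  have hfin := hW β hβ0 hβ1 f _ (fun _ => 1) (ENNReal.ofReal ((C ^ (2 * b)) ^ 2) + M2)
    (by simp [hM2]) hf hd6 hcl6 (fun n => by
      refine add_le_add ?_ (hM2' n)
      apply ENNReal.ofReal_le_ofReal
      gcongr
      rw [norm_pow, norm_div]
      gcongr
      rw [div_le_iff₀ (by linarith [(hk1 0 h0b).1])]
      exact (hre n 0 h0b).2.2.2) (fun z hz => by
      have h1 : Tendsto (fun n => ((1 + kn n z) / (1 + k z)) ^ (2 * b)) atTop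
          (𝓝 (((1 + k z) / (1 + k z)) ^ (2 * b))) :=
        ((tendsto_const_nhds.add (hlim z hz).1).div_const _).pow _
      rwa [div_self (hk1 z hz).2.2, one_pow] at h1)
  exact hfin.1

end Pool.Agent.Helper59K9.CY
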