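import Pool.Agent.Helper59K9.CY.Slk
import Pool.Agent.Helper59K9.CY.Lpb

/-!
[SLKL] the energy of a limit potential
-/

set_option autoImplicit false

open MeasureTheory Metric Filter Topology ComplexConjugate

namespace Pool.Agent.Helper59K9.CY

namespace SlklL

lemma aem (β : ℝ) {u : ℂ → ℂ} (hd : DifferentiableOn ℂ u (ball 0 1)) : AEMeasurable u (mu β) := by
  have h1 : AEMeasurable u (volume.restrict (ball (0 : ℂ) 1)) :=
    hd.continuousOn.aemeasurable measurableSet_ball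
  exact h1.mono_ac (withDensity_absolutelyContinuous _ _)

lemma aemX (β σ : ℝ) {k : ℂ → ℂ} (hd : DifferentiableOn ℂ k (ball 0 1)) :
    AEMeasurable (fun z => ENNReal.ofReal (‖deriv k z‖ ^ 2 * ‖k z‖ ^ (σ - 1) *
      (1 + ‖k z‖) ^ (-2 : ℝ))) (mu β) := by
  have h1 := (aem β hd).norm
  have h2 := (aem β (hd.deriv isOpen_ball)).norm
  exact (((h2.pow_const 2).mul (h1.pow_const _)).mul ((h1.const_add 1).pow_const _)).ennreal_ofReal

end SlklL

open SlklL LpbL in
theorem slkl (hS : S_SLK) : S_SLKL := by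
  intro β p σ K hβ0 hβ1 hp hσ0 hσ1 hK
  obtain ⟨C, hC, hSLK⟩ := hS β p σ K hβ0 hβ1 hp hσ0 hσ1 hK
  refine ⟨C, hC, fun c k hLP hre => ?_⟩
  obtain ⟨hd, s, x, hs, hc, hlim⟩ := hLP
  have hlimF : ∀ z : ℂ, ‖z‖ < 1 → Tendsto (fun i => ENNReal.ofReal
      (‖deriv (pot K (s i) (x i)) z‖ ^ 2 * ‖pot K (s i) (x i) z‖ ^ (σ - 1) *
        (1 + ‖pot K (s i) (x i) z‖) ^ (-2 : ℝ))) atTop
      (𝓝 (ENNReal.ofReal (‖deriv k z‖ ^ 2 * ‖k z‖ ^ (σ - 1) * (1 + ‖k z‖) ^ (-2 : ℝ)))) := by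
    intro z hz
    obtain ⟨h1, h2⟩ := hlim z hz
    have h0 : 0 < ‖k z‖ := lt_of_lt_of_le (hre z hz) (Complex.re_le_norm _)
    apply (ENNReal.continuous_ofReal.tendsto _).comp
    refine ((h2.norm.pow 2).mul (h1.norm.rpow_const (Or.inl h0.ne'))).mul ?_
    exact (h1.norm.const_add 1).rpow_const (Or.inl (by positivity))
  have hpos : ∀ᶠ i in atTop, 0 < ∑ w ∈ s i, x i w := by
    have h1 := (Complex.continuous_re.tendsto _).comp (hlim 0 (by simp)).1
    have h2 := h1.eventually (lt_mem_nhds (hre 0 (by simp)))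
    filter_upwards [h2] with i hi
    have h3 : 0 ≤ ∑ w ∈ s i, x i w := Finset.sum_nonneg fun w hw => (hs i w hw).2
    rcases h3.lt_or_eq with h4 | h4
    · exact h4
    · exfalso
      have h5 := (Finset.sum_eq_zero_iff_of_nonneg fun w hw => (hs i w hw).2).1 h4.symm
      have h6 : pot K (s i) (x i) 0 = 0 := by
        unfold pot
        refine Finset.sum_eq_zero fun w hw => ?_
        rw [h5 w hw]
        simp
      rw [Function.comp_apply, h6] at hi
      simp at hi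
  calc ∫⁻ z, ENNReal.ofReal (‖deriv k z‖ ^ 2 * ‖k z‖ ^ (σ - 1) * (1 + ‖k z‖) ^ (-2 : ℝ)) ∂(mu β)
      = ∫⁻ z, liminf (fun i => ENNReal.ofReal
          (‖deriv (pot K (s i) (x i)) z‖ ^ 2 * ‖pot K (s i) (x i) z‖ ^ (σ - 1) *
            (1 + ‖pot K (s i) (x i) z‖) ^ (-2 : ℝ))) atTop ∂(mu β) := by
        apply lintegral_congr_ae
        filter_upwards [ParL.ae_ball β] with z hz
        exact (hlimF z hz).liminf_eq.symm
    _ ≤ liminf (fun i => ∫⁻ z, ENNReal.ofReal
          (‖deriv (pot K (s i) (x i)) z‖ ^ 2 * ‖pot K (s i) (x i) z‖ ^ (σ - 1) *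
            (1 + ‖pot K (s i) (x i) z‖) ^ (-2 : ℝ)) ∂(mu β)) atTop :=
        lintegral_liminf_le' fun i => aemX β σ (pot_diff hK.diff fun w hw => (hs i w hw).1)
    _ ≤ ENNReal.ofReal (C * c) := by
        apply liminf_le_of_frequently_le'
        apply Eventually.frequently
        filter_upwards [hpos] with i hi
        refine (hSLK (s i) (x i) (hs i) hi).trans (ENNReal.ofReal_le_ofReal ?_)
        exact mul_le_mul_of_nonneg_left (hc i) hC.le

end Pool.Agent.Helper59K9.CY
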