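import Pool.Agent.Helper59K9.CY.Dil

/-!
# [ST1] a bounded `f / (1 + k)`
-/

set_option autoImplicit false

open MeasureTheory Metric Filter Topology ComplexConjugate
open scoped Classical

namespace Pool.Agent.Helper59K9.CY

namespace St1L

open ParL

theorem one_add {k : ℂ} (h : 0 ≤ k.re) :
    1 ≤ ‖1 + k‖ ∧ ‖k‖ ≤ ‖1 + k‖ ∧ 1 + ‖k‖ ≤ 2 * ‖1 + k‖ := by
  have h1 : 1 ≤ ‖1 + k‖ := by
    have := Complex.re_le_norm (1 + k)
    rw [Complex.add_re, Complex.one_re] at this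
    linarith
  have h2 : ‖k‖ ≤ ‖1 + k‖ := by
    apply le_of_sq_le_sq _ (norm_nonneg _)
    rw [Complex.sq_norm, Complex.sq_norm, Complex.normSq_apply, Complex.normSq_apply]
    simp only [Complex.add_re, Complex.one_re, Complex.add_im, Complex.one_im, zero_add]
    nlinarith
  exact ⟨h1, h2, by linarith⟩

theorem real_bound (A' A B δ N κ κ' L Cf : ℝ) (hA' : 0 ≤ A') (hA : 0 ≤ A) (_ : 0 ≤ B)
    (_ : 0 ≤ δ) (hκ : 0 ≤ κ) (hκ' : 0 ≤ κ') (hL : 0 ≤ L) (hCf : 0 ≤ Cf) (hN : 1 ≤ N)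
    (h1 : κ ≤ N) (h2 : 1 + κ ≤ 2 * N) (h3 : B ^ 2 ≤ Cf * N) (h4 : κ' ≤ L * κ) (h5 : A ≤ B + δ) :
    (A' / N + A * κ' / N ^ 2) ^ 2 ≤
      2 * A' ^ 2 + 16 * Cf * (κ' ^ 2 / (1 + κ) ^ 2) + 4 * L ^ 2 * δ ^ 2 := by
  have hN0 : 0 < N := by linarith
  have e1 : A' / N ≤ A' := div_le_self hA' hN
  have e2 : (A' / N + A * κ' / N ^ 2) ^ 2 ≤ 2 * A' ^ 2 + 2 * (A * κ' / N ^ 2) ^ 2 := by
    have : 0 ≤ A' / N := by positivity
    have h7 : (A' / N) ^ 2 ≤ A' ^ 2 := pow_le_pow_left₀ this e1 2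
    nlinarith [sq_nonneg (A' / N - A * κ' / N ^ 2)]
  have e3 : A ^ 2 ≤ 2 * (Cf * N) + 2 * δ ^ 2 := by
    have : A ^ 2 ≤ (B + δ) ^ 2 := pow_le_pow_left₀ hA h5 2
    nlinarith [sq_nonneg (B - δ)]
  have e4 : (A * κ' / N ^ 2) ^ 2 = A ^ 2 * (κ' ^ 2 / N ^ 4) := by
    field_simp
  have e5 : 2 * (A * κ' / N ^ 2) ^ 2 ≤
      4 * Cf * (N * (κ' ^ 2 / N ^ 4)) + 4 * δ ^ 2 * (κ' ^ 2 / N ^ 4) := by
    rw [e4]
    have : 0 ≤ κ' ^ 2 / N ^ 4 := by positivity
    nlinarith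
  have e6 : N * (κ' ^ 2 / N ^ 4) ≤ 4 * (κ' ^ 2 / (1 + κ) ^ 2) := by
    have q1 : N * (κ' ^ 2 / N ^ 4) = κ' ^ 2 / N ^ 3 := by field_simp
    have q2 : κ' ^ 2 / N ^ 3 ≤ κ' ^ 2 / N ^ 2 :=
      div_le_div_of_nonneg_left (by positivity) (by positivity)
        (pow_le_pow_right₀ hN (by norm_num))
    have q3 : κ' ^ 2 / N ^ 2 ≤ κ' ^ 2 / (((1 + κ) / 2) ^ 2) :=
      div_le_div_of_nonneg_left (by positivity) (by positivity)
        (pow_le_pow_left₀ (by positivity) (by linarith) 2)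
    have q4 : κ' ^ 2 / (((1 + κ) / 2) ^ 2) = 4 * (κ' ^ 2 / (1 + κ) ^ 2) := by
      field_simp; norm_num
    rw [q1]
    linarith
  have e7 : κ' ^ 2 / N ^ 4 ≤ L ^ 2 := by
    have q1 : κ' ^ 2 ≤ L ^ 2 * N ^ 2 := by
      rw [← mul_pow]
      exact pow_le_pow_left₀ hκ' (h4.trans (mul_le_mul_of_nonneg_left h1 hL)) 2
    rw [div_le_iff₀ (by positivity)]
    have q2 : N ^ 2 ≤ N ^ 4 := pow_le_pow_right₀ hN (by norm_num)
    nlinarith [sq_nonneg L]
  have e8 : 4 * Cf * (N * (κ' ^ 2 / N ^ 4)) ≤ 4 * Cf * (4 * (κ' ^ 2 / (1 + κ) ^ 2)) :=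
    mul_le_mul_of_nonneg_left e6 (by positivity)
  have e9 : 4 * δ ^ 2 * (κ' ^ 2 / N ^ 4) ≤ 4 * δ ^ 2 * L ^ 2 :=
    mul_le_mul_of_nonneg_left e7 (by positivity)
  linarith

/-- integration of a pointwise bound by three terms -/
theorem three (β : ℝ) (φ f : ℂ → ℂ) (X Y : ℂ → ℝ) (a b : ℝ) (ha : 0 ≤ a) (hb : 0 ≤ b)
    (hX : ∀ z, 0 ≤ X z) (hY : ∀ z, 0 ≤ Y z)
    (hYm : AEMeasurable Y (mu β))
    (h : ∀ z : ℂ, ‖z‖ < 1 → ‖deriv φ z‖ ^ 2 ≤ 2 * ‖deriv f z‖ ^ 2 + a * X z + b * Y z) :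
    En β φ ≤ 2 * En β f + ENNReal.ofReal a * ∫⁻ z, ENNReal.ofReal (X z) ∂(mu β) +
      ENNReal.ofReal b * ∫⁻ z, ENNReal.ofReal (Y z) ∂(mu β) := by
  have hfm : Measurable fun z => ENNReal.ofReal (‖deriv f z‖ ^ 2) :=
    ((measurable_deriv f).norm.pow_const 2).ennreal_ofReal
  have hYm' : AEMeasurable (fun z => ENNReal.ofReal b * ENNReal.ofReal (Y z)) (mu β) :=
    hYm.ennreal_ofReal.const_mul _
  calc En β φ ≤ ∫⁻ z, (2 * ENNReal.ofReal (‖deriv f z‖ ^ 2) +
        (ENNReal.ofReal a * ENNReal.ofReal (X z) + ENNReal.ofReal b * ENNReal.ofReal (Y z)))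
          ∂(mu β) := by
        refine lintegral_mono_ae ?_
        filter_upwards [ae_ball β] with z hz
        have h1 := h z hz
        refine (ENNReal.ofReal_le_ofReal h1).trans (le_of_eq ?_)
        have p1 : 0 ≤ 2 * ‖deriv f z‖ ^ 2 := by positivity
        have p2 : 0 ≤ a * X z := mul_nonneg ha (hX z)
        have p3 : 0 ≤ b * Y z := mul_nonneg hb (hY z)
        rw [ENNReal.ofReal_add (by linarith) p3, ENNReal.ofReal_add p1 p2,
          ENNReal.ofReal_mul (by norm_num : (0 : ℝ) ≤ 2), ENNReal.ofReal_mul ha,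
          ENNReal.ofReal_mul hb, ENNReal.ofReal_ofNat, add_assoc]
    _ = 2 * En β f + (∫⁻ z, ENNReal.ofReal a * ENNReal.ofReal (X z) ∂(mu β) +
        ∫⁻ z, ENNReal.ofReal b * ENNReal.ofReal (Y z) ∂(mu β)) := by
        rw [lintegral_add_left (hfm.const_mul 2), lintegral_const_mul _ hfm,
          lintegral_add_right' _ hYm']
        rfl
    _ = _ := by
        rw [lintegral_const_mul'' _ hYm.ennreal_ofReal,
          lintegral_const_mul' _ _ ENNReal.ofReal_ne_top, add_assoc]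

end St1L

open St1L ParL

theorem st1 (clm : S_CLM) (clw : S_CLW) (lpb : S_LPB) (lps : S_LPS) (slkl : S_SLKL) : S_ST1 := by
  intro β p K hβ hβ1 hp hK f k c C hf hk hfk
  obtain ⟨⟨CL, hCL, hL⟩, -, hdil⟩ := lpb β p K hβ hβ1 hp hK
  obtain ⟨hconst, -, hadd, -⟩ := lps β p K hβ hβ1 hp hK
  obtain ⟨CS, hCS, hS⟩ := slkl β p 1 K hβ hβ1 hp one_pos le_rfl hK
  obtain ⟨k0, hk0, hK0⟩ := hK.pos
  have hK0' : k0 ≤ (K 0).re := hK0 0 (by simp)
  have hK0n : 0 ≤ ‖K 0‖ := norm_nonneg _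
  have hc0 : 0 ≤ c := (hL c k hk).1
  have hkd : DifferentiableOn ℂ k (ball 0 1) := hk.1
  have hkre : ∀ z : ℂ, ‖z‖ < 1 → 0 ≤ (k z).re := fun z hz => ((hL c k hk).2 z hz).2.1
  obtain ⟨a, ha, hna⟩ := hf
  have hfd : DifferentiableOn ℂ f (ball 0 1) := (dco.1 f).mpr ⟨a, ha⟩
  -- the energy of `f`
  have hEf : En β f ≠ ⊤ := by
    obtain ⟨_, C', _, _, hn⟩ := norm β hβ hβ1
    have h1 := (hn f a ha).2
    have h2 : En β f ≤ ENNReal.ofReal C' * nrm (1 - β) a := le_trans le_add_self h1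
    exact ne_top_of_le_ne_top (ENNReal.mul_ne_top ENNReal.ofReal_ne_top hna) h2
  -- the radii
  set r : ℕ → ℝ := fun i => 1 - 1 / ((i : ℝ) + 2) with hr
  have hr0 : ∀ i, 0 < r i := by
    intro i
    rw [hr]
    simp only
    have : 1 / ((i : ℝ) + 2) < 1 := by
      rw [div_lt_one (by positivity)]
      have : (0 : ℝ) ≤ i := Nat.cast_nonneg i
      linarith
    linarith
  have hr1 : ∀ i, r i < 1 := by
    intro i
    rw [hr]
    simp only
    have : 0 < 1 / ((i : ℝ) + 2) := by positivity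
    linarith
  have hrt : Tendsto r atTop (𝓝 1) := by
    have h1 : Tendsto (fun i : ℕ => 1 / ((i : ℝ) + 2)) atTop (𝓝 0) := by
      have h2 := tendsto_one_div_add_atTop_nhds_zero_nat (𝕜 := ℝ)
      have h3 := (tendsto_add_atTop_iff_nat (f := fun n : ℕ => 1 / ((n : ℝ) + 1)) 1).mpr h2
      refine h3.congr fun i => ?_
      push_cast
      ring
    have h4 := (tendsto_const_nhds (x := (1 : ℝ))).sub h1
    rw [sub_zero] at h4
    exact h4
  set Cf : ℝ := |C| with hCf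
  have hCf0 : 0 ≤ Cf := abs_nonneg _
  have hfk' : ∀ z : ℂ, ‖z‖ < 1 → ‖f z‖ ^ 2 ≤ Cf * ‖1 + k z‖ := by
    intro z hz
    have h1 := hfk z hz
    have h2 := Complex.re_le_norm (1 + k z)
    rw [Complex.add_re, Complex.one_re] at h2
    have h3 := hkre z hz
    calc ‖f z‖ ^ 2 ≤ C * (1 + (k z).re) := h1
      _ ≤ Cf * (1 + (k z).re) := mul_le_mul_of_nonneg_right (le_abs_self C) (by linarith)
      _ ≤ _ := mul_le_mul_of_nonneg_left h2 hCf0
  have hin : ∀ (i : ℕ) (z : ℂ), ‖z‖ < 1 → ‖(r i : ℂ) * z‖ < 1 := by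
    intro i z hz
    rw [norm_mul, Complex.norm_real, Real.norm_of_nonneg (hr0 i).le]
    have := norm_nonneg z
    nlinarith [hr0 i, hr1 i]
  -- the approximations
  set φ : ℕ → ℂ → ℂ := fun i z => (1 + k (r i * z))⁻¹ * f z with hφ
  set M : ENNReal := ENNReal.ofReal (‖f 0‖ ^ 2) + (2 * En β f +
    ENNReal.ofReal (16 * Cf * (1 + ‖K 0‖) ^ 2) * ENNReal.ofReal (CS * (c + 1)) +
    ENNReal.ofReal (4 * CL ^ 2) * En β f) with hM
  have hMtop : M ≠ ⊤ := by
    rw [hM]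
    refine ENNReal.add_ne_top.mpr ⟨ENNReal.ofReal_ne_top, ENNReal.add_ne_top.mpr
      ⟨ENNReal.add_ne_top.mpr ⟨ENNReal.mul_ne_top (by norm_num) hEf,
        ENNReal.mul_ne_top ENNReal.ofReal_ne_top ENNReal.ofReal_ne_top⟩,
        ENNReal.mul_ne_top ENNReal.ofReal_ne_top hEf⟩⟩
  have hDne : ∀ z : ℂ, ‖z‖ < 1 → 1 + k z ≠ 0 := by
    intro z hz h0
    have h1 := (one_add (hkre z hz)).1
    rw [h0, norm_zero] at h1
    linarith
  have hkder : ∀ z : ℂ, ‖z‖ < 1 → HasDerivAt k (deriv k z) z := fun z hz =>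
    (hkd.differentiableAt (isOpen_ball.mem_nhds (mem_ball_zero_iff.mpr hz))).hasDerivAt
  have hfder : ∀ z : ℂ, ‖z‖ < 1 → HasDerivAt f (deriv f z) z := fun z hz =>
    (hfd.differentiableAt (isOpen_ball.mem_nhds (mem_ball_zero_iff.mpr hz))).hasDerivAt
  have hkrder : ∀ (i : ℕ) (z : ℂ), ‖z‖ < 1 →
      HasDerivAt (fun z => k (r i * z)) ((r i : ℂ) * deriv k (r i * z)) z := by
    intro i z hz
    have h1 : HasDerivAt (fun z : ℂ => (r i : ℂ) * z) (r i : ℂ) z := by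
      simpa using (hasDerivAt_id z).const_mul (r i : ℂ)
    have h2 := (hkder _ (hin i z hz)).comp z h1
    refine h2.congr_deriv (mul_comm _ _)
  have hφder : ∀ (i : ℕ) (z : ℂ), ‖z‖ < 1 → HasDerivAt (φ i)
      (deriv f z / (1 + k (r i * z)) -
        f z * ((r i : ℂ) * deriv k (r i * z)) / (1 + k (r i * z)) ^ 2) z := by
    intro i z hz
    have hne := hDne _ (hin i z hz)
    have h1 := ((hkrder i z hz).const_add 1).inv hne
    have h2 := h1.mul (hfder z hz)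
    refine h2.congr_deriv ?_
    rw [Pi.inv_apply]
    field_simp
    ring
  have hres := clw β hβ hβ1 f φ (fun z => f z / (1 + k z)) M hMtop ⟨a, ha, hna⟩ ?_ ?_ ?_ ?_
  · exact ⟨hres.1, hres.2.1⟩
  · intro i z hz
    rw [mem_ball_zero_iff] at hz
    exact (hφder i z hz).differentiableAt.differentiableWithinAt
  · -- closure
    intro i
    have hR : 1 < 1 / r i := by
      rw [lt_div_iff₀ (hr0 i)]; linarith [hr1 i]
    refine clm (1 - β) (by linarith) (by linarith) f f (fun z => (1 + k (r i * z))⁻¹) (1 / r i)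
      ⟨a, ha, hna⟩ ?_ hR ?_
    · intro ε hε
      refine ⟨1, 0, ?_, ?_⟩
      · intro z _
        simp only [Polynomial.eval_one, one_mul, sub_self, Pi.zero_apply, zero_mul]
        exact hasSum_zero
      · unfold nrm
        simpa using hε
    · have hmaps : ∀ z ∈ ball (0 : ℂ) (1 / r i), (r i : ℂ) * z ∈ ball (0 : ℂ) 1 := by
        intro z hz
        rw [mem_ball_zero_iff] at hz ⊢
        rw [norm_mul, Complex.norm_real, Real.norm_of_nonneg (hr0 i).le]
        rw [lt_div_iff₀ (hr0 i)] at hz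
        linarith
      refine DifferentiableOn.inv (DifferentiableOn.const_add _ ?_) ?_
      · exact hkd.comp ((differentiable_id.const_mul (r i : ℂ)).differentiableOn) hmaps
      · intro z hz
        exact hDne _ (mem_ball_zero_iff.mp (hmaps z hz))
  · -- energy
    intro i
    have hri0 := hr0 i
    have hri1 := hr1 i
    have hd : 0 < 1 - r i := by linarith
    -- the potential used for the energy
    set kt : ℂ → ℂ := fun z => k (r i * z) + ((1 : ℝ) : ℂ) * K 0 with hkt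
    have hLPt : LP K (c + 1) kt := hadd c 1 _ _ (hdil c (r i) k hri0 hri1 hk) (hconst 1 zero_le_one)
    have hktd : ∀ z : ℂ, ‖z‖ < 1 → deriv kt z = (r i : ℂ) * deriv k (r i * z) := by
      intro z hz
      exact ((hkrder i z hz).add_const _).deriv
    have hktre : ∀ z : ℂ, ‖z‖ < 1 → 0 < (kt z).re := by
      intro z hz
      rw [hkt]
      simp only [Complex.ofReal_one, one_mul, Complex.add_re]
      have := hkre _ (hin i z hz)
      linarith
    have hSL := hS (c + 1) kt hLPt hktre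
    -- the third integral
    have hD := dil β hβ hβ1 f hfd (r i) hri0 hri1
    set X : ℂ → ℝ := fun z => ‖deriv kt z‖ ^ 2 * ‖kt z‖ ^ ((1 : ℝ) - 1) *
      (1 + ‖kt z‖) ^ (-2 : ℝ) with hX
    set Y : ℂ → ℝ := fun z => ‖f z - f (r i * z)‖ ^ 2 with hY
    have hYm : AEMeasurable Y (mu β) := by
      have h1 : ContinuousOn Y (ball 0 1) := by
        rw [hY]
        have h2 : ContinuousOn (fun z : ℂ => f (r i * z)) (ball 0 1) := by
          refine hfd.continuousOn.comp (by fun_prop) ?_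
          intro z hz
          rw [mem_ball_zero_iff] at hz ⊢
          exact hin i z hz
        exact ((hfd.continuousOn.sub h2).norm).pow 2
      exact (h1.aemeasurable measurableSet_ball).mono_ac (withDensity_absolutelyContinuous _ _)
    have hE := three β (φ i) f X Y (16 * Cf * (1 + ‖K 0‖) ^ 2) (4 * (CL / (1 - r i)) ^ 2)
      (by positivity) (by positivity) (fun z => by positivity) (fun z => by positivity) hYm (by
      intro z hz
      have hz' := hin i z hz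
      rw [(hφder i z hz).deriv]
      set kk := k (r i * z) with hkk
      set kd := (r i : ℂ) * deriv k (r i * z) with hkd'
      have hre := hkre _ hz'
      obtain ⟨b1, b2, b3⟩ := one_add hre
      have hb := (hL c k hk).2 _ hz'
      have hkdn : ‖kd‖ ≤ CL / (1 - r i) * ‖kk‖ := by
        have h1 : 1 - r i ≤ 1 - ‖(r i : ℂ) * z‖ := by
          rw [norm_mul, Complex.norm_real, Real.norm_of_nonneg hri0.le]
          nlinarith
        have h2 : ‖deriv k (r i * z)‖ * (1 - r i) ≤ CL * ‖kk‖ :=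
          (mul_le_mul_of_nonneg_left h1 (norm_nonneg _)).trans hb.2.2.2
        have h3 : ‖deriv k (r i * z)‖ ≤ CL / (1 - r i) * ‖kk‖ := by
          rw [div_mul_eq_mul_div, le_div_iff₀ hd]
          exact h2
        rw [hkd', norm_mul, Complex.norm_real, Real.norm_of_nonneg hri0.le]
        calc r i * ‖deriv k (r i * z)‖ ≤ 1 * ‖deriv k (r i * z)‖ :=
              mul_le_mul_of_nonneg_right hri1.le (norm_nonneg _)
          _ ≤ _ := by rw [one_mul]; exact h3
      have hmain := real_bound ‖deriv f z‖ ‖f z‖ ‖f (r i * z)‖ ‖f z - f (r i * z)‖ ‖1 + kk‖ ‖kk‖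
        ‖kd‖ (CL / (1 - r i)) Cf (norm_nonneg _) (norm_nonneg _) (norm_nonneg _) (norm_nonneg _)
        (norm_nonneg _) (norm_nonneg _) (by positivity) hCf0 b1 b2 b3 (hfk' _ hz') hkdn (by
          calc ‖f z‖ = ‖f (r i * z) + (f z - f (r i * z))‖ := by congr 1; ring
            _ ≤ _ := norm_add_le _ _)
      have hlhs : ‖deriv f z / (1 + kk) - f z * kd / (1 + kk) ^ 2‖ ^ 2 ≤
          (‖deriv f z‖ / ‖1 + kk‖ + ‖f z‖ * ‖kd‖ / ‖1 + kk‖ ^ 2) ^ 2 := by
        refine pow_le_pow_left₀ (norm_nonneg _) ?_ 2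
        refine (norm_sub_le _ _).trans (le_of_eq ?_)
        rw [norm_div, norm_div, norm_mul, norm_pow]
      refine hlhs.trans (hmain.trans ?_)
      have hXb : ‖kd‖ ^ 2 / (1 + ‖kk‖) ^ 2 ≤ (1 + ‖K 0‖) ^ 2 * X z := by
        have e1 : X z = ‖kd‖ ^ 2 / (1 + ‖kt z‖) ^ 2 := by
          rw [hX]
          simp only
          rw [hktd z hz, sub_self, Real.rpow_zero, mul_one, Real.rpow_neg (by positivity),
            Real.rpow_ofNat]
          rfl
        rw [e1]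
        have e2 : 1 + ‖kt z‖ ≤ (1 + ‖K 0‖) * (1 + ‖kk‖) := by
          have e3 : ‖kt z‖ ≤ ‖kk‖ + ‖K 0‖ := by
            rw [hkt]
            simp only [Complex.ofReal_one, one_mul]
            exact norm_add_le _ _
          nlinarith [norm_nonneg kk]
        rw [← mul_div_assoc, div_le_div_iff₀ (by positivity) (by positivity)]
        have e4 : (1 + ‖kt z‖) ^ 2 ≤ ((1 + ‖K 0‖) * (1 + ‖kk‖)) ^ 2 :=
          pow_le_pow_left₀ (by positivity) e2 2
        calc ‖kd‖ ^ 2 * (1 + ‖kt z‖) ^ 2 ≤ ‖kd‖ ^ 2 * ((1 + ‖K 0‖) * (1 + ‖kk‖)) ^ 2 :=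
              mul_le_mul_of_nonneg_left e4 (by positivity)
          _ = _ := by ring
      have hXb' : 16 * Cf * (‖kd‖ ^ 2 / (1 + ‖kk‖) ^ 2) ≤ 16 * Cf * (1 + ‖K 0‖) ^ 2 * X z := by
        calc _ ≤ 16 * Cf * ((1 + ‖K 0‖) ^ 2 * X z) :=
              mul_le_mul_of_nonneg_left hXb (by positivity)
          _ = _ := by ring
      linarith)
    rw [hM]
    have hφ0 : ENNReal.ofReal (‖φ i 0‖ ^ 2) ≤ ENNReal.ofReal (‖f 0‖ ^ 2) := by
      apply ENNReal.ofReal_le_ofReal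
      apply pow_le_pow_left₀ (norm_nonneg _)
      rw [hφ]
      simp only
      rw [norm_mul, norm_inv]
      have h1 := (one_add (hkre _ (hin i 0 (by simp)))).1
      calc ‖1 + k (r i * 0)‖⁻¹ * ‖f 0‖ ≤ 1 * ‖f 0‖ :=
            mul_le_mul_of_nonneg_right (inv_le_one_of_one_le₀ h1) (norm_nonneg _)
        _ = _ := one_mul _
    refine add_le_add hφ0 (hE.trans ?_)
    refine add_le_add (add_le_add le_rfl (mul_le_mul_right hSL _)) ?_
    calc ENNReal.ofReal (4 * (CL / (1 - r i)) ^ 2) * ∫⁻ z, ENNReal.ofReal (Y z) ∂(mu β) ≤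
          ENNReal.ofReal (4 * (CL / (1 - r i)) ^ 2) *
            (ENNReal.ofReal ((1 - r i) ^ 2) * En β f) := mul_le_mul_right hD _
      _ = _ := by
          rw [← mul_assoc, ← ENNReal.ofReal_mul (by positivity)]
          congr 2
          field_simp
  · -- pointwise convergence
    intro z hz
    have h1 : Tendsto (fun i => (r i : ℂ) * z) atTop (𝓝 (1 * z)) := by
      refine Tendsto.mul_const z ?_
      have h5 := (Complex.continuous_ofReal.tendsto 1).comp hrt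
      rw [Complex.ofReal_one] at h5
      exact h5
    rw [one_mul] at h1
    have h2 : ContinuousAt k z := (hkder z hz).continuousAt
    have h3 := (h2.tendsto.comp h1).const_add 1
    have h4 := (h3.inv₀ (hDne z hz)).mul_const (f z)
    have e : (1 + k z)⁻¹ * f z = f z / (1 + k z) := by rw [div_eq_mul_inv, mul_comm]
    rw [e] at h4
    exact h4

end Pool.Agent.Helper59K9.CY
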