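import Pool.Agent.Helper59K9.CY.Eng
import Pool.Agent.Helper59K9.CY.Slkl
import Pool.Agent.Helper59K9.CY.St1
import Pool.Agent.Helper59K9.CY.Clb
import Pool.Agent.Helper59K9.CY.Clw
import Pool.Agent.Helper59K9.CY.Clm
import Pool.Agent.Helper59K9.CY.Lev
import Pool.Agent.Helper59K9.CY.Exi
import Pool.Agent.Helper59K9.CY.Lps
import Pool.Agent.Helper59K9.CY.Lpb
import Pool.Agent.Helper59K9.CY.Ker0
import Pool.Agent.Helper59K9.CY.Ker1
import Pool.Agent.Helper59K9.CY.Norm
import Pool.Agent.Helper59K9.CY.Par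
import Pool.Agent.Helper59K9.CY.Pos

/-!
The positive direction of MP_53dd33_an.
-/

set_option autoImplicit false

open MeasureTheory Metric Filter Topology ComplexConjugate

namespace Pool.Agent.Helper59K9.CY

theorem spos : S_POS :=
  pos dco norm (clw dco norm) (clb dco norm clm (clw dco norm)) (lev exi lpb lps)
    (st1 clm (clw dco norm) lpb lps (slkl slk)) (eng (slkl slk) lpb lps hj sq)

/-- the positive direction for both kernels: `α = 1 - β`, `t = 1 / p` -/
theorem positive {α t : ℝ} (hα0 : 0 < α) (hα1 : α ≤ 1) (ht : 0 < t) (hαt : (1 - α) / 2 ≤ t)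
    {f g L : ℂ → ℂ} (hf : InD α f) (hg : InD α g)
    (hL : ∀ z : ℂ, ‖z‖ < 1 → Complex.exp (L z) = f z ∧ ‖g z‖ = ‖L z‖ ^ t) :
    Cl α f (fun _ => 1) := by
  obtain ⟨p, K, hp, hpt, hK⟩ : ∃ (p : ℝ) (K : ℂ → ℂ), 2 < p ∧ 1 / t ≤ p ∧ Ker (1 - α) p K := by
    rcases hα1.lt_or_eq with h | h
    · have hβ : 0 < 1 - α := by linarith
      refine ⟨2 / (1 - α), _, ?_, ?_, ker1 dco par (1 - α) hβ (by linarith)⟩
      · rw [lt_div_iff₀ hβ]
        linarith
      · rw [div_le_div_iff₀ ht hβ]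
        linarith
    · obtain ⟨c, hc⟩ := ker0 dco par (max 3 (1 / t)) (lt_max_of_lt_left (by norm_num))
      have h0 : 1 - α = 0 := by linarith
      rw [h0]
      exact ⟨max 3 (1 / t), _, lt_max_of_lt_left (by norm_num), le_max_right _ _, hc⟩
  have e : 1 - (1 - α) = α := by ring
  have h := spos (1 - α) p K (by linarith) (by linarith) hp hK f g L (by rwa [e]) (by rwa [e])
    fun z hz => ⟨(hL z hz).1, ?_⟩
  · rwa [e] at h
  · have h1 : ‖L z‖ = ‖g z‖ ^ (1 / t) := by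
      rw [(hL z hz).2, ← Real.rpow_mul (norm_nonneg _), mul_one_div_cancel ht.ne', Real.rpow_one]
    rw [h1]
    rcases le_total ‖g z‖ 1 with h2 | h2
    · have h3 : ‖g z‖ ^ (1 / t) ≤ 1 := Real.rpow_le_one (norm_nonneg _) h2 (by positivity)
      have h4 : 0 ≤ ‖g z‖ ^ p := by positivity
      linarith
    · have h3 : ‖g z‖ ^ (1 / t) ≤ ‖g z‖ ^ p := Real.rpow_le_rpow_of_exponent_le h2 hpt
      linarith

end Pool.Agent.Helper59K9.CY
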