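import Pool.Agent.Helper59K9.CY.Bet

/-!
# Kernels: the trace inequality and the pairing, from the Taylor coefficients
-/

set_option autoImplicit false

open MeasureTheory Metric Filter Topology ComplexConjugate

namespace Pool.Agent.Helper59K9.CY

namespace KerL

/-- the trace inequality -/
theorem trace_of (β : ℝ) (K : ℂ → ℂ) (c : ℕ → ℝ) (c0 : ℝ) (hc0 : 0 < c0)
    (hK : Co K fun n => (c n : ℂ))
    (hc : ∀ n : ℕ, c0 * ((n : ℝ) + 1) ^ (β - 1) ≤ c n) :
    ∃ C : ℝ, 0 < C ∧ ∀ (u : ℂ → ℂ) (a : ℕ → ℂ), Co u a → nrm (1 - β) a ≠ ⊤ →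
    ∀ (s : Finset ℂ) (x : ℂ → ℝ), (∀ w ∈ s, ‖w‖ < 1 ∧ 0 ≤ x w) →
    (∑ w ∈ s, x w * ‖u w‖) ^ 2 ≤
      C * (nrm (1 - β) a).toReal * ∑ w ∈ s, ∑ v ∈ s, x w * x v * ‖K (w * conj v)‖ := by
  refine ⟨1 / c0, by positivity, ?_⟩
  intro u a hu hfin s x hs
  have hcpos : ∀ n, 0 < c n := fun n =>
    lt_of_lt_of_le (mul_pos hc0 (Real.rpow_pos_of_pos (by positivity) _)) (hc n)
  -- unimodular factors
  have hex : ∀ w : ℂ, ∃ e : ℂ, ‖e‖ ≤ 1 ∧ e * u w = (‖u w‖ : ℂ) := by
    intro w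
    by_cases h : u w = 0
    · exact ⟨0, by simp, by simp [h]⟩
    · refine ⟨conj (u w) / (‖u w‖ : ℂ), ?_, ?_⟩
      · rw [norm_div, RCLike.norm_conj]
        simp [h]
      · have h1 : (‖u w‖ : ℂ) ≠ 0 := by simpa using h
        rw [div_mul_eq_mul_div, div_eq_iff h1, mul_comm, Complex.mul_conj']
        ring
  choose e he1 he using hex
  set y : ℕ → ℂ := fun n => ∑ w ∈ s, e w * (x w : ℂ) * w ^ n with hy
  set S : ℝ := ∑ w ∈ s, x w * ‖u w‖ with hS
  have hS0 : 0 ≤ S := Finset.sum_nonneg fun w hw => mul_nonneg (hs w hw).2 (norm_nonneg _)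
  set T' : ℝ := ∑ w ∈ s, ∑ v ∈ s, x w * x v * ‖K (w * conj v)‖ with hT'
  -- the first sum
  have h1 : HasSum (fun n => a n * y n) (S : ℂ) := by
    have h2 : HasSum (fun n => ∑ w ∈ s, e w * (x w : ℂ) * (a n * w ^ n))
        (∑ w ∈ s, e w * (x w : ℂ) * u w) :=
      hasSum_sum fun w hw => (hu w (hs w hw).1).mul_left _
    have e1 : (fun n => ∑ w ∈ s, e w * (x w : ℂ) * (a n * w ^ n)) = fun n => a n * y n := by
      funext n
      rw [hy, Finset.mul_sum]
      exact Finset.sum_congr rfl fun w _ => by ring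
    have e2 : ∑ w ∈ s, e w * (x w : ℂ) * u w = (S : ℂ) := by
      rw [hS]
      push_cast
      refine Finset.sum_congr rfl fun w _ => ?_
      rw [mul_right_comm, he, mul_comm]
    rw [← e1, ← e2]
    exact h2
  -- the second sum
  have h3 : HasSum (fun n => (c n : ℂ) * (y n * conj (y n)))
      (∑ w ∈ s, ∑ v ∈ s, e w * (x w : ℂ) * conj (e v) * (x v : ℂ) * K (w * conj v)) := by
    have h4 : HasSum (fun n => ∑ w ∈ s, ∑ v ∈ s,
        e w * (x w : ℂ) * conj (e v) * (x v : ℂ) * ((c n : ℂ) * (w * conj v) ^ n))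
        (∑ w ∈ s, ∑ v ∈ s, e w * (x w : ℂ) * conj (e v) * (x v : ℂ) * K (w * conj v)) := by
      refine hasSum_sum fun w hw => hasSum_sum fun v hv => (hK _ ?_).mul_left _
      rw [norm_mul, RCLike.norm_conj]
      have a1 := (hs w hw).1
      have a2 := (hs v hv).1
      have a3 := norm_nonneg w
      have a4 := norm_nonneg v
      nlinarith
    convert h4 using 2 with n
    rw [hy]
    simp only [map_sum, map_mul, map_pow, Complex.conj_ofReal]
    rw [Finset.sum_mul_sum, Finset.mul_sum]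
    refine Finset.sum_congr rfl fun w _ => ?_
    rw [Finset.mul_sum]
    refine Finset.sum_congr rfl fun v _ => ?_
    rw [mul_pow]
    ring
  have h5 : HasSum (fun n => c n * ‖y n‖ ^ 2)
      (∑ w ∈ s, ∑ v ∈ s, e w * (x w : ℂ) * conj (e v) * (x v : ℂ) * K (w * conj v)).re := by
    have h6 := Complex.hasSum_re h3
    convert h6 using 2 with n
    rw [Complex.mul_conj', ← Complex.ofReal_pow, ← Complex.ofReal_mul, Complex.ofReal_re]
  have h7 : (∑ w ∈ s, ∑ v ∈ s, e w * (x w : ℂ) * conj (e v) * (x v : ℂ) * K (w * conj v)).re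
      ≤ T' := by
    refine (Complex.re_le_norm _).trans ((norm_sum_le _ _).trans ?_)
    refine Finset.sum_le_sum fun w hw => (norm_sum_le _ _).trans (Finset.sum_le_sum fun v hv => ?_)
    rw [norm_mul, norm_mul, norm_mul, norm_mul, RCLike.norm_conj, Complex.norm_real,
      Complex.norm_real, Real.norm_of_nonneg (hs w hw).2, Real.norm_of_nonneg (hs v hv).2]
    apply mul_le_mul_of_nonneg_right _ (norm_nonneg _)
    have b1 := he1 w
    have b2 := he1 v
    have b3 := (hs w hw).2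
    have b4 := (hs v hv).2
    have b5 : ‖e w‖ * x w ≤ x w := by nlinarith [norm_nonneg (e w)]
    calc ‖e w‖ * x w * ‖e v‖ * x v ≤ x w * 1 * x v := by
          apply mul_le_mul_of_nonneg_right _ b4
          exact mul_le_mul b5 b2 (norm_nonneg _) b3
      _ = x w * x v := by ring
  set W : ℝ := (nrm (1 - β) a).toReal with hW
  -- partial sums
  have h8 : ∀ N : ℕ, ‖∑ n ∈ Finset.range N, a n * y n‖ ^ 2 ≤ 1 / c0 * W * T' := by
    intro N
    have k1 : ‖∑ n ∈ Finset.range N, a n * y n‖ ≤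
        ∑ n ∈ Finset.range N, (‖a n‖ / Real.sqrt (c n)) * (Real.sqrt (c n) * ‖y n‖) := by
      refine (norm_sum_le _ _).trans (le_of_eq (Finset.sum_congr rfl fun n _ => ?_))
      rw [norm_mul]
      have : Real.sqrt (c n) ≠ 0 := (Real.sqrt_pos.mpr (hcpos n)).ne'
      field_simp
    have k2 := Finset.sum_mul_sq_le_sq_mul_sq (Finset.range N)
      (fun n => ‖a n‖ / Real.sqrt (c n)) (fun n => Real.sqrt (c n) * ‖y n‖)
    have k3 : ∑ n ∈ Finset.range N, (‖a n‖ / Real.sqrt (c n)) ^ 2 ≤ 1 / c0 * W := by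
      have k4 : ∑ n ∈ Finset.range N, ‖a n‖ ^ 2 * ((n : ℝ) + 1) ^ (1 - β) ≤ W := by
        rw [hW, ← ENNReal.ofReal_le_iff_le_toReal hfin]
        rw [ENNReal.ofReal_sum_of_nonneg (fun n _ => by positivity)]
        exact ENNReal.sum_le_tsum _
      refine le_trans ?_ (mul_le_mul_of_nonneg_left k4 (by positivity))
      rw [Finset.mul_sum]
      refine Finset.sum_le_sum fun n _ => ?_
      rw [div_pow, Real.sq_sqrt (hcpos n).le]
      have k5 : ((n : ℝ) + 1) ^ (β - 1) * ((n : ℝ) + 1) ^ (1 - β) = 1 := by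
        rw [← Real.rpow_add (by positivity)]
        simp
      have k6 : 1 ≤ 1 / c0 * ((n : ℝ) + 1) ^ (1 - β) * c n := by
        have k7 : 0 ≤ ((n : ℝ) + 1) ^ (1 - β) := by positivity
        calc (1 : ℝ) = 1 / c0 * ((n : ℝ) + 1) ^ (1 - β) * (c0 * ((n : ℝ) + 1) ^ (β - 1)) := by
              have : 1 / c0 * ((n : ℝ) + 1) ^ (1 - β) * (c0 * ((n : ℝ) + 1) ^ (β - 1)) =
                (((n : ℝ) + 1) ^ (β - 1) * ((n : ℝ) + 1) ^ (1 - β)) := by field_simp
              rw [this, k5]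
          _ ≤ _ := mul_le_mul_of_nonneg_left (hc n) (by positivity)
      rw [div_le_iff₀ (hcpos n)]
      have k8 : 0 ≤ ‖a n‖ ^ 2 := by positivity
      nlinarith
    have k9 : ∑ n ∈ Finset.range N, (Real.sqrt (c n) * ‖y n‖) ^ 2 ≤ T' := by
      refine le_trans ?_ h7
      have : ∑ n ∈ Finset.range N, (Real.sqrt (c n) * ‖y n‖) ^ 2 =
          ∑ n ∈ Finset.range N, c n * ‖y n‖ ^ 2 := by
        refine Finset.sum_congr rfl fun n _ => ?_
        rw [mul_pow, Real.sq_sqrt (hcpos n).le]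
      rw [this]
      exact sum_le_hasSum _ (fun n _ => mul_nonneg (hcpos n).le (by positivity)) h5
    have k10 : 0 ≤ ∑ n ∈ Finset.range N, (Real.sqrt (c n) * ‖y n‖) ^ 2 :=
      Finset.sum_nonneg fun n _ => sq_nonneg _
    calc ‖∑ n ∈ Finset.range N, a n * y n‖ ^ 2 ≤
          (∑ n ∈ Finset.range N, (‖a n‖ / Real.sqrt (c n)) * (Real.sqrt (c n) * ‖y n‖)) ^ 2 :=
          pow_le_pow_left₀ (norm_nonneg _) k1 2
      _ ≤ _ := k2
      _ ≤ (1 / c0 * W) * T' := mul_le_mul k3 k9 k10 (by positivity)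
  have h9 : Tendsto (fun N => ‖∑ n ∈ Finset.range N, a n * y n‖ ^ 2) atTop (𝓝 (‖(S : ℂ)‖ ^ 2)) :=
    (h1.tendsto_sum_nat.norm).pow 2
  have h10 := le_of_tendsto' h9 h8
  rw [Complex.norm_real, Real.norm_of_nonneg hS0] at h10
  exact h10

/-- the Fourier multiplier `β / (n + β)` -/
theorem mult (β : ℝ) (hβ : 0 < β) (u : ℂ → ℂ) (a : ℕ → ℂ) (M : ℝ) (hu : Co u a)
    (hM : ∀ z : ℂ, ‖z‖ < 1 → ‖u z‖ ≤ M) (w : ℂ) (hw : ‖w‖ < 1) :
    ∃ S : ℂ, HasSum (fun n : ℕ => ((β / ((n : ℝ) + β) : ℝ) : ℂ) * (a n * w ^ n)) S ∧ ‖S‖ ≤ M := by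
  set ν : Measure ℝ := volume.restrict (Set.Ioc (0 : ℝ) 1) with hν
  set F : ℕ → ℝ → ℂ := fun n t => ((β * t ^ (β - 1 + n) : ℝ) : ℂ) * (a n * w ^ n) with hF
  have hexp : ∀ n : ℕ, -1 < β - 1 + (n : ℝ) := fun n => by
    have : (0 : ℝ) ≤ n := Nat.cast_nonneg n
    linarith
  have hI : ∀ n : ℕ, ∫ t, t ^ (β - 1 + (n : ℝ)) ∂ν = 1 / ((n : ℝ) + β) := by
    intro n
    rw [hν, ← intervalIntegral.integral_of_le zero_le_one, integral_rpow (Or.inl (hexp n)),
      Real.one_rpow, Real.zero_rpow (by have := hexp n; linarith)]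
    congr 1
    · ring
    · ring
  have hint0 : ∀ n : ℕ, Integrable (fun t : ℝ => t ^ (β - 1 + (n : ℝ))) ν := by
    intro n
    have := intervalIntegral.intervalIntegrable_rpow' (a := 0) (b := 1) (hexp n)
    rw [intervalIntegrable_iff_integrableOn_Ioc_of_le zero_le_one] at this
    exact this
  have hint : ∀ n : ℕ, Integrable (F n) ν := by
    intro n
    rw [hF]
    exact (((hint0 n).const_mul β).ofReal).mul_const _
  have hnorm : ∀ n : ℕ, ∫ t, ‖F n t‖ ∂ν = β / ((n : ℝ) + β) * ‖a n * w ^ n‖ := by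
    intro n
    have : ∀ᵐ t ∂ν, ‖F n t‖ = β * ‖a n * w ^ n‖ * t ^ (β - 1 + (n : ℝ)) := by
      rw [hν, ae_restrict_iff' measurableSet_Ioc]
      refine Filter.Eventually.of_forall fun t ht => ?_
      rw [hF, norm_mul, Complex.norm_real, Real.norm_of_nonneg]
      · ring
      · have := ht.1
        positivity
    rw [integral_congr_ae this, integral_const_mul, hI]
    ring
  have habs : Summable fun n => ‖a n * w ^ n‖ := (hu w hw).summable.norm
  have hsum : Summable fun n : ℕ => ∫ t, ‖F n t‖ ∂ν := by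
    simp_rw [hnorm]
    refine Summable.of_nonneg_of_le (fun n => by positivity) (fun n => ?_) habs
    have h1 : β / ((n : ℝ) + β) ≤ 1 := by
      rw [div_le_one (by positivity)]
      have : (0 : ℝ) ≤ n := Nat.cast_nonneg n
      linarith
    calc β / ((n : ℝ) + β) * ‖a n * w ^ n‖ ≤ 1 * ‖a n * w ^ n‖ :=
          mul_le_mul_of_nonneg_right h1 (norm_nonneg _)
      _ = _ := one_mul _
  have hS := hasSum_integral_of_summable_integral_norm hint hsum
  have hval : ∀ n : ℕ, ∫ t, F n t ∂ν = ((β / ((n : ℝ) + β) : ℝ) : ℂ) * (a n * w ^ n) := by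
    intro n
    rw [hF]
    simp only
    rw [integral_mul_const, integral_complex_ofReal, integral_const_mul, hI]
    congr 2
    ring
  refine ⟨_, by simpa only [hval] using hS, ?_⟩
  have hpt : ∀ᵐ t ∂ν, (∑' n, F n t) = ((β * t ^ (β - 1) : ℝ) : ℂ) * u ((t : ℂ) * w) := by
    rw [hν, ae_restrict_iff' measurableSet_Ioc]
    refine Filter.Eventually.of_forall fun t ht => ?_
    have htw : ‖(t : ℂ) * w‖ < 1 := by
      rw [norm_mul, Complex.norm_real, Real.norm_of_nonneg ht.1.le]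
      have := norm_nonneg w
      nlinarith [ht.1, ht.2]
    have h1 := (hu _ htw).mul_left (((β * t ^ (β - 1) : ℝ) : ℂ))
    rw [← h1.tsum_eq]
    refine tsum_congr fun n => ?_
    rw [hF]
    simp only
    rw [Real.rpow_add ht.1, Real.rpow_natCast, mul_pow]
    push_cast
    ring
  rw [integral_congr_ae hpt]
  have hM0 : 0 ≤ M := (norm_nonneg _).trans (hM 0 (by simp))
  have hbd : ‖∫ t, ((β * t ^ (β - 1) : ℝ) : ℂ) * u ((t : ℂ) * w) ∂ν‖ ≤
      ∫ t, M * (β * t ^ (β - 1)) ∂ν := by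
    refine norm_integral_le_of_norm_le ?_ ?_
    · have := hint0 0
      simp only [Nat.cast_zero, add_zero] at this
      exact (this.const_mul β).const_mul M
    · rw [hν, ae_restrict_iff' measurableSet_Ioc]
      refine Filter.Eventually.of_forall fun t ht => ?_
      have htw : ‖(t : ℂ) * w‖ < 1 := by
        rw [norm_mul, Complex.norm_real, Real.norm_of_nonneg ht.1.le]
        have := norm_nonneg w
        nlinarith [ht.1, ht.2]
      have h0 : 0 ≤ β * t ^ (β - 1) := by have := ht.1; positivity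
      rw [norm_mul, Complex.norm_real, Real.norm_of_nonneg h0, mul_comm]
      exact mul_le_mul_of_nonneg_right (hM _ htw) h0
  refine hbd.trans ?_
  rw [integral_const_mul, integral_const_mul]
  have h0 := hI 0
  simp only [Nat.cast_zero, add_zero, zero_add] at h0
  rw [h0]
  apply le_of_eq
  field_simp

/-- the pairing as a power series -/
theorem pair_sum (dco : S_DCO) (par : S_PAR) (β : ℝ) (hβ : 0 ≤ β) (K : ℂ → ℂ) (c : ℕ → ℝ)
    (hK : Co K fun n => (c n : ℂ)) (u : ℂ → ℂ) (R : ℝ) (hR : 1 < R)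
    (hu : DifferentiableOn ℂ u (ball 0 R)) (a : ℕ → ℂ) (ha : Co u a) (w : ℂ) (hw : ‖w‖ < 1) :
    HasSum (fun n : ℕ => ((Real.pi * (((n : ℝ) + 1) ^ 2 * B β n * c (n + 1)) : ℝ) : ℂ) *
      (a (n + 1) * w ^ (n + 1)))
      (∫ z, deriv u z * conj (conj w * deriv K (z * conj w)) ∂(mu β)) := by
  have hKd : DifferentiableOn ℂ K (ball 0 1) := (dco.1 K).mpr ⟨_, hK⟩
  have hK' := dco.2.2 K _ hK
  have hu' := dco.2.2 u _ ha
  -- a common radius
  obtain ⟨R', hR1, hR2, hR3⟩ : ∃ R' : ℝ, 1 < R' ∧ R' ≤ R ∧ R' * ‖w‖ ≤ 1 := by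
    rcases (norm_nonneg w).eq_or_lt with h | h
    · exact ⟨R, hR, le_rfl, by rw [← h]; simp⟩
    · refine ⟨min R (1 / ‖w‖), lt_min hR ?_, min_le_left _ _, ?_⟩
      · rw [lt_div_iff₀ h]; linarith
      · calc min R (1 / ‖w‖) * ‖w‖ ≤ 1 / ‖w‖ * ‖w‖ :=
              mul_le_mul_of_nonneg_right (min_le_right _ _) h.le
          _ = 1 := by field_simp
  have hd1 : DifferentiableOn ℂ (deriv u) (ball 0 R') :=
    (hu.deriv isOpen_ball).mono (ball_subset_ball hR2)
  have hmaps : ∀ z ∈ ball (0 : ℂ) R', z * conj w ∈ ball (0 : ℂ) 1 := by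
    intro z hz
    rw [mem_ball_zero_iff] at hz ⊢
    rw [norm_mul, RCLike.norm_conj]
    rcases (norm_nonneg w).eq_or_lt with h | h
    · rw [← h]; simp
    · calc ‖z‖ * ‖w‖ < R' * ‖w‖ := mul_lt_mul_of_pos_right hz h
        _ ≤ 1 := hR3
  have hd2 : DifferentiableOn ℂ (fun z => conj w * deriv K (z * conj w)) (ball 0 R') := by
    apply DifferentiableOn.const_mul
    exact (hKd.deriv isOpen_ball).comp
      ((differentiable_id.mul_const (conj w)).differentiableOn) hmaps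
  have hco : Co (fun z => conj w * deriv K (z * conj w))
      (fun n => ((n : ℂ) + 1) * (c (n + 1) : ℂ) * (conj w) ^ (n + 1)) := by
    intro z hz
    have hz' : ‖z * conj w‖ < 1 := by
      rw [norm_mul, RCLike.norm_conj]
      have := norm_nonneg w
      have := norm_nonneg z
      nlinarith
    have h1 := (hK' _ hz').mul_left (conj w)
    have e : (fun n : ℕ => ((n : ℂ) + 1) * (c (n + 1) : ℂ) * (conj w) ^ (n + 1) * z ^ n) =
        fun n : ℕ => conj w * (((n : ℂ) + 1) * (c (n + 1) : ℂ) * (z * conj w) ^ n) := by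
      funext n
      rw [mul_pow, pow_succ]
      ring
    show HasSum (fun n : ℕ => ((n : ℂ) + 1) * (c (n + 1) : ℂ) * (conj w) ^ (n + 1) * z ^ n) _
    rw [e]
    exact h1
  have h := par β hβ R' _ _ _ _ hR1 hd1 hd2 hu' hco
  convert h using 2 with n
  simp only [map_mul, map_add, map_natCast, map_one, map_pow, Complex.conj_conj,
    Complex.conj_ofReal]
  push_cast
  ring

end KerL

end Pool.Agent.Helper59K9.CY
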