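import Pool.Agent.Helper59K9.CY.NegA

/-!
[NEG], part B (helper79): `f = ((1 - z) / 2) ^ 2 exp (-2 / (1 - z))` is not cyclic.
`parseval_fin` and `parseval_inf` are copied from the starting file `Pool/Agent/S06599.lean`.
-/

set_option autoImplicit false

open MeasureTheory Metric Filter Topology ComplexConjugate

namespace Pool.Agent.Helper59K9.CY

namespace NegL

open Finset (range)

/-- mean value property, real part -/
lemma avg_re (Q : ℂ → ℂ) (r : ℝ) (hc : ContinuousOn Q (sphere 0 |r|))
    (hQ : DiffContOnCl ℂ Q (ball 0 |r|)) :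
    Real.circleAverage (fun z => (Q z).re) 0 r = (Q 0).re := by
  have hi : CircleIntegrable Q 0 r := hc.circleIntegrable'
  have h1 := hQ.circleAverage
  have h2 := Complex.reCLM.circleAverage_comp_comm hi
  rw [h1] at h2
  exact h2

lemma circ_int_cont (f : ℂ → ℝ) (hf : Continuous f) (r : ℝ) : CircleIntegrable f 0 r :=
  ContinuousOn.circleIntegrable' hf.continuousOn

lemma avg_add3 (f g : ℂ → ℝ) (hf : Continuous f) (hg : Continuous g) (c r : ℝ) :
    Real.circleAverage (fun z => f z + g z + c) 0 r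
      = Real.circleAverage f 0 r + Real.circleAverage g 0 r + c := by
  have h1 := Real.circleAverage_fun_add (circ_int_cont _ (hf.add hg) r)
    (circ_int_cont (fun _ => c) continuous_const r)
  have h2 := Real.circleAverage_fun_add (circ_int_cont _ hf r) (circ_int_cont _ hg r)
  rw [Real.circleAverage_const] at h1
  simp only [Pi.add_apply] at h1 h2 ⊢
  rw [h1, ← h2]
  rfl

lemma parseval_fin (p : ℕ → ℂ) (r : ℝ) (N : ℕ) :
    Real.circleAverage (fun z => ‖∑ n ∈ range N, p n * z ^ n‖ ^ 2) 0 r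
      = ∑ n ∈ range N, ‖p n‖ ^ 2 * (r ^ 2) ^ n := by
  induction N with
  | zero =>
    simp only [Finset.range_zero, Finset.sum_empty, norm_zero]
    rw [Real.circleAverage_const]
    simp
  | succ N ih =>
    rw [Finset.sum_range_succ (n := N) (f := fun n => ‖p n‖ ^ 2 * (r ^ 2) ^ n), ← ih]
    set Q : ℂ → ℂ := fun z => p N * ∑ n ∈ range N, (starRingEnd ℂ) (p n) * ((r : ℂ) ^ 2) ^ n * z ^ (N - n) with hQ
    have hQd : Differentiable ℂ Q := by
      rw [hQ]
      fun_prop
    have hQ0 : Q 0 = 0 := by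
      rw [hQ]
      simp only
      rw [Finset.sum_eq_zero, mul_zero]
      intro n hn
      have : N - n ≠ 0 := by
        have := Finset.mem_range.mp hn
        omega
      rw [zero_pow this, mul_zero]
    have havg : Real.circleAverage (fun z => (Q z).re) 0 r = 0 := by
      rw [avg_re Q r hQd.continuous.continuousOn hQd.diffContOnCl, hQ0]
      simp
    have hpt : Set.EqOn (fun z : ℂ => ‖∑ n ∈ range (N + 1), p n * z ^ n‖ ^ 2)
        (fun z => (‖∑ n ∈ range N, p n * z ^ n‖ ^ 2 + 2 * (Q z).re) + ‖p N‖ ^ 2 * (r ^ 2) ^ N)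
        (sphere 0 |r|) := by
      intro z hz
      have hz1 : ‖z‖ = |r| := by simpa using hz
      have hz2 : (starRingEnd ℂ) z * z = (r : ℂ) ^ 2 := by
        rw [Complex.conj_mul', hz1]
        rw [← Complex.ofReal_pow, sq_abs, Complex.ofReal_pow]
      simp only
      rw [Finset.sum_range_succ]
      have h1 : (starRingEnd ℂ) (∑ n ∈ range N, p n * z ^ n) * (p N * z ^ N) = Q z := by
        rw [hQ]
        simp only
        rw [map_sum, Finset.sum_mul, Finset.mul_sum]
        apply Finset.sum_congr rfl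
        intro n hn
        have hn' : n < N := Finset.mem_range.mp hn
        rw [map_mul, map_pow, ← hz2, mul_pow]
        have : z ^ N = z ^ n * z ^ (N - n) := by
          rw [← pow_add]
          congr 1
          omega
        rw [this]
        ring
      have h2 : ∀ x y : ℂ, ‖x + y‖ ^ 2 = ‖x‖ ^ 2 + 2 * ((starRingEnd ℂ) x * y).re + ‖y‖ ^ 2 := by
        intro x y
        simp only [← Complex.normSq_eq_norm_sq, Complex.normSq_apply, Complex.mul_re,
          Complex.conj_re, Complex.conj_im, Complex.add_re, Complex.add_im]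
        ring
      rw [h2, h1, norm_mul, norm_pow, hz1, mul_pow, ← pow_mul, mul_comm N 2, pow_mul, sq_abs]
    rw [Real.circleAverage_congr_sphere hpt]
    have hc1 : Continuous (fun z : ℂ => ‖∑ n ∈ range N, p n * z ^ n‖ ^ 2) := by fun_prop
    have hc2 : Continuous (fun z : ℂ => 2 * (Q z).re) := by
      have := hQd.continuous
      fun_prop
    rw [avg_add3 _ _ hc1 hc2]
    have : Real.circleAverage (fun z : ℂ => 2 * (Q z).re) 0 r = 0 := by
      have h := Real.circleAverage_fun_smul (a := (2 : ℝ)) (f := fun z : ℂ => (Q z).re) (c := 0) (R := r)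
      simp only [smul_eq_mul] at h
      rw [h, havg]
      simp
    rw [this]
    ring

/-- the circle average of the square of a power series with square summable coefficients -/
lemma avg_le (u : ℂ → ℂ) (a : ℕ → ℂ) (hu : Co u a) (δ : ℝ)
    (hδ : ∀ N, ∑ n ∈ range N, ‖a n‖ ^ 2 ≤ δ) (r : ℝ) (h0 : 0 ≤ r) (h1 : r < 1) :
    Real.circleAverage (fun z => ‖u z‖ ^ 2) 0 r ≤ δ := by
  have hmem : ∀ θ : ℝ, ‖circleMap 0 r θ‖ = r := by
    intro θ
    rw [norm_circleMap_zero, abs_of_nonneg h0]
  have hs : Summable fun n => ‖a n‖ * r ^ n := by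
    have h2 := (hu r (by rw [Complex.norm_real, Real.norm_of_nonneg h0]; exact h1)).summable.norm
    refine h2.congr fun n => ?_
    rw [norm_mul, norm_pow, Complex.norm_real, Real.norm_of_nonneg h0]
  have key : Tendsto (fun N : ℕ => Real.circleAverage (fun z => ‖∑ n ∈ range N, a n * z ^ n‖ ^ 2) 0 r)
      atTop (𝓝 (Real.circleAverage (fun z => ‖u z‖ ^ 2) 0 r)) := by
    unfold Real.circleAverage
    apply Tendsto.const_smul
    apply intervalIntegral.tendsto_integral_filter_of_dominated_convergence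
      (fun _ => (∑' n, ‖a n‖ * r ^ n) ^ 2)
    · filter_upwards with N
      apply Continuous.aestronglyMeasurable
      fun_prop
    · filter_upwards with N
      filter_upwards with θ _
      rw [Real.norm_of_nonneg (by positivity)]
      apply pow_le_pow_left₀ (norm_nonneg _)
      refine (norm_sum_le _ _).trans ?_
      refine le_trans (le_of_eq ?_) (hs.sum_le_tsum (range N) fun n _ => by positivity)
      refine Finset.sum_congr rfl fun n _ => ?_
      rw [norm_mul, norm_pow, hmem]
    · exact intervalIntegrable_const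
    · filter_upwards with θ _
      have hs := hu (circleMap 0 r θ) (by rw [hmem]; exact h1)
      exact (hs.tendsto_sum_nat.norm).pow 2
  refine le_of_tendsto key ?_
  filter_upwards with N
  rw [parseval_fin]
  refine (Finset.sum_le_sum fun n _ => ?_).trans (hδ N)
  have : (r ^ 2) ^ n ≤ 1 := pow_le_one₀ (by positivity) (by nlinarith)
  nlinarith [sq_nonneg ‖a n‖]

/-- the polynomial factor -/
noncomputable def Qf (p : Polynomial ℂ) (z : ℂ) : ℂ :=
  p.eval z * ((1 - z) / 2) ^ 2 * Complex.exp (-1)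

theorem Qf_diff (p : Polynomial ℂ) : Differentiable ℂ (Qf p) := by
  unfold Qf
  fun_prop

theorem pF_eq (p : Polynomial ℂ) (z : ℂ) :
    p.eval z * F z = Qf p z * Complex.exp (1 - 2 * W z) := by
  unfold Qf F
  have : Complex.exp (-(2 * W z)) = Complex.exp (-1) * Complex.exp (1 - 2 * W z) := by
    rw [← Complex.exp_add]
    congr 1
    ring
  rw [this]
  ring

theorem pF_le (p : Polynomial ℂ) {z : ℂ} (hz : ‖z‖ < 1) : ‖p.eval z * F z‖ ≤ ‖Qf p z‖ := by
  rw [pF_eq, norm_mul, Complex.norm_exp]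
  have h1 := W_re hz
  have h2 : (1 - 2 * W z).re ≤ 0 := by
    simp
    linarith
  have h3 : Real.exp (1 - 2 * W z).re ≤ 1 := Real.exp_le_one_iff.2 h2
  nlinarith [norm_nonneg (Qf p z)]

theorem circ_ne {θ : ℝ} (h0 : 0 < θ) (h1 : θ < 2 * Real.pi) : circleMap 0 1 θ ≠ 1 := by
  intro h
  rw [circleMap_zero, Complex.ofReal_one, one_mul, Complex.exp_eq_one_iff] at h
  obtain ⟨n, hn⟩ := h
  have h2 : (θ : ℂ) = ((n * (2 * Real.pi) : ℝ) : ℂ) := by
    have h3 : (θ : ℂ) * Complex.I = ((n * (2 * Real.pi) : ℝ) : ℂ) * Complex.I := by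
      rw [hn]
      push_cast
      ring
    exact mul_right_cancel₀ Complex.I_ne_zero h3
  have h3 : θ = n * (2 * Real.pi) := by exact_mod_cast h2
  have hpi := Real.pi_pos
  rw [h3] at h0 h1
  have h4 : (0 : ℝ) < n := by
    by_contra h
    nlinarith
  have h5 : (n : ℝ) < 1 := by
    by_contra h
    nlinarith
  have h6 : 0 < n := by exact_mod_cast h4
  have h7 : n < 1 := by exact_mod_cast h5
  omega

theorem lim_circ (p : Polynomial ℂ) :
    Tendsto (fun r : ℝ => Real.circleAverage (fun z => ‖p.eval z * F z‖ ^ 2) 0 r) (𝓝[<] 1)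
      (𝓝 (Real.circleAverage (fun z => ‖Qf p z‖ ^ 2) 0 1)) := by
  obtain ⟨M, hM⟩ := (isCompact_closedBall (0 : ℂ) 1).exists_bound_of_continuousOn
    (Qf_diff p).continuous.continuousOn
  have hmem : ∀ r : ℝ, 0 < r → ∀ θ : ℝ, ‖circleMap 0 r θ‖ = r := by
    intro r hr θ
    rw [norm_circleMap_zero, abs_of_pos hr]
  have hev : ∀ᶠ r : ℝ in 𝓝[<] 1, 0 < r ∧ r < 1 :=
    Ioo_mem_nhdsLT (zero_lt_one' ℝ)
  unfold Real.circleAverage
  apply Tendsto.const_smul
  apply intervalIntegral.tendsto_integral_filter_of_dominated_convergence (fun _ => M ^ 2)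
  · filter_upwards [hev] with r hr
    apply Continuous.aestronglyMeasurable
    have h1 : ∀ θ : ℝ, ContinuousAt F (circleMap 0 r θ) := fun θ =>
      (hasDeriv_F (by rw [hmem r hr.1]; exact hr.2)).continuousAt
    rw [continuous_iff_continuousAt]
    intro θ
    have h2 : ContinuousAt (fun θ => F (circleMap 0 r θ)) θ :=
      ContinuousAt.comp (f := circleMap 0 r) (h1 θ) (continuous_circleMap 0 r).continuousAt
    have h3 : ContinuousAt (fun θ => p.eval (circleMap 0 r θ)) θ :=
      (p.continuous.comp (continuous_circleMap 0 r)).continuousAt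
    exact (h3.mul h2).norm.pow 2
  · filter_upwards [hev] with r hr
    filter_upwards with θ _
    rw [Real.norm_of_nonneg (by positivity)]
    apply pow_le_pow_left₀ (norm_nonneg _)
    refine (pF_le p (by rw [hmem r hr.1]; exact hr.2)).trans (hM _ ?_)
    rw [mem_closedBall_zero_iff, hmem r hr.1]
    exact hr.2.le
  · exact intervalIntegrable_const
  · have h2 : ∀ᵐ θ : ℝ, θ ≠ 2 * Real.pi := by
      rw [ae_iff]
      simp
    filter_upwards [h2] with θ hθ2 hθ
    rw [Set.uIoc_of_le (by positivity)] at hθ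
    have hθ1 : θ < 2 * Real.pi := lt_of_le_of_ne hθ.2 hθ2
    set e : ℂ := circleMap 0 1 θ with he
    have hne : (1 : ℂ) - e ≠ 0 := by
      intro h
      exact circ_ne hθ.1 hθ1 (by rw [← he]; linear_combination -h)
    have hen : ‖e‖ = 1 := by
      rw [he, hmem 1 one_pos]
    have hre : (W e).re = 1 / 2 := by
      unfold W
      rw [Complex.inv_re, div_eq_iff (Complex.normSq_pos.2 hne).ne']
      have h3 : ‖e‖ ^ 2 = 1 := by rw [hen, one_pow]
      rw [← Complex.normSq_eq_norm_sq, Complex.normSq_apply] at h3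
      rw [Complex.normSq_apply]
      simp only [Complex.sub_re, Complex.one_re, Complex.sub_im, Complex.one_im]
      nlinarith
    have hS : ‖Complex.exp (1 - 2 * W e)‖ = 1 := by
      rw [Complex.norm_exp]
      have : (1 - 2 * W e).re = 0 := by
        simp
        rw [hre]
        norm_num
      rw [this, Real.exp_zero]
    have hlim : ‖Qf p e‖ ^ 2 = ‖Qf p e * Complex.exp (1 - 2 * W e)‖ ^ 2 := by
      rw [norm_mul, hS, mul_one]
    rw [hlim]
    have hcont : ContinuousAt (fun z => Qf p z * Complex.exp (1 - 2 * W z)) e := by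
      have h4 : ContinuousAt W e := by
        unfold W
        exact (continuousAt_const.sub continuousAt_id).inv₀ hne
      exact (Qf_diff p).continuous.continuousAt.mul
        ((continuousAt_const.sub (continuousAt_const.mul h4)).cexp)
    have hr : Tendsto (fun r : ℝ => circleMap 0 r θ) (𝓝[<] 1) (𝓝 e) := by
      have : Continuous fun r : ℝ => circleMap 0 r θ := by
        unfold circleMap
        fun_prop
      exact (this.tendsto 1).mono_left nhdsWithin_le_nhds
    have h5 := ((hcont.tendsto.comp hr).norm).pow 2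
    refine h5.congr fun r => ?_
    simp only [Function.comp]
    rw [← pF_eq]

/-- the value at the centre -/
theorem Q_center (p : Polynomial ℂ) :
    ‖Qf p 0‖ ^ 2 ≤ Real.circleAverage (fun z => ‖Qf p z‖ ^ 2) 0 1 := by
  have h1 := avg_re (fun z => conj (Qf p 0) * Qf p z) 1
    ((continuous_const.mul (Qf_diff p).continuous).continuousOn)
    ((Qf_diff p).const_mul _).diffContOnCl
  have hc : Continuous fun z => (conj (Qf p 0) * Qf p z).re := by
    have := (Qf_diff p).continuous
    fun_prop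
  have h2 : Real.circleAverage (fun z => 2 * (conj (Qf p 0) * Qf p z).re - ‖Qf p 0‖ ^ 2) 0 1 ≤
      Real.circleAverage (fun z => ‖Qf p z‖ ^ 2) 0 1 := by
    apply Real.circleAverage_mono
    · exact circ_int_cont _ (by fun_prop) 1
    · exact circ_int_cont _ (by have := (Qf_diff p).continuous; fun_prop) 1
    · intro z _
      have h3 : 0 ≤ ‖Qf p z - Qf p 0‖ ^ 2 := by positivity
      have h4 : ∀ x y : ℂ, ‖x - y‖ ^ 2 = ‖x‖ ^ 2 - 2 * ((starRingEnd ℂ) y * x).re + ‖y‖ ^ 2 := by
        intro x y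
        simp only [← Complex.normSq_eq_norm_sq, Complex.normSq_apply, Complex.mul_re,
          Complex.conj_re, Complex.conj_im, Complex.sub_re, Complex.sub_im]
        ring
      rw [h4] at h3
      linarith
  refine le_trans (le_of_eq ?_) h2
  have h5 := avg_add3 (fun z => (conj (Qf p 0) * Qf p z).re)
    (fun z => (conj (Qf p 0) * Qf p z).re) hc hc (-‖Qf p 0‖ ^ 2) 1
  rw [h1] at h5
  have h6 : (fun z => 2 * (conj (Qf p 0) * Qf p z).re - ‖Qf p 0‖ ^ 2) =
      fun z => (conj (Qf p 0) * Qf p z).re + (conj (Qf p 0) * Qf p z).re + -‖Qf p 0‖ ^ 2 := by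
    funext z
    ring
  rw [h6, h5]
  have h7 : (conj (Qf p 0) * Qf p 0).re = ‖Qf p 0‖ ^ 2 := by
    rw [← Complex.normSq_eq_norm_sq, Complex.normSq_apply]
    simp
  rw [h7]
  ring

theorem not_cyclic {α : ℝ} (h0 : 0 < α) : ¬ Cl α F (fun _ => 1) := by
  intro h
  obtain ⟨p, a, ha, hn⟩ := h (ENNReal.ofReal (1 / 16)) (by simp)
  -- the partial sums
  have hδ : ∀ N, ∑ n ∈ range N, ‖a n‖ ^ 2 ≤ 1 / 16 := by
    intro N
    have h1 : ENNReal.ofReal (∑ n ∈ range N, ‖a n‖ ^ 2) ≤ ENNReal.ofReal (1 / 16) := by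
      rw [ENNReal.ofReal_sum_of_nonneg fun n _ => by positivity]
      refine le_trans ?_ hn.le
      unfold nrm
      refine le_trans (Finset.sum_le_sum fun n _ => ?_) (ENNReal.sum_le_tsum (range N))
      apply ENNReal.ofReal_le_ofReal
      have h2 : (1 : ℝ) ≤ ((n : ℝ) + 1) ^ α := Real.one_le_rpow (by linarith [n.cast_nonneg (α := ℝ)]) h0.le
      nlinarith [sq_nonneg ‖a n‖]
    exact (ENNReal.ofReal_le_ofReal_iff (by norm_num)).1 h1
  -- the value at the centre
  have h3 : p.eval 0 * F 0 - 1 = a 0 := by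
    have h4 := ha 0 (by simp)
    have h5 : HasSum (fun k => a k * (0 : ℂ) ^ k) (a 0) := by
      have := hasSum_single (f := fun k => a k * (0 : ℂ) ^ k) 0 fun k hk => by simp [hk]
      simpa using this
    exact h4.unique h5
  have h4 : ‖a 0‖ ≤ 1 / 4 := by
    have h5 := hδ 1
    rw [Finset.sum_range_one] at h5
    nlinarith [norm_nonneg (a 0)]
  have h5 : 3 / 4 ≤ ‖p.eval 0 * F 0‖ := by
    have h6 : (1 : ℂ) = p.eval 0 * F 0 - a 0 := by rw [← h3]; ring
    have h7 : ‖(1 : ℂ)‖ ≤ ‖p.eval 0 * F 0‖ + ‖a 0‖ := by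
      rw [h6]
      exact norm_sub_le _ _
    rw [norm_one] at h7
    linarith
  have h6 : 3 / 2 ≤ ‖Qf p 0‖ := by
    rw [pF_eq, norm_mul, Complex.norm_exp] at h5
    have h7 : (1 - 2 * W 0).re = -1 := by
      unfold W
      norm_num
    rw [h7] at h5
    have h8 : Real.exp (-1) ≤ 1 / 2 := by
      rw [Real.exp_neg, one_div]
      apply inv_anti₀ two_pos
      linarith [Real.add_one_le_exp (1 : ℝ)]
    nlinarith [norm_nonneg (Qf p 0), Real.exp_pos (-1)]
  have h7 : (9 / 4 : ℝ) ≤ Real.circleAverage (fun z => ‖Qf p z‖ ^ 2) 0 1 := by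
    refine le_trans ?_ (Q_center p)
    nlinarith
  have h8 : Real.circleAverage (fun z => ‖Qf p z‖ ^ 2) 0 1 ≤ 17 / 8 := by
    refine le_of_tendsto (lim_circ p) ?_
    have hev : ∀ᶠ r : ℝ in 𝓝[<] 1, 0 < r ∧ r < 1 := Ioo_mem_nhdsLT (zero_lt_one' ℝ)
    filter_upwards [hev] with r hr
    have h9 := avg_le _ a ha (1 / 16) hδ r hr.1.le hr.2
    have hcF : ContinuousOn (fun z => p.eval z * F z) (sphere 0 |r|) := by
      intro z hz
      have hz1 : ‖z‖ < 1 := by
        rw [mem_sphere_zero_iff_norm, abs_of_pos hr.1] at hz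
        rw [hz]
        exact hr.2
      exact (p.continuous.continuousAt.mul (hasDeriv_F hz1).continuousAt).continuousWithinAt
    have h10 : Real.circleAverage (fun z => ‖p.eval z * F z‖ ^ 2) 0 r ≤
        Real.circleAverage (fun z => (2 : ℝ) * ‖p.eval z * F z - 1‖ ^ 2 + 2) 0 r := by
      apply Real.circleAverage_mono
      · exact ContinuousOn.circleIntegrable' (hcF.norm.pow 2)
      · exact ContinuousOn.circleIntegrable'
          ((continuousOn_const.mul ((hcF.sub continuousOn_const).norm.pow 2)).add continuousOn_const)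
      · intro z _
        have h11 : ‖p.eval z * F z‖ ≤ ‖p.eval z * F z - 1‖ + 1 := by
          have := norm_add_le (p.eval z * F z - 1) 1
          rwa [sub_add_cancel, norm_one] at this
        nlinarith [norm_nonneg (p.eval z * F z), norm_nonneg (p.eval z * F z - 1),
          sq_nonneg (‖p.eval z * F z - 1‖ - 1)]
    have h12 : Real.circleAverage (fun z => (2 : ℝ) * ‖p.eval z * F z - 1‖ ^ 2 + 2) 0 r =
        2 * Real.circleAverage (fun z => ‖p.eval z * F z - 1‖ ^ 2) 0 r + 2 := by
      have h13 : CircleIntegrable (fun z => (2 : ℝ) * ‖p.eval z * F z - 1‖ ^ 2) 0 r :=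
        ContinuousOn.circleIntegrable'
          (continuousOn_const.mul ((hcF.sub continuousOn_const).norm.pow 2))
      have h14 := Real.circleAverage_fun_add h13 (circ_int_cont (fun _ => (2 : ℝ)) continuous_const r)
      rw [Real.circleAverage_const] at h14
      have h15 := Real.circleAverage_fun_smul (a := (2 : ℝ))
        (f := fun z => ‖p.eval z * F z - 1‖ ^ 2) (c := 0) (R := r)
      simp only [smul_eq_mul] at h15
      rw [h15] at h14
      exact h14
    rw [h12] at h10
    simp only at h9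
    linarith
  linarith

end NegL

/-- the counterexample with global branches of the logarithms -/
theorem negG (hn : S_NORM) : ∀ α t : ℝ, 0 < α → α < 1 → 0 < t → 2 * t < 1 - α →
    ∃ f L Λ g : ℂ → ℂ, InD α f ∧ InD α g ∧ DifferentiableOn ℂ L (ball 0 1) ∧
      DifferentiableOn ℂ Λ (ball 0 1) ∧
      (∀ z : ℂ, ‖z‖ < 1 → Complex.exp (L z) = f z ∧ Complex.exp (Λ z) = L z ∧
        g z = Complex.exp (t * Λ z)) ∧
      ¬ Cl α f (fun _ => 1) := by
  intro α t h0 h1 ht h2
  refine ⟨NegL.F, fun z => -NegL.U z, fun z => Complex.log (NegL.U z) + Real.pi * Complex.I,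
    NegL.G t, ?_, ?_, ?_, ?_, ?_, NegL.not_cyclic h0⟩
  · exact NegL.inD hn h0 h1 (fun z hz => (NegL.hasDeriv_F hz).differentiableAt)
      (NegL.En_F (by linarith))
  · exact NegL.inD hn h0 h1 (fun z hz => (NegL.hasDeriv_G t hz).differentiableAt)
      (NegL.En_G h0 h1 ht h2)
  · intro z hz
    have hz1 : ‖z‖ < 1 := by simpa using hz
    exact (NegL.hasDeriv_U hz1).neg.differentiableAt.differentiableWithinAt
  · intro z hz
    have hz1 : ‖z‖ < 1 := by simpa using hz
    exact (((NegL.hasDeriv_U hz1).clog (NegL.U_slit hz1)).add_const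
      ((Real.pi : ℂ) * Complex.I)).differentiableAt.differentiableWithinAt
  · intro z hz
    refine ⟨NegL.exp_U hz, ?_, rfl⟩
    rw [Complex.exp_add, Complex.exp_log (NegL.U_ne hz), Complex.exp_pi_mul_I]
    ring

theorem neg (hn : S_NORM) : S_NEG := by
  intro α t h0 h1 ht h2
  obtain ⟨f, L, Λ, g, hf, hg, hL, -, h, hc⟩ := negG hn α t h0 h1 ht h2
  refine ⟨f, L, g, hf, hg, hL, fun z hz => ⟨(h z hz).1, ?_, Λ z, (h z hz).2.1, (h z hz).2.2⟩, hc⟩
  rw [← (h z hz).2.1]
  exact Complex.exp_ne_zero _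

end Pool.Agent.Helper59K9.CY
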