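import Pool.Agent.Helper59K9.CY.Par

/-!
[NEG], part A (helper79): the functions `f`, `L`, `g` of the counterexample, membership in `D_α`.
-/

set_option autoImplicit false

open MeasureTheory Metric Filter Topology ComplexConjugate

namespace Pool.Agent.Helper59K9.CY

namespace NegL

/-- `1 / (1 - z)` -/
noncomputable def W (z : ℂ) : ℂ := (1 - z)⁻¹

theorem one_sub_ne {z : ℂ} (hz : ‖z‖ < 1) : (1 : ℂ) - z ≠ 0 := by
  intro h
  have : z = 1 := by linear_combination -h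
  rw [this] at hz
  simp at hz

theorem W_re {z : ℂ} (hz : ‖z‖ < 1) : 1 / 2 < (W z).re := by
  unfold W
  have h0 := one_sub_ne hz
  have h1 : 0 < Complex.normSq (1 - z) := Complex.normSq_pos.2 h0
  rw [Complex.inv_re, lt_div_iff₀ h1]
  have h2 : ‖z‖ ^ 2 < 1 := by nlinarith [norm_nonneg z]
  rw [← Complex.normSq_eq_norm_sq, Complex.normSq_apply] at h2
  rw [Complex.normSq_apply]
  simp only [Complex.sub_re, Complex.one_re, Complex.sub_im, Complex.one_im]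
  nlinarith

theorem W_norm {z : ℂ} (hz : ‖z‖ < 1) : 1 / 2 < ‖W z‖ :=
  (W_re hz).trans_le (Complex.re_le_norm _)

theorem W_ne {z : ℂ} (hz : ‖z‖ < 1) : W z ≠ 0 := inv_ne_zero (one_sub_ne hz)

theorem two_W_slit {z : ℂ} (hz : ‖z‖ < 1) : 2 * W z ∈ Complex.slitPlane := by
  left
  have := W_re hz
  simp
  linarith

theorem hasDeriv_W {z : ℂ} (hz : ‖z‖ < 1) : HasDerivAt W (W z ^ 2) z := by
  have h1 : HasDerivAt (fun z : ℂ => 1 - z) (-1) z := by
    simpa using (hasDerivAt_id z).const_sub 1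
  have h2 := h1.inv (one_sub_ne hz)
  have h3 : -(-1 : ℂ) / (1 - z) ^ 2 = W z ^ 2 := by
    unfold W
    rw [inv_pow]
    ring
  rw [h3] at h2
  exact h2

/-- the function `f` -/
noncomputable def F (z : ℂ) : ℂ := ((1 - z) / 2) ^ 2 * Complex.exp (-(2 * W z))

/-- `-log f` -/
noncomputable def U (z : ℂ) : ℂ := 2 * W z + 2 * Complex.log (2 * W z)

/-- the function `g` -/
noncomputable def G (t : ℝ) (z : ℂ) : ℂ := Complex.exp (t * (Complex.log (U z) + Real.pi * Complex.I))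

theorem exp_U {z : ℂ} (hz : ‖z‖ < 1) : Complex.exp (-U z) = F z := by
  unfold U F
  have h1 : (2 : ℂ) * W z ≠ 0 := mul_ne_zero two_ne_zero (W_ne hz)
  have h2 : Complex.exp (-(2 * W z + 2 * Complex.log (2 * W z))) =
      Complex.exp (-(2 * W z)) * (Complex.exp (Complex.log (2 * W z)))⁻¹ ^ 2 := by
    rw [← Complex.exp_neg, ← Complex.exp_nat_mul, ← Complex.exp_add]
    congr 1
    push_cast
    ring
  rw [h2, Complex.exp_log h1]
  have h3 := one_sub_ne hz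
  unfold W
  field_simp

theorem U_re {z : ℂ} (hz : ‖z‖ < 1) : 1 < (U z).re := by
  unfold U
  have h1 := W_re hz
  have h2 := W_norm hz
  have h3 : (2 * W z + 2 * Complex.log (2 * W z)).re = 2 * (W z).re + 2 * Real.log ‖2 * W z‖ := by
    simp [Complex.log_re]
  rw [h3]
  have h4 : 0 < Real.log ‖2 * W z‖ := by
    apply Real.log_pos
    rw [norm_mul]
    norm_num
    linarith
  linarith

theorem U_norm {z : ℂ} (hz : ‖z‖ < 1) : 2 * ‖W z‖ ≤ ‖U z‖ := by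
  have h1 := W_re hz
  have h2 := W_norm hz
  have h4 : 0 < Real.log ‖2 * W z‖ := by
    apply Real.log_pos
    rw [norm_mul]
    norm_num
    linarith
  have hre : (U z).re = 2 * (W z).re + 2 * Real.log ‖2 * W z‖ := by
    unfold U
    simp [Complex.log_re]
  have him : (U z).im = 2 * (W z).im + 2 * Complex.arg (2 * W z) := by
    unfold U
    simp [Complex.log_im]
  have h5 : 0 ≤ (W z).im * Complex.arg (2 * W z) := by
    have hi : (2 * W z).im = 2 * (W z).im := by simp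
    rcases le_or_gt 0 (W z).im with h | h
    · exact mul_nonneg h (Complex.arg_nonneg_iff.2 (by rw [hi]; linarith))
    · have : Complex.arg (2 * W z) < 0 := Complex.arg_neg_iff.2 (by rw [hi]; linarith)
      nlinarith
  have h6 : (2 * ‖W z‖) ^ 2 ≤ ‖U z‖ ^ 2 := by
    rw [mul_pow, ← Complex.normSq_eq_norm_sq, ← Complex.normSq_eq_norm_sq, Complex.normSq_apply,
      Complex.normSq_apply, hre, him]
    nlinarith [mul_pos (lt_trans (by norm_num : (0 : ℝ) < 1 / 2) h1) h4, sq_nonneg (Real.log ‖2 * W z‖),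
      sq_nonneg (Complex.arg (2 * W z))]
  exact (pow_le_pow_iff_left₀ (by positivity) (norm_nonneg _) two_ne_zero).1 h6

theorem U_slit {z : ℂ} (hz : ‖z‖ < 1) : U z ∈ Complex.slitPlane := by
  left
  linarith [U_re hz]

theorem U_ne {z : ℂ} (hz : ‖z‖ < 1) : U z ≠ 0 := by
  intro h
  have := U_re hz
  rw [h] at this
  simp at this
  linarith

theorem hasDeriv_U {z : ℂ} (hz : ‖z‖ < 1) : HasDerivAt U (2 * W z ^ 2 + 2 * W z) z := by
  have h1 := (hasDeriv_W hz).const_mul 2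
  have h2 := (h1.clog (two_W_slit hz)).const_mul 2
  have h3 := h1.add h2
  have h4 : 2 * W z ^ 2 + 2 * (2 * W z ^ 2 / (2 * W z)) = 2 * W z ^ 2 + 2 * W z := by
    have := W_ne hz
    field_simp
  rw [h4] at h3
  exact h3

theorem hasDeriv_F {z : ℂ} (hz : ‖z‖ < 1) :
    HasDerivAt F (-(((1 - z) / 2 + 1 / 2) * Complex.exp (-(2 * W z)))) z := by
  have h1 : HasDerivAt (fun z : ℂ => (1 - z) / 2) (-1 / 2) z := by
    simpa using ((hasDerivAt_id z).const_sub 1).div_const 2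
  have h2 := h1.pow 2
  have h3 := ((hasDeriv_W hz).const_mul 2).neg.cexp
  have h4 := h2.mul h3
  refine (h4.congr_deriv ?_)
  have h0 := one_sub_ne hz
  have h5 : (1 - z) ^ 2 * W z ^ 2 = 1 := by
    unfold W
    field_simp
  simp only [Pi.pow_apply, Nat.cast_ofNat, Nat.add_one_sub_one, pow_one]
  linear_combination (-(1 / 2) * Complex.exp (-(2 * W z))) * h5

theorem hasDeriv_G (t : ℝ) {z : ℂ} (hz : ‖z‖ < 1) :
    HasDerivAt (G t) (G t z * (t * ((2 * W z ^ 2 + 2 * W z) / U z))) z := by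
  have h1 := (hasDeriv_U hz).clog (U_slit hz)
  have h2 := ((h1.add_const ((Real.pi : ℂ) * Complex.I)).const_mul (t : ℂ)).cexp
  exact h2

theorem G_norm (t : ℝ) {z : ℂ} (hz : ‖z‖ < 1) : ‖G t z‖ = ‖U z‖ ^ t := by
  unfold G
  rw [Complex.norm_exp]
  have h1 : ((t : ℂ) * (Complex.log (U z) + Real.pi * Complex.I)).re = Real.log ‖U z‖ * t := by
    rw [Complex.re_ofReal_mul]
    simp [Complex.log_re]
    ring
  rw [h1, ← Real.rpow_def_of_pos (norm_pos_iff.2 (U_ne hz))]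

theorem F_deriv_le {z : ℂ} (hz : ‖z‖ < 1) : ‖deriv F z‖ ≤ 2 := by
  rw [(hasDeriv_F hz).deriv, norm_neg, norm_mul, Complex.norm_exp]
  have h1 : (-(2 * W z)).re ≤ 0 := by
    have := W_re hz
    simp
    linarith
  have h2 : Real.exp (-(2 * W z)).re ≤ 1 := Real.exp_le_one_iff.2 h1
  have h3 : ‖(1 - z) / 2 + 1 / 2‖ ≤ 2 := by
    have h4 : (1 - z) / 2 + 1 / 2 = 1 - z / 2 := by ring
    rw [h4]
    calc ‖1 - z / 2‖ ≤ ‖(1 : ℂ)‖ + ‖z / 2‖ := norm_sub_le _ _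
      _ ≤ 2 := by
        rw [norm_div]
        norm_num
        linarith
  calc ‖(1 - z) / 2 + 1 / 2‖ * Real.exp (-(2 * W z)).re ≤ 2 * 1 := by gcongr
    _ = 2 := by norm_num

theorem G_deriv_le {t : ℝ} (h0 : 0 < t) (h1 : t < 1) {z : ℂ} (hz : ‖z‖ < 1) :
    ‖deriv (G t) z‖ ≤ 6 * ‖W z‖ ^ (t + 1) := by
  rw [(hasDeriv_G t hz).deriv, norm_mul, G_norm t hz, norm_mul, norm_div, Complex.norm_real,
    Real.norm_of_nonneg h0.le]
  have hU := norm_pos_iff.2 (U_ne hz)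
  have hW := W_norm hz
  have hW0 : 0 < ‖W z‖ := by linarith
  have h2 : ‖2 * W z ^ 2 + 2 * W z‖ ≤ 6 * ‖W z‖ ^ 2 := by
    calc ‖2 * W z ^ 2 + 2 * W z‖ ≤ ‖2 * W z ^ 2‖ + ‖2 * W z‖ := norm_add_le _ _
      _ = 2 * ‖W z‖ ^ 2 + 2 * ‖W z‖ := by simp
      _ ≤ 6 * ‖W z‖ ^ 2 := by nlinarith
  have h3 : ‖U z‖ ^ t * (t * (‖2 * W z ^ 2 + 2 * W z‖ / ‖U z‖)) =
      t * ‖2 * W z ^ 2 + 2 * W z‖ * ‖U z‖ ^ (t - 1) := by
    rw [Real.rpow_sub_one hU.ne']
    ring
  rw [h3]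
  have h4 : ‖U z‖ ^ (t - 1) ≤ ‖W z‖ ^ (t - 1) := by
    apply Real.rpow_le_rpow_of_nonpos hW0 _ (by linarith)
    linarith [U_norm hz]
  calc t * ‖2 * W z ^ 2 + 2 * W z‖ * ‖U z‖ ^ (t - 1)
      ≤ 1 * (6 * ‖W z‖ ^ 2) * ‖W z‖ ^ (t - 1) := by gcongr
    _ = 6 * (‖W z‖ ^ (2 : ℝ) * ‖W z‖ ^ (t - 1)) := by
        rw [Real.rpow_two]
        ring
    _ = 6 * ‖W z‖ ^ (t + 1) := by
        rw [← Real.rpow_add hW0]
        congr 2
        ring

/-- integrability of `‖z‖ ^ s`, `s > -2`, on discs -/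
theorem int_pow {s : ℝ} (hs : -2 < s) (R : ℝ) (hR : 0 < R) :
    ∫⁻ z in ball (0 : ℂ) R, ENNReal.ofReal (‖z‖ ^ s) ≠ ⊤ := by
  have h1 : IntegrableOn (fun z : ℂ => ‖z‖ ^ s) (ball (0 : ℂ) R) := by
    refine (integrableOn_fun_norm_addHaar (volume : Measure ℂ) (f := fun r : ℝ => r ^ s)).2 ?_
    rw [Complex.finrank_real_complex]
    have h2 : IntegrableOn (fun y : ℝ => y ^ (s + 1)) (Set.Ioo 0 R) := by
      have := intervalIntegral.intervalIntegrable_rpow' (a := 0) (b := R) (r := s + 1) (by linarith)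
      rw [intervalIntegrable_iff_integrableOn_Ioc_of_le hR.le] at this
      exact this.mono_set Set.Ioo_subset_Ioc_self
    refine h2.congr_fun (fun y hy => ?_) measurableSet_Ioo
    simp only [smul_eq_mul]
    rw [Real.rpow_add_one hy.1.ne']
    ring
  exact h1.lintegral_lt_top.ne

theorem int_pow1 {s : ℝ} (hs : -2 < s) :
    ∫⁻ z in ball (0 : ℂ) 1, ENNReal.ofReal (‖1 - z‖ ^ s) ≠ ⊤ := by
  have h1 := int_pow hs 2 two_pos
  refine ne_of_lt (lt_of_le_of_lt ?_ (lt_top_iff_ne_top.2 h1))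
  have h2 : MeasurePreserving (fun z : ℂ => 1 - z) volume volume :=
    Measure.measurePreserving_sub_left volume 1
  rw [← h2.setLIntegral_comp_preimage (f := fun z : ℂ => ENNReal.ofReal (‖z‖ ^ s))
    (measurableSet_ball (x := (0 : ℂ)) (ε := 2)) (by fun_prop)]
  refine lintegral_mono_set ?_
  intro z hz
  rw [Set.mem_preimage, mem_ball_zero_iff]
  have : ‖z‖ < 1 := by simpa using hz
  calc ‖1 - z‖ ≤ ‖(1 : ℂ)‖ + ‖z‖ := norm_sub_le _ _
    _ < 2 := by rw [norm_one]; linarith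

theorem En_F {β : ℝ} (hβ : 0 ≤ β) : En β F ≠ ⊤ := by
  have := ParL.fin_mu hβ
  unfold En
  refine ne_of_lt (lt_of_le_of_lt (lintegral_mono_ae ?_)
    (show ∫⁻ _, ENNReal.ofReal 4 ∂(mu β) < ⊤ by
      rw [lintegral_const]
      exact ENNReal.mul_lt_top ENNReal.ofReal_lt_top (measure_lt_top _ _)))
  filter_upwards [ParL.ae_ball β] with z hz
  apply ENNReal.ofReal_le_ofReal
  have h1 := F_deriv_le hz
  nlinarith [norm_nonneg (deriv F z)]

theorem En_G {α t : ℝ} (h0 : 0 < α) (_ : α < 1) (ht : 0 < t) (h2 : 2 * t < 1 - α) :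
    En (1 - α) (G t) ≠ ⊤ := by
  unfold En mu
  have hm : Measurable (fun z : ℂ => ENNReal.ofReal ((1 - ‖z‖ ^ 2) ^ (1 - α))) :=
    ParL.den_meas (1 - α)
  have hG : ∀ z ∈ ball (0 : ℂ) 1, ENNReal.ofReal ((1 - ‖z‖ ^ 2) ^ (1 - α)) *
      ENNReal.ofReal (‖deriv (G t) z‖ ^ 2) ≤
        ENNReal.ofReal 72 * ENNReal.ofReal (‖1 - z‖ ^ (-1 - α - 2 * t)) := by
    intro z hz
    have hz1 : ‖z‖ < 1 := by simpa using hz
    have hz2 := norm_nonneg z
    rw [← ENNReal.ofReal_mul (Real.rpow_nonneg (by nlinarith) _),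
      ← ENNReal.ofReal_mul (by norm_num)]
    apply ENNReal.ofReal_le_ofReal
    have h3 : 0 < ‖1 - z‖ := norm_pos_iff.2 (one_sub_ne hz1)
    have h4 : ‖W z‖ = ‖1 - z‖⁻¹ := by
      unfold W
      rw [norm_inv]
    have h5 := G_deriv_le ht (by linarith) hz1
    have h6 : ‖deriv (G t) z‖ ^ 2 ≤ 36 * ‖1 - z‖ ^ (-(2 * t + 2)) := by
      calc ‖deriv (G t) z‖ ^ 2 ≤ (6 * ‖W z‖ ^ (t + 1)) ^ 2 := by gcongr
        _ = 36 * ((‖W z‖ ^ (t + 1)) ^ (2 : ℝ)) := by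
            rw [Real.rpow_two]
            ring
        _ = 36 * ‖1 - z‖ ^ (-(2 * t + 2)) := by
            rw [← Real.rpow_mul (norm_nonneg _), h4, Real.inv_rpow h3.le, ← Real.rpow_neg h3.le]
            congr 2
            ring
    have h7 : 1 - ‖z‖ ≤ ‖1 - z‖ := by
      have := norm_sub_norm_le (1 : ℂ) z
      rwa [norm_one] at this
    have h8 : (1 - ‖z‖ ^ 2) ^ (1 - α) ≤ 2 * ‖1 - z‖ ^ (1 - α) := by
      calc (1 - ‖z‖ ^ 2) ^ (1 - α) ≤ (2 * ‖1 - z‖) ^ (1 - α) := by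
            apply Real.rpow_le_rpow (by nlinarith) (by nlinarith) (by linarith)
        _ = 2 ^ (1 - α) * ‖1 - z‖ ^ (1 - α) := Real.mul_rpow (by norm_num) h3.le
        _ ≤ 2 ^ (1 : ℝ) * ‖1 - z‖ ^ (1 - α) := by
            gcongr
            · norm_num
            · linarith
        _ = 2 * ‖1 - z‖ ^ (1 - α) := by rw [Real.rpow_one]
    calc (1 - ‖z‖ ^ 2) ^ (1 - α) * ‖deriv (G t) z‖ ^ 2
        ≤ (2 * ‖1 - z‖ ^ (1 - α)) * (36 * ‖1 - z‖ ^ (-(2 * t + 2))) := by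
          gcongr
      _ = 72 * (‖1 - z‖ ^ (1 - α) * ‖1 - z‖ ^ (-(2 * t + 2))) := by ring
      _ = 72 * ‖1 - z‖ ^ (-1 - α - 2 * t) := by
          rw [← Real.rpow_add h3]
          congr 2
          ring
  rw [lintegral_withDensity_eq_lintegral_mul_non_measurable _ hm
    (ae_of_all _ fun z => ENNReal.ofReal_lt_top)]
  refine ne_of_lt (lt_of_le_of_lt (setLIntegral_mono' measurableSet_ball hG) ?_)
  rw [lintegral_const_mul' _ _ ENNReal.ofReal_ne_top]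
  exact ENNReal.mul_lt_top ENNReal.ofReal_lt_top
    (lt_top_iff_ne_top.2 (int_pow1 (by linarith)))

theorem inD (hn : S_NORM) {α : ℝ} (h0 : 0 < α) (h1 : α < 1) {u : ℂ → ℂ}
    (hu : ∀ z : ℂ, ‖z‖ < 1 → DifferentiableAt ℂ u z) (he : En (1 - α) u ≠ ⊤) : InD α u := by
  have h2 : DifferentiableOn ℂ u (ball 0 1) := fun z hz =>
    (hu z (by simpa using hz)).differentiableWithinAt
  obtain ⟨a, ha⟩ := (dco.1 u).1 h2
  refine ⟨a, ha, ?_⟩
  obtain ⟨c, C, hc, -, h3⟩ := hn (1 - α) (by linarith) (by linarith)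
  have h4 := (h3 u a ha).1
  rw [sub_sub_cancel] at h4
  intro h5
  rw [h5, ENNReal.mul_top (by simpa using hc), top_le_iff] at h4
  exact (ENNReal.add_lt_top.2 ⟨ENNReal.ofReal_lt_top, lt_top_iff_ne_top.2 he⟩).ne h4

end NegL

end Pool.Agent.Helper59K9.CY
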