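import Pool.Agent.Helper59K9.CY.Dco

/-!
[PARL], [PAR] Parseval for the measures `(1 - |z| ^ 2) ^ β dA` (helper94)
-/

set_option autoImplicit false

open MeasureTheory Metric Filter Topology ComplexConjugate

namespace Pool.Agent.Helper59K9.CY

namespace ParL

open DcoL

theorem den_meas (β : ℝ) : Measurable (fun z : ℂ => ENNReal.ofReal ((1 - ‖z‖ ^ 2) ^ β)) := by
  fun_prop

theorem den_le {β : ℝ} (hβ : 0 ≤ β) {z : ℂ} (hz : ‖z‖ < 1) :
    0 ≤ (1 - ‖z‖ ^ 2) ^ β ∧ (1 - ‖z‖ ^ 2) ^ β ≤ 1 := by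
  have h1 : 0 ≤ 1 - ‖z‖ ^ 2 := by nlinarith [norm_nonneg z]
  exact ⟨Real.rpow_nonneg h1 _, Real.rpow_le_one h1 (by nlinarith [norm_nonneg z]) hβ⟩

theorem fin_mu {β : ℝ} (hβ : 0 ≤ β) : IsFiniteMeasure (mu β) := by
  constructor
  unfold mu
  rw [withDensity_apply _ MeasurableSet.univ, Measure.restrict_univ]
  calc ∫⁻ z in ball (0 : ℂ) 1, ENNReal.ofReal ((1 - ‖z‖ ^ 2) ^ β)
      ≤ ∫⁻ z in ball (0 : ℂ) 1, 1 := by
        refine setLIntegral_mono' measurableSet_ball fun z hz => ?_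
        rw [← ENNReal.ofReal_one]
        exact ENNReal.ofReal_le_ofReal (den_le hβ (by simpa using hz)).2
    _ = volume (ball (0 : ℂ) 1) := by rw [setLIntegral_one]
    _ < ⊤ := measure_ball_lt_top

theorem ae_ball (β : ℝ) : ∀ᵐ z ∂(mu β), ‖z‖ < 1 := by
  have h1 : ∀ᵐ z ∂(volume.restrict (ball (0 : ℂ) 1)), ‖z‖ < 1 := by
    filter_upwards [ae_restrict_mem measurableSet_ball] with z hz
    simpa using hz
  exact (withDensity_absolutelyContinuous _ _).ae_le h1

theorem mu_ball (β : ℝ) {ρ : ℝ} (hρ : 1 ≤ ρ) : (mu β).restrict (ball (0 : ℂ) ρ) = mu β := by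
  rw [Measure.restrict_eq_self_of_ae_mem]
  filter_upwards [ae_ball β] with z hz
  rw [mem_ball_zero_iff]
  linarith

/-- the restricted measure as volume integral -/
theorem integral_ball (β : ℝ) {ρ : ℝ} (hρ : ρ ≤ 1) {E : Type} [NormedAddCommGroup E]
    [NormedSpace ℝ E] (F : ℂ → E) :
    ∫ z in ball (0 : ℂ) ρ, F z ∂(mu β) =
      ∫ z, (if ‖z‖ < ρ then (1 - ‖z‖ ^ 2) ^ β else 0 : ℝ) • F z := by
  unfold mu
  rw [setIntegral_withDensity_eq_setIntegral_toReal_smul (den_meas β)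
    (ae_of_all _ fun z => ENNReal.ofReal_lt_top) F measurableSet_ball,
    Measure.restrict_restrict measurableSet_ball,
    Set.inter_eq_self_of_subset_left (ball_subset_ball hρ), ← integral_indicator measurableSet_ball]
  congr 1
  funext z
  by_cases hz : ‖z‖ < ρ
  · have hz' : z ∈ ball (0 : ℂ) ρ := by simpa using hz
    have h1 : 0 ≤ 1 - ‖z‖ ^ 2 := by nlinarith [norm_nonneg z]
    rw [Set.indicator_of_mem hz', if_pos hz, ENNReal.toReal_ofReal (Real.rpow_nonneg h1 _)]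
  · have hz' : z ∉ ball (0 : ℂ) ρ := by simpa using hz
    rw [Set.indicator_of_notMem hz', if_neg hz, zero_smul]

theorem orth (g : ℝ → ℝ) {m n : ℕ} (h : m ≠ n) :
    ∫ z : ℂ, (g ‖z‖) • (z ^ m * conj z ^ n) = 0 := by
  let t : ℝ := Real.pi / ((m : ℝ) - n)
  let c : Circle := Circle.exp t
  have hc : (c : ℂ) ^ m * conj (c : ℂ) ^ n = -1 := by
    have h1 : (c : ℂ) = Complex.exp (t * Complex.I) := Circle.coe_exp t
    rw [h1, ← Complex.exp_conj, ← Complex.exp_nat_mul, ← Complex.exp_nat_mul, ← Complex.exp_add,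
      ← Complex.exp_pi_mul_I]
    congr 1
    rw [map_mul, Complex.conj_ofReal, Complex.conj_I]
    have h2 : ((m : ℂ) - n) ≠ 0 := sub_ne_zero.2 (by exact_mod_cast h)
    change (m : ℂ) * (((Real.pi / ((m : ℝ) - n) : ℝ) : ℂ) * Complex.I) +
      n * (((Real.pi / ((m : ℝ) - n) : ℝ) : ℂ) * -Complex.I) = _
    push_cast
    field_simp
    ring
  have h1 := (rotation c).measurePreserving.integral_comp
    (rotation c).toHomeomorph.measurableEmbedding
    (fun z : ℂ => (g ‖z‖) • (z ^ m * conj z ^ n))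
  have h2 : ∀ z : ℂ, (g ‖rotation c z‖) • ((rotation c z) ^ m * conj (rotation c z) ^ n) =
      - ((g ‖z‖) • (z ^ m * conj z ^ n)) := by
    intro z
    rw [LinearIsometryEquiv.norm_map, rotation_apply, map_mul, mul_pow, mul_pow, ← smul_neg]
    congr 1
    linear_combination (z ^ m * conj z ^ n) * hc
  rw [integral_congr_ae (ae_of_all _ h2), integral_neg] at h1
  have h3 : (2 : ℂ) * ∫ z : ℂ, (g ‖z‖) • (z ^ m * conj z ^ n) = 0 := by linear_combination -h1
  exact (mul_eq_zero.1 h3).resolve_left two_ne_zero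

theorem orth_mu (β : ℝ) {ρ : ℝ} (hρ : ρ ≤ 1) {m n : ℕ} (h : m ≠ n) :
    ∫ z in ball (0 : ℂ) ρ, z ^ m * conj z ^ n ∂(mu β) = 0 := by
  rw [integral_ball β hρ]
  exact orth (fun r => if r < ρ then (1 - r ^ 2) ^ β else 0) h

/-- the diagonal -/
theorem diag {β : ℝ} (hβ : 0 ≤ β) (n : ℕ) :
    ∫ z, ‖z‖ ^ (2 * n) ∂(mu β) = Real.pi * B β n := by
  rw [← mu_ball β le_rfl, integral_ball β le_rfl]
  have h1 := integral_fun_norm_addHaar (volume : Measure ℂ)
    (fun r : ℝ => (if r < 1 then (1 - r ^ 2) ^ β else 0 : ℝ) • r ^ (2 * n))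
  rw [h1, Complex.finrank_real_complex]
  have h2 : (volume : Measure ℂ).real (ball 0 1) = Real.pi := by
    rw [Measure.real, Complex.volume_ball]
    simp
  have h3 : ∫ y in Set.Ioi (0 : ℝ), y ^ (2 - 1) • ((if y < 1 then (1 - y ^ 2) ^ β else 0 : ℝ) • y ^ (2 * n)) =
      ∫ y in (0 : ℝ)..1, y * ((1 - y ^ 2) ^ β * y ^ (2 * n)) := by
    rw [intervalIntegral.integral_of_le zero_le_one, integral_Ioc_eq_integral_Ioo,
      ← integral_indicator measurableSet_Ioi, ← integral_indicator measurableSet_Ioo]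
    congr 1
    funext y
    by_cases h0 : 0 < y
    · rw [Set.indicator_of_mem (show y ∈ Set.Ioi (0 : ℝ) from h0)]
      by_cases hy1 : y < 1
      · rw [Set.indicator_of_mem (show y ∈ Set.Ioo (0 : ℝ) 1 from ⟨h0, hy1⟩), if_pos hy1]
        simp
      · rw [Set.indicator_of_notMem (show y ∉ Set.Ioo (0 : ℝ) 1 from fun h => hy1 h.2), if_neg hy1]
        simp
    · rw [Set.indicator_of_notMem (show y ∉ Set.Ioi (0 : ℝ) from h0),
        Set.indicator_of_notMem (show y ∉ Set.Ioo (0 : ℝ) 1 from fun h => h0 h.1)]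
  have h4 : ∫ y in (0 : ℝ)..1, ((fun x : ℝ => x ^ n * (1 - x) ^ β) ∘ fun y => y ^ 2) y * (2 * y) =
      ∫ x in ((0 : ℝ) ^ 2)..(1 ^ 2), x ^ n * (1 - x) ^ β := by
    apply intervalIntegral.integral_comp_mul_deriv' (f := fun y : ℝ => y ^ 2) (f' := fun y => 2 * y)
    · intro y _
      simpa using (hasDerivAt_pow 2 y)
    · fun_prop
    · have : Continuous fun x : ℝ => x ^ n * (1 - x) ^ β :=
        (continuous_pow n).mul ((continuous_const.sub continuous_id).rpow_const fun x => Or.inr hβ)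
      exact this.continuousOn
  have h5 : ∫ y in (0 : ℝ)..1, y * ((1 - y ^ 2) ^ β * y ^ (2 * n)) = B β n / 2 := by
    unfold B
    rw [one_pow, zero_pow two_ne_zero] at h4
    rw [← h4, ← intervalIntegral.integral_div]
    congr 1
    funext y
    simp only [Function.comp]
    rw [pow_mul]
    ring
  rw [h2, h3, h5, nsmul_eq_mul, smul_eq_mul]
  push_cast
  ring

/-- the bilinear form for measures supported on a disc inside the disc of convergence -/
theorem bil {ν : Measure ℂ} [IsFiniteMeasure ν] {ρ : ℝ} (hν : ∀ᵐ z ∂ν, ‖z‖ ≤ ρ)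
    (hort : ∀ m n : ℕ, m ≠ n → ∫ z, z ^ m * conj z ^ n ∂ν = 0) {u v : ℂ → ℂ} {a b : ℕ → ℂ}
    (hu : ∀ᵐ z ∂ν, HasSum (fun n => a n * z ^ n) (u z))
    (hv : ∀ᵐ z ∂ν, HasSum (fun n => b n * z ^ n) (v z)) (hρ : 0 ≤ ρ)
    (ha : Summable fun n => ‖a n‖ * ρ ^ n) (hb : Summable fun n => ‖b n‖ * ρ ^ n) :
    HasSum (fun n => ((∫ z, ‖z‖ ^ (2 * n) ∂ν : ℝ) : ℂ) * (a n * conj (b n)))
      (∫ z, u z * conj (v z) ∂ν) := by
  let F : ℕ × ℕ → ℂ → ℂ := fun q z => (a q.1 * z ^ q.1) * conj (b q.2 * z ^ q.2)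
  have hbd : ∀ q, ∀ᵐ z ∂ν, ‖F q z‖ ≤ (‖a q.1‖ * ρ ^ q.1) * (‖b q.2‖ * ρ ^ q.2) := by
    intro q
    filter_upwards [hν] with z hz
    change ‖(a q.1 * z ^ q.1) * conj (b q.2 * z ^ q.2)‖ ≤ _
    rw [norm_mul, Complex.norm_conj, norm_mul, norm_mul, norm_pow, norm_pow]
    gcongr
  have hmeas : ∀ q, AEStronglyMeasurable (F q) ν := by
    intro q
    apply Continuous.aestronglyMeasurable
    change Continuous fun z : ℂ => (a q.1 * z ^ q.1) * conj (b q.2 * z ^ q.2)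
    exact (by fun_prop : Continuous fun z : ℂ => a q.1 * z ^ q.1).mul
      (Complex.continuous_conj.comp (by fun_prop))
  have hint : ∀ q, Integrable (F q) ν := fun q => Integrable.of_bound (hmeas q) _ (hbd q)
  have hsum : Summable fun q => ∫ z, ‖F q z‖ ∂ν := by
    refine Summable.of_nonneg_of_le (fun q => integral_nonneg fun z => norm_nonneg _) (fun q => ?_)
      ((Summable.mul_of_nonneg ha hb (fun n => by positivity) (fun n => by positivity)).mul_right
        (ν.real Set.univ))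
    calc ∫ z, ‖F q z‖ ∂ν ≤ ∫ z, (‖a q.1‖ * ρ ^ q.1) * (‖b q.2‖ * ρ ^ q.2) ∂ν :=
          integral_mono_ae (hint q).norm (integrable_const _) (hbd q)
      _ = _ := by rw [integral_const, smul_eq_mul, mul_comm]
  have h1 := hasSum_integral_of_summable_integral_norm hint hsum
  have h2 : ∫ z, ∑' q, F q z ∂ν = ∫ z, u z * conj (v z) ∂ν := by
    apply integral_congr_ae
    filter_upwards [hu, hv] with z h3 h4
    have h5 : HasSum (fun n => conj (b n * z ^ n)) (conj (v z)) :=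
      (Complex.hasSum_conj').2 h4
    rw [← h3.tsum_eq, ← h5.tsum_eq]
    exact (tsum_mul_tsum_of_summable_norm h3.summable.norm h5.summable.norm).symm
  rw [h2] at h1
  have hinj : Function.Injective fun n : ℕ => (n, n) := fun m n h => (Prod.ext_iff.1 h).1
  have h3 := (hinj.hasSum_iff (f := fun q => ∫ z, F q z ∂ν) (fun q hq => by
    have hne : q.1 ≠ q.2 := fun h => hq ⟨q.1, Prod.ext rfl h⟩
    have h4 : ∀ z, F q z = (a q.1 * conj (b q.2)) * (z ^ q.1 * conj z ^ q.2) := by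
      intro z
      change (a q.1 * z ^ q.1) * conj (b q.2 * z ^ q.2) = _
      rw [map_mul, map_pow]
      ring
    rw [integral_congr_ae (ae_of_all _ h4), integral_const_mul, hort _ _ hne, mul_zero])).2 h1
  have e : (fun n => ((∫ z, ‖z‖ ^ (2 * n) ∂ν : ℝ) : ℂ) * (a n * conj (b n))) =
      (fun q => ∫ z, F q z ∂ν) ∘ fun n : ℕ => (n, n) := by
    funext n
    have h4 : ∀ z, F (n, n) z = ((‖z‖ ^ (2 * n) : ℝ) : ℂ) * (a n * conj (b n)) := by
      intro z
      change (a n * z ^ n) * conj (b n * z ^ n) = _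
      have h5 : z * conj z = ((‖z‖ ^ 2 : ℝ) : ℂ) := by
        rw [Complex.mul_conj, Complex.normSq_eq_norm_sq]
      rw [map_mul, map_pow, pow_mul, Complex.ofReal_pow, ← h5, mul_pow]
      ring
    simp only [Function.comp]
    rw [integral_congr_ae (ae_of_all _ h4), integral_mul_const, integral_complex_ofReal]
  rw [e]
  exact h3

end ParL

open ParL DcoL in
theorem par : S_PAR := by
  intro β hβ R u v a b hR hu hv hua hvb
  have hfin := fin_mu hβ
  have hsub : ball (0 : ℂ) 1 ⊆ ball 0 R := ball_subset_ball hR.le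
  have key : ∀ (u : ℂ → ℂ) (a : ℕ → ℂ), DifferentiableOn ℂ u (ball 0 R) → Co u a →
      Summable fun n => ‖a n‖ * (1 : ℝ) ^ n := by
    intro u a hu ha
    have h1 : a = ta u := unique ha fun z hz => hasSum_ta hu (hz.trans hR)
    have h2 := (hasSum_ta hu (z := 1) (by simpa using hR)).summable.norm
    rw [h1]
    refine h2.congr fun n => ?_
    rw [one_pow, one_pow, mul_one, mul_one]
  have h := bil (ν := mu β) (ρ := 1) ((ae_ball β).mono fun z hz => hz.le)
    (fun m n hmn => by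
      rw [← mu_ball β le_rfl]
      exact orth_mu β le_rfl hmn)
    ((ae_ball β).mono fun z hz => hua z hz) ((ae_ball β).mono fun z hz => hvb z hz) zero_le_one
    (key u a hu hua) (key v b hv hvb)
  simpa only [diag hβ] using h

namespace ParL

open DcoL

/-- Parseval on smaller discs -/
theorem small {β : ℝ} (hβ : 0 ≤ β) {u : ℂ → ℂ} {a : ℕ → ℂ} (h : Co u a) {ρ : ℝ} (h0 : 0 ≤ ρ)
    (h1 : ρ < 1) : ∫⁻ z in ball (0 : ℂ) ρ, ENNReal.ofReal (‖u z‖ ^ 2) ∂(mu β) =
      ∫⁻ z in ball (0 : ℂ) ρ, ∑' n, ENNReal.ofReal (‖a n‖ ^ 2 * ‖z‖ ^ (2 * n)) ∂(mu β) := by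
  have hfin := fin_mu hβ
  have hae : ∀ᵐ z ∂((mu β).restrict (ball (0 : ℂ) ρ)), ‖z‖ < ρ := by
    filter_upwards [ae_restrict_mem measurableSet_ball] with z hz
    simpa using hz
  have hco : ∀ᵐ z ∂((mu β).restrict (ball (0 : ℂ) ρ)), HasSum (fun n => a n * z ^ n) (u z) :=
    hae.mono fun z hz => h z (hz.trans h1)
  have h2 := bil (ν := (mu β).restrict (ball (0 : ℂ) ρ)) (ρ := ρ) (hae.mono fun z hz => hz.le)
    (fun m n hmn => orth_mu β h1.le hmn) hco hco h0 (summ h h0 h1) (summ h h0 h1)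
  have h3 : ∀ z, u z * conj (u z) = ((‖u z‖ ^ 2 : ℝ) : ℂ) := by
    intro z
    rw [Complex.mul_conj, Complex.normSq_eq_norm_sq]
  rw [integral_congr_ae (ae_of_all _ h3), integral_complex_ofReal] at h2
  have h4 : ∀ n, ((∫ z in ball (0 : ℂ) ρ, ‖z‖ ^ (2 * n) ∂(mu β) : ℝ) : ℂ) * (a n * conj (a n)) =
      ((‖a n‖ ^ 2 * ∫ z in ball (0 : ℂ) ρ, ‖z‖ ^ (2 * n) ∂(mu β) : ℝ) : ℂ) := by
    intro n
    rw [Complex.mul_conj, Complex.normSq_eq_norm_sq]
    push_cast
    ring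
  simp only [h4] at h2
  have h5 := (Complex.hasSum_ofReal).1 h2
  have hcu : ContinuousOn u (ball 0 1) := (diff h).continuousOn
  have hmeas : AEStronglyMeasurable u ((mu β).restrict (ball (0 : ℂ) ρ)) :=
    (hcu.mono (ball_subset_ball h1.le)).aestronglyMeasurable measurableSet_ball
  obtain ⟨M, hM⟩ := (isCompact_closedBall (0 : ℂ) ρ).exists_bound_of_continuousOn
    (hcu.mono (closedBall_subset_ball h1))
  have hint : Integrable (fun z => ‖u z‖ ^ 2) ((mu β).restrict (ball (0 : ℂ) ρ)) := by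
    refine Integrable.of_bound (hmeas.norm.pow 2) (M ^ 2) (hae.mono fun z hz => ?_)
    rw [norm_pow, norm_norm]
    exact pow_le_pow_left₀ (norm_nonneg _) (hM z (by simpa using hz.le)) 2
  have hint' : ∀ n, Integrable (fun z : ℂ => ‖a n‖ ^ 2 * ‖z‖ ^ (2 * n))
      ((mu β).restrict (ball (0 : ℂ) ρ)) := by
    intro n
    refine Integrable.of_bound (by fun_prop) (‖a n‖ ^ 2 * ρ ^ (2 * n)) (hae.mono fun z hz => ?_)
    rw [Real.norm_of_nonneg (by positivity)]
    gcongr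
  rw [← ofReal_integral_eq_lintegral_ofReal hint (ae_of_all _ fun z => by positivity),
    lintegral_tsum fun n => (by fun_prop)]
  have h6 : ∀ n, ∫⁻ z in ball (0 : ℂ) ρ, ENNReal.ofReal (‖a n‖ ^ 2 * ‖z‖ ^ (2 * n)) ∂(mu β) =
      ENNReal.ofReal (‖a n‖ ^ 2 * ∫ z in ball (0 : ℂ) ρ, ‖z‖ ^ (2 * n) ∂(mu β)) := by
    intro n
    rw [← ofReal_integral_eq_lintegral_ofReal (hint' n) (ae_of_all _ fun z => by positivity),
      integral_const_mul]
  rw [tsum_congr h6, ← ENNReal.ofReal_tsum_of_nonneg (fun n => by positivity) h5.summable,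
    h5.tsum_eq]

end ParL

open ParL DcoL in
theorem parl : S_PARL := by
  intro β hβ u a h
  have hfin := fin_mu hβ
  let ρ : ℕ → ℝ := fun n => 1 - 1 / ((n : ℝ) + 1)
  have hρ0 : ∀ n, 0 ≤ ρ n := by
    intro n
    have h1 : 1 / ((n : ℝ) + 1) ≤ 1 := by
      rw [div_le_one (by positivity)]
      linarith [Nat.cast_nonneg (α := ℝ) n]
    change 0 ≤ 1 - 1 / ((n : ℝ) + 1)
    linarith
  have hρ1 : ∀ n, ρ n < 1 := by
    intro n
    have h1 : 0 < 1 / ((n : ℝ) + 1) := by positivity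
    change 1 - 1 / ((n : ℝ) + 1) < 1
    linarith
  have hmono : Monotone ρ := by
    intro m n hmn
    change 1 - 1 / ((m : ℝ) + 1) ≤ 1 - 1 / ((n : ℝ) + 1)
    have : (m : ℝ) ≤ n := by exact_mod_cast hmn
    gcongr
  have hU : ⋃ n, ball (0 : ℂ) (ρ n) = ball 0 1 := by
    ext z
    simp only [Set.mem_iUnion, mem_ball_zero_iff]
    constructor
    · rintro ⟨n, hn⟩
      exact hn.trans (hρ1 n)
    · intro hz
      obtain ⟨n, hn⟩ := exists_nat_one_div_lt (sub_pos.2 hz)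
      refine ⟨n, ?_⟩
      change ‖z‖ < 1 - 1 / ((n : ℝ) + 1)
      linarith
  have hdir : Directed (· ⊆ ·) fun n => ball (0 : ℂ) (ρ n) :=
    (Monotone.directed_le fun m n hmn => ball_subset_ball (hmono hmn))
  calc ∫⁻ z, ENNReal.ofReal (‖u z‖ ^ 2) ∂(mu β)
      = ∫⁻ z in ⋃ n, ball (0 : ℂ) (ρ n), ENNReal.ofReal (‖u z‖ ^ 2) ∂(mu β) := by
        rw [hU, mu_ball β le_rfl]
    _ = ∫⁻ z in ⋃ n, ball (0 : ℂ) (ρ n), ∑' n, ENNReal.ofReal (‖a n‖ ^ 2 * ‖z‖ ^ (2 * n)) ∂(mu β) := by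
        rw [setLIntegral_iUnion_of_directed _ hdir, setLIntegral_iUnion_of_directed _ hdir]
        exact iSup_congr fun n => small hβ h (hρ0 n) (hρ1 n)
    _ = ∫⁻ z, ∑' n, ENNReal.ofReal (‖a n‖ ^ 2 * ‖z‖ ^ (2 * n)) ∂(mu β) := by
        rw [hU, mu_ball β le_rfl]
    _ = ∑' n, ∫⁻ z, ENNReal.ofReal (‖a n‖ ^ 2 * ‖z‖ ^ (2 * n)) ∂(mu β) :=
        lintegral_tsum fun n => (by fun_prop)
    _ = ∑' n : ℕ, ENNReal.ofReal (Real.pi * B β n * ‖a n‖ ^ 2) := by
        refine tsum_congr fun n => ?_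
        have hint : Integrable (fun z : ℂ => ‖a n‖ ^ 2 * ‖z‖ ^ (2 * n)) (mu β) := by
          refine Integrable.of_bound (by fun_prop) (‖a n‖ ^ 2 * 1 ^ (2 * n))
            ((ae_ball β).mono fun z hz => ?_)
          rw [Real.norm_of_nonneg (by positivity)]
          gcongr
        rw [← ofReal_integral_eq_lintegral_ofReal hint (ae_of_all _ fun z => by positivity),
          integral_const_mul, diag hβ, mul_comm]

end Pool.Agent.Helper59K9.CY
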