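import Pool.Agent.Helper59K9.CY.Hj
import Pool.Agent.Helper59K9.CY.Par

/-!
[SLK] the energy of a potential
-/

set_option autoImplicit false

open MeasureTheory Metric Filter Topology ComplexConjugate

namespace Pool.Agent.Helper59K9.CY

namespace SlkL

open HjL ParL

lemma tan_abs_arg {w : ℂ} (h0 : 0 < w.re) : Real.tan |w.arg| = |w.im| / w.re := by
  rcases le_total 0 w.arg with h5 | h5
  · rw [abs_of_nonneg h5, Complex.tan_arg, abs_of_nonneg (Complex.arg_nonneg_iff.1 h5)]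
  · rcases eq_or_lt_of_le h5 with h6 | h6
    · rw [h6, abs_zero, Real.tan_zero]
      have : w.im = 0 := by
        have := Complex.tan_arg w
        rw [h6, Real.tan_zero] at this
        have := this.symm
        rw [div_eq_zero_iff] at this
        rcases this with h | h
        · exact h
        · linarith
      rw [this]; simp
    · rw [abs_of_neg h6, Real.tan_neg, Complex.tan_arg, abs_of_neg (Complex.arg_neg_iff.1 h6)]
      ring

lemma abs_arg_one_add {w : ℂ} (h0 : 0 < w.re) : |(1 + w).arg| ≤ |w.arg| := by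
  have h1 : 0 < (1 + w).re := by
    simp only [Complex.add_re, Complex.one_re]
    linarith
  by_contra hcon
  push Not at hcon
  have h2 : |(1 + w).arg| < Real.pi / 2 := Complex.abs_arg_lt_pi_div_two_iff.2 (Or.inl h1)
  have h3 := Real.tan_lt_tan_of_nonneg_of_lt_pi_div_two (abs_nonneg _) h2 hcon
  rw [tan_abs_arg h0, tan_abs_arg h1, div_lt_div_iff₀ h0 h1] at h3
  simp only [Complex.add_re, Complex.one_re, Complex.add_im, Complex.one_im, zero_add] at h3
  nlinarith [abs_nonneg w.im]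

lemma sector {θ σ τ : ℝ} (hσ0 : 0 < σ) (hσ1 : σ ≤ 1) (hτ0 : 0 < τ) (hθ : 0 ≤ θ)
    (hθτ : (1 + τ * σ) * θ < Real.pi / 2) {k : ℂ} (hk : 0 < k.re) (ha : |k.arg| ≤ θ) :
    0 < (k ^ (σ : ℂ)).re ∧
    Real.cos ((1 + τ * σ) * θ) * (‖1 + k ^ (σ : ℂ)‖ ^ (-τ - 1) * ‖k‖ ^ (σ - 1)) ≤
      ((1 + k ^ (σ : ℂ)) ^ ((-τ - 1 : ℝ) : ℂ) * k ^ ((σ - 1 : ℝ) : ℂ)).re := by
  have hpi := Real.pi_pos
  have hk0 : k ≠ 0 := by
    rintro rfl
    simp at hk
  have hθ2 : θ < Real.pi / 2 := by nlinarith [mul_nonneg (mul_pos hτ0 hσ0).le hθ]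
  have hσθ : |k.arg * σ| ≤ θ := by
    rw [abs_mul, abs_of_pos hσ0]
    nlinarith [abs_nonneg k.arg]
  have him : (Complex.log k * (σ : ℂ)).im = k.arg * σ := by
    rw [Complex.im_mul_ofReal, Complex.log_im]
  have hexp : k ^ (σ : ℂ) = Complex.exp (Complex.log k * (σ : ℂ)) :=
    Complex.cpow_def_of_ne_zero hk0 _
  have hre : 0 < (k ^ (σ : ℂ)).re := by
    rw [hexp, Complex.exp_re, him]
    apply mul_pos (Real.exp_pos _)
    apply Real.cos_pos_of_mem_Ioo
    rw [abs_le] at hσθ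
    exact ⟨by linarith [hσθ.1], by linarith [hσθ.2]⟩
  have harg : (k ^ (σ : ℂ)).arg = k.arg * σ := by
    have h1 : Complex.log (Complex.exp (Complex.log k * (σ : ℂ))) = Complex.log k * (σ : ℂ) := by
      apply Complex.log_exp
      · rw [him]
        rw [abs_le] at hσθ
        linarith [hσθ.1]
      · rw [him]
        rw [abs_le] at hσθ
        linarith [hσθ.2]
    rw [← Complex.log_im, hexp, h1, him]
  refine ⟨hre, ?_⟩
  set y : ℂ := 1 + k ^ (σ : ℂ) with hy
  have hy0 : y ≠ 0 := by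
    intro h
    have : y.re = 0 := by rw [h]; rfl
    rw [hy, Complex.add_re, Complex.one_re] at this
    linarith
  have hya : |y.arg| ≤ |k.arg| * σ := by
    have h1 := abs_arg_one_add hre
    rw [harg, abs_mul, abs_of_pos hσ0] at h1
    exact h1
  have hn : ‖y‖ ^ (-τ - 1) * ‖k‖ ^ (σ - 1) =
      ‖y ^ ((-τ - 1 : ℝ) : ℂ) * k ^ ((σ - 1 : ℝ) : ℂ)‖ := by
    rw [norm_mul, Complex.norm_cpow_real, Complex.norm_cpow_real]
  rw [hn, Complex.cpow_def_of_ne_zero hy0, Complex.cpow_def_of_ne_zero hk0, ← Complex.exp_add,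
    Complex.norm_exp, Complex.exp_re, mul_comm (Real.cos _)]
  apply mul_le_mul_of_nonneg_left _ (Real.exp_pos _).le
  have him2 : (Complex.log y * ((-τ - 1 : ℝ) : ℂ) + Complex.log k * ((σ - 1 : ℝ) : ℂ)).im =
      y.arg * (-τ - 1) + k.arg * (σ - 1) := by
    rw [Complex.add_im, Complex.im_mul_ofReal, Complex.im_mul_ofReal, Complex.log_im,
      Complex.log_im]
  rw [him2, ← Real.cos_abs (y.arg * (-τ - 1) + k.arg * (σ - 1))]
  apply Real.cos_le_cos_of_nonneg_of_le_pi (abs_nonneg _) (by linarith)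
  calc |y.arg * (-τ - 1) + k.arg * (σ - 1)|
      ≤ |y.arg * (-τ - 1)| + |k.arg * (σ - 1)| := abs_add_le _ _
    _ = |y.arg| * (τ + 1) + |k.arg| * (1 - σ) := by
        rw [abs_mul, abs_mul, abs_of_nonpos (by linarith : -τ - 1 ≤ 0),
          abs_of_nonpos (by linarith : σ - 1 ≤ 0)]
        ring
    _ ≤ |k.arg| * σ * (τ + 1) + |k.arg| * (1 - σ) := by gcongr
    _ = (1 + τ * σ) * |k.arg| := by ring
    _ ≤ (1 + τ * σ) * θ := by gcongr

/-- the potential outside the disc -/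
lemma pot_deriv {K : ℂ → ℂ} (hK : DifferentiableOn ℂ K (ball 0 1)) {s : Finset ℂ} {x : ℂ → ℝ}
    {z : ℂ} (hz : ∀ w ∈ s, ‖z * conj w‖ < 1) :
    HasDerivAt (pot K s x) (∑ w ∈ s, (x w : ℂ) * (conj w * deriv K (z * conj w))) z := by
  unfold pot
  apply HasDerivAt.fun_sum
  intro w hw
  have h1 : z * conj w ∈ ball (0 : ℂ) 1 := by
    rw [mem_ball_zero_iff]
    exact hz w hw
  have h2 : HasDerivAt K (deriv K (z * conj w)) (z * conj w) :=
    (hK.differentiableAt (isOpen_ball.mem_nhds h1)).hasDerivAt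
  have h3 : HasDerivAt (fun z : ℂ => z * conj w) (conj w) z := by
    simpa using (hasDerivAt_id z).mul_const (conj w)
  have h4 := (h2.comp z h3).const_mul (x w : ℂ)
  rw [mul_comm (deriv K _)] at h4
  exact h4

lemma exists_rho (s : Finset ℂ) (hs : ∀ w ∈ s, ‖w‖ < 1) :
    ∃ ρ : ℝ, 0 < ρ ∧ ρ < 1 ∧ ∀ w ∈ s, ‖w‖ ≤ ρ := by
  classical
  induction s using Finset.induction_on with
  | empty => exact ⟨1 / 2, by norm_num, by norm_num, by simp⟩
  | insert a s ha ih =>
    obtain ⟨ρ, h1, h2, h3⟩ := ih fun w hw => hs w (Finset.mem_insert_of_mem hw)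
    refine ⟨max ρ ‖a‖, lt_max_of_lt_left h1, max_lt h2 (hs a (Finset.mem_insert_self _ _)),
      fun w hw => ?_⟩
    rcases Finset.mem_insert.1 hw with rfl | h
    · exact le_max_right _ _
    · exact (h3 w h).trans (le_max_left _ _)

lemma integrable_cont {β : ℝ} (hβ : 0 ≤ β) {F : ℂ → ℂ}
    (hF : ContinuousOn F (closedBall (0 : ℂ) 1)) : Integrable F (mu β) := by
  have := fin_mu hβ
  have h1 : IntegrableOn F (closedBall (0 : ℂ) 1) (mu β) :=
    hF.integrableOn_compact (isCompact_closedBall _ _)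
  rw [IntegrableOn, Measure.restrict_eq_self_of_ae_mem] at h1
  · exact h1
  · filter_upwards [ae_ball β] with z hz
    rw [mem_closedBall_zero_iff]
    exact hz.le

end SlkL

open SlkL HjL ParL in
theorem slk : S_SLK := by
  intro β p σ K hβ0 hβ1 hp hσ0 hσ1 hK
  have hpi := Real.pi_pos
  obtain ⟨c, hc, hpos⟩ := hK.pos
  obtain ⟨CP, hCP, hpair⟩ := hK.pair
  set θ : ℝ := Real.pi / p with hθ
  have hθ0 : 0 ≤ θ := by positivity
  set τ : ℝ := min 1 ((p / 2 - 1) / 2) with hτ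
  have hτ0 : 0 < τ := by
    rw [hτ, lt_min_iff]
    exact ⟨by norm_num, by linarith⟩
  have hτ1 : τ ≤ 1 := min_le_left _ _
  have hτ2 : τ ≤ (p / 2 - 1) / 2 := min_le_right _ _
  have hθτ : (1 + τ * σ) * θ < Real.pi / 2 := by
    have h1 : (1 + τ * σ) ≤ 1 + τ := by nlinarith
    have h2 : 1 + τ < p / 2 := by linarith
    calc (1 + τ * σ) * θ ≤ (1 + τ) * θ := by gcongr
      _ < p / 2 * θ := by
          apply mul_lt_mul_of_pos_right h2
          positivity
      _ = Real.pi / 2 := by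
          rw [hθ]
          field_simp
  set q : ℝ := Real.cos ((1 + τ * σ) * θ) with hq
  have hq0 : 0 < q := by
    apply Real.cos_pos_of_mem_Ioo
    refine ⟨?_, hθτ⟩
    have : 0 ≤ (1 + τ * σ) * θ := by positivity
    linarith
  refine ⟨4 / (τ * σ * q) * CP, by positivity, fun s x hs hx => ?_⟩
  obtain ⟨ρ, hρ0, hρ1, hρ⟩ := exists_rho s fun w hw => (hs w hw).1
  set R : ℝ := 1 / ρ with hR
  have hR1 : 1 < R := by
    rw [hR, lt_div_iff₀ hρ0]
    linarith
  have hzw : ∀ z : ℂ, ‖z‖ < R → ∀ w ∈ s, ‖z * conj w‖ < 1 := by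
    intro z hz w hw
    rw [norm_mul, Complex.norm_conj]
    calc ‖z‖ * ‖w‖ ≤ ‖z‖ * ρ := by
          have := hρ w hw
          gcongr
      _ < R * ρ := by gcongr
      _ = 1 := by
          rw [hR]
          field_simp
  set k : ℂ → ℂ := pot K s x with hk
  have hre : ∀ z : ℂ, (k z).re = ∑ w ∈ s, x w * (K (z * conj w)).re := by
    intro z
    rw [hk]
    unfold pot
    rw [Complex.re_sum]
    exact Finset.sum_congr rfl fun w _ => Complex.re_ofReal_mul _ _
  have him : ∀ z : ℂ, (k z).im = ∑ w ∈ s, x w * (K (z * conj w)).im := by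
    intro z
    rw [hk]
    unfold pot
    rw [Complex.im_sum]
    exact Finset.sum_congr rfl fun w _ => Complex.im_ofReal_mul _ _
  have hkre : ∀ z : ℂ, ‖z‖ < R → 0 < (k z).re := by
    intro z hz
    have h1 : c * ∑ w ∈ s, x w ≤ (k z).re := by
      rw [hre, Finset.mul_sum]
      refine Finset.sum_le_sum fun w hw => ?_
      rw [mul_comm]
      exact mul_le_mul_of_nonneg_left (hpos _ (hzw z hz w hw)) (hs w hw).2
    exact lt_of_lt_of_le (by positivity) h1
  have hkarg : ∀ z : ℂ, ‖z‖ < R → |(k z).arg| ≤ θ := by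
    intro z hz
    apply arg_le hp (hkre z hz)
    rw [him, hre, Finset.mul_sum]
    refine (Finset.abs_sum_le_sum_abs _ _).trans (Finset.sum_le_sum fun w hw => ?_)
    rw [abs_mul, abs_of_nonneg (hs w hw).2]
    calc x w * |(K (z * conj w)).im| ≤ x w * (Real.tan (Real.pi / p) * (K (z * conj w)).re) :=
          mul_le_mul_of_nonneg_left (hK.sec _ (hzw z hz w hw)) (hs w hw).2
      _ = _ := by ring
  set k' : ℂ → ℂ := fun z => ∑ w ∈ s, (x w : ℂ) * (conj w * deriv K (z * conj w)) with hk'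
  have hkd : ∀ z : ℂ, ‖z‖ < R → HasDerivAt k (k' z) z := fun z hz => pot_deriv hK.diff (hzw z hz)
  set y : ℂ → ℂ := fun z => 1 + k z ^ (σ : ℂ) with hy
  have hsec : ∀ z : ℂ, ‖z‖ < R → 0 < (k z ^ (σ : ℂ)).re ∧
      q * (‖y z‖ ^ (-τ - 1) * ‖k z‖ ^ (σ - 1)) ≤
        (y z ^ ((-τ - 1 : ℝ) : ℂ) * k z ^ ((σ - 1 : ℝ) : ℂ)).re := fun z hz =>
    sector hσ0 hσ1 hτ0 hθ0 hθτ (hkre z hz) (hkarg z hz)
  have hyre : ∀ z : ℂ, ‖z‖ < R → 1 < (y z).re := by
    intro z hz
    rw [hy]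
    simp only [Complex.add_re, Complex.one_re]
    linarith [(hsec z hz).1]
  have hyn : ∀ z : ℂ, ‖z‖ < R → 1 < ‖y z‖ := fun z hz =>
    (hyre z hz).trans_le (Complex.re_le_norm _)
  set u : ℂ → ℂ := fun z => -(y z) ^ ((-τ : ℝ) : ℂ) with hu
  have hud : ∀ z : ℂ, ‖z‖ < R → HasDerivAt u
      (((τ * σ : ℝ) : ℂ) * (y z ^ ((-τ - 1 : ℝ) : ℂ) * k z ^ ((σ - 1 : ℝ) : ℂ)) * k' z) z := by
    intro z hz
    have h1 : HasDerivAt (fun z => k z ^ (σ : ℂ)) ((σ : ℂ) * k z ^ ((σ : ℂ) - 1) * k' z) z :=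
      (hkd z hz).cpow_const (Or.inl (hkre z hz))
    have h2 : HasDerivAt y ((σ : ℂ) * k z ^ ((σ : ℂ) - 1) * k' z) z := h1.const_add 1
    have h3 := (h2.cpow_const (c := ((-τ : ℝ) : ℂ)) (Or.inl (by linarith [hyre z hz]))).neg
    have e : ((τ * σ : ℝ) : ℂ) * (y z ^ ((-τ - 1 : ℝ) : ℂ) * k z ^ ((σ - 1 : ℝ) : ℂ)) * k' z =
        -(((-τ : ℝ) : ℂ) * y z ^ (((-τ : ℝ) : ℂ) - 1) * ((σ : ℂ) * k z ^ ((σ : ℂ) - 1) * k' z)) := by
      push_cast
      ring
    rw [e]
    exact h3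
  have hun : ∀ z : ℂ, ‖z‖ < 1 → ‖u z‖ ≤ 1 := by
    intro z hz
    rw [hu]
    simp only [norm_neg]
    rw [Complex.norm_cpow_real]
    exact Real.rpow_le_one_of_one_le_of_nonpos (hyn z (hz.trans hR1)).le (by linarith)
  have hudiff : DifferentiableOn ℂ u (ball 0 R) := fun z hz =>
    (hud z (by simpa using hz)).differentiableAt.differentiableWithinAt
  have hkdiff : DifferentiableOn ℂ k (ball 0 R) := fun z hz =>
    (hkd z (by simpa using hz)).differentiableAt.differentiableWithinAt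
  have hcb : closedBall (0 : ℂ) 1 ⊆ ball 0 R := closedBall_subset_ball hR1
  have hu'c : ContinuousOn (deriv u) (closedBall (0 : ℂ) 1) :=
    (hudiff.deriv isOpen_ball).continuousOn.mono hcb
  have hGc : ∀ w ∈ s, ContinuousOn (fun z => deriv u z * conj (conj w * deriv K (z * conj w)))
      (closedBall (0 : ℂ) 1) := by
    intro w hw
    refine hu'c.mul (Complex.continuous_conj.comp_continuousOn (continuousOn_const.mul ?_))
    refine (hK.diff.deriv isOpen_ball).continuousOn.comp (by fun_prop) fun z hz => ?_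
    rw [mem_ball_zero_iff]
    exact hzw z (by simpa using hcb hz) w hw
  -- the pairing
  have hI : ‖∫ z, deriv u z * conj (k' z) ∂(mu β)‖ ≤ CP * ∑ w ∈ s, x w := by
    have e1 : ∀ z, deriv u z * conj (k' z) =
        ∑ w ∈ s, (x w : ℂ) * (deriv u z * conj (conj w * deriv K (z * conj w))) := by
      intro z
      rw [hk']
      simp only [map_sum, Finset.mul_sum]
      refine Finset.sum_congr rfl fun w _ => ?_
      rw [map_mul (starRingEnd ℂ) (x w : ℂ), Complex.conj_ofReal]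
      ring
    rw [integral_congr_ae (ae_of_all _ e1), integral_finset_sum s fun w hw =>
      (integrable_cont hβ0 (hGc w hw)).const_mul _]
    refine (norm_sum_le _ _).trans ?_
    rw [Finset.mul_sum]
    refine Finset.sum_le_sum fun w hw => ?_
    rw [integral_const_mul, norm_mul, Complex.norm_real, Real.norm_of_nonneg (hs w hw).2, mul_comm]
    have := hpair u R 1 hR1 hudiff hun w (hs w hw).1
    rw [mul_one] at this
    exact mul_le_mul_of_nonneg_right this (hs w hw).2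
  -- the pointwise bound
  have hpt : ∀ z : ℂ, ‖z‖ < 1 → 0 ≤ (deriv u z * conj (k' z)).re ∧
      ‖deriv k z‖ ^ 2 * ‖k z‖ ^ (σ - 1) * (1 + ‖k z‖) ^ (-2 : ℝ) ≤
        4 / (τ * σ * q) * (deriv u z * conj (k' z)).re := by
    intro z hz
    have hzR := hz.trans hR1
    have e1 : (deriv u z * conj (k' z)).re = τ * σ * ‖k' z‖ ^ 2 *
        (y z ^ ((-τ - 1 : ℝ) : ℂ) * k z ^ ((σ - 1 : ℝ) : ℂ)).re := by
      rw [(hud z hzR).deriv]
      have e2 : ((τ * σ : ℝ) : ℂ) * (y z ^ ((-τ - 1 : ℝ) : ℂ) * k z ^ ((σ - 1 : ℝ) : ℂ)) * k' z *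
          conj (k' z) = ((τ * σ * ‖k' z‖ ^ 2 : ℝ) : ℂ) *
            (y z ^ ((-τ - 1 : ℝ) : ℂ) * k z ^ ((σ - 1 : ℝ) : ℂ)) := by
        rw [mul_assoc, Complex.mul_conj, Complex.normSq_eq_norm_sq]
        push_cast
        ring
      rw [e2, Complex.re_ofReal_mul]
    have h1 := (hsec z hzR).2
    have h2 : 0 < ‖k z‖ := lt_of_lt_of_le (hkre z hzR) (Complex.re_le_norm _)
    have h3 : ‖y z‖ ≤ 2 * (1 + ‖k z‖) := by
      rw [hy]
      refine (norm_add_le _ _).trans ?_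
      rw [norm_one, Complex.norm_cpow_real]
      have : ‖k z‖ ^ σ ≤ 1 + ‖k z‖ := by
        rcases le_total ‖k z‖ 1 with h | h
        · exact (Real.rpow_le_one h2.le h hσ0.le).trans (by linarith)
        · calc ‖k z‖ ^ σ ≤ ‖k z‖ ^ (1 : ℝ) := Real.rpow_le_rpow_of_exponent_le h hσ1
            _ = ‖k z‖ := Real.rpow_one _
            _ ≤ _ := by linarith
      linarith
    have h4 : (1 / 4) * (1 + ‖k z‖) ^ (-2 : ℝ) ≤ ‖y z‖ ^ (-τ - 1) := by
      have h5 : ‖y z‖ ^ (-2 : ℝ) ≤ ‖y z‖ ^ (-τ - 1) :=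
        Real.rpow_le_rpow_of_exponent_le (hyn z hzR).le (by linarith)
      have h6 : (2 * (1 + ‖k z‖)) ^ (-2 : ℝ) ≤ ‖y z‖ ^ (-2 : ℝ) :=
        Real.rpow_le_rpow_of_nonpos (by linarith [hyn z hzR]) h3 (by norm_num)
      rw [Real.mul_rpow (by norm_num) (by positivity)] at h6
      have h7 : (2 : ℝ) ^ (-2 : ℝ) = 1 / 4 := by
        rw [Real.rpow_neg (by norm_num)]
        norm_num
      rw [h7] at h6
      exact h6.trans h5
    have h8 : 0 ≤ (y z ^ ((-τ - 1 : ℝ) : ℂ) * k z ^ ((σ - 1 : ℝ) : ℂ)).re :=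
      le_trans (by positivity) h1
    refine ⟨by rw [e1]; positivity, ?_⟩
    rw [e1, (hkd z hzR).deriv]
    calc ‖k' z‖ ^ 2 * ‖k z‖ ^ (σ - 1) * (1 + ‖k z‖) ^ (-2 : ℝ)
        = 4 / q * ‖k' z‖ ^ 2 * (q * (((1 / 4) * (1 + ‖k z‖) ^ (-2 : ℝ)) * ‖k z‖ ^ (σ - 1))) := by
          field_simp
      _ ≤ 4 / q * ‖k' z‖ ^ 2 * (q * (‖y z‖ ^ (-τ - 1) * ‖k z‖ ^ (σ - 1))) := by gcongr
      _ ≤ 4 / q * ‖k' z‖ ^ 2 * (y z ^ ((-τ - 1 : ℝ) : ℂ) * k z ^ ((σ - 1 : ℝ) : ℂ)).re := by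
          gcongr
      _ = _ := by field_simp
  have hk'c : ContinuousOn k' (closedBall (0 : ℂ) 1) :=
    ((hkdiff.deriv isOpen_ball).continuousOn.mono hcb).congr fun z hz =>
      ((hkd z (by simpa using hcb hz)).deriv).symm
  have hint : Integrable (fun z => deriv u z * conj (k' z)) (mu β) :=
    integrable_cont hβ0 (hu'c.mul (Complex.continuous_conj.comp_continuousOn hk'c))
  have hintre : Integrable (fun z => 4 / (τ * σ * q) * (deriv u z * conj (k' z)).re) (mu β) :=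
    hint.re.const_mul _
  calc ∫⁻ z, ENNReal.ofReal (‖deriv k z‖ ^ 2 * ‖k z‖ ^ (σ - 1) * (1 + ‖k z‖) ^ (-2 : ℝ)) ∂(mu β)
      ≤ ∫⁻ z, ENNReal.ofReal (4 / (τ * σ * q) * (deriv u z * conj (k' z)).re) ∂(mu β) := by
        apply lintegral_mono_ae
        filter_upwards [ae_ball β] with z hz
        exact ENNReal.ofReal_le_ofReal (hpt z hz).2
    _ = ENNReal.ofReal (∫ z, 4 / (τ * σ * q) * (deriv u z * conj (k' z)).re ∂(mu β)) := by
        rw [ofReal_integral_eq_lintegral_ofReal hintre]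
        filter_upwards [ae_ball β] with z hz
        exact mul_nonneg (by positivity) (hpt z hz).1
    _ ≤ _ := by
        apply ENNReal.ofReal_le_ofReal
        rw [integral_const_mul, mul_assoc _ CP]
        apply mul_le_mul_of_nonneg_left _ (by positivity)
        have e3 : ∫ z, (deriv u z * conj (k' z)).re ∂(mu β) =
            (∫ z, deriv u z * conj (k' z) ∂(mu β)).re := integral_re hint
        rw [e3]
        exact (Complex.re_le_norm _).trans hI

end Pool.Agent.Helper59K9.CY
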