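import Pool.Agent.Helper59K9.CY.St

/-!
The factor `k ^ (σ - 1) (1 + k ^ σ) ^ (-τ - 1)` for `k` in a sector.
-/

set_option autoImplicit false

open MeasureTheory Metric Filter Topology ComplexConjugate

namespace Pool.Agent.Helper59K9.CY

namespace SlkL

theorem tan_abs {k : ℂ} : Real.tan |k.arg| = |k.im| / k.re := by
  have h1 := Complex.tan_arg k
  rcases abs_cases k.arg with ⟨h, h'⟩ | ⟨h, h'⟩
  · rw [h, h1, abs_of_nonneg (Complex.arg_nonneg_iff.1 h')]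
  · rw [h, Real.tan_neg, h1, abs_of_neg (Complex.arg_neg_iff.1 h')]; ring

theorem abs_arg_lt {k : ℂ} (hr : 0 < k.re) : |k.arg| < Real.pi / 2 :=
  Complex.abs_arg_lt_pi_div_two_iff.2 (Or.inl hr)

theorem le_of_tan {a b : ℝ} (ha' : a < Real.pi / 2) (hb : 0 ≤ b)
    (hb' : b < Real.pi / 2) (h : Real.tan a ≤ Real.tan b) : a ≤ b := by
  have hp := Real.pi_pos
  by_contra hc
  push Not at hc
  have := Real.strictMonoOn_tan ⟨by linarith, hb'⟩ ⟨by linarith, ha'⟩ hc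
  linarith

theorem arg_le {k : ℂ} {θ : ℝ} (h0 : 0 ≤ θ) (hθ : θ < Real.pi / 2) (hr : 0 < k.re)
    (hi : |k.im| ≤ Real.tan θ * k.re) : |k.arg| ≤ θ := by
  apply le_of_tan (abs_arg_lt hr) h0 hθ
  rw [tan_abs, div_le_iff₀ hr]
  exact hi

theorem arg_one_add {w : ℂ} (hr : 0 < w.re) : |(1 + w).arg| ≤ |w.arg| := by
  have hr' : 0 < (1 + w).re := by simp; linarith
  apply le_of_tan (abs_arg_lt hr') (abs_nonneg _) (abs_arg_lt hr)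
  rw [tan_abs, tan_abs]
  have e1 : (1 + w).im = w.im := by simp
  have e2 : (1 + w).re = 1 + w.re := by simp
  rw [e1, e2]
  exact div_le_div_of_nonneg_left (abs_nonneg _) hr (by linarith)

theorem cpow_exp {k : ℂ} (hk : k ≠ 0) (c : ℂ) : k ^ c = Complex.exp (c * Complex.log k) := by
  rw [Complex.cpow_def_of_ne_zero hk, mul_comm]

theorem re_ne {k : ℂ} (hr : 0 < k.re) : k ≠ 0 := by
  rintro rfl; simp at hr

theorem arg_exp_im {x : ℂ} (h1 : -Real.pi < x.im) (h2 : x.im ≤ Real.pi) :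
    (Complex.exp x).arg = x.im := by
  rw [Complex.arg_exp, toIocMod_eq_self]
  constructor
  · exact h1
  · linarith [Real.pi_pos]

/-- the power `k ^ σ` -/
theorem pow_sector {k : ℂ} {σ θ : ℝ} (hσ0 : 0 < σ) (hσ1 : σ ≤ 1) (hr : 0 < k.re)
    (hk : |k.arg| ≤ θ) :
    0 < (k ^ (σ : ℂ)).re ∧ |(k ^ (σ : ℂ)).arg| ≤ σ * θ := by
  have hk2 := abs_arg_lt hr
  have e1 := cpow_exp (re_ne hr) (σ : ℂ)
  have e2 : ((σ : ℂ) * Complex.log k).im = σ * k.arg := by simp [Complex.log_im]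
  have b : |σ * k.arg| ≤ |k.arg| := by
    rw [abs_mul, abs_of_pos hσ0]
    exact mul_le_of_le_one_left (abs_nonneg _) hσ1
  have hp := Real.pi_pos
  constructor
  · rw [e1, Complex.exp_re, e2]
    apply mul_pos (Real.exp_pos _)
    apply Real.cos_pos_of_mem_Ioo
    have := abs_lt.1 (lt_of_le_of_lt b hk2)
    exact ⟨by linarith [this.1], this.2⟩
  · have h3 := abs_lt.1 (lt_of_le_of_lt b hk2)
    rw [e1, arg_exp_im (by rw [e2]; linarith [h3.1]) (by rw [e2]; linarith [h3.2]), e2, abs_mul,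
      abs_of_pos hσ0]
    exact mul_le_mul_of_nonneg_left hk hσ0.le

/-- the factor -/
noncomputable def fac (σ τ : ℝ) (k : ℂ) : ℂ :=
  k ^ ((σ : ℂ) - 1) * (1 + k ^ (σ : ℂ)) ^ (-(τ : ℂ) - 1)

theorem norm_fac (σ τ : ℝ) (k : ℂ) :
    ‖fac σ τ k‖ = ‖k‖ ^ (σ - 1) * ‖1 + k ^ (σ : ℂ)‖ ^ (-τ - 1) := by
  unfold fac
  rw [norm_mul]
  have e1 : ((σ : ℂ) - 1) = ((σ - 1 : ℝ) : ℂ) := by push_cast; ring
  have e2 : (-(τ : ℂ) - 1) = ((-τ - 1 : ℝ) : ℂ) := by push_cast; ring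
  rw [e1, e2, Complex.norm_cpow_real, Complex.norm_cpow_real]

theorem fac_re {k : ℂ} {σ τ θ : ℝ} (hσ0 : 0 < σ) (hσ1 : σ ≤ 1) (hτ : 0 < τ) (hr : 0 < k.re)
    (hθ0 : 0 ≤ θ) (hk : |k.arg| ≤ θ) (hτσ : (1 + τ * σ) * θ ≤ Real.pi / 2) :
    Real.cos ((1 + τ * σ) * θ) * ‖fac σ τ k‖ ≤ (fac σ τ k).re := by
  obtain ⟨hw, hw'⟩ := pow_sector hσ0 hσ1 hr hk
  set w := k ^ (σ : ℂ) with hwd
  have hr' : 0 < (1 + w).re := by simp; linarith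
  have hψ : |(1 + w).arg| ≤ σ * θ := (arg_one_add hw).trans hw'
  have e : fac σ τ k = Complex.exp (((σ : ℂ) - 1) * Complex.log k +
      (-(τ : ℂ) - 1) * Complex.log (1 + w)) := by
    unfold fac
    rw [Complex.exp_add, ← cpow_exp (re_ne hr), ← cpow_exp (re_ne hr')]
  set A := ((σ : ℂ) - 1) * Complex.log k + (-(τ : ℂ) - 1) * Complex.log (1 + w) with hA
  have hAim : A.im = (σ - 1) * k.arg + (-τ - 1) * (1 + w).arg := by
    rw [hA]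
    simp [Complex.add_im, Complex.mul_im, Complex.log_im]
  have hab : |A.im| ≤ (1 + τ * σ) * θ := by
    rw [hAim]
    refine (abs_add_le _ _).trans ?_
    rw [abs_mul, abs_mul]
    have a1 : |σ - 1| = 1 - σ := by rw [abs_of_nonpos (by linarith)]; ring
    have a2 : |-τ - 1| = 1 + τ := by rw [abs_of_nonpos (by linarith)]; ring
    rw [a1, a2]
    have a3 : (1 - σ) * |k.arg| ≤ (1 - σ) * θ := mul_le_mul_of_nonneg_left hk (by linarith)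
    have a4 : (1 + τ) * |(1 + w).arg| ≤ (1 + τ) * (σ * θ) :=
      mul_le_mul_of_nonneg_left hψ (by linarith)
    nlinarith
  rw [e, Complex.norm_exp, Complex.exp_re, mul_comm]
  apply mul_le_mul_of_nonneg_left _ (Real.exp_pos _).le
  rw [← Real.cos_abs A.im]
  exact Real.cos_le_cos_of_nonneg_of_le_pi (abs_nonneg _) (by linarith [Real.pi_pos]) hab

theorem one_le_norm {k : ℂ} {σ θ : ℝ} (hσ0 : 0 < σ) (hσ1 : σ ≤ 1) (hr : 0 < k.re)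
    (hk : |k.arg| ≤ θ) : 1 ≤ ‖1 + k ^ (σ : ℂ)‖ := by
  have h := (pow_sector hσ0 hσ1 hr hk).1
  have h2 : 1 ≤ (1 + k ^ (σ : ℂ)).re := by simp; linarith
  exact h2.trans (Complex.re_le_norm _)

theorem norm_low {k : ℂ} {σ τ θ : ℝ} (hσ0 : 0 < σ) (hσ1 : σ ≤ 1) (hτ1 : τ ≤ 1)
    (hr : 0 < k.re) (hk : |k.arg| ≤ θ) :
    ‖k‖ ^ (σ - 1) * (1 + ‖k‖) ^ (-2 : ℝ) ≤ 4 * ‖fac σ τ k‖ := by
  rw [norm_fac]
  have h1 := one_le_norm hσ0 hσ1 hr hk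
  have hn : 0 < ‖k‖ := norm_pos_iff.2 (re_ne hr)
  have h2 : ‖1 + k ^ (σ : ℂ)‖ ≤ 2 * (1 + ‖k‖) := by
    refine (norm_add_le _ _).trans ?_
    rw [norm_one, Complex.norm_cpow_real]
    have : ‖k‖ ^ σ ≤ (1 + ‖k‖) ^ σ := Real.rpow_le_rpow hn.le (by linarith) hσ0.le
    have h3 : (1 + ‖k‖) ^ σ ≤ (1 + ‖k‖) ^ (1 : ℝ) :=
      Real.rpow_le_rpow_of_exponent_le (by linarith) hσ1
    rw [Real.rpow_one] at h3
    linarith
  have h4 : (2 * (1 + ‖k‖)) ^ (-2 : ℝ) ≤ ‖1 + k ^ (σ : ℂ)‖ ^ (-τ - 1) := by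
    have q1 : (2 * (1 + ‖k‖)) ^ (-2 : ℝ) ≤ ‖1 + k ^ (σ : ℂ)‖ ^ (-2 : ℝ) :=
      Real.rpow_le_rpow_of_nonpos (by linarith) h2 (by norm_num)
    have q2 : ‖1 + k ^ (σ : ℂ)‖ ^ (-2 : ℝ) ≤ ‖1 + k ^ (σ : ℂ)‖ ^ (-τ - 1) :=
      Real.rpow_le_rpow_of_exponent_le h1 (by linarith)
    exact q1.trans q2
  rw [Real.mul_rpow (by norm_num) (by positivity)] at h4
  have h5 : (2 : ℝ) ^ (-2 : ℝ) = 1 / 4 := by
    rw [Real.rpow_neg (by norm_num)]; norm_num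
  rw [h5] at h4
  have h6 : (1 + ‖k‖) ^ (-2 : ℝ) ≤ 4 * ‖1 + k ^ (σ : ℂ)‖ ^ (-τ - 1) := by linarith
  calc ‖k‖ ^ (σ - 1) * (1 + ‖k‖) ^ (-2 : ℝ)
      ≤ ‖k‖ ^ (σ - 1) * (4 * ‖1 + k ^ (σ : ℂ)‖ ^ (-τ - 1)) :=
        mul_le_mul_of_nonneg_left h6 (by positivity)
    _ = _ := by ring

/-- the function `u = -(1 + k ^ σ) ^ (-τ)` -/
noncomputable def uu (σ τ : ℝ) (k : ℂ) : ℂ := -(1 + k ^ (σ : ℂ)) ^ (-(τ : ℂ))

theorem norm_uu {k : ℂ} {σ τ θ : ℝ} (hσ0 : 0 < σ) (hσ1 : σ ≤ 1) (hτ : 0 < τ)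
    (hr : 0 < k.re) (hk : |k.arg| ≤ θ) : ‖uu σ τ k‖ ≤ 1 := by
  unfold uu
  have e2 : (-(τ : ℂ)) = ((-τ : ℝ) : ℂ) := by push_cast; ring
  rw [norm_neg, e2, Complex.norm_cpow_real]
  exact Real.rpow_le_one_of_one_le_of_nonpos (one_le_norm hσ0 hσ1 hr hk) (by linarith)

theorem hasDeriv_uu {k : ℂ → ℂ} {k' z : ℂ} {σ τ θ : ℝ} (hσ0 : 0 < σ) (hσ1 : σ ≤ 1)
    (hr : 0 < (k z).re) (hk : |(k z).arg| ≤ θ) (hd : HasDerivAt k k' z) :
    HasDerivAt (fun z => uu σ τ (k z)) ((τ * σ : ℝ) * (fac σ τ (k z) * k')) z := by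
  have h1 := hd.cpow_const (c := (σ : ℂ)) (Complex.mem_slitPlane_iff.2 (Or.inl hr))
  have h2 := h1.const_add 1
  have h3 : 0 < (1 + k z ^ (σ : ℂ)).re := by
    have := (pow_sector hσ0 hσ1 hr hk).1
    simp; linarith
  have h4 := (h2.cpow_const (c := -(τ : ℂ)) (Complex.mem_slitPlane_iff.2 (Or.inl h3))).neg
  refine HasDerivAt.congr_deriv h4 ?_
  unfold fac
  push_cast
  ring

end SlkL

end Pool.Agent.Helper59K9.CY
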