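import Pool.Agent.Helper59K9.CY.Defs

/-!
Statements of the leaves of the proof of MP_53dd33_an (positive direction).
-/

set_option autoImplicit false

open MeasureTheory Metric Filter Topology ComplexConjugate

namespace Pool.Agent.Helper59K9.CY

/-- coefficients of the derivative -/
def S_DCO : Prop :=
  (∀ u : ℂ → ℂ, DifferentiableOn ℂ u (ball 0 1) ↔ ∃ a, Co u a) ∧
  (∀ (u : ℂ → ℂ) (a b : ℕ → ℂ), Co u a → Co u b → a = b) ∧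
  ∀ (u : ℂ → ℂ) (a : ℕ → ℂ), Co u a → Co (deriv u) (fun n => ((n : ℂ) + 1) * a (n + 1))

/-- Parseval, `L²` norm -/
def S_PARL : Prop :=
  ∀ β : ℝ, 0 ≤ β → ∀ (u : ℂ → ℂ) (a : ℕ → ℂ), Co u a →
    ∫⁻ z, ENNReal.ofReal (‖u z‖ ^ 2) ∂(mu β) =
      ∑' n : ℕ, ENNReal.ofReal (Real.pi * B β n * ‖a n‖ ^ 2)

/-- Parseval, bilinear, for functions analytic across the closed disc -/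
def S_PAR : Prop :=
  ∀ β : ℝ, 0 ≤ β → ∀ (R : ℝ) (u v : ℂ → ℂ) (a b : ℕ → ℂ), 1 < R →
    DifferentiableOn ℂ u (ball 0 R) → DifferentiableOn ℂ v (ball 0 R) → Co u a → Co v b →
    HasSum (fun n : ℕ => ((Real.pi * B β n : ℝ) : ℂ) * (a n * conj (b n)))
      (∫ z, u z * conj (v z) ∂(mu β))

/-- `c n^(-1-β) ≤ B ≤ C n^(-1-β)` and the recursion -/
def S_BET : Prop :=
  ∀ β : ℝ, 0 ≤ β → β < 1 →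
    B β 0 = 1 / (β + 1) ∧
    (∀ n : ℕ, B β (n + 1) * ((n : ℝ) + β + 2) = B β n * ((n : ℝ) + 1)) ∧
    ∃ c C : ℝ, 0 < c ∧ 0 < C ∧ ∀ n : ℕ,
      c * ((n : ℝ) + 1) ^ (-1 - β) ≤ B β n ∧ B β n ≤ C * ((n : ℝ) + 1) ^ (-1 - β)

/-- equivalence of norms -/
def S_NORM : Prop :=
  ∀ β : ℝ, 0 ≤ β → β < 1 → ∃ c C : ℝ, 0 < c ∧ 0 < C ∧ ∀ (u : ℂ → ℂ) (a : ℕ → ℂ), Co u a →
    ENNReal.ofReal c * nrm (1 - β) a ≤ ENNReal.ofReal (‖a 0‖ ^ 2) + En β u ∧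
    ENNReal.ofReal (‖a 0‖ ^ 2) + En β u ≤ ENNReal.ofReal C * nrm (1 - β) a

/-- multiplication by a function analytic across the closed disc -/
def S_CLM : Prop :=
  ∀ α : ℝ, 0 ≤ α → α ≤ 1 → ∀ (f φ m : ℂ → ℂ) (R : ℝ), InD α f → Cl α f φ → 1 < R →
    DifferentiableOn ℂ m (ball 0 R) → Cl α f (fun z => m z * φ z)

/-- bounded pointwise limits -/
def S_CLW : Prop :=
  ∀ β : ℝ, 0 ≤ β → β < 1 → ∀ (f : ℂ → ℂ) (φ : ℕ → ℂ → ℂ) (ψ : ℂ → ℂ) (M : ENNReal), M ≠ ⊤ →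
    InD (1 - β) f → (∀ i, DifferentiableOn ℂ (φ i) (ball 0 1)) → (∀ i, Cl (1 - β) f (φ i)) →
    (∀ i, ENNReal.ofReal (‖φ i 0‖ ^ 2) + En β (φ i) ≤ M) →
    (∀ z : ℂ, ‖z‖ < 1 → Tendsto (fun i => φ i z) atTop (𝓝 (ψ z))) →
    Cl (1 - β) f ψ ∧ InD (1 - β) ψ ∧ DifferentiableOn ℂ ψ (ball 0 1)

/-- multiplication by a bounded function of finite energy -/
def S_CLB : Prop :=
  ∀ β : ℝ, 0 ≤ β → β < 1 → ∀ (f φ u : ℂ → ℂ) (M : ℝ), InD (1 - β) f →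
    DifferentiableOn ℂ φ (ball 0 1) → DifferentiableOn ℂ u (ball 0 1) →
    (∀ z : ℂ, ‖z‖ < 1 → ‖φ z‖ ≤ M ∧ ‖u z‖ ≤ M) → En β φ ≠ ⊤ → En β u ≠ ⊤ →
    Cl (1 - β) f φ → Cl (1 - β) f (fun z => u z * φ z)

/-- dilations -/
def S_DIL : Prop :=
  ∀ β : ℝ, 0 ≤ β → β < 1 → ∀ u : ℂ → ℂ, DifferentiableOn ℂ u (ball 0 1) → ∀ ρ : ℝ, 0 < ρ → ρ < 1 →
    ∫⁻ z, ENNReal.ofReal (‖u z - u (ρ * z)‖ ^ 2) ∂(mu β) ≤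
      ENNReal.ofReal ((1 - ρ) ^ 2) * En β u

/-- the power kernel -/
def S_KER1 : Prop :=
  ∀ β : ℝ, 0 < β → β < 1 → Ker β (2 / β) (fun ζ => (1 - ζ) ^ (-(β : ℂ)))

/-- the logarithmic kernel -/
def S_KER0 : Prop :=
  ∀ p : ℝ, 2 < p → ∃ c : ℝ, Ker 0 p (fun ζ => (c : ℂ) - Complex.log (1 - ζ))

/-- energy of a potential -/
def S_SLK : Prop :=
  ∀ (β p σ : ℝ) (K : ℂ → ℂ), 0 ≤ β → β < 1 → 2 < p → 0 < σ → σ ≤ 1 → Ker β p K →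
    ∃ C : ℝ, 0 < C ∧ ∀ (s : Finset ℂ) (x : ℂ → ℝ), (∀ w ∈ s, ‖w‖ < 1 ∧ 0 ≤ x w) →
    0 < ∑ w ∈ s, x w →
    ∫⁻ z, ENNReal.ofReal (‖deriv (pot K s x) z‖ ^ 2 * ‖pot K s x z‖ ^ (σ - 1) *
      (1 + ‖pot K s x z‖) ^ (-2 : ℝ)) ∂(mu β) ≤ ENNReal.ofReal (C * ∑ w ∈ s, x w)

/-- energy of a limit potential -/
def S_SLKL : Prop :=
  ∀ (β p σ : ℝ) (K : ℂ → ℂ), 0 ≤ β → β < 1 → 2 < p → 0 < σ → σ ≤ 1 → Ker β p K →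
    ∃ C : ℝ, 0 < C ∧ ∀ (c : ℝ) (k : ℂ → ℂ), LP K c k → (∀ z : ℂ, ‖z‖ < 1 → 0 < (k z).re) →
    ∫⁻ z, ENNReal.ofReal (‖deriv k z‖ ^ 2 * ‖k z‖ ^ (σ - 1) *
      (1 + ‖k z‖) ^ (-2 : ℝ)) ∂(mu β) ≤ ENNReal.ofReal (C * c)

/-- basic properties of limit potentials -/
def S_LPB : Prop :=
  ∀ (β p : ℝ) (K : ℂ → ℂ), 0 ≤ β → β < 1 → 2 < p → Ker β p K →
    (∃ C : ℝ, 0 < C ∧ ∀ (c : ℝ) (k : ℂ → ℂ), LP K c k → 0 ≤ c ∧ ∀ z : ℂ, ‖z‖ < 1 →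
      |(k z).im| ≤ Real.tan (Real.pi / p) * (k z).re ∧ 0 ≤ (k z).re ∧
      ‖k z‖ ≤ C * (k z).re ∧ ‖deriv k z‖ * (1 - ‖z‖) ≤ C * ‖k z‖) ∧
    (∀ r : ℝ, r < 1 → ∃ M : ℝ, 0 < M ∧ ∀ (c : ℝ) (k : ℂ → ℂ), LP K c k → ∀ z : ℂ, ‖z‖ ≤ r →
      ‖k z‖ ≤ M * c ∧ ‖deriv k z‖ ≤ M * c) ∧
    (∀ (c ρ : ℝ) (k : ℂ → ℂ), 0 < ρ → ρ < 1 → LP K c k → LP K c (fun z => k (ρ * z)))

/-- sums of limit potentials -/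
def S_LPS : Prop :=
  ∀ (β p : ℝ) (K : ℂ → ℂ), 0 ≤ β → β < 1 → 2 < p → Ker β p K →
    (∀ c : ℝ, 0 ≤ c → LP K c (fun _ => (c : ℂ) * K 0)) ∧
    (∀ (c r : ℝ) (k : ℂ → ℂ), 0 ≤ r → LP K c k → LP K (r * c) (fun z => (r : ℂ) * k z)) ∧
    (∀ (c d : ℝ) (k l : ℂ → ℂ), LP K c k → LP K d l → LP K (c + d) (fun z => k z + l z)) ∧
    ∀ (c : ℕ → ℝ) (k : ℕ → ℂ → ℂ), (∀ j, LP K (c j) (k j)) → Summable c →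
      LP K (∑' j, c j) (fun z => ∑' j, k j z) ∧
      ∀ z : ℂ, ‖z‖ < 1 → Summable (fun j => k j z) ∧
        HasSum (fun j => deriv (k j) z) (deriv (fun z => ∑' j, k j z) z)

/-- `C0` bounds equilibrium potentials of finite sets -/
def Eq0 (K : ℂ → ℂ) (C0 : ℝ) : Prop :=
  ∀ s : Finset ℂ, (∀ w ∈ s, ‖w‖ < 1) → ∃ x : ℂ → ℝ, (∀ w ∈ s, 0 ≤ x w) ∧
    (∀ z ∈ s, 1 ≤ (pot K s x z).re) ∧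
    ∀ z : ℂ, ‖z‖ < 1 → ∑ w ∈ s, x w * ‖K (z * conj w)‖ ≤ C0

/-- equilibrium potentials of finite sets -/
def S_EQF : Prop :=
  ∀ (β p : ℝ) (K : ℂ → ℂ), 2 < p → Ker β p K → ∃ C0 : ℝ, 0 < C0 ∧ Eq0 K C0

/-- Hansson's inequality -/
def S_HANS : Prop :=
  ∀ (β p : ℝ) (K : ℂ → ℂ), 0 ≤ β → β < 1 → 2 < p → Ker β p K → ∀ (C0 : ℝ) (f g : ℂ → ℂ),
    0 < C0 → InD (1 - β) f → InD (1 - β) g →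
    ∃ C1 : ℝ, ∀ (J : ℕ) (s : ℕ → Finset ℂ) (x : ℕ → ℂ → ℝ),
      (∀ j < J, ∀ w ∈ s j, ‖w‖ < 1 ∧ 0 ≤ x j w ∧ (2 : ℝ) ^ j ≤ ‖f w‖ + ‖g w‖) →
      (∀ j < J, ∀ z : ℂ, ‖z‖ < 1 → ∑ w ∈ s j, x j w * ‖K (z * conj w)‖ ≤ C0) →
      ∑ j ∈ Finset.range J, (4 : ℝ) ^ j * ∑ w ∈ s j, x j w ≤ C1

/-- equilibrium potentials of arbitrary sets -/
def S_EXI : Prop :=
  ∀ (β p : ℝ) (K : ℂ → ℂ), 0 ≤ β → β < 1 → 2 < p → Ker β p K → ∀ C0 : ℝ, 0 < C0 → Eq0 K C0 →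
    ∀ (E : Set ℂ) (c : ℝ), E ⊆ ball 0 1 →
    (∀ (s : Finset ℂ) (x : ℂ → ℝ), (∀ w ∈ s, w ∈ E ∧ 0 ≤ x w) →
      (∀ z : ℂ, ‖z‖ < 1 → ∑ w ∈ s, x w * ‖K (z * conj w)‖ ≤ C0) → ∑ w ∈ s, x w ≤ c) →
    ∃ κ : ℂ → ℂ, LP K c κ ∧ (∀ z : ℂ, ‖z‖ < 1 → ‖κ z‖ ≤ C0) ∧ ∀ z ∈ E, 1 ≤ (κ z).re

/-- the level potentials of `|f| + |g|` -/
def Lev (K : ℂ → ℂ) (f g : ℂ → ℂ) (κ : ℕ → ℂ → ℂ) (c : ℕ → ℝ) (C0 : ℝ) : Prop :=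
  0 < C0 ∧ (∀ j, LP K (c j) (κ j)) ∧ Summable (fun j => (4 : ℝ) ^ j * c j) ∧
  (∀ j, ∀ z : ℂ, ‖z‖ < 1 → ‖κ j z‖ ≤ C0 ∧ 0 < (κ j z).re) ∧
  ∀ j, ∀ z : ℂ, ‖z‖ < 1 → (2 : ℝ) ^ j ≤ ‖f z‖ + ‖g z‖ → 1 ≤ (κ j z).re

/-- existence of the level potentials -/
def S_LEV : Prop :=
  ∀ (β p : ℝ) (K : ℂ → ℂ), 0 ≤ β → β < 1 → 2 < p → Ker β p K → ∀ f g : ℂ → ℂ,
    InD (1 - β) f → InD (1 - β) g → ∃ κ c C0, Lev K f g κ c C0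

/-- a bounded `f / (1 + k)` -/
def S_ST1 : Prop :=
  ∀ (β p : ℝ) (K : ℂ → ℂ), 0 ≤ β → β < 1 → 2 < p → Ker β p K → ∀ (f k : ℂ → ℂ) (c C : ℝ),
    InD (1 - β) f → LP K c k → (∀ z : ℂ, ‖z‖ < 1 → ‖f z‖ ^ 2 ≤ C * (1 + (k z).re)) →
    Cl (1 - β) f (fun z => f z / (1 + k z)) ∧ InD (1 - β) (fun z => f z / (1 + k z))

/-- one level: `h = A κ ^ (p / 2) - κ ^ p` -/
def S_HJ : Prop :=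
  ∀ p C0 : ℝ, 2 < p → 0 < C0 → ∃ C : ℝ, 0 < C ∧ ∀ κ : ℂ → ℂ, DifferentiableOn ℂ κ (ball 0 1) →
    (∀ z : ℂ, ‖z‖ < 1 → ‖κ z‖ ≤ C0 ∧ 0 < (κ z).re ∧
      |(κ z).im| ≤ Real.tan (Real.pi / p) * (κ z).re) →
    ∃ h : ℂ → ℂ, DifferentiableOn ℂ h (ball 0 1) ∧ ∀ z : ℂ, ‖z‖ < 1 →
      ‖κ z‖ ^ p ≤ (h z).re ∧ ‖h z‖ ≤ C * ‖κ z‖ ^ (p / 2) ∧
      ‖deriv h z‖ ≤ C * ‖κ z‖ ^ (p / 2 - 1) * ‖deriv κ z‖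

/-- the inequality for the sums over the levels -/
def S_SQ : Prop :=
  ∀ p σ : ℝ, 2 < p → 0 < σ → σ ≤ 1 → σ ≤ p - 2 → ∀ (s : Finset ℕ) (a x : ℕ → ℝ),
    (∀ j ∈ s, 0 < a j ∧ 0 ≤ x j) →
    (∑ j ∈ s, a j ^ (p / 2 - 1) * x j) ^ 2 ≤
      (1 + ∑ j ∈ s, a j) ^ (p + 1) *
        ∑ j ∈ s, x j ^ 2 * a j ^ (σ - 1) * (1 + a j) ^ (-2 : ℝ)

/-- the functions `k`, `h` and their truncations -/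
def S_ENG : Prop :=
  ∀ (β p : ℝ) (K : ℂ → ℂ), 0 ≤ β → β < 1 → 2 < p → Ker β p K →
    ∀ (f g : ℂ → ℂ) (κ : ℕ → ℂ → ℂ) (c : ℕ → ℝ) (C0 : ℝ), Lev K f g κ c C0 →
    ∃ (k h : ℂ → ℂ) (kn hn : ℕ → ℂ → ℂ) (c' C : ℝ) (b0 : ℕ), 0 < C ∧ LP K c' k ∧
      DifferentiableOn ℂ h (ball 0 1) ∧
      (∀ n, DifferentiableOn ℂ (kn n) (ball 0 1) ∧ DifferentiableOn ℂ (hn n) (ball 0 1)) ∧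
      (∀ n, ∃ M : ℝ, ∀ z : ℂ, ‖z‖ < 1 → ‖kn n z‖ ≤ M ∧ ‖hn n z‖ ≤ M) ∧
      (∀ z, hn 0 z = 0) ∧
      (∀ z : ℂ, ‖z‖ < 1 → Tendsto (fun n => kn n z) atTop (𝓝 (k z)) ∧
        Tendsto (fun n => hn n z) atTop (𝓝 (h z))) ∧
      (∀ n, ∀ z : ℂ, ‖z‖ < 1 → 0 ≤ (h z - hn n z).re ∧ 0 ≤ (k z).re ∧ 0 ≤ (kn n z).re ∧
        ‖1 + kn n z‖ ≤ C * ‖1 + k z‖) ∧
      (∀ j, ∀ z : ℂ, ‖z‖ < 1 → 1 ≤ (κ j z).re →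
        (2 : ℝ) ^ (p * j) ≤ (h z).re ∧ (4 : ℝ) ^ j ≤ (k z).re) ∧
      (∀ b : ℕ, b0 ≤ b → ∀ a : ℝ, 0 ≤ a → ∃ M : ENNReal, M ≠ ⊤ ∧ ∀ n,
        En β (fun z => Complex.exp (-(a : ℂ) * (h z - hn n z)) / (1 + k z) ^ b) ≤ M) ∧
      (∀ b : ℕ, ∃ M : ENNReal, M ≠ ⊤ ∧ ∀ n,
        En β (fun z => ((1 + kn n z) / (1 + k z)) ^ b) ≤ M) ∧
      ∀ (n b : ℕ) (a : ℝ), En β (fun z => Complex.exp ((a : ℂ) * hn n z)) ≠ ⊤ ∧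
        En β (fun z => (1 + kn n z) ^ b) ≠ ⊤

/-- the positive direction -/
def S_POS : Prop :=
  ∀ (β p : ℝ) (K : ℂ → ℂ), 0 ≤ β → β < 1 → 2 < p → Ker β p K → ∀ f g L : ℂ → ℂ,
    InD (1 - β) f → InD (1 - β) g →
    (∀ z : ℂ, ‖z‖ < 1 → Complex.exp (L z) = f z ∧ ‖L z‖ ≤ 1 + ‖g z‖ ^ p) →
    Cl (1 - β) f (fun _ => 1)

/-- the counterexample -/
def S_NEG : Prop :=
  ∀ α t : ℝ, 0 < α → α < 1 → 0 < t → 2 * t < 1 - α → ∃ f L g : ℂ → ℂ,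
    InD α f ∧ InD α g ∧
    DifferentiableOn ℂ L (ball 0 1) ∧
    (∀ z : ℂ, ‖z‖ < 1 → Complex.exp (L z) = f z ∧ L z ≠ 0 ∧
      ∃ l : ℂ, Complex.exp l = L z ∧ g z = Complex.exp (t * l)) ∧
    ¬ Cl α f (fun _ => 1)

end Pool.Agent.Helper59K9.CY
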